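import Pool.Agent.Lib.MP_635d71_ag.Fr.Spec

/-!
# Free largest factor: more tangent spaces
-/

set_option autoImplicit false

open Module Submodule

namespace Pool.Agent.Lib.MP_635d71_ag.Fr

/-- more tangent spaces -/
theorem pAdd : S_Add := by
  intro K _ s l n n' r m hn hr h
  obtain ⟨A, x, z, hA, hm⟩ := h
  obtain ⟨A', hAA', -, hA'⟩ := Finset.exists_subsuperset_card_eq (s := A) (t := Finset.univ)
    (Finset.subset_univ A) (n := n') (by rw [hA]; exact hn)
    (by rw [Finset.card_univ, Fintype.card_fin]; exact hr)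
  refine ⟨A', x, z, hA', hm.trans (Submodule.finrank_mono ?_)⟩
  refine sup_le_sup le_rfl ?_
  exact biSup_mono fun a ha => hAA' ha

end Pool.Agent.Lib.MP_635d71_ag.Fr
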