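import Pool.Agent.Lib.MP_635d71_ag.Fr.Spec

/-!
# Free largest factor: the cardinality of an arc (helper98)
-/

set_option autoImplicit false

open Module Submodule

namespace Pool.Agent.Lib.MP_635d71_ag.Fr

theorem pArcCard : S_ArcCard := by
  classical
  intro L c n i hc hL
  set a : ℕ := i.val * c / n with ha
  have hpos : 0 < c := hc
  have h1 : arc L c n i = (Finset.range L).image
      (fun x : ℕ => (⟨(a + x) % c, Nat.mod_lt _ hpos⟩ : Fin c)) := by
    ext t
    simp only [arc, Finset.mem_filter, Finset.mem_univ, true_and, Finset.mem_image,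
      Finset.mem_range]
    constructor
    · rintro ⟨x, hx, hxt⟩
      exact ⟨x, hx, Fin.ext hxt.symm⟩
    · rintro ⟨x, hx, hxt⟩
      exact ⟨x, hx, (congrArg Fin.val hxt).symm⟩
  rw [h1, Finset.card_image_of_injOn, Finset.card_range]
  intro x hx y hy hxy
  rw [Finset.coe_range, Set.mem_Iio] at hx hy
  have h2 : (a + x) % c = (a + y) % c := congrArg Fin.val hxy
  have h3 : x % c = y % c := Nat.ModEq.add_left_cancel' a h2
  rwa [Nat.mod_eq_of_lt (lt_of_lt_of_le hx hL), Nat.mod_eq_of_lt (lt_of_lt_of_le hy hL)] at h3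

end Pool.Agent.Lib.MP_635d71_ag.Fr
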