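import Pool.Agent.Lib.MP_635d71_ag.Fr.Spec

/-!
# Free largest factor: the number of the arcs through a point (helper36)
-/

set_option autoImplicit false

open Module Submodule

namespace Pool.Agent.Lib.MP_635d71_ag.Fr

namespace ArcDegAux

/-- The number of the arcs which start before `m`. -/
def N (c n m : ℕ) : ℕ := (Finset.univ.filter fun i : Fin n => i.val * c / n < m).card

theorem cnt (c n m : ℕ) (hc : 1 ≤ c) (hn : 1 ≤ n) (hm : m ≤ c) :
    m * n ≤ N c n m * c ∧ N c n m * c < m * n + c := by
  classical
  set k : ℕ := (m * n + (c - 1)) / c with hk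
  have hk1 : k * c ≤ m * n + (c - 1) := Nat.div_mul_le_self _ _
  have hk2 : m * n + (c - 1) < (k + 1) * c := by
    have h := Nat.lt_div_mul_add (a := m * n + (c - 1)) (b := c) (by omega)
    rw [← hk] at h
    linarith [h, add_mul k 1 c]
  have hkn : k ≤ n := by
    by_contra hcon
    have h1 : (n + 1) * c ≤ k * c := Nat.mul_le_mul_right c (by omega)
    have h2 : m * n ≤ n * c := by rw [mul_comm]; exact Nat.mul_le_mul_left n hm
    have h3 : (n + 1) * c = n * c + c := by ring
    omega
  have hN : N c n m = k := by
    have h1 : (Finset.univ.filter fun i : Fin n => i.val * c / n < m)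
        = Finset.univ.image (Fin.castLE hkn) := by
      ext i
      simp only [Finset.mem_filter, Finset.mem_univ, true_and, Finset.mem_image]
      rw [Nat.div_lt_iff_lt_mul (by omega : 0 < n)]
      constructor
      · intro h
        have h5 : i.val < k := by
          by_contra hcon
          have h6 : k * c ≤ i.val * c := Nat.mul_le_mul_right c (by omega)
          have h7 : (k + 1) * c = k * c + c := by ring
          omega
        exact ⟨⟨i.val, h5⟩, Fin.ext rfl⟩
      · rintro ⟨j, rfl⟩
        have h6 : (j.val + 1) * c ≤ k * c := Nat.mul_le_mul_right c (by have := j.isLt; omega)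
        have h7 : (j.val + 1) * c = j.val * c + c := by ring
        have h8 : (Fin.castLE hkn j).val = j.val := rfl
        rw [h8]
        omega
    rw [N, h1, Finset.card_image_of_injective _ (Fin.castLE_injective hkn), Finset.card_univ,
      Fintype.card_fin]
  rw [hN]
  have h7 : (k + 1) * c = k * c + c := by ring
  constructor <;> omega

theorem cntn (c n : ℕ) (hc : 1 ≤ c) : N c n c = n := by
  classical
  have h1 : (Finset.univ.filter fun i : Fin n => i.val * c / n < c) = Finset.univ := by
    ext i
    simp only [Finset.mem_filter, Finset.mem_univ, true_and, iff_true]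
    have hi := i.isLt
    rw [Nat.div_lt_iff_lt_mul (by omega : 0 < n), mul_comm]
    exact Nat.mul_lt_mul_of_pos_left hi (by omega)
  rw [N, h1, Finset.card_univ, Fintype.card_fin]

theorem mono (c n a b : ℕ) (h : a ≤ b) :
    (Finset.univ.filter fun i : Fin n => a ≤ i.val * c / n ∧ i.val * c / n < b).card + N c n a
      = N c n b := by
  classical
  rw [N, N, ← Finset.card_union_of_disjoint]
  · congr 1
    ext i
    simp only [Finset.mem_union, Finset.mem_filter, Finset.mem_univ, true_and]
    omega
  · rw [Finset.disjoint_left]
    intro i hi hi'
    simp only [Finset.mem_filter, Finset.mem_univ, true_and] at hi hi'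
    omega

theorem lt_c (c n : ℕ) (hc : 1 ≤ c) (i : Fin n) : i.val * c / n < c := by
  have hi := i.isLt
  rw [Nat.div_lt_iff_lt_mul (by omega : 0 < n), mul_comm]
  exact Nat.mul_lt_mul_of_pos_left hi (by omega)

theorem mem (L c n : ℕ) (hL : L ≤ c) (hc : 1 ≤ c) (t : Fin c) (i : Fin n) :
    t ∈ arc L c n i ↔ (i.val * c / n ≤ t.val ∧ t.val < i.val * c / n + L) ∨
      t.val + c < i.val * c / n + L := by
  have ha := lt_c c n hc i
  have ht := t.isLt
  simp only [arc, Finset.mem_filter, Finset.mem_univ, true_and]
  generalize i.val * c / n = a at ha ⊢
  constructor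
  · rintro ⟨x, hx, h⟩
    rcases Nat.lt_or_ge (a + x) c with h1 | h1
    · rw [Nat.mod_eq_of_lt h1] at h
      left
      omega
    · rw [Nat.mod_eq_sub_mod h1, Nat.mod_eq_of_lt (by omega)] at h
      right
      omega
  · rintro (⟨h1, h2⟩ | h1)
    · refine ⟨t.val - a, by omega, ?_⟩
      rw [show a + (t.val - a) = t.val by omega, Nat.mod_eq_of_lt ht]
    · refine ⟨t.val + c - a, by omega, ?_⟩
      rw [show a + (t.val + c - a) = t.val + c by omega, Nat.add_mod_right, Nat.mod_eq_of_lt ht]

end ArcDegAux

open ArcDegAux in
theorem pArcDeg : S_ArcDeg := by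
  classical
  intro L c n t hn hL
  have ht := t.isLt
  have hc : 1 ≤ c := by omega
  rcases Nat.lt_or_ge t.val L with h | h
  · rcases Nat.eq_or_lt_of_le (Nat.succ_le_of_lt h) with h0 | h0
    · have h1 : deg (arc L c n) t = N c n (t.val + 1) := by
        rw [deg, N]
        congr 1
        ext i
        simp only [Finset.mem_filter, Finset.mem_univ, true_and]
        rw [mem L c n hL hc t i]
        have ha := lt_c c n hc i
        generalize i.val * c / n = a at ha ⊢
        omega
      rw [h1]
      have h2 := cnt c n (t.val + 1) hc hn (by omega)
      have h3 : (t.val + 1) * n = n * L := by rw [mul_comm, show t.val + 1 = L from h0]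
      omega
    · have h1 : deg (arc L c n) t + N c n (t.val + 1 + (c - L)) = N c n (t.val + 1) + n := by
        have h2 := mono c n (t.val + 1 + (c - L)) c (by omega)
        rw [cntn c n hc] at h2
        have h3 : deg (arc L c n) t = N c n (t.val + 1) + (Finset.univ.filter fun i : Fin n =>
            t.val + 1 + (c - L) ≤ i.val * c / n ∧ i.val * c / n < c).card := by
          rw [deg, N, ← Finset.card_union_of_disjoint]
          · congr 1
            ext i
            simp only [Finset.mem_union, Finset.mem_filter, Finset.mem_univ, true_and]
            rw [mem L c n hL hc t i]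
            have ha := lt_c c n hc i
            generalize i.val * c / n = a at ha ⊢
            omega
          · rw [Finset.disjoint_left]
            intro i hi hi'
            simp only [Finset.mem_filter, Finset.mem_univ, true_and] at hi hi'
            omega
        omega
      have h4 := cnt c n (t.val + 1) hc hn (by omega)
      have h5 := cnt c n (t.val + 1 + (c - L)) hc hn (by omega)
      have h6 := congrArg (fun x => x * c) h1
      simp only [add_mul] at h6 h4 h5
      have h7 : (c - L) * n + n * L = n * c := by
        rw [mul_comm (c - L) n, ← mul_add]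
        congr 1
        omega
      omega
  · have h1 : deg (arc L c n) t + N c n (t.val + 1 - L) = N c n (t.val + 1) := by
      rw [← mono c n (t.val + 1 - L) (t.val + 1) (by omega)]
      congr 1
      rw [deg]
      congr 1
      ext i
      simp only [Finset.mem_filter, Finset.mem_univ, true_and]
      rw [mem L c n hL hc t i]
      have ha := lt_c c n hc i
      generalize i.val * c / n = a at ha ⊢
      omega
    have h4 := cnt c n (t.val + 1) hc hn (by omega)
    have h5 := cnt c n (t.val + 1 - L) hc hn (by omega)
    have h6 := congrArg (fun x => x * c) h1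
    simp only [add_mul] at h6
    have h7 : (t.val + 1 - L) * n + n * L = (t.val + 1) * n := by
      rw [mul_comm (t.val + 1 - L) n, ← mul_add, mul_comm (t.val + 1) n]
      congr 1
      omega
    omega

end Pool.Agent.Lib.MP_635d71_ag.Fr
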