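import Pool.Agent.Lib.MP_635d71_ag.Fr.Spec

/-!
# Free largest factor: blocks in an arc
-/

set_option autoImplicit false

open Module Submodule

namespace Pool.Agent.Lib.MP_635d71_ag.Fr

/-- Three consecutive blocks of length `R` in a cyclic interval of length `M`. -/
theorem pBlk : S_Blk := by
  intro c R M g hR hM hc hg
  by_cases h : 3 * R + c ≤ g + M
  · refine ⟨0, by omega, fun t _ ht => ⟨t + c - g, by omega, ?_⟩⟩
    have h1 : g + (t + c - g) = t + c := by omega
    rw [h1, Nat.add_mod_right, Nat.mod_eq_of_lt (by omega)]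
  · have h1 := Nat.div_add_mod (g + R - 1) R
    have h2 := Nat.mod_lt (g + R - 1) (show 0 < R by omega)
    refine ⟨(g + R - 1) / R, ?_, fun t ht1 ht2 => ?_⟩
    · rw [Nat.add_mul, Nat.mul_comm]
      omega
    · rw [Nat.mul_comm] at ht1
      rw [Nat.add_mul, Nat.mul_comm] at ht2
      refine ⟨t - g, by omega, ?_⟩
      have h3 : g + (t - g) = t := by omega
      rw [h3, Nat.mod_eq_of_lt (by omega)]

end Pool.Agent.Lib.MP_635d71_ag.Fr
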