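import Pool.Agent.Lib.MP_635d71_ag.Fr.Spec

/-!
# Fr/BoxE: the rank one tensor of a box
-/

set_option autoImplicit false

open Module Submodule

namespace Pool.Agent.Lib.MP_635d71_ag.Fr

theorem pBoxE : S_BoxE := by
  intro K _ l
  induction l with
  | nil =>
    intro w t g
    refine ⟨?_, Finset.mem_univ _, Finset.mem_univ _⟩
    have h : g ∈ box [] w t := Finset.mem_univ _
    rw [if_pos h]
    rfl
  | cons q l ih =>
    intro w t g
    refine ⟨?_, ?_, ?_⟩
    · have h : E (q :: l) (bpt K (q :: l) w t) g =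
          (if g.1 = w.1 ∨ g.1 = t.1 then 1 else 0) * E l (bpt K l w.2 t.2) g.2 := rfl
      have h2 : g ∈ box (q :: l) w t ↔ (g.1 = w.1 ∨ g.1 = t.1) ∧ g.2 ∈ box l w.2 t.2 := by
        change g ∈ (({w.1, t.1} : Finset (Fin q)) ×ˢ box l w.2 t.2 : Finset (Fin q × Grid l)) ↔ _
        rw [Finset.mem_product, Finset.mem_insert, Finset.mem_singleton]
      rw [h, (ih w.2 t.2 g.2).1]
      by_cases h3 : g.1 = w.1 ∨ g.1 = t.1
      · by_cases h4 : g.2 ∈ box l w.2 t.2
        · rw [if_pos h3, if_pos h4, if_pos (h2.2 ⟨h3, h4⟩), one_mul]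
        · rw [if_neg h4, if_neg (fun h5 => h4 (h2.1 h5).2), mul_zero]
      · rw [if_neg h3, if_neg (fun h5 => h3 (h2.1 h5).1), zero_mul]
    · change w ∈ (({w.1, t.1} : Finset (Fin q)) ×ˢ box l w.2 t.2 : Finset (Fin q × Grid l))
      rw [Finset.mem_product]
      exact ⟨Finset.mem_insert_self _ _, (ih w.2 t.2 w.2).2.1⟩
    · change t ∈ (({w.1, t.1} : Finset (Fin q)) ×ˢ box l w.2 t.2 : Finset (Fin q × Grid l))
      rw [Finset.mem_product]
      exact ⟨Finset.mem_insert_of_mem (Finset.mem_singleton_self _), (ih w.2 t.2 t.2).2.2⟩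

end Pool.Agent.Lib.MP_635d71_ag.Fr
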