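import Pool.Agent.Lib.MP_635d71_ag.Fr.Spec

/-!
# The boxes are small
-/

set_option autoImplicit false

open Module Submodule

namespace Pool.Agent.Lib.MP_635d71_ag.Fr

namespace BxAux

theorem lt_sg (hSg : S_Sg) {n B X : ℕ} (h1 : 1 ≤ B) (h2 : B ≤ X * X) (hn : n ≤ 16 * B)
    (i : Fin n) (d : Fin 3) : sgf X B i.val d < 16 * X := by
  have h3 := (((hSg X B i.val i.val h1 h2).1) d).2
  have h4 : i.val / B < 16 := (Nat.div_lt_iff_lt_mul (by omega)).2 (lt_of_lt_of_le i.isLt hn)
  have h5 : i.val / B * X + X ≤ 16 * X := by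
    have h6 : (i.val / B + 1) * X ≤ 16 * X := Nat.mul_le_mul_right X h4
    rwa [add_mul, one_mul] at h6
  exact lt_of_lt_of_le h3 h5

end BxAux

theorem pBx : S_LtB → S_Sg → S_Tg → S_Bx := by
  intro hLt hSg hTg s3 s1 s2 L c n B X R b0 h σ τ lam C
  have hs : ∀ i d, ltr (σ i) d < 16 * X + R := fun i d => by
    rw [C.hσ i]
    exact lt_of_lt_of_le (BxAux.lt_sg hSg C.B1 C.BX C.nB i d) (Nat.le_add_right _ _)
  have ht : ∀ a d, ltr (τ a) d < 16 * X + R := fun a d => by
    rw [C.hτ a]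
    have hR : 1 ≤ R := by
      rcases Nat.eq_zero_or_pos R with h0 | h0
      · exfalso
        have h1 := C.cR
        rw [h0] at h1
        have h2 := a.isLt
        omega
      · exact h0
    exact ((hTg (16 * X) R hR).1 a.val d).2
  refine ⟨fun i a p hp => ?_, fun i g hg a p hp => ?_⟩
  · simp only [Fset, Finset.mem_filter, Finset.mem_univ, true_and]
    intro d
    rcases (((hLt s3 s1 s2 p (σ i)).2.1 (τ a)).1 hp) d with h1 | h1
    · rw [h1]; exact hs i d
    · rw [h1]; exact ht a d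
  · obtain ⟨d, hd⟩ := ((hLt s3 s1 s2 g (σ i)).1).1 hg
    simp only [Qset, Finset.mem_filter, Finset.mem_univ, true_and]
    refine ⟨d, fun e he => ?_⟩
    rcases (((hLt s3 s1 s2 p g).2.1 (τ a)).1 hp) e with h1 | h1
    · rw [h1, hd e he]; exact hs i e
    · rw [h1]; exact ht a e

end Pool.Agent.Lib.MP_635d71_ag.Fr
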