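import Pool.Agent.Lib.MP_635d71_ag.Fr.Spec

/-!
# Boxes and concatenation
-/

set_option autoImplicit false

open Module Submodule

namespace Pool.Agent.Lib.MP_635d71_ag.Fr

namespace BxAAux

theorem mem_box_nil (w t g : Grid []) : g ∈ box [] w t := Finset.mem_univ _

theorem mem_box_cons {q : ℕ} {l : List ℕ} (w t g : Grid (q :: l)) :
    g ∈ box (q :: l) w t ↔ (g.1 = w.1 ∨ g.1 = t.1) ∧ g.2 ∈ box l w.2 t.2 := by
  have h : g ∈ box (q :: l) w t ↔
      g ∈ (({w.1, t.1} : Finset (Fin q)) ×ˢ box l w.2 t.2 : Finset (Fin q × Grid l)) := Iff.rfl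
  rw [h, Finset.mem_product, Finset.mem_insert, Finset.mem_singleton]

theorem left_mem : ∀ (l : List ℕ) (w t : Grid l), w ∈ box l w t
  | [], _, _ => mem_box_nil _ _ _
  | _ :: l, w, t => (mem_box_cons w t w).2 ⟨Or.inl rfl, left_mem l w.2 t.2⟩

theorem right_mem : ∀ (l : List ℕ) (w t : Grid l), t ∈ box l w t
  | [], _, _ => mem_box_nil _ _ _
  | _ :: l, w, t => (mem_box_cons w t t).2 ⟨Or.inr rfl, right_mem l w.2 t.2⟩

theorem box_self : ∀ (l : List ℕ) (w p : Grid l), p ∈ box l w w → p = w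
  | [], _, _, _ => rfl
  | _ :: l, w, p, h => by
    obtain ⟨h1, h2⟩ := (mem_box_cons w w p).1 h
    exact Prod.ext (h1.elim id id) (box_self l w.2 p.2 h2)

theorem box_ball : ∀ (l : List ℕ) (o o' : Grid l), o ∈ Ball l o' → ∀ p ∈ box l o o',
    p = o ∨ p = o'
  | [], _, _, _, _, _ => Or.inl rfl
  | q :: l, o, o', h, p, hp => by
    obtain ⟨h1, h2⟩ := (mem_box_cons o o' p).1 hp
    obtain ⟨j, g⟩ := o
    obtain ⟨j', g'⟩ := o'
    obtain ⟨i, x⟩ := p
    rw [mem_Ball_cons] at h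
    rcases h with ⟨e, hb⟩ | e
    · rcases box_ball l g g' hb x h2 with e2 | e2
      · exact Or.inl (Prod.ext (h1.elim id fun e1 => e1.trans e.symm) e2)
      · exact Or.inr (Prod.ext (h1.elim (fun e1 => e1.trans e) id) e2)
    · subst e
      have e2 : x = g := box_self l g x h2
      rcases h1 with e1 | e1
      · exact Or.inl (Prod.ext e1 e2)
      · exact Or.inr (Prod.ext e1 e2)

theorem box_app (z : List ℕ) : ∀ (O : List ℕ) (o o' : Grid O) (w t : Grid z) (g : Grid (O ++ z)),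
    g ∈ box (O ++ z) (app z O o w) (app z O o' t) ↔
      firstPart z O g ∈ box O o o' ∧ lastPart z O g ∈ box z w t
  | [], o, o', w, t, g => by
    constructor
    · intro h
      exact ⟨mem_box_nil _ _ _, h⟩
    · intro h
      exact h.2
  | q :: O, o, o', w, t, g => by
    have h1 : g ∈ box (q :: O ++ z) (app z (q :: O) o w) (app z (q :: O) o' t) ↔
        (g.1 = o.1 ∨ g.1 = o'.1) ∧ g.2 ∈ box (O ++ z) (app z O o.2 w) (app z O o'.2 t) :=
      mem_box_cons (l := O ++ z) _ _ _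
    have h2 : firstPart z (q :: O) g ∈ box (q :: O) o o' ↔
        (g.1 = o.1 ∨ g.1 = o'.1) ∧ firstPart z O g.2 ∈ box O o.2 o'.2 := mem_box_cons _ _ _
    rw [h1, h2, box_app z O o.2 o'.2 w t g.2, and_assoc]
    exact Iff.rfl

end BxAAux

open BxAAux in
theorem pBxA : S_BxA := fun z O o o' w t g =>
  ⟨box_app z O o o' w t g, box_ball O o o', fun p hp => box_self O o p hp, left_mem z w t,
    right_mem z w t⟩

end Pool.Agent.Lib.MP_635d71_ag.Fr
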