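import Pool.Agent.Lib.MP_635d71_ag.Fr.Spec

/-!
# Free largest factor: the numbers of words with small letters
-/

set_option autoImplicit false

open Module Submodule

namespace Pool.Agent.Lib.MP_635d71_ag.Fr

namespace CarAux

theorem card3 {s3 s1 s2 : ℕ} (C : Finset (Grid [s3, s1, s2])) (a b c : ℕ)
    (h : ∀ g ∈ C, g.1.val < a ∧ g.2.1.val < b ∧ g.2.2.1.val < c) : C.card ≤ a * (b * c) := by
  have h1 : C.card ≤ (Finset.range a ×ˢ (Finset.range b ×ˢ Finset.range c)).card := by
    refine Finset.card_le_card_of_injOn (fun g => (g.1.val, g.2.1.val, g.2.2.1.val)) ?_ ?_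
    · intro g hg
      obtain ⟨h1, h2, h3⟩ := h g hg
      exact Finset.mem_coe.2 (Finset.mem_product.2 ⟨Finset.mem_range.2 h1,
        Finset.mem_product.2 ⟨Finset.mem_range.2 h2, Finset.mem_range.2 h3⟩⟩)
    · rintro ⟨x, y, z, u⟩ - ⟨x', y', z', u'⟩ - hgg
      obtain ⟨h1, h2⟩ := Prod.ext_iff.1 hgg
      obtain ⟨h2, h3⟩ := Prod.ext_iff.1 h2
      have e1 : x = x' := Fin.ext h1
      have e2 : y = y' := Fin.ext h2
      have e3 : z = z' := Fin.ext h3
      rw [e1, e2, e3]
  rwa [Finset.card_product, Finset.card_product, Finset.card_range, Finset.card_range,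
    Finset.card_range] at h1

theorem card2 {s1 s2 : ℕ} (C : Finset (Grid [s1, s2])) (a b : ℕ)
    (h : ∀ g ∈ C, g.1.val < a ∧ g.2.1.val < b) : C.card ≤ a * b := by
  have h1 : C.card ≤ (Finset.range a ×ˢ Finset.range b).card := by
    refine Finset.card_le_card_of_injOn (fun g => (g.1.val, g.2.1.val)) ?_ ?_
    · intro g hg
      obtain ⟨h1, h2⟩ := h g hg
      exact Finset.mem_coe.2 (Finset.mem_product.2 ⟨Finset.mem_range.2 h1, Finset.mem_range.2 h2⟩)
    · rintro ⟨x, y, u⟩ - ⟨x', y', u'⟩ - hgg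
      obtain ⟨h1, h2⟩ := Prod.ext_iff.1 hgg
      have e1 : x = x' := Fin.ext h1
      have e2 : y = y' := Fin.ext h2
      rw [e1, e2]
  rwa [Finset.card_product, Finset.card_range, Finset.card_range] at h1

theorem mem_F {s3 s1 s2 A : ℕ} (g : Grid [s3, s1, s2]) : g ∈ Fset s3 s1 s2 A ↔
    g.1.val < A ∧ g.2.1.val < A ∧ g.2.2.1.val < A := by
  rw [Fset, Finset.mem_filter]
  constructor
  · rintro ⟨-, h⟩
    exact ⟨h 0, h 1, h 2⟩
  · rintro ⟨h0, h1, h2⟩
    refine ⟨Finset.mem_univ _, fun d => ?_⟩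
    fin_cases d
    · exact h0
    · exact h1
    · exact h2

theorem mem_Q {s3 s1 s2 A : ℕ} (g : Grid [s3, s1, s2]) : g ∈ Qset s3 s1 s2 A ↔
    (g.2.1.val < A ∧ g.2.2.1.val < A) ∨ (g.1.val < A ∧ g.2.2.1.val < A) ∨
      (g.1.val < A ∧ g.2.1.val < A) := by
  rw [Qset, Finset.mem_filter]
  constructor
  · rintro ⟨-, d, h⟩
    fin_cases d
    · exact Or.inl ⟨h 1 (by decide), h 2 (by decide)⟩
    · exact Or.inr (Or.inl ⟨h 0 (by decide), h 2 (by decide)⟩)
    · exact Or.inr (Or.inr ⟨h 0 (by decide), h 1 (by decide)⟩)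
  · intro h
    refine ⟨Finset.mem_univ _, ?_⟩
    rcases h with ⟨h1, h2⟩ | ⟨h1, h2⟩ | ⟨h1, h2⟩
    · refine ⟨0, fun e he => ?_⟩
      fin_cases e
      · exact absurd rfl he
      · exact h1
      · exact h2
    · refine ⟨1, fun e he => ?_⟩
      fin_cases e
      · exact h1
      · exact absurd rfl he
      · exact h2
    · refine ⟨2, fun e he => ?_⟩
      fin_cases e
      · exact h1
      · exact h2
      · exact absurd rfl he

theorem mem_slice {s3 s1 s2 A : ℕ} (j : Fin s3) (g : Grid [s1, s2]) :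
    g ∈ slice (l := [s1, s2]) (Qset s3 s1 s2 A) j ↔
    (g.1.val < A ∧ g.2.1.val < A) ∨ (j.val < A ∧ g.2.1.val < A) ∨ (j.val < A ∧ g.1.val < A) := by
  rw [slice, Finset.mem_filter]
  exact ⟨fun h => (mem_Q _).1 h.2, fun h => ⟨Finset.mem_univ _, (mem_Q _).2 h⟩⟩

end CarAux

open CarAux in
theorem pCar : S_Car := by
  intro s3 s1 s2 A
  refine ⟨?_, ?_, ?_, ?_⟩
  · have h := card3 (Fset s3 s1 s2 A) A A A (fun g hg => (mem_F g).1 hg)
    calc _ ≤ A * (A * A) := h
      _ = A ^ 3 := by ring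
  · have h : Qset s3 s1 s2 A ⊆
        (Finset.univ.filter fun g : Grid [s3, s1, s2] => g.2.1.val < A ∧ g.2.2.1.val < A) ∪
        ((Finset.univ.filter fun g : Grid [s3, s1, s2] => g.1.val < A ∧ g.2.2.1.val < A) ∪
        (Finset.univ.filter fun g : Grid [s3, s1, s2] => g.1.val < A ∧ g.2.1.val < A)) := by
      intro g hg
      rw [Finset.mem_union, Finset.mem_union, Finset.mem_filter, Finset.mem_filter,
        Finset.mem_filter]
      rcases (mem_Q g).1 hg with h | h | h
      · exact Or.inl ⟨Finset.mem_univ _, h⟩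
      · exact Or.inr (Or.inl ⟨Finset.mem_univ _, h⟩)
      · exact Or.inr (Or.inr ⟨Finset.mem_univ _, h⟩)
    refine (Finset.card_le_card h).trans ((Finset.card_union_le _ _).trans
      ((Nat.add_le_add_left (Finset.card_union_le _ _) _).trans ?_))
    have h1 := card3 (Finset.univ.filter fun g : Grid [s3, s1, s2] =>
      g.2.1.val < A ∧ g.2.2.1.val < A) s3 A A
      (fun g hg => ⟨g.1.isLt, (Finset.mem_filter.1 hg).2⟩)
    have h2 := card3 (Finset.univ.filter fun g : Grid [s3, s1, s2] =>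
      g.1.val < A ∧ g.2.2.1.val < A) A s1 A
      (fun g hg => ⟨(Finset.mem_filter.1 hg).2.1, g.2.1.isLt, (Finset.mem_filter.1 hg).2.2⟩)
    have h3 := card3 (Finset.univ.filter fun g : Grid [s3, s1, s2] =>
      g.1.val < A ∧ g.2.1.val < A) A A s2
      (fun g hg => ⟨(Finset.mem_filter.1 hg).2.1, (Finset.mem_filter.1 hg).2.2, g.2.2.1.isLt⟩)
    calc _ ≤ s3 * (A * A) + (A * (s1 * A) + A * (A * s2)) :=
          Nat.add_le_add h1 (Nat.add_le_add h2 h3)
      _ = A ^ 2 * (s1 + s2 + s3) := by ring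
  · intro g hg
    obtain ⟨h1, h2, h3⟩ := (mem_F g).1 hg
    exact (mem_Q g).2 (Or.inl ⟨h2, h3⟩)
  · intro j
    refine ⟨?_, fun hj => ⟨?_, ?_⟩⟩
    · have h : slice (l := [s1, s2]) (Qset s3 s1 s2 A) j ⊆
          (Finset.univ.filter fun g : Grid [s1, s2] => g.1.val < A) ∪
          (Finset.univ.filter fun g : Grid [s1, s2] => g.2.1.val < A) := by
        intro g hg
        rw [Finset.mem_union, Finset.mem_filter, Finset.mem_filter]
        rcases (mem_slice j g).1 hg with h | h | h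
        · exact Or.inl ⟨Finset.mem_univ _, h.1⟩
        · exact Or.inr ⟨Finset.mem_univ _, h.2⟩
        · exact Or.inl ⟨Finset.mem_univ _, h.2⟩
      refine (Finset.card_le_card h).trans ((Finset.card_union_le _ _).trans ?_)
      have h1 := card2 (Finset.univ.filter fun g : Grid [s1, s2] => g.1.val < A) A s2
        (fun g hg => ⟨(Finset.mem_filter.1 hg).2, g.2.1.isLt⟩)
      have h2 := card2 (Finset.univ.filter fun g : Grid [s1, s2] => g.2.1.val < A) s1 A
        (fun g hg => ⟨g.1.isLt, (Finset.mem_filter.1 hg).2⟩)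
      calc _ ≤ A * s2 + s1 * A := Nat.add_le_add h1 h2
        _ = A * (s1 + s2) := by ring
    · have h := card2 (slice (l := [s1, s2]) (Qset s3 s1 s2 A) j) A A (fun g hg => by
        rcases (mem_slice j g).1 hg with h | h | h
        · exact h
        · exact absurd h.1 (not_lt.2 hj)
        · exact absurd h.1 (not_lt.2 hj))
      calc _ ≤ A * A := h
        _ = A ^ 2 := by ring
    · intro g hg
      rcases (mem_slice j g).1 hg with h | h | h
      · exact h
      · exact absurd h.1 (not_lt.2 hj)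
      · exact absurd h.1 (not_lt.2 hj)

end Pool.Agent.Lib.MP_635d71_ag.Fr
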