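import Pool.Agent.Lib.MP_635d71_ag.Fr.SpecB

/-!
# Free largest factor, many factors: module Cd1
-/

set_option autoImplicit false

open Module Submodule

namespace Pool.Agent.Lib.MP_635d71_ag.Fr

namespace Cd1Aux

theorem exists_bit {ρ i j : ℕ} (hi : i < 4 ^ ρ) (hj : j < 4 ^ ρ) (hij : i ≠ j) :
    ∃ b, b < 2 * ρ ∧ i.testBit b ≠ j.testBit b := by
  by_contra h
  push Not at h
  apply hij
  apply Nat.eq_of_testBit_eq
  intro b
  by_cases hb : b < 2 * ρ
  · exact h b hb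
  · have h4 : (4 : ℕ) ^ ρ ≤ 2 ^ b := by
      have : (4 : ℕ) ^ ρ = 2 ^ (2 * ρ) := by
        rw [pow_mul]
        norm_num
      rw [this]
      exact Nat.pow_le_pow_right (by norm_num) (by omega)
    rw [Nat.testBit_lt_two_pow (by omega), Nat.testBit_lt_two_pow (by omega)]

theorem mod_eq {ρ q k : ℕ} (hq : q < 4 * ρ) : (q + 4 * ρ * k) % (4 * ρ) = q := by
  rw [Nat.add_mul_mod_self_left, Nat.mod_eq_of_lt hq]

theorem sgb_lo {ρ q k i : ℕ} (hq : q < 2 * ρ) (hk : k < 3) :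
    sgb ρ i (q + 4 * ρ * k) = i.testBit q := by
  unfold sgb
  rw [mod_eq (by omega), if_pos hq]
  have h1 : q + 4 * ρ * k < 12 * ρ := by
    have : 4 * ρ * k ≤ 4 * ρ * 2 := Nat.mul_le_mul_left _ (by omega)
    omega
  rw [decide_eq_true h1, Bool.true_and]

theorem sgb_hi {ρ q k i : ℕ} (hq : q < 2 * ρ) (hk : k < 3) :
    sgb ρ i (q + 2 * ρ + 4 * ρ * k) = !i.testBit q := by
  unfold sgb
  rw [mod_eq (by omega), if_neg (by omega)]
  have h1 : q + 2 * ρ + 4 * ρ * k < 12 * ρ := by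
    have : 4 * ρ * k ≤ 4 * ρ * 2 := Nat.mul_le_mul_left _ (by omega)
    omega
  rw [decide_eq_true h1, Bool.true_and, Nat.add_sub_cancel]

theorem pick {ρ q d e : ℕ} (hρ : 0 < ρ) (hq : q < 4 * ρ) :
    ∃ k, k < 3 ∧ q + 4 * ρ * k ≠ d ∧ q + 4 * ρ * k ≠ e ∧ q + 4 * ρ * k < 12 * ρ := by
  by_cases h0 : q ≠ d ∧ q ≠ e
  · exact ⟨0, by norm_num, by simpa using h0.1, by simpa using h0.2, by omega⟩
  · by_cases h1 : q + 4 * ρ ≠ d ∧ q + 4 * ρ ≠ e
    · exact ⟨1, by norm_num, by rw [mul_one]; exact h1.1, by rw [mul_one]; exact h1.2, by omega⟩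
    · refine ⟨2, by norm_num, ?_, ?_, by omega⟩
      · omega
      · omega

end Cd1Aux

open Cd1Aux in
theorem pCd1 : S_Cd1 := by
  intro ρ i j d e hi hj hij
  obtain ⟨b, hb, hbit⟩ := exists_bit hi hj hij
  have hρ : 0 < ρ := by omega
  by_cases h : i.testBit b = true
  · have h' : j.testBit b = false := by
      cases hjb : j.testBit b
      · rfl
      · exact absurd (h.trans hjb.symm) hbit
    obtain ⟨k, hk, h1, h2, h3⟩ := pick (d := d) (e := e) hρ (show b + 2 * ρ < 4 * ρ by omega)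
    exact ⟨_, h1, h2, h3, by rw [sgb_hi hb hk, h]; rfl, by rw [sgb_hi hb hk, h']; rfl⟩
  · have h0 : i.testBit b = false := by simpa using h
    have h' : j.testBit b = true := by
      cases hjb : j.testBit b
      · exact absurd (h0.trans hjb.symm) hbit
      · rfl
    obtain ⟨k, hk, h1, h2, h3⟩ := pick (d := d) (e := e) hρ (show b < 4 * ρ by omega)
    exact ⟨_, h1, h2, h3, by rw [sgb_lo hb hk, h0], by rw [sgb_lo hb hk, h']⟩

end Pool.Agent.Lib.MP_635d71_ag.Fr
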