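import Pool.Agent.Lib.MP_635d71_ag.Fr.SpecB

/-!
# Free largest factor, many factors: every letter is `1` for half of a block (Cd3)
-/

set_option autoImplicit false

open Module Submodule

namespace Pool.Agent.Lib.MP_635d71_ag.Fr

namespace Cd3Aux

/-- half of the numbers below `2 ^ ρ` have a given digit -/
theorem card_bit (ρ j : ℕ) (hj : j < ρ) (c : Bool) :
    2 ^ (ρ - 1) ≤ ((Finset.range (2 ^ ρ)).filter fun x => x.testBit j = c).card := by
  have hle : ((Finset.range (2 ^ ρ)).filter fun x => ¬ x.testBit j = c).card ≤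
      ((Finset.range (2 ^ ρ)).filter fun x => x.testBit j = c).card := by
    refine Finset.card_le_card_of_injOn (fun x => x ^^^ 2 ^ j) ?_ ?_
    · intro x hx
      simp only [Finset.coe_filter, Finset.mem_range, Set.mem_ofPred_eq] at hx ⊢
      refine ⟨Nat.xor_lt_two_pow hx.1 (Nat.pow_lt_pow_right (by norm_num) hj), ?_⟩
      have h2 := hx.2
      rw [Nat.testBit_xor, Nat.testBit_two_pow_self]
      revert h2
      cases x.testBit j <;> cases c <;> simp
    · intro x _ y _ h
      have h1 : (x ^^^ 2 ^ j) ^^^ 2 ^ j = (y ^^^ 2 ^ j) ^^^ 2 ^ j := congrArg (· ^^^ 2 ^ j) h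
      rwa [Nat.xor_assoc, Nat.xor_assoc, Nat.xor_self, Nat.xor_zero, Nat.xor_zero] at h1
  have hsum := Finset.card_filter_add_card_filter_not (s := Finset.range (2 ^ ρ))
    (fun x : ℕ => x.testBit j = c)
  rw [Finset.card_range] at hsum
  have hpow : 2 ^ ρ = 2 * 2 ^ (ρ - 1) := by
    rw [← pow_succ']
    congr 1
    omega
  omega

/-- the same after the translation with `b` modulo `2 ^ ρ` -/
theorem card_shift (ρ j b : ℕ) (hj : j < ρ) (c : Bool) :
    2 ^ (ρ - 1) ≤
      ((Finset.range (2 ^ ρ)).filter fun x => ((x + b) % 2 ^ ρ).testBit j = c).card := by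
  refine (card_bit ρ j hj c).trans ?_
  have hpos : 0 < 2 ^ ρ := by positivity
  have key : ∀ y, y < 2 ^ ρ → ((y + (2 ^ ρ - b % 2 ^ ρ)) % 2 ^ ρ + b) % 2 ^ ρ = y := by
    intro y hy
    have hb : b % 2 ^ ρ < 2 ^ ρ := Nat.mod_lt _ hpos
    rw [Nat.mod_add_mod]
    have h1 : (y + (2 ^ ρ - b % 2 ^ ρ) + b) % 2 ^ ρ = y := by
      have h2 : y + (2 ^ ρ - b % 2 ^ ρ) + b = y + 2 ^ ρ * (1 + b / 2 ^ ρ) := by
        have h3 := Nat.div_add_mod b (2 ^ ρ)
        rw [mul_add, mul_one]
        omega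
      rw [h2, Nat.add_mul_mod_self_left, Nat.mod_eq_of_lt hy]
    exact h1
  refine Finset.card_le_card_of_injOn (fun y => (y + (2 ^ ρ - b % 2 ^ ρ)) % 2 ^ ρ) ?_ ?_
  · intro y hy
    simp only [Finset.coe_filter, Finset.mem_range, Set.mem_ofPred_eq] at hy ⊢
    refine ⟨Nat.mod_lt _ hpos, ?_⟩
    rw [key y hy.1]
    exact hy.2
  · intro x hx y hy h
    simp only [Finset.coe_filter, Finset.mem_range, Set.mem_ofPred_eq] at hx hy
    have h1 := key x hx.1
    have h2 := key y hy.1
    simp only at h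
    rw [h] at h1
    exact h1.symm.trans h2

end Cd3Aux

open Cd3Aux in
/-- **Cd3** -/
theorem pCd3 : S_Cd3 := by
  intro ρ b p hρ hp1 hp2
  have hpos : 0 < 2 ^ ρ := by positivity
  have hm : ∀ x, x < 2 ^ ρ → (b * 2 ^ ρ + x) % 2 ^ ρ = x := by
    intro x hx
    rw [add_comm, Nat.add_mul_mod_self_right, Nat.mod_eq_of_lt hx]
  have hd : ∀ x, x < 2 ^ ρ → (b * 2 ^ ρ + x) / 2 ^ ρ = b := by
    intro x hx
    rw [add_comm, Nat.add_mul_div_right _ _ hpos, Nat.div_eq_of_lt hx, zero_add]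
  rcases lt_or_ge p (13 * ρ) with h1 | h1
  · refine (card_bit ρ (p - 12 * ρ) (by omega) true).trans (Finset.card_le_card ?_)
    intro x hx
    rw [Finset.mem_filter, Finset.mem_range] at hx ⊢
    refine ⟨hx.1, ?_⟩
    unfold tgb
    rw [hm x hx.1, if_pos h1, hx.2, decide_eq_true hp1]
    rfl
  rcases lt_or_ge p (14 * ρ) with h2 | h2
  · refine (card_bit ρ (p - 13 * ρ) (by omega) false).trans (Finset.card_le_card ?_)
    intro x hx
    rw [Finset.mem_filter, Finset.mem_range] at hx ⊢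
    refine ⟨hx.1, ?_⟩
    unfold tgb
    rw [hm x hx.1, if_neg (by omega), if_pos h2, hx.2, decide_eq_true hp1]
    rfl
  rcases lt_or_ge p (15 * ρ) with h3 | h3
  · refine (card_shift ρ (p - 14 * ρ) b (by omega) true).trans (Finset.card_le_card ?_)
    intro x hx
    rw [Finset.mem_filter, Finset.mem_range] at hx ⊢
    refine ⟨hx.1, ?_⟩
    unfold tgb
    rw [hm x hx.1, hd x hx.1, if_neg (by omega), if_neg (by omega), if_pos h3, hx.2,
      decide_eq_true hp1]
    rfl
  · refine (card_shift ρ (p - 15 * ρ) b (by omega) false).trans (Finset.card_le_card ?_)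
    intro x hx
    rw [Finset.mem_filter, Finset.mem_range] at hx ⊢
    refine ⟨hx.1, ?_⟩
    unfold tgb
    rw [hm x hx.1, hd x hx.1, if_neg (by omega), if_neg (by omega), if_neg (by omega), hx.2,
      decide_eq_true hp1, decide_eq_true hp2]
    rfl

end Pool.Agent.Lib.MP_635d71_ag.Fr
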