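import Pool.Agent.Lib.MP_635d71_ag.Fr.Spec

/-!
# Free largest factor: labels common to the arcs of a cluster
-/

set_option autoImplicit false

open Module Submodule

namespace Pool.Agent.Lib.MP_635d71_ag.Fr

namespace ComAux

/-- the starting points of the arcs of a cluster are near to each other -/
theorem near (L c n s i i1 : ℕ) (hs : s ≤ n) (hn : 1 ≤ n) (hc : c < 2 * L) (hi : i ≤ i1)
    (h8 : 8 * (i1 - i) ≤ s) :
    i * c / n ≤ i1 * c / n ∧ i1 * c / n ≤ i * c / n + (L / 4 + 1) := by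
  refine ⟨Nat.div_le_div_right (Nat.mul_le_mul_right c hi), ?_⟩
  set a := i * c / n with ha
  set a1 := i1 * c / n with ha1
  have h1 : a1 * n ≤ i1 * c := Nat.div_mul_le_self _ _
  have h2 : i * c < (a + 1) * n := by
    have h3 := Nat.lt_div_mul_add (a := i * c) (b := n) hn
    rw [← ha] at h3
    linarith
  by_contra hcon
  push Not at hcon
  obtain ⟨d, hd⟩ : ∃ d, a1 = a + 1 + d := ⟨a1 - (a + 1), by omega⟩
  obtain ⟨m, rfl⟩ : ∃ m, i1 = i + m := ⟨i1 - i, by omega⟩
  have hm : 8 * m ≤ s := by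
    have : i + m - i = m := by omega
    rwa [this] at h8
  have hdL : L ≤ 4 * d := by omega
  -- d n < m c
  have h4 : d * n < m * c := by
    rw [hd] at h1
    nlinarith
  have h5 : 8 * (m * c) ≤ n * c := by
    calc 8 * (m * c) = 8 * m * c := by ring
      _ ≤ n * c := Nat.mul_le_mul_right c (hm.trans hs)
  have h6 : n * c ≤ n * (2 * L) := Nat.mul_le_mul_left n hc.le
  have h7 : n * (2 * L) ≤ 8 * (d * n) := by
    calc n * (2 * L) ≤ n * (2 * (4 * d)) := Nat.mul_le_mul_left n (Nat.mul_le_mul_left 2 hdL)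
      _ = 8 * (d * n) := by ring
  omega

end ComAux

theorem pCom : S_Com := by
  classical
  intro L c n s k hs hsn hL hLc hc2
  have hn : 1 ≤ n := hs.trans hsn
  have hc : 1 ≤ c := hL.trans hLc
  by_cases hex : ∃ i : Fin n, i.val / (s / 8 + 1) = k
  · obtain ⟨i0, hi0⟩ := hex
    obtain ⟨i1, hi1, hmax⟩ := Finset.exists_max_image
      (Finset.univ.filter fun i : Fin n => i.val / (s / 8 + 1) = k) (fun i => i.val)
      ⟨i0, Finset.mem_filter.2 ⟨Finset.mem_univ _, hi0⟩⟩
    have hi1' : i1.val / (s / 8 + 1) = k := (Finset.mem_filter.1 hi1).2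
    refine ⟨i1.val * c / n, ?_, ?_⟩
    · rw [Nat.div_lt_iff_lt_mul hn, mul_comm]
      exact Nat.mul_lt_mul_of_pos_left i1.2 hc
    · intro i hi x hx t ht
      have hle : i.val ≤ i1.val := hmax i (Finset.mem_filter.2 ⟨Finset.mem_univ _, hi⟩)
      have h8 : 8 * (i1.val - i.val) ≤ s := by
        have h1 := Nat.div_add_mod i1.val (s / 8 + 1)
        have h2 := Nat.div_add_mod i.val (s / 8 + 1)
        rw [hi1'] at h1
        rw [hi] at h2
        have h3 := Nat.mod_lt i1.val (show 0 < s / 8 + 1 by omega)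
        have h4 : i1.val - i.val ≤ s / 8 := by omega
        omega
      obtain ⟨h5, h6⟩ := ComAux.near L c n s i.val i1.val hsn hn hc2 hle h8
      rw [arc, Finset.mem_filter]
      refine ⟨Finset.mem_univ _, x + (i1.val * c / n - i.val * c / n), by omega, ?_⟩
      rw [ht]
      congr 1
      omega
  · exact ⟨0, hc, fun i hi => absurd ⟨i, hi⟩ hex⟩

end Pool.Agent.Lib.MP_635d71_ag.Fr
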