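import Pool.Agent.Lib.MP_635d71_ag.Fr.SpecB

/-!
# Free largest factor, many factors: the product of `m` copies of `P^n` and of `P^p`
-/

set_option autoImplicit false

open Module Submodule

namespace Pool.Agent.Lib.MP_635d71_ag.Fr

namespace CorBAux

theorem dimF_eq {q P L r : ℕ} (h : q + L ≤ P) : dimF q P L r = min (r * (q + L)) (P * q) := by
  unfold dimF
  split_ifs with hr
  · have h1 : r < q := lt_of_lt_of_le hr (min_le_right _ _)
    have h2 : min (P - r) L = L := min_eq_right (by omega)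
    rw [h2, min_eq_left]
    calc r * (q + L) ≤ q * P := Nat.mul_le_mul h1.le h
      _ = P * q := Nat.mul_comm _ _
  · rfl

theorem step24 (m : ℕ) (hm : 1800 ≤ m) : (m + 1) ^ 24 ≤ 2 * m ^ 24 := by
  have h1 : 35 * (m + 1) ≤ 36 * m := by omega
  have h2 : (35 * (m + 1)) ^ 24 ≤ (36 * m) ^ 24 := Nat.pow_le_pow_left h1 24
  rw [mul_pow, mul_pow] at h2
  have h3 : (36 : ℕ) ^ 24 ≤ 2 * 35 ^ 24 := by norm_num
  have h4 : (35 : ℕ) ^ 24 * (m + 1) ^ 24 ≤ 35 ^ 24 * (2 * m ^ 24) := by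
    calc (35 : ℕ) ^ 24 * (m + 1) ^ 24 ≤ 36 ^ 24 * m ^ 24 := h2
      _ ≤ (2 * 35 ^ 24) * m ^ 24 := Nat.mul_le_mul_right _ h3
      _ = 35 ^ 24 * (2 * m ^ 24) := by ring
  exact Nat.le_of_mul_le_mul_left h4 (by norm_num)

theorem big (m : ℕ) (hm : 1800 ≤ m) : 1600 ^ 12 * m ^ 24 ≤ 2 ^ (m + 1) := by
  induction m, hm using Nat.le_induction with
  | base =>
    calc 1600 ^ 12 * 1800 ^ 24 ≤ 2 ^ 200 * 2 ^ 200 := by norm_num
      _ = 2 ^ (200 + 200) := (pow_add 2 200 200).symm
      _ ≤ 2 ^ (1800 + 1) := Nat.pow_le_pow_right (by norm_num) (by norm_num)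
  | succ m hm ih =>
    calc 1600 ^ 12 * (m + 1) ^ 24 ≤ 1600 ^ 12 * (2 * m ^ 24) :=
          Nat.mul_le_mul_left _ (step24 m hm)
      _ = 2 * (1600 ^ 12 * m ^ 24) := by ring
      _ ≤ 2 * 2 ^ (m + 1) := Nat.mul_le_mul_left _ ih
      _ = 2 ^ (m + 1 + 1) := by ring

theorem small {m n : ℕ} (hm : 1800 ≤ m) (h : n + 1 < 1600 * m) :
    (m * n + 1) ^ 12 ≤ 2 ^ (m + 1) := by
  have h1 : m * n + 1 ≤ 1600 * m ^ 2 := by nlinarith
  calc (m * n + 1) ^ 12 ≤ (1600 * m ^ 2) ^ 12 := Nat.pow_le_pow_left h1 12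
    _ = 1600 ^ 12 * m ^ 24 := by ring
    _ ≤ 2 ^ (m + 1) := big m hm

/-- the family -/
abbrev fam (m n p : ℕ) : Fin (m + 1) → ℕ := Fin.cons p (fun _ : Fin m => n)

theorem fam_zero (m n p : ℕ) : fam m n p 0 = p := rfl

theorem fam_ne {m n p : ℕ} {j : Fin (m + 1)} (hj : j ≠ 0) : fam m n p j = n := by
  obtain ⟨i, rfl⟩ := Fin.exists_succ_eq.2 hj
  rfl

theorem sum_all (m n p : ℕ) : ∑ l, fam m n p l = p + m * n := by
  rw [Fin.sum_univ_succ]
  simp [fam]

theorem prod_all (m n p : ℕ) : ∏ l, (fam m n p l + 1) = (p + 1) * (n + 1) ^ m := by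
  rw [Fin.prod_univ_succ]
  simp [fam]

theorem sum_zero (m n p : ℕ) : ∑ l ∈ Finset.univ.erase 0, fam m n p l = m * n := by
  have h := Finset.add_sum_erase Finset.univ (fam m n p) (Finset.mem_univ 0)
  rw [sum_all, fam_zero] at h
  omega

theorem prod_zero (m n p : ℕ) :
    ∏ l ∈ Finset.univ.erase 0, (fam m n p l + 1) = (n + 1) ^ m := by
  have h := Finset.mul_prod_erase Finset.univ (fun l => fam m n p l + 1) (Finset.mem_univ 0)
  rw [prod_all] at h
  exact Nat.eq_of_mul_eq_mul_left (Nat.succ_pos p) h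

theorem sum_ne {m n p : ℕ} {i : Fin (m + 1)} (hi : i ≠ 0) :
    n + ∑ l ∈ Finset.univ.erase i, fam m n p l = p + m * n := by
  have h := Finset.add_sum_erase Finset.univ (fam m n p) (Finset.mem_univ i)
  rw [sum_all, fam_ne hi] at h
  exact h

theorem prod_ne {m n p : ℕ} {i : Fin (m + 1)} (hi : i ≠ 0) :
    (n + 1) * ∏ l ∈ Finset.univ.erase i, (fam m n p l + 1) = (p + 1) * (n + 1) ^ m := by
  have h := Finset.mul_prod_erase Finset.univ (fun l => fam m n p l + 1) (Finset.mem_univ i)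
  rw [prod_all] at h
  rw [← h]
  congr 1
  rw [fam_ne hi]

theorem exS {m : ℕ} (a : ℕ) (h : a + 2 ≤ m) :
    ∃ S : Finset (Fin (m + 1)), S.card = 3 ∧ ∀ j ∈ S, a ≤ j.val := by
  refine ⟨{⟨a, by omega⟩, ⟨a + 1, by omega⟩, ⟨a + 2, by omega⟩},
    Finset.card_eq_three.2 ⟨⟨a, by omega⟩, ⟨a + 1, by omega⟩, ⟨a + 2, by omega⟩, ?_, ?_, ?_, rfl⟩, ?_⟩
  · intro h
    have := congrArg Fin.val h
    simp at this
  · intro h
    have := congrArg Fin.val h
    simp at this
  · intro h
    have := congrArg Fin.val h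
    simp at this
  · intro j hj
    simp only [Finset.mem_insert, Finset.mem_singleton] at hj
    rcases hj with rfl | rfl | rfl
    · exact le_refl a
    · exact Nat.le_add_right a 1
    · exact Nat.le_add_right a 2

theorem ne_zero_of {m a : ℕ} (ha : 1 ≤ a) {j : Fin (m + 1)} (hj : a ≤ j.val) : j ≠ 0 := by
  rintro rfl
  rw [Fin.val_zero] at hj
  omega

theorem caseB (hFam : S_Fam) {m n p : ℕ} (r : ℕ) (hm : 4 ≤ m) (hmn : 1600 * m ≤ n + 1) :
    coneDim (fam m n p) r = ((dimF (p + 1) ((n + 1) ^ m) (m * n) r : ℕ) : Cardinal) := by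
  have hkey : 1600 * (m * n + 1) ≤ (n + 1) ^ 2 := by
    calc 1600 * (m * n + 1) ≤ 1600 * m * (n + 1) := by nlinarith
      _ ≤ (n + 1) * (n + 1) := Nat.mul_le_mul_right _ hmn
      _ = (n + 1) ^ 2 := by ring
  rcases le_or_gt n p with hnp | hnp
  · obtain ⟨S, hS, hSj⟩ := exS (m := m) 1 (by omega)
    have h := hFam (m + 1) (fam m n p) 0 S hS
      (fun h0 => ne_zero_of (le_refl 1) (hSj 0 h0) rfl) (by
        intro j hj
        rw [fam_ne (ne_zero_of (le_refl 1) (hSj j hj)), fam_zero]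
        exact hnp) (by
        intro j hj
        rw [fam_ne (ne_zero_of (le_refl 1) (hSj j hj)), sum_zero]
        exact hkey) r
    rw [sum_zero, prod_zero, fam_zero] at h
    exact h
  · have hi : (⟨1, by omega⟩ : Fin (m + 1)) ≠ 0 := by simp [Fin.ext_iff]
    have hs := sum_ne (n := n) (p := p) hi
    have hp := prod_ne (n := n) (p := p) hi
    obtain ⟨S, hS, hSj⟩ := exS (m := m) 2 (by omega)
    have h := hFam (m + 1) (fam m n p) ⟨1, by omega⟩ S hS
      (fun h0 => by have := hSj _ h0; simp at this) (by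
        intro j hj
        rw [fam_ne (ne_zero_of one_le_two (hSj j hj)), fam_ne hi]) (by
        intro j hj
        rw [fam_ne (ne_zero_of one_le_two (hSj j hj))]
        refine le_trans ?_ hkey
        omega) r
    rw [fam_ne hi] at h
    have hm1 : m ≤ n + 1 := by omega
    have hsq : (m + 1) * (n + 1) ≤ (n + 1) ^ m := by
      calc (m + 1) * (n + 1) ≤ (n + 1) * (n + 1) := Nat.mul_le_mul_right _ (by omega)
        _ = (n + 1) ^ 2 := by ring
        _ ≤ (n + 1) ^ m := Nat.pow_le_pow_right (by omega) (by omega)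
    have hsq2 : m * (n + 1) ≤ (n + 1) ^ (m - 1) := by
      calc m * (n + 1) ≤ (n + 1) * (n + 1) := Nat.mul_le_mul_right _ (by omega)
        _ = (n + 1) ^ 2 := by ring
        _ ≤ (n + 1) ^ (m - 1) := Nat.pow_le_pow_right (by omega) (by omega)
    have hprod : ∏ l ∈ Finset.univ.erase (⟨1, by omega⟩ : Fin (m + 1)), (fam m n p l + 1) =
        (p + 1) * (n + 1) ^ (m - 1) := by
      refine Nat.eq_of_mul_eq_mul_left (Nat.succ_pos n) ?_
      have e : (n + 1) ^ m = (n + 1) * (n + 1) ^ (m - 1) := by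
        rw [← pow_succ']
        congr 1
        omega
      rw [Nat.succ_eq_add_one, hp, e]
      ring
    rw [h, dimF_eq, dimF_eq]
    · congr 2
      · congr 1
        omega
      · rw [mul_comm, hp, mul_comm]
    · nlinarith
    · rw [hprod]
      have e1 : (m * (n + 1)) * (p + 1) ≤ (n + 1) ^ (m - 1) * (p + 1) :=
        Nat.mul_le_mul_right _ hsq2
      have e2 : p + m * n + 1 ≤ (m * (n + 1)) * (p + 1) := by
        have : 1 ≤ m := by omega
        nlinarith [Nat.zero_le (m * n * p), Nat.mul_le_mul_right p this]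
      rw [mul_comm (p + 1)]
      omega

end CorBAux

open CorBAux in
theorem pCorB : S_Fam → S_FamB → S_CorB := by
  intro hFam hFamB m n p r hn hp hcase
  change coneDim (fam m n p) r = _
  by_cases h : 4 ≤ m ∧ 1600 * m ≤ n + 1
  · exact caseB hFam r h.1 h.2
  · have hm : 1800 ≤ m := by
      rcases hcase with h1 | h1
      · exact h1
      · exact absurd h1 h
    have hlt : n + 1 < 1600 * m := by
      by_contra hc
      exact h ⟨by omega, by omega⟩
    have h2 := hFamB (m + 1) (fam m n p) 0 (by omega) (by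
      intro j
      rcases eq_or_ne j 0 with rfl | hj
      · rw [fam_zero]; exact hp
      · rw [fam_ne hj]; exact hn) (by
      rw [sum_zero]
      exact small hm hlt) r
    rw [sum_zero, prod_zero, fam_zero] at h2
    exact h2

end Pool.Agent.Lib.MP_635d71_ag.Fr
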