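import Pool.Agent.Lib.MP_635d71_ag.Fr.Spec

/-!
# Free largest factor, module Core: generic points and the points of a linear system
-/

set_option autoImplicit false

open Module Submodule

namespace Pool.Agent.Lib.MP_635d71_ag.Fr

namespace CoreAux

variable {K : Type} [Field K]

/-- Points indexed by an arbitrary finite type. -/
theorem br_of {ι : Type} [Fintype ι] (s : ℕ) (l : List ℕ) (n r m : ℕ) (hι : Fintype.card ι = r)
    (A : Finset ι) (hA : A.card = n) (x : ι → Coord l → K) (z : ι → Fin s → K)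
    (hm : m ≤ finrank K ↥((⨆ a, fib s l (x a)) ⊔ ⨆ a ∈ A, zT l (z a) (x a))) :
    BR K s l n r m := by
  classical
  obtain ⟨ε⟩ : Nonempty (ι ≃ Fin r) := ⟨Fintype.equivFinOfCardEq hι⟩
  refine ⟨A.map ε.toEmbedding, fun a => x (ε.symm a), fun a => z (ε.symm a), ?_, hm.trans ?_⟩
  · rw [Finset.card_map, hA]
  · refine Submodule.finrank_mono (sup_le (iSup_le fun a => ?_) (iSup_le fun a =>
      iSup_le fun ha => ?_))
    · refine le_trans ?_ le_sup_left
      have h := le_iSup (fun b => fib s l (x (ε.symm b))) (ε a)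
      simpa using h
    · refine le_trans ?_ le_sup_right
      have h1 : ε a ∈ A.map ε.toEmbedding := Finset.mem_map_of_mem _ ha
      have h := le_iSup₂ (f := fun b (_ : b ∈ A.map ε.toEmbedding) =>
        zT l (z (ε.symm b)) (x (ε.symm b))) (ε a) h1
      simpa using h

/-- The space of the functions supported in `Fin s × Ω` contains `H`. -/
theorem supp {s n N : ℕ} {l : List ℕ} (Ω : Finset (Grid l)) (y : Fin N → Coord l → K)
    (σ : Fin n → Grid l) (z : Fin n → Fin s → K) (hb : ∀ i, Ball l (σ i) ⊆ Ω)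
    (hE : ∀ a, E l (y a) ∈ coordSub K Ω) :
    ∀ f ∈ ((⨆ a, fib s l (y a)) ⊔ ⨆ i, zT l (z i) (cpt l (σ i)) :
      Submodule K (Grid (s :: l) → K)), ∀ (j : Fin s) (g : Grid l), g ∉ Ω → f (j, g) = 0 := by
  let W : Submodule K (Grid (s :: l) → K) :=
    { carrier := {f | ∀ (j : Fin s) (g : Grid l), g ∉ Ω → f (j, g) = 0}
      add_mem' := fun hf hg j c hc => by
        rw [Pi.add_apply, hf j c hc, hg j c hc, add_zero]
      zero_mem' := fun _ _ _ => rfl
      smul_mem' := fun a f hf j c hc => by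
        rw [Pi.smul_apply, hf j c hc, smul_zero] }
  have hle : ((⨆ a, fib s l (y a)) ⊔ ⨆ i, zT l (z i) (cpt l (σ i)) :
      Submodule K (Grid (s :: l) → K)) ≤ W := by
    refine sup_le (iSup_le fun a => ?_) (iSup_le fun i => ?_)
    · rintro _ ⟨v, rfl⟩ j g hg
      change v j * E l (y a) g = 0
      rw [hE a g hg, mul_zero]
    · rintro _ ⟨f, hf, rfl⟩ j g hg
      change z i j * f g = 0
      have h1 : f ∈ T l (cpt l (σ i) : Coord l → K) := hf
      rw [T_cpt] at h1
      rw [h1 g fun h => hg (hb i h), mul_zero]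
  exact fun f hf => hle hf

end CoreAux

/-- **Core.** -/
theorem pCore : S_SlF → S_ModL → S_HRk → S_Van → S_Core := by
  intro hSlF hModL hHRk hVan K _ _ l Ω L c a c' s n r F hD hc hr hs1 hsL hG hΩ hLS
  classical
  obtain ⟨N, σ, y, e, Φ, hN, he, hy, hb, hE, hli, hΦ0, hΦ⟩ := hLS
  have hsa : s * a ≤ a * L := by
    rw [mul_comm a L]
    exact Nat.mul_le_mul_right a hsL
  obtain ⟨N0, hN0⟩ : ∃ N0, r = s * a + N + N0 := ⟨r - (s * a + N), by omega⟩
  have hs' : (s - 1) * a + a = s * a := by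
    obtain ⟨s', rfl⟩ : ∃ s', s = s' + 1 := ⟨s - 1, by omega⟩
    rw [Nat.add_sub_cancel]
    ring
  have haD : a * D l = a * L + a := by
    rw [hD]
    ring
  obtain ⟨x, w, hxw⟩ := hSlF K l Ω s a N0 hG (by omega)
  obtain ⟨t, ht⟩ : ∃ t : Fin n → K, Function.Injective t :=
    ⟨fun i => Infinite.natEmbedding K i.val, fun i j h =>
      Fin.val_injective ((Infinite.natEmbedding K).injective h)⟩
  let z : Fin n → Fin s → K := fun i j => t i ^ (j : ℕ)
  let ι := (Fin s × Fin a) ⊕ (Fin N0 ⊕ Fin N)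
  let xx : ι → Coord l → K := Sum.elim (fun p => x p.1 p.2) (Sum.elim w y)
  let zy : Fin N → Fin s → K := fun k => if h : ∃ i, e i = k then z h.choose else 0
  let zz : ι → Fin s → K := Sum.elim (fun p => Pi.single p.1 1) (Sum.elim (fun _ => 0) zy)
  have hzy : ∀ i, zy (e i) = z i := by
    intro i
    have h : ∃ i', e i' = e i := ⟨i, rfl⟩
    have h1 : zy (e i) = z h.choose := dif_pos h
    rw [h1, he h.choose_spec]
  let A1 : Finset ι := Finset.univ.map ⟨Sum.inl, Sum.inl_injective⟩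
  let A2 : Finset ι := Finset.univ.map ⟨fun i : Fin n => Sum.inr (Sum.inr (e i)), fun i j h =>
    he (Sum.inr_injective (Sum.inr_injective h))⟩
  have hdis : Disjoint A1 A2 := by
    rw [Finset.disjoint_left]
    intro p hp hp'
    obtain ⟨q, -, rfl⟩ := Finset.mem_map.1 hp
    obtain ⟨q', -, h⟩ := Finset.mem_map.1 hp'
    cases h
  have hcard : (A1 ∪ A2).card = s * a + n := by
    rw [Finset.card_union_of_disjoint hdis, Finset.card_map, Finset.card_map, Finset.card_univ,
      Finset.card_univ, Fintype.card_prod, Fintype.card_fin, Fintype.card_fin, Fintype.card_fin]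
  have hι : Fintype.card ι = r := by
    rw [Fintype.card_sum, Fintype.card_sum, Fintype.card_prod, Fintype.card_fin, Fintype.card_fin,
      Fintype.card_fin, Fintype.card_fin]
    omega
  refine CoreAux.br_of s l _ _ _ hι (A1 ∪ A2) hcard xx zz ?_
  let S : Submodule K (Grid (s :: l) → K) :=
    (⨆ p, fib s l (xx p)) ⊔ ⨆ p ∈ A1 ∪ A2, zT l (zz p) (xx p)
  have hfib : ∀ p, fib s l (xx p) ≤ S := fun p =>
    le_trans (le_iSup (fun p => fib s l (xx p)) p) le_sup_left
  have hzT : ∀ p ∈ A1 ∪ A2, zT l (zz p) (xx p) ≤ S := fun p hp =>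
    le_trans (le_iSup₂ (f := fun p (_ : p ∈ A1 ∪ A2) => zT l (zz p) (xx p)) p hp) le_sup_right
  let G : Fin s → Submodule K (Grid l → K) := fun j => (⨆ b, T l (x j b)) ⊔
    (span K {f | ∃ (j' : Fin s) (b : Fin a), j' ≠ j ∧ f = E l (x j' b)} ⊔
      span K (Set.range fun i => E l (w i)))
  let H : Submodule K (Grid (s :: l) → K) :=
    (⨆ k, fib s l (y k)) ⊔ ⨆ i, zT l (z i) (cpt l (σ i))
  have hGtop : ∀ j, coordSub K Ω ⊔ G j = ⊤ := by
    intro j
    rw [← hxw j]
    simp only [G, sup_assoc]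
  have hGS : ∀ j, (G j).map (tenL (Pi.single j 1) l) ≤ S := by
    intro j
    simp only [G, Submodule.map_sup, Submodule.map_iSup]
    refine sup_le (iSup_le fun b => ?_) (sup_le ?_ ?_)
    · exact hzT (Sum.inl (j, b)) (Finset.mem_union_left _
        (Finset.mem_map.2 ⟨(j, b), Finset.mem_univ _, rfl⟩))
    · rw [Submodule.map_span_le]
      rintro _ ⟨j', b, -, rfl⟩
      exact hfib (Sum.inl (j', b)) ⟨Pi.single j 1, rfl⟩
    · rw [Submodule.map_span_le]
      rintro _ ⟨i, rfl⟩
      exact hfib (Sum.inr (Sum.inl i)) ⟨Pi.single j 1, rfl⟩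
  have hHS : H ≤ S := by
    refine sup_le (iSup_le fun k => ?_) (iSup_le fun i => ?_)
    · exact hfib (Sum.inr (Sum.inr k))
    · have h1 := hzT (Sum.inr (Sum.inr (e i))) (Finset.mem_union_right _
        (Finset.mem_map.2 ⟨i, Finset.mem_univ _, rfl⟩))
      have h2 : zT l (zz (Sum.inr (Sum.inr (e i)))) (xx (Sum.inr (Sum.inr (e i)))) =
          zT l (z i) (cpt l (σ i)) := by
        change zT l (zy (e i)) (y (e i)) = _
        rw [hzy, hy]
      rw [h2] at h1
      exact h1
  have h1 := hModL K s l Ω G S H hGtop hGS hHS (CoreAux.supp Ω y σ z hb hE)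
  have h2 := hHRk K s l N n c' y z (fun i => cpt l (σ i)) Φ F hli hΦ0 hΦ
  have h3 := hVan K s n c' t F ht
  have h4 : s * l.prod = s * (r + a * L) + s * c' := by
    rw [← hr, hc]
    ring
  have h5 : s * Ω.card = s * N + s * c' := by
    rw [← hN]
    ring
  have h2' : s * N + finrank K ↥(⨆ i, span K {f | ∃ a ∈ F i, f = zf a (z i)}) ≤ finrank K H := h2
  have h3' : ∑ a, min s (deg F a) ≤
      finrank K ↥(⨆ i, span K {f | ∃ a ∈ F i, f = zf a (z i)}) := h3
  change s * (r + a * L) + ∑ t, min s (deg F t) ≤ finrank K S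
  omega

end Pool.Agent.Lib.MP_635d71_ag.Fr
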