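import Pool.Agent.Lib.MP_635d71_ag.Fr.Spec

/-!
# Free largest factor: existence of the data of the label system with three large factors
-/

set_option autoImplicit false

open Module Submodule

namespace Pool.Agent.Lib.MP_635d71_ag.Fr

namespace CxAux

/-- The word with given letters. -/
theorem word {s3 s1 s2 : ℕ} (f : Fin 3 → ℕ) (h0 : f 0 < s3) (h1 : f 1 < s1) (h2 : f 2 < s2) :
    ∃ g : Grid [s3, s1, s2], ltr g = f := by
  refine ⟨((⟨f 0, h0⟩ : Fin s3), (⟨f 1, h1⟩ : Fin s1), (⟨f 2, h2⟩ : Fin s2), ()), ?_⟩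
  funext d
  fin_cases d <;> rfl

theorem div16 {n B i : ℕ} (hB : 1 ≤ B) (hn : n ≤ 16 * B) (hi : i < n) : i / B ≤ 15 := by
  have : i / B < 16 := (Nat.div_lt_iff_lt_mul (by omega)).2 (by omega)
  omega

end CxAux

theorem pCx : S_Sg → S_Tg → S_Cx := by
  intro hSg hTg s3 s1 s2 L c n B X R b0 h lab B1 BX Xodd nB cR c1 S3 S1 S2
  have R1 : 1 ≤ R := by
    rcases Nat.eq_zero_or_pos R with h0 | h0
    · subst h0
      omega
    · exact h0
  have hs : ∀ (i : Fin n) (d : Fin 3), sgf X B i.val d < 16 * X + R := by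
    intro i d
    have h1 := ((hSg X B i.val i.val B1 BX).1 d).2
    have h2 := CxAux.div16 B1 nB i.isLt
    have h3 : i.val / B * X ≤ 15 * X := Nat.mul_le_mul_right X h2
    omega
  have ht : ∀ (a : Fin c) (d : Fin 3), tgf (16 * X) R a.val d < 16 * X + R :=
    fun a d => ((hTg (16 * X) R R1).1 a.val d).2
  choose σ hσ using fun i : Fin n => CxAux.word (s3 := s3) (s1 := s1) (s2 := s2)
    (sgf X B i.val) (lt_of_lt_of_le (hs i 0) S3) (lt_of_lt_of_le (hs i 1) S1)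
    (lt_of_lt_of_le (hs i 2) S2)
  choose τ hτ using fun a : Fin c => CxAux.word (s3 := s3) (s1 := s1) (s2 := s2)
    (tgf (16 * X) R a.val) (lt_of_lt_of_le (ht a 0) S3) (lt_of_lt_of_le (ht a 1) S1)
    (lt_of_lt_of_le (ht a 2) S2)
  exact ⟨σ, τ, fun g => ⟨lamN X R b0 h (ltr g) % c, Nat.mod_lt _ c1⟩,
    ⟨lab, B1, BX, Xodd, nB, cR, S3, S1, S2, hσ, hτ, fun g hg => Nat.mod_eq_of_lt hg⟩⟩

end Pool.Agent.Lib.MP_635d71_ag.Fr
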