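import Pool.Agent.Lib.MP_635d71_ag.Fr.SpecB

/-!
# Free largest factor, many factors, module CxB: existence of the data
-/

set_option autoImplicit false

open Module Submodule

namespace Pool.Agent.Lib.MP_635d71_ag.Fr

namespace CxBAux

/-- The special word and the place are determined by the flexible word. -/
theorem uniq (hC1 : S_Cd1) (hC2 : S_Cd2) (u : List ℕ) (n ρ : ℕ) (hρ : 1 ≤ ρ) (hn : n ≤ 4 ^ ρ)
    (σ : Fin n → Grid u) (hσ : ∀ i p, ltv u (σ i) p = (sgb ρ i.val p).toNat) (i j : Fin n)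
    (d e : ℕ) (g : Grid u) (h1 : FTc u ρ σ i d g) (h2 : FTc u ρ σ j e g) : i = j ∧ d = e := by
  have hij : i = j := by
    by_contra hne
    obtain ⟨p, hpd, hpe, -, hi, hj⟩ := hC1 ρ i.val j.val d e (i.isLt.trans_le hn)
      (j.isLt.trans_le hn) (fun h => hne (Fin.ext h))
    have h3 := h1.1 p hpd
    have h4 := h2.1 p hpe
    rw [h3, hσ, hσ, hi, hj] at h4
    exact absurd h4 (by decide)
  subst hij
  refine ⟨rfl, ?_⟩
  by_contra hne
  have h3 := h2.1 d hne
  rcases h1.2 with ⟨h4, h5⟩ | ⟨h4, -, h5⟩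
  · rw [h3, h4] at h5
    exact absurd h5 (by decide)
  · rw [h3, hσ] at h5
    cases hb : sgb ρ i.val d with
    | false =>
      rw [hb] at h5
      exact absurd h5 (by decide)
    | true =>
      have := (hC2 ρ hρ).1 _ _ hb
      omega

end CxBAux

/-- **CxB.** -/
theorem pCxB : S_LvB → S_Wd → S_Cd1 → S_Cd2 → S_CxB := by
  intro _ hW hC1 hC2 u n c ρ F Λ hu hlen hρ hn hc hc1 hF hi ht
  classical
  have hs : ∀ i : Fin n, ∃ g : Grid u, ∀ p, ltv u g p = (sgb ρ i.val p).toNat := fun i =>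
    hW u (sgb ρ i.val) hu fun p hp => by
      cases hb : sgb ρ i.val p with
      | false => rfl
      | true =>
        have := (hC2 ρ hρ).1 _ _ hb
        omega
  have hτ : ∀ a : Fin c, ∃ g : Grid u, ∀ p, ltv u g p = (tgb ρ a.val p).toNat := fun a =>
    hW u (tgb ρ a.val) hu fun p hp => by
      cases hb : tgb ρ a.val p with
      | false => rfl
      | true =>
        have := ((hC2 ρ hρ).2.1 _ _ hb).2
        omega
  choose σ hσ using hs
  choose τ hτ using hτ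
  have huniq := CxBAux.uniq hC1 hC2 u n ρ hρ hn σ hσ
  let lam : Grid u → Fin c := fun g =>
    if h : ∃ p : Fin n × ℕ, FTc u ρ σ p.1 p.2 g then Λ h.choose.1 h.choose.2 else ⟨0, hc1⟩
  refine ⟨σ, τ, lam, ⟨hρ, hn, hc, hσ, hτ, hF, hi, ht, ?_⟩⟩
  intro i d g hg
  have h : ∃ p : Fin n × ℕ, FTc u ρ σ p.1 p.2 g := ⟨(i, d), hg⟩
  have h1 : lam g = Λ h.choose.1 h.choose.2 := dif_pos h
  obtain ⟨h2, h3⟩ := huniq _ _ _ _ _ h.choose_spec hg
  rw [h1, h2, h3]

end Pool.Agent.Lib.MP_635d71_ag.Fr
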