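import Pool.Agent.Lib.MP_635d71_ag.Fr.Spec

/-!
# Free largest factor: fewer tangent spaces
-/

set_option autoImplicit false

open Module Submodule

namespace Pool.Agent.Lib.MP_635d71_ag.Fr

namespace DropAux

variable {K : Type} [Field K]

/-- The spanning family of `Tot`. -/
def vec (s : ℕ) (l : List ℕ) {r : ℕ} (A : Finset (Fin r)) (z : Fin r → Fin s → K) :
    (Fin r × Fin s) ⊕ (A × TI l) → (Fin r → Coord l → K) → Grid (s :: l) → K
  | Sum.inl p => fun x => ten (Pi.single p.2 1) (E l (x p.1))
  | Sum.inr p => fun x => ten (z p.1) (TVec l (x p.1) p.2)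

lemma fib_eq (s : ℕ) (l : List ℕ) (x : Coord l → K) :
    fib s l x = span K (Set.range fun j : Fin s => ten (Pi.single j (1 : K)) (E l x)) := by
  apply le_antisymm
  · rintro _ ⟨u, rfl⟩
    have h : u = ∑ j, u j • (Pi.single j (1 : K) : Fin s → K) := by
      funext i
      rw [Finset.sum_apply, Finset.sum_eq_single i]
      · simp
      · intro j _ hj
        simp [Pi.single_eq_of_ne' hj]
      · intro hi
        exact absurd (Finset.mem_univ i) hi
    rw [h, map_sum]
    refine Submodule.sum_mem _ fun j _ => ?_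
    rw [map_smul]
    exact Submodule.smul_mem _ _ (subset_span ⟨j, rfl⟩)
  · rw [span_le]
    rintro _ ⟨j, rfl⟩
    exact ⟨Pi.single j 1, rfl⟩

lemma Tot_eq (s : ℕ) (l : List ℕ) {r : ℕ} (A : Finset (Fin r)) (x : Fin r → Coord l → K)
    (z : Fin r → Fin s → K) :
    Tot s l A x z = ⊥ ⊔ span K (Set.range fun i => vec s l A z i x) := by
  rw [bot_sup_eq]
  apply le_antisymm
  · refine sup_le (iSup_le fun a => ?_) (iSup_le fun a => iSup_le fun ha => ?_)
    · rw [fib_eq, span_le]
      rintro _ ⟨j, rfl⟩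
      exact subset_span ⟨Sum.inl (a, j), rfl⟩
    · rw [zT, T, Submodule.map_span, span_le]
      rintro _ ⟨_, ⟨i, rfl⟩, rfl⟩
      exact subset_span ⟨Sum.inr (⟨a, ha⟩, i), rfl⟩
  · rw [span_le]
    rintro _ ⟨i, rfl⟩
    rcases i with ⟨a, j⟩ | ⟨⟨a, ha⟩, i⟩
    · refine mem_sup_left ((le_iSup (fun a => fib s l (x a)) a) ?_)
      exact ⟨Pi.single j 1, rfl⟩
    · refine mem_sup_right ((le_iSup₂ (f := fun a (_ : a ∈ A) => zT l (z a) (x a)) a ha) ?_)
      exact ⟨TVec l (x a) i, subset_span ⟨i, rfl⟩, rfl⟩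

lemma linePoly_vec (s : ℕ) (l : List ℕ) {r : ℕ} (A : Finset (Fin r)) (z : Fin r → Fin s → K)
    (i : (Fin r × Fin s) ⊕ (A × TI l)) : LinePoly K (vec s l A z i) := by
  intro x0 x1 c
  rcases i with ⟨a, j⟩ | ⟨⟨a, ha⟩, i⟩
  · obtain ⟨p, hp⟩ := linePoly_E l (LinearMap.proj a :
      (Fin r → Coord l → K) →ₗ[K] (Coord l → K)) x0 x1 c.2
    refine ⟨Polynomial.C ((Pi.single j 1 : Fin s → K) c.1) * p, fun t => ?_⟩
    rw [Polynomial.eval_mul, Polynomial.eval_C, ← hp]
    rfl
  · obtain ⟨p, hp⟩ := linePoly_TVec l (LinearMap.proj a :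
      (Fin r → Coord l → K) →ₗ[K] (Coord l → K)) i x0 x1 c.2
    refine ⟨Polynomial.C (z a c.1) * p, fun t => ?_⟩
    rw [Polynomial.eval_mul, Polynomial.eval_C, ← hp]
    rfl

/-- The condition on the points is big. -/
lemma big_Tot (s : ℕ) (l : List ℕ) {r : ℕ} (A : Finset (Fin r)) (z : Fin r → Fin s → K) (m : ℕ) :
    Big K {x : Fin r → Coord l → K | m ≤ finrank K (Tot s l A x z)} := by
  have h := big_rank (K := K) (⊥ : Submodule K (Grid (s :: l) → K)) (vec s l A z)
    (linePoly_vec s l A z) m
  have e : {x : Fin r → Coord l → K | m ≤ finrank K (Tot s l A x z)} =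
      {x | m ≤ finrank K ↥((⊥ : Submodule K (Grid (s :: l) → K)) ⊔
        span K (Set.range fun i => vec s l A z i x))} := by
    ext x
    rw [Set.mem_ofPred_eq, Set.mem_ofPred_eq, Tot_eq]
  rw [e]
  exact h

lemma big_E (l : List ℕ) {r : ℕ} (a : Fin r) :
    Big K {x : Fin r → Coord l → K | 1 ≤ finrank K
      ↥((⊥ : Submodule K (Grid l → K)) ⊔ span K (Set.range fun _ : Unit => E l (x a)))} := by
  have h0 : ∀ _ : Unit, LinePoly K (fun x : Fin r → Coord l → K => E l (x a)) := fun _ =>
    linePoly_E l (LinearMap.proj a : (Fin r → Coord l → K) →ₗ[K] (Coord l → K))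
  exact big_rank (K := K) (⊥ : Submodule K (Grid l → K))
    (fun (_ : Unit) (x : Fin r → Coord l → K) => E l (x a)) h0 1

lemma step [Infinite K] (s : ℕ) (l : List ℕ) (L n r m : ℕ) (hD : D l = L + 1)
    (h : BR K s l (n + 1) r (m + L)) : BR K s l n r m := by
  classical
  obtain ⟨A, x0, z, hA, hm⟩ := h
  obtain ⟨a, ha⟩ : A.Nonempty := by
    rw [← Finset.card_pos]
    omega
  have hc : (A.erase a).card = n := by
    rw [Finset.card_erase_of_mem ha, hA]
    rfl
  rcases isEmpty_or_nonempty (Grid l) with hG | ⟨⟨g⟩⟩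
  · refine ⟨A.erase a, x0, z, hc, ?_⟩
    have h1 : finrank K (Tot s l A x0 z) = 0 := by
      have : Subsingleton (Grid (s :: l) → K) :=
        ⟨fun f f' => funext fun c => (hG.false c.2).elim⟩
      have : Subsingleton (Tot s l A x0 z) :=
        ⟨fun f f' => Subtype.ext (Subsingleton.elim _ _)⟩
      exact finrank_zero_of_subsingleton
    omega
  · obtain ⟨x, hx1, hx2⟩ := Big.inter_nonempty (big_Tot s l A z (m + L)) (big_E (K := K) l a)
      ⟨x0, hm⟩ ⟨fun _ => cpt l g, by
        change 1 ≤ finrank K _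
        rw [bot_sup_eq, Nat.one_le_iff_ne_zero]
        intro h0
        rw [Submodule.finrank_eq_zero, span_eq_bot] at h0
        have h1 := h0 _ ⟨(), rfl⟩
        rw [E_cpt] at h1
        have h2 := congrFun h1 g
        change (Pi.single g (1 : K) : Grid l → K) g = 0 at h2
        rw [Pi.single_eq_same] at h2
        exact one_ne_zero h2⟩
    change m + L ≤ finrank K (Tot s l A x z) at hx1
    change 1 ≤ finrank K _ at hx2
    have hE : E l (x a) ≠ 0 := by
      intro h0
      rw [bot_sup_eq] at hx2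
      have h1 : span K (Set.range fun _ : Unit => E l (x a)) = ⊥ := by
        rw [span_eq_bot]
        rintro _ ⟨_, rfl⟩
        exact h0
      rw [h1, finrank_bot] at hx2
      omega
    refine ⟨A.erase a, x, z, hc, ?_⟩
    have h1 : Tot s l A x z = Tot s l (A.erase a) x z ⊔ zT l (z a) (x a) := by
      apply le_antisymm
      · refine sup_le (le_sup_of_le_left le_sup_left) (iSup_le fun b => iSup_le fun hb => ?_)
        by_cases hab : b = a
        · subst hab
          exact le_sup_right
        · refine le_sup_of_le_left (le_sup_of_le_right ?_)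
          exact le_iSup₂ (f := fun b (_ : b ∈ A.erase a) => zT l (z b) (x b)) b
            (Finset.mem_erase.mpr ⟨hab, hb⟩)
      · refine sup_le (sup_le le_sup_left ?_) ?_
        · refine iSup_le fun b => iSup_le fun hb => le_sup_of_le_right ?_
          exact le_iSup₂ (f := fun b (_ : b ∈ A) => zT l (z b) (x b)) b (Finset.mem_of_mem_erase hb)
        · refine le_sup_of_le_right ?_
          exact le_iSup₂ (f := fun b (_ : b ∈ A) => zT l (z b) (x b)) a ha
    have h2 := Submodule.finrank_sup_add_finrank_inf_eq (Tot s l (A.erase a) x z) (zT l (z a) (x a))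
    rw [← h1] at h2
    have h3 : finrank K (zT l (z a) (x a)) ≤ L + 1 :=
      (finrank_map_le (tenL (z a) l) (T l (x a))).trans ((finrank_T_le l (x a)).trans hD.le)
    by_cases hz : z a = 0
    · have h4 : zT l (z a) (x a) = ⊥ := by
        rw [eq_bot_iff]
        rintro _ ⟨f, _, rfl⟩
        rw [Submodule.mem_bot]
        funext c
        change z a c.1 * f c.2 = 0
        rw [hz]
        simp
      have h5 : finrank K (zT l (z a) (x a)) = 0 := by
        rw [h4]
        exact finrank_bot K _
      omega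
    · obtain ⟨j, hj⟩ := Function.ne_iff.mp hz
      obtain ⟨c, hc'⟩ := Function.ne_iff.mp hE
      have h4 : (1 : ℕ) ≤ finrank K
          (Tot s l (A.erase a) x z ⊓ zT l (z a) (x a) : Submodule K (Grid (s :: l) → K)) := by
        rw [Nat.one_le_iff_ne_zero]
        intro h0
        rw [Submodule.finrank_eq_zero] at h0
        have h5 : ten (z a) (E l (x a)) ∈
            (Tot s l (A.erase a) x z ⊓ zT l (z a) (x a) : Submodule K (Grid (s :: l) → K)) := by
          refine ⟨mem_sup_left ((le_iSup (fun a => fib s l (x a)) a) ⟨z a, rfl⟩), ?_⟩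
          exact ⟨E l (x a), E_mem_T l (x a), rfl⟩
        rw [h0, Submodule.mem_bot] at h5
        have h6 := congrFun h5 (j, c)
        change z a j * E l (x a) c = 0 at h6
        exact (mul_ne_zero hj hc') h6
      omega

end DropAux

theorem pDrop : S_Drop := by
  intro K _ _ s l L n r m i hD h
  induction i generalizing n m with
  | zero => simpa using h
  | succ i ih =>
    apply ih n m
    apply DropAux.step s l L (n + i) r (m + i * L) hD
    have e : m + (i + 1) * L = m + i * L + L := by ring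
    rw [e] at h
    exact h

end Pool.Agent.Lib.MP_635d71_ag.Fr
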