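import Pool.Agent.Lib.MP_635d71_ag.Fr.Spec
import Pool.Agent.Lib.MP_635d71_ag.AllR
import Pool.Agent.Lib.MP_635d71_ag.Transfer
import Pool.Agent.Lib.MP_635d71_ag.AGLower

/-!
# Free largest factor, module Fam: from lists to families
-/

set_option autoImplicit false

open Module Submodule

namespace Pool.Agent.Lib.MP_635d71_ag.Fr

namespace FamAux

/-- The upper bound. -/
theorem upper (hU : S_UpU) (k : ℕ) (n : Fin k → ℕ) (i : Fin k) (r : ℕ) :
    coneDim n r ≤ ((dimF (n i + 1) (∏ l ∈ Finset.univ.erase i, (n l + 1))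
      (∑ l ∈ Finset.univ.erase i, n l) r : ℕ) : Cardinal) := by
  classical
  have hsum := Finset.add_sum_erase Finset.univ n (Finset.mem_univ i)
  have hprod := Finset.mul_prod_erase Finset.univ (fun l => n l + 1) (Finset.mem_univ i)
  obtain ⟨L, hL⟩ : ∃ L, ∑ l ∈ Finset.univ.erase i, n l = L := ⟨_, rfl⟩
  obtain ⟨P, hP⟩ : ∃ P, ∏ l ∈ Finset.univ.erase i, (n l + 1) = P := ⟨_, rfl⟩
  have h1 := coneDim_le n r
  have h2 := hU k n i r
  rw [hP] at h2 hprod ⊢
  rw [hL] at hsum ⊢
  have e1 : ∑ i, n i + 1 = n i + 1 + L := by omega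
  rw [e1, ← hprod] at h1
  unfold dimF
  split_ifs with hr
  · have hrP : r ≤ P := (lt_of_lt_of_le hr (min_le_left _ _)).le
    have h3 := h2 hrP
    rcases le_total (P - r) L with h | h
    · rw [min_eq_left h]
      have e2 : n i + 1 + P - r = n i + 1 + (P - r) := by omega
      rw [e2] at h3
      exact h3
    · rw [min_eq_right h]
      refine h1.trans ?_
      exact_mod_cast min_le_left _ _
  · rw [mul_comm P]
    exact h1

end FamAux

/-- **Fam.** -/
theorem pFam : S_Lis → S_UpU → S_Fam := by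
  intro hLis hU k n i S hS hiS hmax h1 r
  classical
  refine le_antisymm (FamAux.upper hU k n i r) ?_
  -- sort the three factors
  obtain ⟨i1, m1, l1⟩ := Finset.exists_min_image S n (Finset.card_pos.1 (by omega))
  have c1 := Finset.card_erase_of_mem m1
  obtain ⟨i2, m2, l2⟩ := Finset.exists_min_image (S.erase i1) n (Finset.card_pos.1 (by omega))
  have c2 := Finset.card_erase_of_mem m2
  obtain ⟨i3, m3⟩ : ((S.erase i1).erase i2).Nonempty := Finset.card_pos.1 (by omega)
  have c3 : ((S.erase i1).erase i2) = {i3} := by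
    obtain ⟨x, hx⟩ := Finset.card_eq_one.1 (show ((S.erase i1).erase i2).card = 1 by omega)
    rw [hx, Finset.mem_singleton] at m3
    rw [hx, m3]
  have hSe : S = {i1, i2, i3} := by
    rw [← Finset.insert_erase m1, ← Finset.insert_erase m2, c3]
  have m3S : i3 ∈ S := Finset.mem_of_mem_erase (Finset.mem_of_mem_erase m3)
  have m2S : i2 ∈ S := Finset.mem_of_mem_erase m2
  have h12 : n i1 ≤ n i2 := l1 i2 m2S
  have h23 : n i2 ≤ n i3 := l2 i3 (Finset.mem_of_mem_erase m3)
  have h3i : n i3 ≤ n i := hmax i3 m3S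
  have hk : 1 ≤ k := by
    rcases k with _ | k
    · exact i.elim0
    · omega
  have d21 : i2 ≠ i1 := Finset.ne_of_mem_erase m2
  have d32 : i3 ≠ i2 := Finset.ne_of_mem_erase m3
  have d31 : i3 ≠ i1 := Finset.ne_of_mem_erase (Finset.mem_of_mem_erase m3)
  have di1 : i ≠ i1 := fun h => hiS (h ▸ m1)
  have di2 : i ≠ i2 := fun h => hiS (h ▸ m2S)
  have di3 : i ≠ i3 := fun h => hiS (h ▸ m3S)
  let O := (Finset.univ \ S).erase i
  have hmemS : ∀ j, j ∈ S ↔ j = i1 ∨ j = i2 ∨ j = i3 := fun j => by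
    rw [hSe]; simp only [Finset.mem_insert, Finset.mem_singleton]
  have hmemO : ∀ j, j ∈ O.toList ↔ j ≠ i ∧ j ∉ S := fun j => by
    simp only [Finset.mem_toList, O, Finset.mem_erase, Finset.mem_sdiff, Finset.mem_univ, true_and]
  have hperm : (List.finRange k).Perm (i :: (O.toList ++ [i3, i1, i2])) := by
    rw [List.perm_ext_iff_of_nodup (List.nodup_finRange k)]
    · intro j
      simp only [List.mem_finRange, List.mem_append, hmemO, hmemS, List.mem_cons, true_iff,
        List.not_mem_nil, or_false]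
      tauto
    · rw [List.nodup_cons, List.nodup_append]
      refine ⟨?_, Finset.nodup_toList _, ?_, ?_⟩
      · simp only [List.mem_append, hmemO, List.mem_cons, List.not_mem_nil, or_false, not_or]
        exact ⟨fun hc => hc.1 rfl, di3, di1, di2⟩
      · simp [d31, d32, d21.symm]
      · intro a ha b hb hab
        subst hab
        rw [hmemO, hmemS] at ha
        simp only [List.mem_cons, List.not_mem_nil, or_false] at hb
        tauto
  let g : Fin k → ℕ := fun i => n i + 1
  have hperm2 : ((i :: (O.toList ++ [i3, i1, i2])).map g).Perm (lst n) := by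
    rw [lst_eq, List.ofFn_eq_map]
    exact (hperm.map g).symm
  have hperm3 : ((n i + 1) :: (O.toList.map g ++ [n i3 + 1, n i1 + 1, n i2 + 1])).Perm
      (lst n) := by
    rw [List.map_cons, List.map_append] at hperm2
    exact hperm2
  have hDL : D ((n i + 1) :: (O.toList.map g ++ [n i3 + 1, n i1 + 1, n i2 + 1])) =
      ∑ i, n i + 1 := by rw [D_perm hperm3, D_lst]
  have hpL : ((n i + 1) :: (O.toList.map g ++ [n i3 + 1, n i1 + 1, n i2 + 1])).prod =
      ∏ i, (n i + 1) := by rw [hperm3.prod_eq, prod_lst]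
  have hsum := Finset.add_sum_erase Finset.univ n (Finset.mem_univ i)
  have hprod := Finset.mul_prod_erase Finset.univ (fun l => n l + 1) (Finset.mem_univ i)
  obtain ⟨L, hL⟩ : ∃ L, ∑ l ∈ Finset.univ.erase i, n l = L := ⟨_, rfl⟩
  obtain ⟨P, hP⟩ : ∃ P, ∏ l ∈ Finset.univ.erase i, (n l + 1) = P := ⟨_, rfl⟩
  rw [hL] at h1 hsum ⊢
  rw [hP] at hprod ⊢
  have hDO : D (O.toList.map g ++ [n i3 + 1, n i1 + 1, n i2 + 1]) = L + 1 := by
    have h4 : D ((n i + 1) :: (O.toList.map g ++ [n i3 + 1, n i1 + 1, n i2 + 1])) =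
      (n i + 1 - 1) + D (O.toList.map g ++ [n i3 + 1, n i1 + 1, n i2 + 1]) := rfl
    rw [hDL] at h4
    omega
  have hPO : (O.toList.map g ++ [n i3 + 1, n i1 + 1, n i2 + 1]).prod = P := by
    rw [List.prod_cons, ← hprod] at hpL
    exact Nat.eq_of_mul_eq_mul_left (Nat.succ_pos _) hpL
  have key := hLis ℂ (O.toList.map g) (n i + 1) (n i3 + 1) (n i1 + 1) (n i2 + 1) L r two_ne_zero
    (by
      intro a ha
      obtain ⟨i, _, rfl⟩ := List.mem_map.1 ha
      simp only [g]
      omega) (by omega) (by omega) (by omega) hDO (h1 i1 m1)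
  rw [hPO] at key
  have key2 := key.of_equ (Equ.of_perm hperm3)
  obtain ⟨x, hx⟩ := exists_vecs hk n key2
  refine le_trans ?_ (le_coneDim x)
  exact_mod_cast hx

end Pool.Agent.Lib.MP_635d71_ag.Fr
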