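import Pool.Agent.Lib.MP_635d71_ag.Fr.SpecB
import Pool.Agent.Lib.MP_635d71_ag.FinalK

/-!
# Free largest factor, many factors: the theorem for families
-/

set_option autoImplicit false

open Module Submodule

namespace Pool.Agent.Lib.MP_635d71_ag.Fr

namespace FamBAux

/-- the upper bound -/
theorem upper (hU : S_UpU) {k : ℕ} (n : Fin k → ℕ) (i : Fin k) (r : ℕ) :
    coneDim n r ≤ ((dimF (n i + 1) (∏ l ∈ Finset.univ.erase i, (n l + 1))
      (∑ l ∈ Finset.univ.erase i, n l) r : ℕ) : Cardinal) := by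
  have h1 := coneDim_le n r
  have hs : ∑ j, n j + 1 = (n i + 1) + ∑ l ∈ Finset.univ.erase i, n l := by
    have := Finset.add_sum_erase Finset.univ n (Finset.mem_univ i)
    omega
  have hp : ∏ j, (n j + 1) = (n i + 1) * ∏ l ∈ Finset.univ.erase i, (n l + 1) :=
    (Finset.mul_prod_erase Finset.univ (fun j => n j + 1) (Finset.mem_univ i)).symm
  rw [hs, hp] at h1
  unfold dimF
  split_ifs with hr
  · have hrP : r ≤ ∏ l ∈ Finset.univ.erase i, (n l + 1) := (hr.trans_le (min_le_left _ _)).le
    rcases le_total (∏ l ∈ Finset.univ.erase i, (n l + 1) - r)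
      (∑ l ∈ Finset.univ.erase i, n l) with h2 | h2
    · rw [min_eq_left h2]
      refine (hU k n i r hrP).trans ?_
      rw [Nat.add_sub_assoc hrP]
    · rw [min_eq_right h2]
      refine h1.trans ?_
      exact_mod_cast min_le_left _ _
  · refine h1.trans ?_
    rw [mul_comm (n i + 1) (∏ l ∈ Finset.univ.erase i, (n l + 1))]

/-- the lower bound -/
theorem lower (hL : S_LisB) {k : ℕ} (n : Fin k → ℕ) (i : Fin k) (hk : 1800 ≤ k)
    (hn : ∀ j, 1 ≤ n j) (hpow : (∑ l ∈ Finset.univ.erase i, n l + 1) ^ 12 ≤ 2 ^ k) (r : ℕ) :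
    ((dimF (n i + 1) (∏ l ∈ Finset.univ.erase i, (n l + 1))
      (∑ l ∈ Finset.univ.erase i, n l) r : ℕ) : Cardinal) ≤ coneDim n r := by
  classical
  have hperm : (List.finRange k).Perm (i :: (Finset.univ.erase i).toList) := by
    rw [List.perm_ext_iff_of_nodup (List.nodup_finRange k)]
    · intro j
      simp only [List.mem_finRange, List.mem_cons, Finset.mem_toList, Finset.mem_erase,
        Finset.mem_univ, and_true, true_iff]
      tauto
    · rw [List.nodup_cons]
      refine ⟨?_, Finset.nodup_toList _⟩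
      simp
  let g : Fin k → ℕ := fun j => n j + 1
  set Y := (Finset.univ.erase i).toList.map g with hYdef
  have hperm3 : ((n i + 1) :: Y).Perm (lst n) := by
    rw [lst_eq, List.ofFn_eq_map]
    have h1 := (hperm.map g).symm
    rw [List.map_cons] at h1
    exact h1
  have hDY : D Y = ∑ l ∈ Finset.univ.erase i, n l + 1 := by
    rw [hYdef, D_map n, Finset.sum_map_toList]
  have hpY : Y.prod = ∏ l ∈ Finset.univ.erase i, (n l + 1) := by
    rw [hYdef, Finset.prod_map_toList]
  have hlen : Y.length + 1 = k := by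
    rw [hYdef, List.length_map, Finset.length_toList, Finset.card_erase_of_mem (Finset.mem_univ i),
      Finset.card_univ, Fintype.card_fin]
    omega
  have hY2 : ∀ a ∈ Y, 2 ≤ a := by
    intro a ha
    obtain ⟨j, _, rfl⟩ := List.mem_map.1 ha
    have := hn j
    simp only [g]
    omega
  have key : Reach ℂ ((n i + 1) :: Y) r (dimF (n i + 1) Y.prod (D Y - 1) r) :=
    hL ℂ (n i + 1) Y r (by have := hn i; omega) hY2 (by omega) (by rw [hlen, hDY]; exact hpow)
  have key2 := key.of_equ (Equ.of_perm hperm3)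
  rw [hDY, hpY, Nat.add_sub_cancel] at key2
  obtain ⟨x, hx⟩ := exists_vecs (by omega) n key2
  refine le_trans ?_ (le_coneDim x)
  exact_mod_cast hx

end FamBAux

theorem pFamB : S_LisB → S_UpU → S_FamB := fun hL hU _ n i hk hn hpow r =>
  le_antisymm (FamBAux.upper hU n i r) (FamBAux.lower hL n i hk hn hpow r)

end Pool.Agent.Lib.MP_635d71_ag.Fr
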