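import Pool.Agent.Lib.MP_635d71_ag.Fr.Spec

/-!
# Free largest factor: the beginning of the induction for three large factors
-/

set_option autoImplicit false

open Module Submodule

namespace Pool.Agent.Lib.MP_635d71_ag.Fr

namespace Fin1Aux

/-- A lower bound for `L`. -/
theorem L_ge (s1 s2 s3 L DO : ℕ) (h12 : s1 ≤ s2) (h23 : s2 ≤ s3) (hDO : 1 ≤ DO)
    (hD : (L + 1) + 1 = DO + ((s3 - 1) + ((s1 - 1) + ((s2 - 1) + 1))))
    (h : 1600 * (L + 1) ≤ s1 ^ 2) : 14000 ≤ L ∧ 4800 ≤ s1 := by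
  have h1 : 3 * s1 ≤ L + 3 := by omega
  have h2 : 4800 ≤ s1 := by
    by_contra hc
    have h3 : s1 ≤ 4799 := by omega
    rcases Nat.eq_zero_or_pos s1 with h0 | h0
    · rw [h0] at h
      simp at h
    · have h4 : s1 ^ 2 ≤ 4799 * s1 := by
        rw [pow_two]
        exact Nat.mul_le_mul_right _ h3
      have h5 : 1600 * (3 * s1) ≤ 1600 * (L + 3) := Nat.mul_le_mul_left _ h1
      have h6 : s1 ≤ 3200 := by omega
      have h7 : s1 ^ 2 ≤ 3200 * s1 := by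
        rw [pow_two]
        exact Nat.mul_le_mul_right _ h6
      have h8 : s1 ≤ 2 := by omega
      have h9 : s1 ^ 2 ≤ 2 ^ 2 := Nat.pow_le_pow_left h8 2
      omega
  exact ⟨by omega, h2⟩

/-- The numbers. -/
theorem nums (L c P Ωc : ℕ) (hL : 14000 ≤ L) (hc : L ≤ c) (h3 : 3 * c ≤ P + 3)
    (hΩ : 4 * Ωc ≤ P) :
    (c / L - 1) * (2 * (L + 1)) ≤ P + 2 * (L + 1) ∧ 2 * c + Ωc ≤ P := by
  constructor
  · have h1 : c / L * L ≤ c := Nat.div_mul_le_self c L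
    have h2 : (c / L - 1) * L ≤ c - L := by
      rw [Nat.sub_mul, one_mul]
      omega
    have h4 : (c / L - 1) * (2 * (L + 1)) = 2 * ((c / L - 1) * L) + 2 * (c / L - 1) := by ring
    have h5 : (c / L - 1) * 2 ≤ (c / L - 1) * L := Nat.mul_le_mul_left _ (by omega)
    omega
  · omega

/-- The linear system. -/
theorem ls (K : Type) [Field K] [Infinite K] (hArcCard : S_ArcCard) (hLab : S_Lab) (hCx : S_Cx)
    (hPSA : S_PSA) (hBx : S_Bx) (hLift : S_Lift) (hLSy : S_LSy) (O : List ℕ)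
    (s3 s1 s2 L X R s n c : ℕ) (o : Grid O) (hD : D (O ++ [s3, s1, s2]) = L + 1)
    (hXodd : X % 2 = 1) (hLX : L / 8 + 1 ≤ X * X) (hLR : 2 * L ≤ R * R) (hR : 1 ≤ R)
    (h7 : 7 * R ≤ L - L / 4 - 1) (h3 : 3 * R + X * X ≤ L - L / 4 - 1) (hA1 : 16 * X + R ≤ s1)
    (hA2 : 16 * X + R ≤ s2) (hA3 : 16 * X + R ≤ s3) (hL : 1 ≤ L)
    (hs1 : 1 ≤ s) (hsL : s ≤ L) (hLc : L ≤ c) (hc2 : c < 2 * L) (hsn : s ≤ n) (hn2 : n ≤ 2 * s) :
    LS K (O ++ [s3, s1, s2]) (cset [s3, s1, s2] O o (Fset s3 s1 s2 (16 * X + R))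
      (Qset s3 s1 s2 (16 * X + R))) n c (arc L c n) := by
  obtain ⟨b0, h, hdat⟩ := hLab L c n s X R hs1 hsn hL hLc hc2 hR h7 h3
  have hB : s / 8 + 1 ≤ X * X := by
    have : s / 8 ≤ L / 8 := Nat.div_le_div_right hsL
    omega
  obtain ⟨σ, τ, lam, ctx⟩ := hCx s3 s1 s2 L c n (s / 8 + 1) X R b0 h hdat (by omega) hB hXodd
    (by omega) (by omega) (by omega) hA3 hA1 hA2
  have hP := hPSA s3 s1 s2 L c n (s / 8 + 1) X R b0 h σ τ lam ctx
  obtain ⟨hb1, hb2⟩ := hBx s3 s1 s2 L c n (s / 8 + 1) X R b0 h σ τ lam ctx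
  obtain ⟨lam', hS⟩ := hLift [s3, s1, s2] O o n c (arc L c n) σ τ _ _ lam
    (cset [s3, s1, s2] O o (Fset s3 s1 s2 (16 * X + R)) (Qset s3 s1 s2 (16 * X + R))) hP
    (fun i => by rw [hArcCard L c n i (by omega) hLc, hD]) (by omega) (by omega)
    (fun i g hg a p hp => by
      rw [mem_cset, firstPart_app, lastPart_app]
      exact Or.inr ⟨rfl, hb2 i g hg a hp⟩)
    (fun i a p hp o' ho' => by
      rw [mem_cset, firstPart_app, lastPart_app]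
      exact Or.inl ⟨ho', hb1 i a hp⟩)
  exact hLSy K _ _ n c _ _ _ _ lam' hS

end Fin1Aux

theorem pFin1 : S_Near → S_ArcCard → S_Lab → S_Num → S_Cx → S_PSA → S_Bx → S_Lift → S_LSy →
    S_GO → S_Fin1 := by
  intro hNear hArcCard hLab hNum hCx hPSA hBx hLift hLSy hGO
  intro K _ _ O s3 s1 s2 L c r hO h12 h23 hD h16 hLc h3c hrc
  have hDa := D_append O [s3, s1, s2]
  have hDO := one_le_D O
  rw [hD] at hDa
  obtain ⟨hL, hs1⟩ := Fin1Aux.L_ge s1 s2 s3 L (D O) h12 h23 hDO hDa h16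
  obtain ⟨X, R, hXodd, hLX, hLR, hR, hA, h7, h3⟩ := hNum L hL
  have hA1 : 16 * X + R ≤ s1 := by
    have h1 : (16 * X + R) ^ 2 ≤ s1 ^ 2 := by
      refine hA.trans (le_trans ?_ h16)
      exact Nat.mul_le_mul_right _ (by norm_num)
    exact (Nat.pow_le_pow_iff_left (by norm_num)).1 h1
  obtain ⟨o⟩ := nonempty_grid O hO
  obtain ⟨hG, hΩ⟩ := hGO K O s3 s1 s2 L (16 * X + R) o hO h12 h23 hD hA h16
  obtain ⟨hn1, hn2⟩ := Fin1Aux.nums L c _ _ hL hLc h3c hΩ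
  refine hNear K (O ++ [s3, s1, s2]) L c r hD (by omega) hLc hrc ?_
  intro s n c' hs hsL hLc' hc' hsn hn hnc
  exact ⟨_, hG _ hn1, hn2, Fin1Aux.ls K hArcCard hLab hCx hPSA hBx hLift hLSy O s3 s1 s2 L X R s n c'
    o hD hXodd hLX hLR hR h7 h3 hA1 (hA1.trans h12) ((hA1.trans h12).trans h23) (by omega) hs hsL
    hLc' hc' hsn hn⟩

end Pool.Agent.Lib.MP_635d71_ag.Fr
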