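import Pool.Agent.Lib.MP_635d71_ag.Fr.Spec

/-!
# Fr/FtL: the labels of the flexible words
-/

set_option autoImplicit false

open Module Submodule

namespace Pool.Agent.Lib.MP_635d71_ag.Fr

namespace FtLAux

theorem div_eq {X k y : ℕ} (h1 : k * X ≤ y) (h2 : y < k * X + X) : y / X = k := by
  rcases Nat.eq_zero_or_pos X with h0 | h0
  · subst h0
    omega
  · apply Nat.div_eq_of_lt_le
    · exact h1
    · rw [Nat.add_mul, Nat.one_mul]
      exact h2

theorem lt_top {X k y : ℕ} (hk : k < 16) (h2 : y < k * X + X) : y < 16 * X := by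
  have h3 : (k + 1) * X ≤ 16 * X := Nat.mul_le_mul_right X hk
  rw [Nat.add_mul, Nat.one_mul] at h3
  omega

theorem lamN_eq {X R k v : ℕ} (b0 : ℕ → ℕ) (h : ℕ → ℕ → ℕ) (y : Fin 3 → ℕ) (d : Fin 3)
    (hk : k < 16) (h1 : ∀ e, e ≠ d → k * X ≤ y e ∧ y e < k * X + X) (h2 : y d = 16 * X + v) :
    lamN X R b0 h y = flab R (b0 k) d v := by
  have hlt : ∀ e, e ≠ d → ¬ 16 * X ≤ y e := fun e he => by
    have := lt_top hk (h1 e he).2
    omega
  have hdv : ∀ e, e ≠ d → y e / X = k := fun e he => div_eq (h1 e he).1 (h1 e he).2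
  unfold lamN flab
  fin_cases d
  · have e1 := hdv 1 (by decide)
    simp only [Fin.zero_eta, Fin.isValue] at h2 ⊢
    rw [if_pos (by omega), e1, h2]
    simp
  · have e0 := hdv 0 (by decide)
    have l0 := hlt 0 (by decide)
    simp only [Fin.mk_one, Fin.isValue] at h2 ⊢
    rw [if_neg l0, if_pos (by omega), e0, h2]
    simp
  · have e0 := hdv 0 (by decide)
    have l0 := hlt 0 (by decide)
    have l1 := hlt 1 (by decide)
    simp only [Fin.reduceFinMk, Fin.isValue] at h2 ⊢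
    rw [if_neg l0, if_neg l1, if_pos (by omega), e0, h2]
    simp

end FtLAux

open FtLAux in
theorem pFtL : S_Sg → S_Tg → S_FtL := by
  intro hSg hTg s3 s1 s2 L c n B X R b0 h σ τ lam hC i d v g hg hgd hv
  have hR : 1 ≤ R := by omega
  have hk : i.val / B < 16 := by
    rw [Nat.div_lt_iff_lt_mul hC.B1]
    exact lt_of_lt_of_le i.2 hC.nB
  have hs := (hSg X B i.val i.val hC.B1 hC.BX).1
  have ht := (hTg (16 * X) R hR).2.2 (b0 (i.val / B)) v d hv
  have hN : lamN X R b0 h (ltr g) = flab R (b0 (i.val / B)) d v := by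
    refine lamN_eq b0 h (ltr g) d hk (fun e he => ?_) hgd
    rw [hg e he]
    exact hs e
  have hd3 : (b0 (i.val / B) + d.val + 1) * R ≤ (b0 (i.val / B) + 3) * R :=
    Nat.mul_le_mul_right R (by have := d.2; omega)
  have hd0 : b0 (i.val / B) * R ≤ (b0 (i.val / B) + d.val) * R :=
    Nat.mul_le_mul_right R (by omega)
  have hlt : flab R (b0 (i.val / B)) d v < (b0 (i.val / B) + 3) * R :=
    lt_of_lt_of_le ht.2.2 hd3
  have hval : (lam g).val = flab R (b0 (i.val / B)) d v := by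
    rw [hC.hlam g (by rw [hN]; exact lt_of_lt_of_le hlt (hC.lab.blc i)), hN]
  refine ⟨hval, ?_, ?_⟩
  · rw [hC.hτ, hval]
    exact ht.1
  · refine hC.lab.blk i (lam g) ?_ ?_
    · rw [hval]
      exact hd0.trans ht.2.1
    · rw [hval]
      exact hlt

end Pool.Agent.Lib.MP_635d71_ag.Fr
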