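import Pool.Agent.Lib.MP_635d71_ag.Fr.Spec

/-!
# Free largest factor: tuples with tangent spaces in all points
-/

set_option autoImplicit false

open Module Submodule

namespace Pool.Agent.Lib.MP_635d71_ag.Fr

namespace FullAux

variable {K : Type} [Field K]

theorem fib_le {q : ℕ} {l : List ℕ} (z : Fin q → K) (x : Coord l → K) :
    fib q l x ≤ T (q :: l) (cons z x) := by
  rintro _ ⟨v, rfl⟩
  exact ten_E_mem_T (cons z x : Coord (q :: l) → K) v

theorem zT_le {q : ℕ} {l : List ℕ} (z : Fin q → K) (x : Coord l → K) :
    zT l z x ≤ T (q :: l) (cons z x) := by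
  rintro _ ⟨f, hf, rfl⟩
  exact ten_mem_T (cons z x : Coord (q :: l) → K) hf

end FullAux

/-- **Full.**  If all the points have tangent spaces, the sum of the fibres and of the tangent
spaces is contained in the sum of the tangent spaces at the tuples `(z a, x a)`. -/
theorem pFull : S_Full := by
  intro K _ q l r m h
  obtain ⟨A, x, z, -, hm⟩ := h
  refine ⟨fun a => cons (z a) (x a), hm.trans ?_⟩
  refine Submodule.finrank_mono ?_
  refine sup_le (iSup_le fun a => ?_) (iSup_le fun a => iSup_le fun _ => ?_)
  · exact (FullAux.fib_le (z a) (x a)).trans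
      (le_iSup (fun b => T (q :: l) (cons (z b) (x b) : Coord (q :: l) → K)) a)
  · exact (FullAux.zT_le (z a) (x a)).trans
      (le_iSup (fun b => T (q :: l) (cons (z b) (x b) : Coord (q :: l) → K)) a)

end Pool.Agent.Lib.MP_635d71_ag.Fr
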