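import Pool.Agent.Lib.MP_635d71_ag.Fr.Spec
import Pool.Agent.Lib.MP_635d71_ag.GoodNum

/-!
# The set `Qset` is good for three factors
-/

set_option autoImplicit false

open Module Submodule

namespace Pool.Agent.Lib.MP_635d71_ag.Fr

namespace GBAux

/-- The numbers. -/
theorem num (A g s1 s2 T b β M : ℕ) (h12 : s1 ≤ s2) (h23 : s2 ≤ A + g) (h5 : 5 * A ≤ s1)
    (h1000 : 1000 ≤ s1) (hM : M + 2 = s1 + s2 + (A + g)) (hT : 2 * (M + 2) ≤ T + 4)
    (hb : b * T ≤ (A + g) * (s1 * s2) + T) (hβ : β * g ≤ b) :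
    A + 2 * β + 2 ≤ s1 ∧ A * (s1 + s2) + b ≤ s1 * s2 ∧
      A ^ 2 + (β + 1) * (s1 + s2) + (2 * β + 1) + b ≤ s1 * s2 := by
  obtain ⟨s3, hs3⟩ : ∃ s3, s3 = A + g := ⟨_, rfl⟩
  rw [← hs3] at h23 hM hb
  obtain ⟨u, hu⟩ : ∃ u, u = s1 * s2 := ⟨_, rfl⟩
  rw [← hu] at hb ⊢
  -- `2 b M ≤ s3 u + 2 M`
  have e1 : 2 * b * M ≤ s3 * u + 2 * M := by
    rcases Nat.eq_zero_or_pos b with h0 | h0
    · rw [h0]; simp
    · obtain ⟨b', rfl⟩ : ∃ b', b = b' + 1 := ⟨b - 1, by omega⟩
      have h2 : b' * T + T ≤ s3 * u + T := by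
        calc b' * T + T = (b' + 1) * T := by ring
          _ ≤ _ := hb
      have h3 : b' * (2 * M) ≤ b' * T := Nat.mul_le_mul_left _ (by omega)
      have h4 : 2 * (b' + 1) * M = b' * (2 * M) + 2 * M := by ring
      omega
  have hs3M : s3 ≤ M := by omega
  have hM3 : M ≤ 3 * s3 := by omega
  have h4g : 4 * s3 ≤ 5 * g := by omega
  have hs30 : 0 < s3 := by omega
  -- `8 β M ≤ 5 u + 30`
  have e2 : 8 * β * M ≤ 5 * u + 30 := by
    have h2 : β * (4 * s3) ≤ 5 * b := by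
      calc β * (4 * s3) ≤ β * (5 * g) := Nat.mul_le_mul_left _ h4g
        _ = 5 * (β * g) := by ring
        _ ≤ 5 * b := Nat.mul_le_mul_left _ hβ
    have h3 : s3 * (8 * β * M) ≤ s3 * (5 * u + 30) := by
      calc s3 * (8 * β * M) = (β * (4 * s3)) * (2 * M) := by ring
        _ ≤ (5 * b) * (2 * M) := Nat.mul_le_mul_right _ h2
        _ = 5 * (2 * b * M) := by ring
        _ ≤ 5 * (s3 * u + 2 * M) := Nat.mul_le_mul_left _ e1
        _ = 5 * (s3 * u) + 10 * M := by ring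
        _ ≤ 5 * (s3 * u) + 10 * (3 * s3) := by omega
        _ = s3 * (5 * u + 30) := by ring
    exact Nat.le_of_mul_le_mul_left h3 hs30
  -- `2 b ≤ u + 2`
  have e3 : 2 * b ≤ u + 2 := by
    rcases Nat.eq_zero_or_pos b with h0 | h0
    · omega
    · obtain ⟨b', rfl⟩ : ∃ b', b = b' + 1 := ⟨b - 1, by omega⟩
      have h2 : b' * T + T ≤ s3 * u + T := by
        calc b' * T + T = (b' + 1) * T := by ring
          _ ≤ _ := hb
      have h3 : b' * (2 * s3) ≤ b' * T := Nat.mul_le_mul_left _ (by omega)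
      have h4 : s3 * (2 * b') ≤ s3 * u := by
        calc s3 * (2 * b') = b' * (2 * s3) := by ring
          _ ≤ s3 * u := by omega
      have h5 := Nat.le_of_mul_le_mul_left h4 hs30
      omega
  have hu1 : 1000 * s2 ≤ u := by
    rw [hu]; exact Nat.mul_le_mul_right _ h1000
  have hu2 : s1 * s1 ≤ u := by
    rw [hu]; exact Nat.mul_le_mul_left _ h12
  refine ⟨?_, ?_, ?_⟩
  · have h2 : s2 * (16 * β) ≤ s2 * (5 * s1 + 1) := by
      calc s2 * (16 * β) = 8 * β * (2 * s2) := by ring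
        _ ≤ 8 * β * M := Nat.mul_le_mul_left _ (by omega)
        _ ≤ 5 * u + 30 := e2
        _ ≤ 5 * u + s2 := by omega
        _ = s2 * (5 * s1 + 1) := by rw [hu]; ring
    have h3 := Nat.le_of_mul_le_mul_left h2 (by omega)
    omega
  · have h2 : 5 * (A * (s1 + s2)) ≤ 2 * u := by
      calc 5 * (A * (s1 + s2)) = (5 * A) * (s1 + s2) := by ring
        _ ≤ s1 * (s1 + s2) := Nat.mul_le_mul_right _ h5
        _ ≤ s1 * (s2 + s2) := Nat.mul_le_mul_left _ (by omega)
        _ = 2 * u := by rw [hu]; ring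
    omega
  · have h2 : 25 * A ^ 2 ≤ u := by
      calc 25 * A ^ 2 = (5 * A) * (5 * A) := by ring
        _ ≤ s1 * s1 := Nat.mul_le_mul h5 h5
        _ ≤ u := hu2
    have hM0 : 0 < M := by omega
    have h3 : (8 * M) * (A ^ 2 + (β + 1) * (s1 + s2) + (2 * β + 1) + b) ≤ (8 * M) * u := by
      have k1 : 25 * (8 * M * A ^ 2) ≤ 8 * (M * u) := by
        calc 25 * (8 * M * A ^ 2) = (8 * M) * (25 * A ^ 2) := by ring
          _ ≤ (8 * M) * u := Nat.mul_le_mul_left _ h2
          _ = 8 * (M * u) := by ring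
      have k2 : 8 * β * M * (s1 + s2) ≤ (5 * u + 30) * (s1 + s2) := Nat.mul_le_mul_right _ e2
      have k3 : 8 * M * (s1 + s2) * 60 ≤ M * u := by
        calc 8 * M * (s1 + s2) * 60 ≤ 8 * M * (2 * s2) * 60 := by
              exact Nat.mul_le_mul_right _ (Nat.mul_le_mul_left _ (by omega))
          _ = M * (960 * s2) := by ring
          _ ≤ M * u := Nat.mul_le_mul_left _ (by omega)
      have k4 : (5 * u + 30) * (s1 + s2) + 4 * (s3 * u) ≤ 5 * (M * u) + 10 * u + 30 * M := by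
        have : (5 * u + 30) * (s1 + s2) + 5 * (s3 * u) = 5 * ((s1 + s2 + s3) * u) +
          30 * (s1 + s2) := by ring
        rw [← hM] at this
        have h6 : 5 * ((M + 2) * u) = 5 * (M * u) + 10 * u := by ring
        have h7 : 30 * (s1 + s2) ≤ 30 * M := by omega
        omega
      have k5 : 1000 * u ≤ M * u := Nat.mul_le_mul_right _ (by omega)
      have k6 : 1000 * M ≤ M * u := by
        rw [Nat.mul_comm 1000 M]; exact Nat.mul_le_mul_left _ (by omega)
      have k7 : (8 * M) * (A ^ 2 + (β + 1) * (s1 + s2) + (2 * β + 1) + b) =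
          8 * M * A ^ 2 + 8 * β * M * (s1 + s2) + 8 * M * (s1 + s2) + 2 * (8 * β * M) + 8 * M +
            4 * (2 * b * M) := by ring
      have k8 : (8 * M) * u = 8 * (M * u) := by ring
      rw [k7, k8]
      omega
    exact Nat.le_of_mul_le_mul_left h3 (by omega)

end GBAux

open GBAux in
theorem pGB : S_Car → S_GB := by
  intro hCar K _ _ A g s1 s2 T b h12 h23 h5 h1000 hT hb
  obtain ⟨_, _, _, hsl⟩ := hCar (A + g) s1 s2 A
  obtain ⟨M, hM⟩ : ∃ M, M + 2 = s1 + s2 + (A + g) := ⟨s1 + s2 + (A + g) - 2, by omega⟩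
  obtain ⟨n1, n2, n3⟩ := num A g s1 s2 T b (b / g) M h12 h23 h5 h1000 hM (by omega) hb
    (Nat.div_mul_le_self b g)
  obtain ⟨β, hβ1, hβ2⟩ := exists_split_fin g b (by omega)
  obtain ⟨g', rfl⟩ : ∃ g', g = g' + 2 := ⟨g - 2, by omega⟩
  set β0 := b / (g' + 2) with hβ0
  have key := base_flow (K := K) A (g' + 2) s1 s2 A β (finRotate (g' + 2))
    (fun i h => by
      rw [finRotate_apply] at h
      have h5 : (1 : Fin (g' + 2)) = 0 := by
        have := congrArg (fun x => x - i) h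
        simp at this
      exact absurd h5 (by simp))
    (Qset (A + (g' + 2)) s1 s2 A)
    (fun i => ((hsl (Fin.natAdd A i)).2 (by simp)).2)
    (fun i => by
      have e1 := (hβ2 i).2
      have e2 := (hβ2 ((finRotate (g' + 2)).symm i)).2
      omega)
    (fun i => by
      have e1 := (hβ2 i).2
      have e2 := (hβ2 ((finRotate (g' + 2)).symm i)).2
      omega)
    (fun i => by
      rw [hβ1]
      have := (hsl (Fin.castAdd (g' + 2) i)).1
      omega)
    (fun i => by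
      rw [hβ1]
      have e0 := ((hsl (Fin.natAdd A i)).2 (by simp)).1
      have e1 := hβ2 i
      have e2 := hβ2 ((finRotate (g' + 2)).symm i)
      set x := β i
      set y := β ((finRotate (g' + 2)).symm i)
      obtain ⟨c, hc⟩ : ∃ c, s1 + s2 = x + c := ⟨s1 + s2 - x, by omega⟩
      have e3 : x * (s1 + s2 - x) + x ^ 2 = x * (s1 + s2) := by
        rw [hc, Nat.add_sub_cancel_left]; ring
      have e4 : y ^ 2 ≤ (β0 + 1) ^ 2 := Nat.pow_le_pow_left e2.2 2
      have e5 : β0 ^ 2 ≤ x ^ 2 := Nat.pow_le_pow_left e1.1 2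
      have e6 : x * (s1 + s2) ≤ (β0 + 1) * (s1 + s2) := Nat.mul_le_mul_right _ e1.2
      have e7 : (β0 + 1) ^ 2 = β0 ^ 2 + (2 * β0 + 1) := by ring
      omega)
  rwa [hβ1] at key

end Pool.Agent.Lib.MP_635d71_ag.Fr
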