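import Pool.Agent.Lib.MP_635d71_ag.Fr.Spec

/-!
# Free largest factor: the good set for all formats
-/

set_option autoImplicit false

open Module Submodule

namespace Pool.Agent.Lib.MP_635d71_ag.Fr

namespace GOAux

theorem big (s1 s2 s3 L : ℕ) (h12 : s1 ≤ s2) (h23 : s2 ≤ s3) (hL : s3 + s1 + s2 ≤ L + 3)
    (h : 1600 * (L + 1) ≤ s1 ^ 2) : 1000 ≤ s1 := by
  by_contra hc
  have h1 : s1 ≤ 999 := by omega
  have h2 : s1 ^ 2 ≤ 999 * s1 := by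
    rw [pow_two]
    exact Nat.mul_le_mul_right _ h1
  omega

theorem small (s1 L A : ℕ) (hA : A ^ 2 ≤ 55 * (L + 1)) (h : 1600 * (L + 1) ≤ s1 ^ 2) :
    1600 * A ^ 2 ≤ 55 * s1 ^ 2 ∧ 5 * A ≤ s1 := by
  have h1 : 1600 * A ^ 2 ≤ 55 * s1 ^ 2 := by omega
  refine ⟨h1, ?_⟩
  have h2 : (5 * A) ^ 2 ≤ s1 ^ 2 := by
    have h3 : (5 * A) ^ 2 = 25 * A ^ 2 := by ring
    omega
  exact (Nat.pow_le_pow_iff_left two_ne_zero).1 h2

theorem key (s1 s2 s3 A Q F : ℕ) (h12 : s1 ≤ s2) (h23 : s2 ≤ s3) (h5 : 5 * A ≤ s1)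
    (hA : 1600 * A ^ 2 ≤ 55 * s1 ^ 2) (hQ : Q ≤ A ^ 2 * (s1 + s2 + s3)) (hF : F ≤ A ^ 3) :
    8 * (Q + F) ≤ s3 * (s1 * s2) := by
  have h1 : Q + F ≤ A ^ 2 * (s1 + s2 + s3 + A) := by
    have h2 : A ^ 2 * (s1 + s2 + s3 + A) = A ^ 2 * (s1 + s2 + s3) + A ^ 3 := by ring
    omega
  have h3 : 5 * (s1 + s2 + s3 + A) ≤ 16 * s3 := by omega
  have h4 : (1600 * A ^ 2) * (5 * (s1 + s2 + s3 + A)) ≤ (55 * s1 ^ 2) * (16 * s3) :=
    Nat.mul_le_mul hA h3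
  have h6 : s1 ^ 2 * s3 ≤ s3 * (s1 * s2) := by
    calc s1 ^ 2 * s3 = s3 * (s1 * s1) := by ring
      _ ≤ s3 * (s1 * s2) := Nat.mul_le_mul_left _ (Nat.mul_le_mul_left _ h12)
  have h7 : (1600 * A ^ 2) * (5 * (s1 + s2 + s3 + A)) = 8000 * (A ^ 2 * (s1 + s2 + s3 + A)) := by
    ring
  have h8 : (55 * s1 ^ 2) * (16 * s3) = 880 * (s1 ^ 2 * s3) := by ring
  omega

end GOAux

open GOAux in
theorem pGO : S_Car → S_GB → S_GO := by
  intro hCar hGB K _ _ O s3 s1 s2 L A o hO h12 h23 hD hA hL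
  have hs1 : 1 ≤ s1 := by
    rcases Nat.eq_zero_or_pos s1 with h | h
    · rw [h] at hL
      omega
    · exact h
  have hDz : D [s3, s1, s2] = (s3 - 1) + ((s1 - 1) + ((s2 - 1) + 1)) := rfl
  have hD2 := D_append O [s3, s1, s2]
  have hO1 := one_le_D O
  have hS : s3 + s1 + s2 ≤ L + 3 := by omega
  have h1000 := big s1 s2 s3 L h12 h23 hS hL
  obtain ⟨hA2, h5⟩ := small s1 L A hA hL
  obtain ⟨hF, hQ, hFQ, -⟩ := hCar s3 s1 s2 A
  have hk := key s1 s2 s3 A _ _ h12 h23 h5 hA2 hQ hF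
  have hz : [s3, s1, s2].prod = s3 * (s1 * s2) := by simp
  constructor
  · intro b hb
    refine good_ind (K := K) [s3, s1, s2] (Fset s3 s1 s2 A) (Qset s3 s1 s2 A) hFQ (2 * (L + 1)) 1
      (L + 1) le_rfl ?_ ?_ O hO (by omega) b (by omega) o
    · intro b hb
      rw [hz, one_mul] at hb
      obtain ⟨g, rfl⟩ : ∃ g, s3 = A + g := ⟨s3 - A, by omega⟩
      exact hGB K A g s1 s2 (2 * (L + 1)) b h12 h23 h5 h1000 (by omega) hb
    · rw [hz]
      have h6 : 2 * ((Qset s3 s1 s2 A).card + (Fset s3 s1 s2 A).card + 1 * (2 * (L + 1))) ≤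
          s3 * (s1 * s2) := by
        have h7 : s1 ^ 2 ≤ s3 * (s1 * s2) := by
          calc s1 ^ 2 = 1 * (s1 * s1) := by ring
            _ ≤ s3 * (s1 * s2) :=
              Nat.mul_le_mul (by omega) (Nat.mul_le_mul_left _ h12)
        omega
      calc 2 * (L + 1) * ((Qset s3 s1 s2 A).card + (Fset s3 s1 s2 A).card + 1 * (2 * (L + 1)))
          = (L + 1) * (2 * ((Qset s3 s1 s2 A).card + (Fset s3 s1 s2 A).card +
            1 * (2 * (L + 1)))) := by ring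
        _ ≤ (L + 1) * (s3 * (s1 * s2)) := Nat.mul_le_mul_left _ h6
  · have h6 := card_cset_le [s3, s1, s2] O o (Fset s3 s1 s2 A) (Qset s3 s1 s2 A)
    have h7 : D O ≤ O.prod := D_le_prod O hO
    have h8 : (O ++ [s3, s1, s2]).prod = O.prod * (s3 * (s1 * s2)) := by
      rw [List.prod_append, hz]
    rw [h8]
    have h9 : 1 ≤ O.prod := hO1.trans h7
    calc 4 * (cset [s3, s1, s2] O o (Fset s3 s1 s2 A) (Qset s3 s1 s2 A)).card
        ≤ 4 * ((Qset s3 s1 s2 A).card + (Fset s3 s1 s2 A).card * D O) :=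
          Nat.mul_le_mul_left _ h6
      _ ≤ 4 * (O.prod * (Qset s3 s1 s2 A).card + (Fset s3 s1 s2 A).card * O.prod) := by
          refine Nat.mul_le_mul_left _ (Nat.add_le_add ?_ (Nat.mul_le_mul_left _ h7))
          exact Nat.le_mul_of_pos_left _ h9
      _ = O.prod * (4 * ((Qset s3 s1 s2 A).card + (Fset s3 s1 s2 A).card)) := by ring
      _ ≤ O.prod * (s3 * (s1 * s2)) := Nat.mul_le_mul_left _ (by omega)

end Pool.Agent.Lib.MP_635d71_ag.Fr
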