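import Pool.Agent.Lib.MP_635d71_ag.Fr.SpecB

/-!
# Free largest factor, many factors: the good set
-/

set_option autoImplicit false

open Module Submodule

namespace Pool.Agent.Lib.MP_635d71_ag.Fr

theorem pGoB : S_GoB := by
  intro K _ _ T M z w Δ hT hM hD hD2 hZ h4 base
  constructor
  · intro b hb
    refine flex_top (M ++ z) Δ (Ball (M ++ z) w) (card_Ball_le _ _) hZ ?_ T b _ hT hD hb ?_
    · intro b C hC hb
      exact flex_bot z Δ h4 base M b w C hM hD2 hb hC
    · intro g hg
      exact (Finset.mem_filter.1 hg).2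
  · have h1 := card_le_of_lastPart (M ++ z) (Ball (M ++ z) w) T
      (Finset.univ.filter fun g => lastPart (M ++ z) T g ∈ Ball (M ++ z) w)
      (fun g hg => (Finset.mem_filter.1 hg).2)
    have h2 := card_Ball_le (M ++ z) w
    have h3 := four_D_le M z hM h4
    rw [List.prod_append]
    calc 4 * (Finset.univ.filter fun g => lastPart (M ++ z) T g ∈ Ball (M ++ z) w).card
        ≤ 4 * (T.prod * (Ball (M ++ z) w).card) := Nat.mul_le_mul_left _ h1
      _ = T.prod * (4 * (Ball (M ++ z) w).card) := by ring
      _ ≤ T.prod * (M ++ z).prod := Nat.mul_le_mul_left _ (by omega)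

end Pool.Agent.Lib.MP_635d71_ag.Fr
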