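import Pool.Agent.Lib.MP_635d71_ag.Fr.Spec

/-!
# Free largest factor: module HRk (rank-nullity for the linear map of a linear system)
-/

set_option autoImplicit false

open Module Submodule

namespace Pool.Agent.Lib.MP_635d71_ag.Fr

namespace HRkAux

variable {K : Type} [Field K]

/-- The map `h ↦ ((a, j) ↦ Φ (h (j, ·)) a)`. -/
def Psi (s : ℕ) (l : List ℕ) {c : ℕ} (Φ : (Grid l → K) →ₗ[K] (Fin c → K)) :
    (Grid (s :: l) → K) →ₗ[K] (Fin c × Fin s → K) :=
  LinearMap.pi fun p : Fin c × Fin s =>
    (LinearMap.proj p.1).comp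
      (Φ.comp (LinearMap.funLeft K K (fun g : Grid l => ((p.2, g) : Grid (s :: l)))))

theorem Psi_apply (s : ℕ) (l : List ℕ) {c : ℕ} (Φ : (Grid l → K) →ₗ[K] (Fin c → K))
    (h : Grid (s :: l) → K) (a : Fin c) (j : Fin s) :
    Psi s l Φ h (a, j) = Φ (fun g => h (j, g)) a := rfl

theorem Psi_ten (s : ℕ) (l : List ℕ) {c : ℕ} (Φ : (Grid l → K) →ₗ[K] (Fin c → K))
    (u : Fin s → K) (f : Grid l → K) (a : Fin c) (j : Fin s) :
    Psi s l Φ (ten u f) (a, j) = u j * Φ f a := by
  rw [Psi_apply]
  have h1 : (fun g : Grid l => (ten u f : Grid (s :: l) → K) (j, g)) = u j • f := by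
    funext g
    rfl
  rw [h1, map_smul]
  rfl

theorem fib_le (s : ℕ) (l : List ℕ) {N : ℕ} (y : Fin N → Coord l → K) :
    s * N ≤ finrank K ↥(⨆ a, fib s l (y a)) ∨ ¬ LinearIndependent K (fun a => E l (y a)) := by
  by_cases hy : LinearIndependent K (fun a => E l (y a))
  · left
    have h1 := sum_finrank_le (K := K) (G := Grid l) (⨆ a, fib s l (y a))
      (fun _ : Fin s => span K (Set.range fun a => E l (y a))) (by
        intro j g hg
        refine ⟨ten (Pi.single j 1) g, ?_, ?_, ?_⟩
        · have h2 : span K (Set.range fun a => E l (y a)) ≤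
              (⨆ a, fib s l (y a)).comap (tenL (Pi.single j 1) l) := by
            rw [span_le]
            rintro _ ⟨a, rfl⟩
            have h3 : fib s l (y a) ≤ ⨆ a, fib s l (y a) := le_iSup (fun a => fib s l (y a)) a
            exact h3 ⟨Pi.single j 1, rfl⟩
          exact h2 hg
        · intro j' hj c
          rw [ten_apply, Pi.single_eq_of_ne hj.ne, zero_mul]
        · intro c
          rw [ten_apply, Pi.single_eq_same, one_mul])
    rw [finrank_span_eq_card hy, Fintype.card_fin, Finset.sum_const, Finset.card_univ,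
      Fintype.card_fin, smul_eq_mul] at h1
    exact h1
  · exact Or.inr hy

end HRkAux

open HRkAux in
theorem pHRk : S_HRk := by
  intro K _ s l N n c y z v Φ F hy hΦ hF
  have hA : s * N ≤ finrank K ↥(⨆ a, fib s l (y a)) := by
    rcases fib_le s l y with h | h
    · exact h
    · exact absurd hy h
  set A : Submodule K (Grid (s :: l) → K) := ⨆ a, fib s l (y a) with hAdef
  set S : Submodule K (Grid (s :: l) → K) := A ⊔ ⨆ i, zT l (z i) (v i) with hS
  have h1 := LinearMap.finrank_range_add_finrank_ker ((Psi s l Φ).domRestrict S)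
  have h2 : finrank K ↥(⨆ i, span K {f | ∃ a ∈ F i, f = zf a (z i)}) ≤
      finrank K (LinearMap.range ((Psi s l Φ).domRestrict S)) := by
    apply Submodule.finrank_mono
    refine iSup_le fun i => ?_
    rw [span_le]
    rintro f ⟨a, ha, rfl⟩
    obtain ⟨g, hg, hga⟩ := hF i a ha
    have h3 : ten (z i) g ∈ S := by
      have h4 : zT l (z i) (v i) ≤ S :=
        (le_iSup (fun i => zT l (z i) (v i)) i).trans le_sup_right
      exact h4 ⟨g, hg, rfl⟩
    refine ⟨⟨ten (z i) g, h3⟩, ?_⟩
    funext p
    obtain ⟨a', j⟩ := p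
    show Psi s l Φ (ten (z i) g) (a', j) = zf a (z i) (a', j)
    rw [Psi_ten, hga]
    unfold zf
    by_cases haa : a' = a
    · subst haa
      rw [if_pos rfl, Pi.single_eq_same, mul_one]
    · rw [if_neg haa, Pi.single_eq_of_ne haa, mul_zero]
  have h5 : finrank K ↥A ≤ finrank K (LinearMap.ker ((Psi s l Φ).domRestrict S)) := by
    have hle : A ≤ S := le_sup_left
    have h0 : A ≤ LinearMap.ker (Psi s l Φ) := by
      refine iSup_le fun a => ?_
      rintro _ ⟨u, rfl⟩
      rw [LinearMap.mem_ker]
      funext p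
      obtain ⟨a', j⟩ := p
      show Psi s l Φ (ten u (E l (y a))) (a', j) = 0
      rw [Psi_ten, hΦ a]
      exact mul_zero _
    let ψ : A →ₗ[K] LinearMap.ker ((Psi s l Φ).domRestrict S) :=
      LinearMap.codRestrict _ (Submodule.inclusion hle) (fun f => by
        rw [LinearMap.mem_ker]
        exact LinearMap.mem_ker.1 (h0 f.2))
    apply LinearMap.finrank_le_finrank_of_injective (f := ψ)
    intro a b hab
    have h4 := congrArg
      (fun w : LinearMap.ker ((Psi s l Φ).domRestrict S) => ((w : S) : Grid (s :: l) → K)) hab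
    exact Subtype.ext h4
  omega

end Pool.Agent.Lib.MP_635d71_ag.Fr
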