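import Pool.Agent.Lib.MP_635d71_ag.Fr.Spec

/-!
# Free largest factor: labels outside of the blocks
-/

set_option autoImplicit false

open Module Submodule

namespace Pool.Agent.Lib.MP_635d71_ag.Fr

namespace HinAux

theorem inj_mod (c g x y : ℕ) (hx : x < c) (hy : y < c) (h : (g + x) % c = (g + y) % c) :
    x = y := by
  have h1 : x ≡ y [MOD c] := Nat.ModEq.add_left_cancel' g h
  exact Nat.ModEq.eq_of_lt_of_lt h1 hx hy

end HinAux

theorem pHin : S_Hin := by
  classical
  intro c R M g b Y hY hM hg
  set A : Finset ℕ := (Finset.range M).image fun x => (g + x) % c with hA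
  have hAc : A.card = M := by
    rw [hA, Finset.card_image_of_injOn, Finset.card_range]
    intro x hx y hy hxy
    have hx' := Finset.mem_range.1 hx
    have hy' := Finset.mem_range.1 hy
    exact HinAux.inj_mod c g x y (by omega) (by omega) hxy
  set A' : Finset ℕ := A.filter fun t => t < b * R ∨ (b + 3) * R ≤ t with hA'
  have hcard : Y ≤ A'.card := by
    have h1 : A.card ≤ A'.card + (Finset.Ico (b * R) ((b + 3) * R)).card := by
      refine (Finset.card_le_card ?_).trans (Finset.card_union_le _ _)
      intro t ht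
      rw [Finset.mem_union, hA', Finset.mem_filter, Finset.mem_Ico]
      by_cases h : t < b * R ∨ (b + 3) * R ≤ t
      · exact Or.inl ⟨ht, h⟩
      · exact Or.inr ⟨by omega, by omega⟩
    rw [Nat.card_Ico, hAc] at h1
    have h2 : (b + 3) * R - b * R = 3 * R := by
      rw [add_mul]
      omega
    omega
  have hmem : ∀ u ∈ A', u < c ∧ (∃ x < M, u = (g + x) % c) ∧
      (u < b * R ∨ (b + 3) * R ≤ u) := by
    intro u hu
    rw [hA', Finset.mem_filter] at hu
    obtain ⟨h1, h2⟩ := hu
    obtain ⟨x, hx, hxu⟩ := Finset.mem_image.1 h1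
    refine ⟨?_, ⟨x, Finset.mem_range.1 hx, hxu.symm⟩, h2⟩
    rw [← hxu]
    exact Nat.mod_lt _ (by omega)
  let f : Fin A'.card ≃ A' := A'.equivFin.symm
  refine ⟨fun e => if he : e < A'.card then (f ⟨e, he⟩ : ℕ) else 0, ?_, ?_⟩
  · intro e he
    have he' : e < A'.card := by omega
    simp only [dif_pos he']
    exact hmem _ (f ⟨e, he'⟩).2
  · intro e he e' he' hee
    have h1 : e < A'.card := by omega
    have h2 : e' < A'.card := by omega
    simp only [dif_pos h1, dif_pos h2] at hee
    have h3 := f.injective (Subtype.ext hee)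
    exact congrArg Fin.val h3

end Pool.Agent.Lib.MP_635d71_ag.Fr
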