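import Pool.Agent.Lib.MP_635d71_ag.Fr.Spec

/-!
# Free largest factor: induction over the large factor (`S_Ind`)
-/

set_option autoImplicit false

open Module Submodule

namespace Pool.Agent.Lib.MP_635d71_ag.Fr

namespace IndAux

/-- the claim for all sizes -/
theorem claim (hDrop : S_Drop) (hAdd : S_Add) (hTwo : S_Two) {K : Type} [Field K] [Infinite K]
    (l : List ℕ) (L c r : ℕ) (hD : D l = L + 1) (hL : 1 ≤ L) (_hcr : c ≤ r)
    (hP : r + c = l.prod)
    (hf : ∀ s, 1 ≤ s → s ≤ L → BR K s l (c * s / L) r (r * s + c * s / L * L))
    (hg : ∀ s, 1 ≤ s → s ≤ L → BR K s l ((c * s + (L - 1)) / L) r (l.prod * s)) :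
    ∀ q, 1 ≤ q → ∀ n, n ≤ r → (n * L ≤ c * q → BR K q l n r (r * q + n * L)) ∧
      (c * q ≤ n * L → BR K q l n r (l.prod * q)) := by
  have hfull : BR K L l c r (r * L + c * L) := by
    have h := hf L hL le_rfl
    rw [Nat.mul_div_cancel c (by omega)] at h
    exact h
  intro q
  induction q using Nat.strong_induction_on with
  | _ q ih =>
    intro hq n hn
    rcases le_or_gt q L with hqL | hqL
    · constructor
      · intro h
        have h1 : n ≤ c * q / L := (Nat.le_div_iff_mul_le (by omega)).2 h
        obtain ⟨i, hi⟩ := Nat.exists_eq_add_of_le h1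
        have h2 := hf q hq hqL
        rw [hi] at h2
        refine hDrop K q l L n r (r * q + n * L) i hD ?_
        have h3 : r * q + n * L + i * L = r * q + (n + i) * L := by ring
        rw [h3]
        exact h2
      · intro h
        have h1 : (c * q + (L - 1)) / L ≤ n := by
          apply Nat.lt_succ_iff.1
          rw [Nat.div_lt_iff_lt_mul (by omega)]
          have h2 : n.succ * L = n * L + L := by
            rw [Nat.succ_mul]
          omega
        exact hAdd K q l _ n r _ h1 hn (hg q hq hqL)
    · obtain ⟨p, hp⟩ := Nat.exists_eq_add_of_lt hqL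
      have hq' : q = L + (p + 1) := by omega
      have hcq : c * q = c * L + c * (p + 1) := by rw [hq', Nat.mul_add]
      constructor
      · intro h
        rcases le_or_gt n c with hnc | hnc
        · -- all the tangent spaces are in the first part
          obtain ⟨i, hi⟩ := Nat.exists_eq_add_of_le hnc
          have h1 : BR K L l n r (r * L + n * L) := by
            refine hDrop K L l L n r (r * L + n * L) i hD ?_
            have h3 : r * L + n * L + i * L = r * L + (n + i) * L := by ring
            rw [h3, ← hi]
            exact hfull
          have h2 := (ih (p + 1) (by omega) (by omega) 0 (by omega)).1 (by simp)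
          have h3 := hTwo K L (p + 1) l n 0 r _ _ (by omega) h1 h2
          have h4 : r * L + n * L + (r * (p + 1) + 0 * L) = r * q + n * L := by
            rw [hq']
            ring
          rw [h4, ← hq', Nat.add_zero] at h3
          exact h3
        · obtain ⟨i, hi⟩ := Nat.exists_eq_add_of_lt hnc
          have hi' : n = c + (i + 1) := by omega
          have h1 : (i + 1) * L ≤ c * (p + 1) := by
            have h2 : n * L = c * L + (i + 1) * L := by rw [hi', Nat.add_mul]
            omega
          have h2 := (ih (p + 1) (by omega) (by omega) (i + 1) (by omega)).1 h1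
          have h3 := hTwo K L (p + 1) l c (i + 1) r _ _ (by omega) hfull h2
          have h4 : r * L + c * L + (r * (p + 1) + (i + 1) * L) = r * q + n * L := by
            rw [hq', hi']
            ring
          rw [h4, ← hq', ← hi'] at h3
          exact h3
      · intro h
        have hcn : c ≤ n := by
          have h1 : c * L ≤ n * L := by omega
          exact Nat.le_of_mul_le_mul_right h1 (by omega)
        obtain ⟨i, hi⟩ := Nat.exists_eq_add_of_le hcn
        have h1 : c * (p + 1) ≤ i * L := by
          have h2 : n * L = c * L + i * L := by rw [hi, Nat.add_mul]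
          omega
        have h2 := (ih (p + 1) (by omega) (by omega) i (by omega)).2 h1
        have h3 := hTwo K L (p + 1) l c i r _ _ (by omega) hfull h2
        have h4 : r * L + c * L + l.prod * (p + 1) = l.prod * q := by
          rw [hq', ← hP]
          ring
        rw [h4, ← hq', ← hi] at h3
        exact h3

end IndAux

theorem pInd : S_Drop → S_Add → S_Two → S_Full → S_Ind := by
  intro hDrop hAdd hTwo hFull K _ _ l L c r hD hL hcr hP hf hg q hq
  have hc := IndAux.claim hDrop hAdd hTwo l L c r hD hL hcr hP hf hg q hq r le_rfl
  rcases le_total (r * L) (c * q) with h | h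
  · have h1 := hFull K q l r _ (hc.1 h)
    have h2 : r * (q + L) ≤ l.prod * q := by
      rw [← hP, Nat.mul_add, Nat.add_mul]
      omega
    have h3 : min (r * (q + L)) (l.prod * q) = r * q + r * L := by
      rw [min_eq_left h2, Nat.mul_add]
    rw [h3]
    exact h1
  · have h1 := hFull K q l r _ (hc.2 h)
    have h2 : l.prod * q ≤ r * (q + L) := by
      rw [← hP, Nat.mul_add, Nat.add_mul]
      omega
    rw [min_eq_right h2]
    exact h1

end Pool.Agent.Lib.MP_635d71_ag.Fr
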