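import Pool.Agent.Lib.MP_635d71_ag.Fr.Spec

/-!
# Free largest factor: module LS1 (the linear map of a label system)
-/

set_option autoImplicit false

open Module Submodule

namespace Pool.Agent.Lib.MP_635d71_ag.Fr

namespace LS1Aux

open scoped Classical in
/-- The images of the coordinate vectors. -/
noncomputable def vv (K : Type) [Field K] (l : List ℕ) {n c : ℕ} (σ : Fin n → Grid l)
    (τ : Fin c → Grid l) (FT : Finset (Grid l)) (lam : Grid l → Fin c) (g : Grid l) : Fin c → K :=
  if h : TG l τ g then Pi.single h.choose 1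
  else if g ∈ FT then -Pi.single (lam g) 1
  else if NS l σ g then
    -Pi.single (lam g) 1 + ∑ g' ∈ box l g (τ (lam g)), if g' ∈ FT then Pi.single (lam g') 1 else 0
  else 0

variable {K : Type} [Field K] {l : List ℕ} {n c : ℕ} {σ : Fin n → Grid l}
  {τ : Fin c → Grid l} {FT : Finset (Grid l)} {lam : Grid l → Fin c}

theorem vv_tau (hinj : Function.Injective τ) (a : Fin c) :
    vv K l σ τ FT lam (τ a) = Pi.single a 1 := by
  have h : TG l τ (τ a) := ⟨a, rfl⟩
  have hb : h.choose = a := (hinj h.choose_spec).symm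
  unfold vv
  rw [dif_pos h, hb]

theorem vv_ft {g : Grid l} (h1 : ¬ TG l τ g) (h2 : g ∈ FT) :
    vv K l σ τ FT lam g = -Pi.single (lam g) 1 := by
  unfold vv
  rw [dif_neg h1, if_pos h2]

theorem vv_ns {g : Grid l} (h1 : ¬ TG l τ g) (h2 : g ∉ FT) (h3 : NS l σ g) :
    vv K l σ τ FT lam g = -Pi.single (lam g) 1
      + ∑ g' ∈ box l g (τ (lam g)), if g' ∈ FT then Pi.single (lam g') 1 else 0 := by
  unfold vv
  rw [dif_neg h1, if_neg h2, if_pos h3]

theorem vv_zero {g : Grid l} (h1 : ¬ TG l τ g) (h2 : g ∉ FT) (h3 : ¬ NS l σ g) :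
    vv K l σ τ FT lam g = 0 := by
  unfold vv
  rw [dif_neg h1, if_neg h2, if_neg h3]

end LS1Aux

open LS1Aux

theorem pLS1 : S_BoxE → S_LS1 := by
  intro hBoxE K _ l Ω n c F σ τ FT lam H
  -- neighbours are not targets
  have hNT : ∀ g, NS l σ g → ¬ TG l τ g := by
    rintro g ⟨i, hi, -⟩ ⟨a, rfl⟩
    exact H.st i a hi
  have hFT : ∀ g ∈ FT, ¬ TG l τ g := fun g hg => hNT g (H.ft g hg)
  have hsgl : ∀ g : Grid l, Fintype.linearCombination K (vv K l σ τ FT lam)
      (Pi.single g 1 : Grid l → K) = vv K l σ τ FT lam g := by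
    intro g
    rw [Fintype.linearCombination_apply_single, one_smul]
  refine ⟨Fintype.linearCombination K (vv K l σ τ FT lam), ?_, ?_, ?_⟩
  · intro g h1 h2
    rw [hsgl]
    exact vv_zero h2 (fun h => h1 (H.ft g h)) h1
  · intro g hg
    have hΦ : Fintype.linearCombination K (vv K l σ τ FT lam) (E l (bpt K l g (τ (lam g)))) =
        ∑ g' ∈ box l g (τ (lam g)), vv K l σ τ FT lam g' := by
      rw [Fintype.linearCombination_apply]
      have h1 : ∀ g', E l (bpt K l g (τ (lam g))) g' =
          if g' ∈ box l g (τ (lam g)) then 1 else 0 :=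
        fun g' => (hBoxE K l g (τ (lam g)) g').1
      simp only [h1, ite_smul, one_smul, zero_smul]
      rw [Finset.sum_ite_mem, Finset.univ_inter]
    rw [hΦ]
    have hw : g ∈ box l g (τ (lam g)) := (hBoxE K l g (τ (lam g)) g).2.1
    have ht : τ (lam g) ∈ box l g (τ (lam g)) := (hBoxE K l g (τ (lam g)) g).2.2
    have hgT : ¬ TG l τ g := hNT g hg
    have hne : τ (lam g) ≠ g := fun h => hgT ⟨lam g, h.symm⟩
    have ht' : τ (lam g) ∈ (box l g (τ (lam g))).erase g := Finset.mem_erase.2 ⟨hne, ht⟩
    have hsplit : ∀ f : Grid l → Fin c → K, ∑ g' ∈ box l g (τ (lam g)), f g' =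
        f g + (f (τ (lam g)) + ∑ g' ∈ ((box l g (τ (lam g))).erase g).erase (τ (lam g)), f g') := by
      intro f
      rw [Finset.add_sum_erase _ f ht', Finset.add_sum_erase _ f hw]
    rw [hsplit, vv_tau H.tinj]
    by_cases hgF : g ∈ FT
    · rw [vv_ft hgT hgF, Finset.sum_eq_zero, add_zero, neg_add_cancel]
      intro g' hg'
      obtain ⟨h1, h2⟩ := Finset.mem_erase.1 hg'
      obtain ⟨h3, h4⟩ := Finset.mem_erase.1 h2
      have h5 : ¬ (NS l σ g' ∨ TG l τ g') := by
        intro h
        rcases H.h4 g hgF g' h4 h with h | h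
        · exact h3 h
        · exact h1 h
      push Not at h5
      exact vv_zero h5.2 (fun h => h5.1 (H.ft g' h)) h5.1
    · rw [vv_ns hgT hgF hg]
      rw [hsplit (fun g' => if g' ∈ FT then Pi.single (lam g') 1 else 0)]
      have e1 : (if g ∈ FT then (Pi.single (lam g) 1 : Fin c → K) else 0) = 0 := if_neg hgF
      have hτF : τ (lam g) ∉ FT := fun h => hFT _ h ⟨lam g, rfl⟩
      have e2 : (if τ (lam g) ∈ FT then (Pi.single (lam (τ (lam g))) 1 : Fin c → K) else 0) = 0 :=
        if_neg hτF
      simp only [e1, e2]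
      obtain ⟨i, hi, hgi⟩ := hg
      have e3 : ∑ g' ∈ ((box l g (τ (lam g))).erase g).erase (τ (lam g)), vv K l σ τ FT lam g' =
          -∑ g' ∈ ((box l g (τ (lam g))).erase g).erase (τ (lam g)),
            (if g' ∈ FT then (Pi.single (lam g') 1 : Fin c → K) else 0) := by
        rw [← Finset.sum_neg_distrib]
        refine Finset.sum_congr rfl fun g' hg' => ?_
        obtain ⟨h1, h2⟩ := Finset.mem_erase.1 hg'
        obtain ⟨h3, h4⟩ := Finset.mem_erase.1 h2
        by_cases h5 : g' ∈ FT
        · rw [vv_ft (hFT g' h5) h5, if_pos h5]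
        · rw [if_neg h5, neg_zero]
          have h6 : ¬ (NS l σ g' ∨ TG l τ g') := by
            intro h
            rcases H.h5 i g hi hgi hgF g' h4 h with h | h | h
            · exact h3 h
            · exact h1 h
            · exact h5 h.1
          push Not at h6
          exact vv_zero h6.2 h5 h6.1
      rw [e3]
      abel
  · intro i a ha
    obtain ⟨w, hw, hwi, rfl⟩ := H.h6 i a ha
    have hmem : ∀ g ∈ Ball l (σ i), vv K l σ τ FT lam g ∈
        Submodule.map (Fintype.linearCombination K (vv K l σ τ FT lam))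
          (T l (cpt l (σ i) : Coord l → K)) := by
      intro g hg
      refine Submodule.mem_map.2 ⟨Pi.single g 1, ?_, hsgl g⟩
      rw [T_cpt, mem_coordSub]
      intro g' hg'
      rw [Pi.single_apply, if_neg]
      rintro rfl
      exact hg' hg
    have hFmem : ∀ g ∈ FT, g ∈ Ball l (σ i) → (Pi.single (lam g) 1 : Fin c → K) ∈
        Submodule.map (Fintype.linearCombination K (vv K l σ τ FT lam))
          (T l (cpt l (σ i) : Coord l → K)) := by
      intro g hgF hg
      have h1 := Submodule.neg_mem _ (hmem g hg)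
      rwa [vv_ft (hFT g hgF) hgF, neg_neg] at h1
    have hNw : NS l σ w := ⟨i, hw, hwi⟩
    have key : (Pi.single (lam w) 1 : Fin c → K) ∈
        Submodule.map (Fintype.linearCombination K (vv K l σ τ FT lam))
          (T l (cpt l (σ i) : Coord l → K)) := by
      by_cases hwF : w ∈ FT
      · exact hFmem w hwF hw
      · have h1 := hmem w hw
        rw [vv_ns (hNT w hNw) hwF hNw] at h1
        have h2 : (∑ g' ∈ box l w (τ (lam w)),
            (if g' ∈ FT then (Pi.single (lam g') 1 : Fin c → K) else 0)) ∈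
            Submodule.map (Fintype.linearCombination K (vv K l σ τ FT lam))
              (T l (cpt l (σ i) : Coord l → K)) := by
          refine Submodule.sum_mem _ fun g' hg' => ?_
          by_cases hgF : g' ∈ FT
          · rw [if_pos hgF]
            rcases H.h5 i w hw hwi hwF g' hg' (Or.inl (H.ft g' hgF)) with h | h | h
            · exact absurd (h ▸ hgF) hwF
            · exact absurd ⟨lam w, h⟩ (hFT g' hgF)
            · obtain ⟨-, g'', h3, h4, h5⟩ := h
              rw [← h5]
              exact hFmem g'' h3 h4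
          · rw [if_neg hgF]
            exact Submodule.zero_mem _
        have h3 := Submodule.sub_mem _ h2 h1
        have h4 : ∀ x y : Fin c → K, y - (-x + y) = x := fun x y => by abel
        rwa [h4] at h3
    exact Submodule.mem_map.1 key

end Pool.Agent.Lib.MP_635d71_ag.Fr
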