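import Pool.Agent.Lib.MP_635d71_ag.Fr.Spec

/-!
# Free largest factor: module LS2 (the coordinate subspace of a label system is spanned)
-/

set_option autoImplicit false

open Module Submodule

namespace Pool.Agent.Lib.MP_635d71_ag.Fr

namespace LS2Aux

variable {K : Type} [Field K] {l : List ℕ}

/-- The product of the tuple of a box is the sum of the coordinate vectors of the box. -/
theorem E_box (hBoxE : S_BoxE) (w t : Grid l) :
    E l (bpt K l w t) = ∑ g ∈ box l w t, (Pi.single g 1 : Grid l → K) := by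
  funext g
  rw [(hBoxE K l w t g).1, Finset.sum_apply]
  simp only [Pi.single_apply]
  rw [Finset.sum_ite_eq]

/-- If all the other words of the box have their coordinate vectors in `Z`, so has `w`. -/
theorem single_mem (hBoxE : S_BoxE) {w t : Grid l} {Z : Submodule K (Grid l → K)}
    (hE : E l (bpt K l w t) ∈ Z)
    (h : ∀ g ∈ box l w t, g ≠ w → (Pi.single g 1 : Grid l → K) ∈ Z) :
    (Pi.single w 1 : Grid l → K) ∈ Z := by
  have hw : w ∈ box l w t := (hBoxE K l w t w).2.1
  rw [E_box hBoxE, ← Finset.add_sum_erase _ _ hw] at hE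
  have h1 : ∑ g ∈ (box l w t).erase w, (Pi.single g 1 : Grid l → K) ∈ Z :=
    Submodule.sum_mem _ fun g hg =>
      h g (Finset.mem_of_mem_erase hg) (Finset.ne_of_mem_erase hg)
  have h2 := Submodule.sub_mem _ hE h1
  rwa [add_sub_cancel_right] at h2

end LS2Aux

open LS2Aux

theorem pLS2 : S_BoxE → S_LS2 := by
  intro hBoxE K _ l Ω n c F σ τ FT lam H
  have hNT : ∀ g, NS l σ g → ¬ TG l τ g := by
    rintro g ⟨i, hi, -⟩ ⟨a, rfl⟩
    exact H.st i a hi
  obtain ⟨Z, hZ⟩ : ∃ Z, Z =
      span K {f : Grid l → K | ∃ g ∈ Ω, ¬ NS l σ g ∧ ¬ TG l τ g ∧ f = Pi.single g 1} ⊔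
      span K {f | ∃ g, NS l σ g ∧ f = E l (bpt K l g (τ (lam g)))} ⊔
      span K {f | ∃ a, f = Pi.single (τ a) 1} := ⟨_, rfl⟩
  rw [← hZ]
  -- words which are not neighbours
  have h1 : ∀ g ∈ Ω, ¬ NS l σ g → (Pi.single g 1 : Grid l → K) ∈ Z := by
    intro g hg hn
    rw [hZ]
    by_cases ht : TG l τ g
    · obtain ⟨a, rfl⟩ := ht
      exact Submodule.mem_sup_right (subset_span ⟨a, rfl⟩)
    · exact Submodule.mem_sup_left (Submodule.mem_sup_left (subset_span ⟨g, hg, hn, ht, rfl⟩))
  have hE : ∀ g, NS l σ g → E l (bpt K l g (τ (lam g))) ∈ Z := by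
    intro g hg
    rw [hZ]
    exact Submodule.mem_sup_left (Submodule.mem_sup_right (subset_span ⟨g, hg, rfl⟩))
  -- the set `FT`
  have h2 : ∀ g ∈ FT, (Pi.single g 1 : Grid l → K) ∈ Z := by
    intro g hg
    have hN := H.ft g hg
    refine single_mem hBoxE (hE g hN) fun g' hg' hne => ?_
    obtain ⟨i, hi, hgi⟩ := hN
    refine h1 g' (H.hbox i g hi hgi hg') fun hN' => ?_
    rcases H.h4 g hg g' hg' (Or.inl hN') with h | h
    · exact hne h
    · exact hNT g' hN' ⟨lam g, h⟩
  -- all neighbours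
  have h3 : ∀ g, NS l σ g → (Pi.single g 1 : Grid l → K) ∈ Z := by
    intro g hN
    by_cases hgF : g ∈ FT
    · exact h2 g hgF
    refine single_mem hBoxE (hE g hN) fun g' hg' hne => ?_
    obtain ⟨i, hi, hgi⟩ := hN
    by_cases hN' : NS l σ g'
    · rcases H.h5 i g hi hgi hgF g' hg' (Or.inl hN') with h | h | h
      · exact absurd h hne
      · exact absurd ⟨lam g, h⟩ (hNT g' hN')
      · exact h2 g' h.1
    · exact h1 g' (H.hbox i g hi hgi hg') hN'
  intro f hf
  rw [mem_coordSub] at hf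
  have h4 : f = ∑ g, f g • (Pi.single g 1 : Grid l → K) := by
    funext g
    rw [Finset.sum_apply]
    simp only [Pi.smul_apply, Pi.single_apply, smul_eq_mul, mul_ite, mul_one, mul_zero]
    rw [Finset.sum_ite_eq, if_pos (Finset.mem_univ g)]
  rw [h4]
  refine Submodule.sum_mem _ fun g _ => ?_
  by_cases hg : g ∈ Ω
  · refine Submodule.smul_mem _ _ ?_
    by_cases hN : NS l σ g
    · exact h3 g hN
    · exact h1 g hg hN
  · rw [hf g hg, zero_smul]
    exact Submodule.zero_mem _

end Pool.Agent.Lib.MP_635d71_ag.Fr
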