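import Pool.Agent.Lib.MP_635d71_ag.Fr.Spec

/-!
# Free largest factor: the labels of the clusters
-/

set_option autoImplicit false

open Module Submodule

namespace Pool.Agent.Lib.MP_635d71_ag.Fr

theorem pLab : S_Com → S_Blk → S_Hin → S_Lab := by
  intro hCom hBlk hHin L c n s X R hs hsn hL hLc hc2 hR h7 h3
  have hM : L - L / 4 - 1 ≤ c := by omega
  choose g hgc hg using fun k => hCom L c n s k hs hsn hL hLc hc2
  choose b hbc hb using fun k => hBlk c R (L - L / 4 - 1) (g k) hR h7 hM (hgc k)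
  choose h hh1 hh2 using fun k => hHin c R (L - L / 4 - 1) (g k) (b k) (X * X) h3 hM (hgc k)
  refine ⟨b, h, ?_, ?_, ?_, ?_, ?_, ?_⟩
  · intro i t h1 h2
    obtain ⟨x, hx, hxt⟩ := hb _ _ h1 h2
    exact hg _ i rfl x hx t hxt
  · intro i
    exact hbc _
  · intro i e he
    exact (hh1 _ e he).1
  · intro i e t he ht
    obtain ⟨x, hx, hxt⟩ := (hh1 (i.val / (s / 8 + 1)) e he).2.1
    exact hg _ i rfl x hx t (ht.trans hxt)
  · intro i e he
    exact (hh1 _ e he).2.2
  · intro i e e' he he' hee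
    exact hh2 _ e he e' he' hee

end Pool.Agent.Lib.MP_635d71_ag.Fr
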