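import Pool.Agent.Lib.MP_635d71_ag.Fr.Spec

set_option autoImplicit false

open Module Submodule

namespace Pool.Agent.Lib.MP_635d71_ag.Fr

namespace LabEAux

/-- One index: the map `lam` on `S ⊆ N` extends to a bijection from `N` to `F`. -/
theorem one {W : Type} [Fintype W] [DecidableEq W] {c : ℕ} (N X : Finset W) (F : Finset (Fin c))
    (lam : W → Fin c) (hc : N.card = F.card) (h1 : ∀ w ∈ N, w ∈ X → lam w ∈ F)
    (h2 : ∀ w ∈ N, ∀ w' ∈ N, w ∈ X → w' ∈ X → lam w = lam w' → w = w') :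
    ∃ g : N ≃ F, ∀ w : N, w.1 ∈ X → (g w : Fin c) = lam w.1 := by
  classical
  have hcard : Fintype.card N = F.card := by rw [Fintype.card_coe, hc]
  have hsub : (Finset.univ.filter fun w : N => w.1 ∈ X).image (fun w : N => lam w.1) ⊆ F := by
    intro a ha
    obtain ⟨w, hw, rfl⟩ := Finset.mem_image.1 ha
    exact h1 w.1 w.2 (Finset.mem_filter.1 hw).2
  have hinj : Set.InjOn (fun w : N => lam w.1) (Finset.univ.filter fun w : N => w.1 ∈ X) := by
    intro w hw w' hw' he
    have hw := (Finset.mem_filter.1 (Finset.mem_coe.1 hw)).2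
    have hw' := (Finset.mem_filter.1 (Finset.mem_coe.1 hw')).2
    exact Subtype.ext (h2 w.1 w.2 w'.1 w'.2 hw hw' he)
  obtain ⟨g, hg⟩ := Finset.exists_equiv_extend_of_card_eq hcard hsub hinj
  exact ⟨g, fun w hw => hg w (Finset.mem_filter.2 ⟨Finset.mem_univ _, hw⟩)⟩

end LabEAux

theorem pLabE : S_LabE := by
  classical
  intro W _ _ n c N F X lam hc h1 h2 h3
  choose g hg using fun i => LabEAux.one (N i) X (F i) lam (hc i) (h1 i) (h2 i)
  refine ⟨fun w => if w ∈ X then lam w else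
    if h : ∃ i, w ∈ N i then (g h.choose ⟨w, h.choose_spec⟩ : Fin c) else lam w, ?_, ?_⟩
  · intro w hw
    simp only [hw, if_true]
  · intro i a ha
    refine ⟨((g i).symm ⟨a, ha⟩).1, ((g i).symm ⟨a, ha⟩).2, ?_⟩
    have hga : (g i ((g i).symm ⟨a, ha⟩) : Fin c) = a := by rw [Equiv.apply_symm_apply]
    by_cases hX : ((g i).symm ⟨a, ha⟩).1 ∈ X
    · simp only [hX, if_true]
      rw [← hg i _ hX, hga]
    · simp only [hX, if_false]
      have h : ∃ j, ((g i).symm ⟨a, ha⟩).1 ∈ N j := ⟨i, ((g i).symm ⟨a, ha⟩).2⟩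
      rw [dif_pos h]
      have hi : h.choose = i := h3 _ _ _ h.choose_spec ((g i).symm ⟨a, ha⟩).2 hX
      have key : ∀ (j : Fin n) (hj : ((g i).symm ⟨a, ha⟩).1 ∈ N j), j = i →
          (g j ⟨((g i).symm ⟨a, ha⟩).1, hj⟩ : Fin c) = a := by
        intro j hj hji
        subst hji
        exact hga
      exact key _ h.choose_spec hi

end Pool.Agent.Lib.MP_635d71_ag.Fr
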