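import Pool.Agent.Lib.MP_635d71_ag.Fr.SpecB

/-!
# Free largest factor, many factors, module Lam: the labels
-/

set_option autoImplicit false

open Module Submodule

namespace Pool.Agent.Lib.MP_635d71_ag.Fr

namespace LamAux

theorem key (hB : S_Blk) (hC : S_Cd3) (hS : S_Sdr) (L c n ρ : ℕ) (hρ : 1 ≤ ρ) (hc : 1 ≤ c)
    (hL : L ≤ c) (h7 : 7 * 2 ^ ρ ≤ L) (h16 : 16 * ρ ≤ 2 ^ (ρ - 1)) (i : Fin n) :
    ∃ f : ℕ → ℕ, (∀ d < 16 * ρ, f d < c ∧ (∃ x < L, f d = (i.val * c / n + x) % c) ∧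
      (12 * ρ ≤ d → tgb ρ (f d) d = true)) ∧
      ∀ d < 16 * ρ, ∀ e < 16 * ρ, f d = f e → d = e := by
  have hn : 0 < n := i.pos
  have hg : i.val * c / n < c := by
    rw [Nat.div_lt_iff_lt_mul hn, mul_comm c n]
    exact Nat.mul_lt_mul_of_pos_right i.isLt hc
  obtain ⟨b, hb1, hb2⟩ := hB c (2 ^ ρ) L (i.val * c / n) Nat.one_le_two_pow h7 hL hg
  let C : ℕ → Finset ℕ := fun d => ((Finset.range (2 ^ ρ)).filter
    fun x => 12 * ρ ≤ d → tgb ρ (b * 2 ^ ρ + x) d = true).map (addLeftEmbedding (b * 2 ^ ρ))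
  have hcard : ∀ d < 16 * ρ, 16 * ρ ≤ (C d).card := by
    intro d hd
    rw [Finset.card_map]
    rcases Nat.lt_or_ge d (12 * ρ) with h | h
    · have h1 : (Finset.range (2 ^ ρ)).filter
          (fun x => 12 * ρ ≤ d → tgb ρ (b * 2 ^ ρ + x) d = true) = Finset.range (2 ^ ρ) :=
        Finset.filter_true_of_mem fun x _ h' => absurd h' (by omega)
      rw [h1, Finset.card_range]
      exact h16.trans (Nat.pow_le_pow_right (by norm_num) (Nat.sub_le _ _))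
    · refine (h16.trans (hC ρ b d hρ h hd)).trans (Finset.card_le_card ?_)
      intro x hx
      rw [Finset.mem_filter] at hx ⊢
      exact ⟨hx.1, fun _ => hx.2⟩
  obtain ⟨f, hf1, hf2⟩ := hS (16 * ρ) C hcard
  refine ⟨f, fun d hd => ?_, hf2⟩
  obtain ⟨x, hx, hxf⟩ := Finset.mem_map.1 (hf1 d hd)
  rw [Finset.mem_filter, Finset.mem_range] at hx
  have h1 : f d = b * 2 ^ ρ + x := hxf.symm
  have h3 : (b + 3) * 2 ^ ρ = b * 2 ^ ρ + 3 * 2 ^ ρ := by ring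
  refine ⟨by omega, ?_, ?_⟩
  · rw [h1]
    exact hb2 _ (by omega) (by omega)
  · rw [h1]
    exact hx.2

end LamAux

/-- **Lam.** -/
theorem pLam : S_Blk → S_Cd3 → S_Sdr → S_Lam := by
  intro hB hC hS L c n ρ hρ hc hL h7 h16
  choose f hf hfi using LamAux.key hB hC hS L c n ρ hρ hc hL h7 h16
  let Λ : Fin n → ℕ → Fin c := fun i d => if h : f i d < c then ⟨f i d, h⟩ else ⟨0, hc⟩
  have hΛ : ∀ i d, d < 16 * ρ → (Λ i d).val = f i d := by
    intro i d hd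
    have h1 := (hf i d hd).1
    simp only [Λ, dif_pos h1]
  refine ⟨Λ, ?_, ?_, ?_⟩
  · intro i d hd
    unfold arc
    rw [Finset.mem_filter, hΛ i d hd]
    exact ⟨Finset.mem_univ _, (hf i d hd).2.1⟩
  · intro i d e hd he h
    refine hfi i d hd e he ?_
    rw [← hΛ i d hd, ← hΛ i e he, h]
  · intro i d hd1 hd2
    rw [hΛ i d hd2]
    exact (hf i d hd2).2.2 hd1

end Pool.Agent.Lib.MP_635d71_ag.Fr
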