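import Pool.Agent.Lib.MP_635d71_ag.Fr.Spec

/-!
# Free largest factor: Lift (from partial label systems to label systems)
-/

set_option autoImplicit false

open Module Submodule

namespace Pool.Agent.Lib.MP_635d71_ag.Fr

namespace LiftAux

variable {z O : List ℕ} {o : Grid O}

theorem fp_app (h : Grid O) (g : Grid z) : firstPart z O (app z O h g) = h := firstPart_app z O h g

theorem lp_app (h : Grid O) (g : Grid z) : lastPart z O (app z O h g) = g := lastPart_app z O h g

theorem app_inj {g g' : Grid z} (h : app z O o g = app z O o g') : g = g' := by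
  have h1 := congrArg (lastPart z O) h
  rwa [lp_app, lp_app] at h1

/-- the ball of a word with the first part `o` -/
theorem mem_ball_same {w g : Grid z} :
    app z O o w ∈ Ball (O ++ z) (app z O o g) ↔ w ∈ Ball z g := by
  rw [mem_Ball_app', fp_app, lp_app]
  constructor
  · rintro (⟨-, h⟩ | ⟨-, h⟩)
    · exact h
    · rw [h]
      exact self_mem_Ball _ _
  · intro h
    exact Or.inl ⟨rfl, h⟩

theorem parts {x : Grid (O ++ z)} : app z O (firstPart z O x) (lastPart z O x) = x :=
  app_parts z O x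

/-- a word with the first part `o` -/
theorem eq_of_fp {x : Grid (O ++ z)} (h : firstPart z O x = o) : x = app z O o (lastPart z O x) := by
  rw [eq_app_iff]
  exact ⟨h, rfl⟩

theorem ns_same {n : ℕ} {σ : Fin n → Grid z} {g : Grid z} :
    NS (O ++ z) (fun i => app z O o (σ i)) (app z O o g) ↔ NS z σ g := by
  constructor
  · rintro ⟨i, h1, h2⟩
    exact ⟨i, mem_ball_same.1 h1, fun h => h2 (by rw [h])⟩
  · rintro ⟨i, h1, h2⟩
    exact ⟨i, mem_ball_same.2 h1, fun h => h2 (app_inj h)⟩

theorem tg_same {c : ℕ} {τ : Fin c → Grid z} {g : Grid z} :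
    TG (O ++ z) (fun a => app z O o (τ a)) (app z O o g) ↔ TG z τ g := by
  constructor
  · rintro ⟨a, h⟩
    exact ⟨a, app_inj h⟩
  · rintro ⟨a, h⟩
    exact ⟨a, by rw [h]⟩

theorem ns_diff {n : ℕ} {σ : Fin n → Grid z} {g : Grid (O ++ z)} (ho : firstPart z O g ≠ o)
    (h : NS (O ++ z) (fun i => app z O o (σ i)) g) : ∃ j, lastPart z O g = σ j := by
  obtain ⟨i, h1, -⟩ := h
  rw [mem_Ball_app'] at h1
  rcases h1 with ⟨h1, -⟩ | ⟨-, h1⟩
  · exact absurd h1 ho
  · exact ⟨i, h1⟩

theorem tg_diff {c : ℕ} {τ : Fin c → Grid z} {g : Grid (O ++ z)} (ho : firstPart z O g ≠ o)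
    (h : TG (O ++ z) (fun a => app z O o (τ a)) g) : False := by
  obtain ⟨a, h1⟩ := h
  apply ho
  rw [h1]
  exact fp_app _ _

end LiftAux

open LiftAux in
/-- **Lift** -/
theorem pLift : S_LabE → S_BxA → S_Lift := by
  intro hLab hBx z O o n c F σ τ X FT lam Ω hP hF hc hn hΩ1 hΩ2
  -- labels of the flexible words
  have lab := hLab (Grid (O ++ z)) n c
    (fun i => (Ball (O ++ z) (app z O o (σ i))).erase (app z O o (σ i))) F
    (X.image fun g => app z O o g) (fun g => lam (lastPart z O g)) ?_ ?_ ?_ ?_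
  rotate_left
  · intro i
    rw [Finset.card_erase_of_mem (self_mem_Ball _ _), card_Ball, ← hF i]
    rfl
  · intro i w hw hX
    obtain ⟨w1, hw1, rfl⟩ := Finset.mem_image.1 hX
    rw [Finset.mem_erase] at hw
    change lam (lastPart z O (app z O o w1)) ∈ F i
    rw [lp_app]
    exact hP.labF i w1 hw1 (mem_ball_same.1 hw.2)
  · intro i w hw w' hw' hX hX' hl
    obtain ⟨w1, hw1, rfl⟩ := Finset.mem_image.1 hX
    obtain ⟨w2, hw2, rfl⟩ := Finset.mem_image.1 hX'
    rw [Finset.mem_erase] at hw hw'
    change lam (lastPart z O (app z O o w1)) = lam (lastPart z O (app z O o w2)) at hl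
    rw [lp_app, lp_app] at hl
    have e := hP.labI i w1 hw1 w2 hw2 (mem_ball_same.1 hw.2) (mem_ball_same.1 hw'.2) hl
    rw [e]
  · intro i j w hw hw' hX
    rw [Finset.mem_erase] at hw hw'
    by_cases ho : firstPart z O w = o
    · have e := eq_of_fp ho
      rw [e] at hw hw' hX
      refine hP.uniq i j (lastPart z O w) (mem_ball_same.1 hw.2) (mem_ball_same.1 hw'.2) ?_
      intro h
      exact hX (Finset.mem_image.2 ⟨_, h, rfl⟩)
    · have h1 := hw.2
      have h2 := hw'.2
      rw [mem_Ball_app'] at h1 h2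
      have e1 := (h1.resolve_left fun h => ho h.1).2
      have e2 := (h2.resolve_left fun h => ho h.1).2
      apply hP.ss
      rw [← e1, e2]
      exact self_mem_Ball _ _
  obtain ⟨lam', hX', hsur⟩ := lab
  have labX : ∀ w ∈ X, lam' (app z O o w) = lam w := by
    intro w hw
    rw [hX' _ (Finset.mem_image.2 ⟨w, hw, rfl⟩)]
    change lam (lastPart z O (app z O o w)) = lam w
    rw [lp_app]
  have ftl : ∀ (i : Fin n) (g : Grid z), FTL z σ FT lam i g →
      FTL (O ++ z) (fun i => app z O o (σ i)) (FT.image fun g => app z O o g) lam' i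
        (app z O o g) := by
    rintro i g ⟨h1, g', h2, h3, h4⟩
    refine ⟨Finset.mem_image.2 ⟨g, h1, rfl⟩, app z O o g', Finset.mem_image.2 ⟨g', h2, rfl⟩,
      mem_ball_same.2 h3, ?_⟩
    rw [labX _ (hP.ftX h1), labX _ (hP.ftX h2), h4]
  -- a special word is not a neighbour
  have ns_sig : ∀ j, ¬ NS z σ (σ j) := by
    rintro j ⟨i, h1, h2⟩
    exact h2 (by rw [hP.ss j i h1])
  -- boxes
  have box_same : ∀ (w t : Grid z) (g : Grid (O ++ z)),
      g ∈ box (O ++ z) (app z O o w) (app z O o t) →
        firstPart z O g = o ∧ lastPart z O g ∈ box z w t := by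
    intro w t g hg
    have h := hBx z O o o w t g
    obtain ⟨h1, h2⟩ := h.1.1 hg
    exact ⟨h.2.2.1 _ h1, h2⟩
  have box_diff : ∀ (o' : Grid O) (w t : Grid z) (g : Grid (O ++ z)), o' ∈ Ball O o →
      g ∈ box (O ++ z) (app z O o' w) (app z O o t) →
        (firstPart z O g = o' ∨ firstPart z O g = o) ∧ lastPart z O g ∈ box z w t := by
    intro o' w t g ho' hg
    have h := hBx z O o' o w t g
    obtain ⟨h1, h2⟩ := h.1.1 hg
    exact ⟨h.2.1 ho' _ h1, h2⟩
  have box_l : ∀ w t : Grid z, w ∈ box z w t := fun w t =>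
    (hBx z O o o w t (app z O o w)).2.2.2.1
  have box_r : ∀ w t : Grid z, t ∈ box z w t := fun w t =>
    (hBx z O o o w t (app z O o w)).2.2.2.2
  refine ⟨lam', ?_⟩
  refine ⟨?_, ?_, ?_, ?_, ?_, ?_, ?_, ?_, ?_, ?_⟩
  · -- ss
    intro i j h
    exact hP.ss i j (mem_ball_same.1 h)
  · -- tinj
    intro a b h
    exact hP.tinj (app_inj h)
  · -- st
    intro i a h
    exact hP.st i a (mem_ball_same.1 h)
  · -- ft
    intro w hw
    obtain ⟨w1, hw1, rfl⟩ := Finset.mem_image.1 hw
    exact ns_same.2 (hP.xN w1 (hP.ftX hw1))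
  · -- h4
    intro w hw g hg hN
    obtain ⟨w1, hw1, rfl⟩ := Finset.mem_image.1 hw
    have el := labX w1 (hP.ftX hw1)
    change g ∈ box (O ++ z) (app z O o w1) (app z O o (τ (lam' (app z O o w1)))) at hg
    rw [el] at hg
    obtain ⟨h1, h2⟩ := box_same _ _ _ hg
    have e := eq_of_fp h1
    rw [e, ns_same, tg_same] at hN
    change g = app z O o w1 ∨ g = app z O o (τ (lam' (app z O o w1)))
    rw [el]
    rcases hP.h4 w1 hw1 _ h2 hN with h | h
    · left
      rw [e, h]
    · right
      rw [e, h]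
  · -- h5
    intro i w hw hne hFT g hg hN
    change g ∈ box (O ++ z) w (app z O o (τ (lam' w))) at hg
    by_cases ho : firstPart z O w = o
    · have ew := eq_of_fp ho
      obtain ⟨w1, hw1⟩ : ∃ w1, w1 = lastPart z O w := ⟨_, rfl⟩
      rw [← hw1] at ew
      subst ew
      have m1 : w1 ∈ Ball z (σ i) := mem_ball_same.1 hw
      have m2 : w1 ≠ σ i := fun h => hne (by rw [h])
      have m3 : w1 ∉ FT := fun h => hFT (Finset.mem_image.2 ⟨w1, h, rfl⟩)
      obtain ⟨h1, h2⟩ := box_same _ _ _ hg
      have e := eq_of_fp h1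
      rw [e, ns_same, tg_same] at hN
      have fin : lastPart z O g = w1 ∨ lastPart z O g = τ (lam' (app z O o w1)) ∨
          FTL z σ FT lam i (lastPart z O g) := by
        by_cases hX : w1 ∈ X
        · have el := labX w1 hX
          rw [el] at h2 ⊢
          exact hP.h5 i w1 m1 hX m3 _ h2 hN
        · exact hP.h7 i _ w1 m1 m2 hX _ h2 hN
      rcases fin with h | h | h
      · left
        rw [e, h]
      · right; left
        rw [e, h]
      · right; right
        rw [e]
        exact ftl i _ h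
    · rw [mem_Ball_app'] at hw
      obtain ⟨w1, w2⟩ := hw.resolve_left fun h => ho h.1
      have ew : w = app z O (firstPart z O w) (σ i) := by
        rw [← w2]
        exact parts.symm
      obtain ⟨o', ho'⟩ : ∃ o', o' = firstPart z O w := ⟨_, rfl⟩
      rw [← ho'] at ew w1 ho
      obtain ⟨a, ha⟩ : ∃ a, a = lam' w := ⟨_, rfl⟩
      rw [← ha] at hg
      rw [ew] at hg
      obtain ⟨h1, h2⟩ := box_diff _ _ _ _ w1 hg
      change g = w ∨ g = app z O o (τ (lam' w)) ∨ _
      rw [← ha]
      rcases h1 with h1 | h1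
      · have hgo : firstPart z O g ≠ o := by rw [h1]; exact ho
        rcases hN with hN | hN
        · obtain ⟨j, hj⟩ := ns_diff hgo hN
          have hball : ∃ j, lastPart z O g ∈ Ball z (σ j) :=
            ⟨j, by rw [hj]; exact self_mem_Ball _ _⟩
          rcases hP.h8 i a _ h2 (Or.inl hball) with h | h | h
          · left
            rw [ew, ← h, ← h1]
            exact parts.symm
          · exfalso
            apply hP.st j a
            rw [← h, hj]
            exact self_mem_Ball _ _
          · exfalso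
            have h3 := hP.xN _ (hP.ftX h.1)
            rw [hj] at h3
            exact ns_sig j h3
        · exact (tg_diff hgo hN).elim
      · have e := eq_of_fp h1
        rw [e, ns_same, tg_same] at hN
        have hN' : (∃ j, lastPart z O g ∈ Ball z (σ j)) ∨ TG z τ (lastPart z O g) := by
          rcases hN with hN | hN
          · obtain ⟨j, hj, -⟩ := hN
            exact Or.inl ⟨j, hj⟩
          · exact Or.inr hN
        rcases hP.h8 i a _ h2 hN' with h | h | h
        · exfalso
          rw [h] at hN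
          rcases hN with hN | hN
          · exact ns_sig i hN
          · obtain ⟨b, hb⟩ := hN
            apply hP.st i b
            rw [← hb]
            exact self_mem_Ball _ _
        · right; left
          rw [e, h]
        · right; right
          rw [e]
          exact ftl i _ h
  · -- h6
    intro i a ha
    obtain ⟨w, hw, hl⟩ := hsur i a ha
    rw [Finset.mem_erase] at hw
    exact ⟨w, hw.2, hw.1, hl⟩
  · -- hball
    intro i w hw
    rw [mem_Ball_app'] at hw
    rcases hw with ⟨h1, h2⟩ | ⟨h1, h2⟩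
    · rw [eq_of_fp h1]
      exact hΩ1 i _ h2 ⟨0, hc⟩ _ (box_l _ _)
    · have e : w = app z O (firstPart z O w) (σ i) := by
        rw [← h2]
        exact parts.symm
      rw [e]
      exact hΩ2 i ⟨0, hc⟩ _ (box_l _ _) _ h1
  · -- htar
    intro a
    exact hΩ1 ⟨0, hn⟩ _ (self_mem_Ball _ _) a _ (box_r _ _)
  · -- hbox
    intro i w hw _ g hg
    change g ∈ box (O ++ z) w (app z O o (τ (lam' w))) at hg
    rw [mem_Ball_app'] at hw
    rcases hw with ⟨h1, h2⟩ | ⟨h1, h2⟩
    · obtain ⟨a, ha⟩ : ∃ a, a = lam' w := ⟨_, rfl⟩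
      rw [← ha] at hg
      rw [eq_of_fp h1] at hg
      obtain ⟨g1, g2⟩ := box_same _ _ _ hg
      rw [eq_of_fp g1]
      exact hΩ1 i _ h2 a _ g2
    · obtain ⟨a, ha⟩ : ∃ a, a = lam' w := ⟨_, rfl⟩
      rw [← ha] at hg
      have e : w = app z O (firstPart z O w) (σ i) := by
        rw [← h2]
        exact parts.symm
      rw [e] at hg
      obtain ⟨g1, g2⟩ := box_diff _ _ _ _ h1 hg
      rw [← parts (x := g)]
      refine hΩ2 i a _ g2 _ ?_
      rcases g1 with g1 | g1
      · rw [g1]
        exact h1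
      · rw [g1]
        exact self_mem_Ball _ _

end Pool.Agent.Lib.MP_635d71_ag.Fr
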