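import Pool.Agent.Lib.MP_635d71_ag.Fr.Spec
import Pool.Agent.Lib.MP_635d71_ag.FourFinal2
import Pool.Agent.Lib.MP_635d71_ag.AllR

/-!
# Free largest factor: the theorem for lists
-/

set_option autoImplicit false

open Module Submodule

namespace Pool.Agent.Lib.MP_635d71_ag.Fr

namespace LisAux

theorem mono {K : Type} [Field K] {l : List ℕ} {r s s' : ℕ} (h : Reach K l r s) (hs : s' ≤ s) :
    Reach K l r s' := by
  obtain ⟨x, hx⟩ := h
  exact ⟨x, hs.trans hx⟩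

theorem un (r P L q : ℕ) (h1 : r ≤ P) (h2 : r ≤ q) :
    r * min P (r + L) + (q - r) * r = r * (q + min (P - r) L) := by
  obtain ⟨u, rfl⟩ : ∃ u, P = r + u := ⟨P - r, by omega⟩
  obtain ⟨v, rfl⟩ : ∃ v, q = r + v := ⟨q - r, by omega⟩
  rw [Nat.add_min_add_left, Nat.add_sub_cancel_left, Nat.add_sub_cancel_left]
  ring

/-- a number `r` near the critical one is at most `P`, and `P - r` is at most about `P / 3` -/
theorem crit (r P L q : ℕ) (hL : 1 ≤ L) (hq : 2 * L ≤ q) (hP : q + L < P)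
    (h1 : r * (q + L) ≤ q * P + (q + L)) (h2 : q * P ≤ r * (q + L) + (q + L)) :
    ∃ c, r + c = P ∧ 3 * c ≤ P + 3 := by
  have h3 : r ≤ P := by
    by_contra hcon
    push Not at hcon
    have h4 : (P + 1) * (q + L) ≤ r * (q + L) := Nat.mul_le_mul_right _ hcon
    have h5 : P * 1 ≤ P * L := Nat.mul_le_mul_left _ hL
    nlinarith
  obtain ⟨c, rfl⟩ : ∃ c, P = r + c := ⟨P - r, by omega⟩
  refine ⟨c, rfl, ?_⟩
  by_contra hcon
  push Not at hcon
  obtain ⟨d, rfl⟩ : ∃ d, c = d + 1 := ⟨c - 1, by omega⟩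
  have h6 : d * q ≤ (r + 1) * L := by nlinarith
  have h7 : d * (2 * L) ≤ d * q := Nat.mul_le_mul_left _ hq
  have h8 : (2 * d) * L ≤ (r + 1) * L := by nlinarith
  have h9 := Nat.le_of_mul_le_mul_right h8 hL
  omega

theorem big (L q s1 s2 s3 : ℕ) (hq : q < 2 * L) (h12 : s1 ≤ s2) (h23 : s2 ≤ s3)
    (h : 1600 * (L + 1) ≤ s1 ^ 2) : 8 * (L + 1) * (L + q) ^ 2 ≤ (s3 * (s1 * s2)) ^ 2 := by
  have h1 : (L + q) ^ 2 ≤ (3 * (L + 1)) ^ 2 := Nat.pow_le_pow_left (by omega) 2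
  have h2 : s1 ^ 2 ≤ s2 ^ 2 := Nat.pow_le_pow_left h12 2
  have h3 : s1 ^ 2 ≤ s3 ^ 2 := Nat.pow_le_pow_left (h12.trans h23) 2
  have h4 : (s3 * (s1 * s2)) ^ 2 = s3 ^ 2 * (s1 ^ 2 * s2 ^ 2) := by ring
  rw [h4]
  calc 8 * (L + 1) * (L + q) ^ 2 ≤ 8 * (L + 1) * (3 * (L + 1)) ^ 2 := Nat.mul_le_mul_left _ h1
    _ ≤ (1600 * (L + 1)) * ((1600 * (L + 1)) * (1600 * (L + 1))) := by
        have h5 : 8 * (L + 1) * (3 * (L + 1)) ^ 2 = 72 * ((L + 1) * (L + 1) * (L + 1)) := by ring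
        have h6 : (1600 * (L + 1)) * ((1600 * (L + 1)) * (1600 * (L + 1))) =
            4096000000 * ((L + 1) * (L + 1) * (L + 1)) := by ring
        rw [h5, h6]
        exact Nat.mul_le_mul_right _ (by norm_num)
    _ ≤ s3 ^ 2 * (s1 ^ 2 * s2 ^ 2) :=
        Nat.mul_le_mul (h.trans h3) (Nat.mul_le_mul h (h.trans h2))

end LisAux

open LisAux in
theorem pLis : S_Ind → S_Fin1 → S_Un1 → S_Un2 → S_Un3 → S_Lis := by
  intro hInd hFin hU1 hU2 hU3 K _ _ O q s3 s1 s2 L r h2 hO h12 h23 h3q hD h1600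
  have hs1 : 40 ≤ s1 := by
    by_contra hcon
    push Not at hcon
    have : s1 ^ 2 < 40 ^ 2 := Nat.pow_lt_pow_left hcon (by norm_num)
    omega
  have hD2 := D_append O [s3, s1, s2]
  have hD3 : D [s3, s1, s2] = (s3 - 1) + ((s1 - 1) + ((s2 - 1) + 1)) := rfl
  have hD4 := one_le_D O
  have hL : 39 ≤ L := by omega
  have hD5 : D (q :: (O ++ [s3, s1, s2])) = (q - 1) + D (O ++ [s3, s1, s2]) := rfl
  have hDl : D (q :: (O ++ [s3, s1, s2])) = q + L := by rw [hD5, hD]; omega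
  have hprod : (q :: (O ++ [s3, s1, s2])).prod = q * (O ++ [s3, s1, s2]).prod := by simp
  obtain ⟨P, hP⟩ : ∃ P, (O ++ [s3, s1, s2]).prod = P := ⟨_, rfl⟩
  have hL1 : D (O ++ [s3, s1, s2]) - 1 = L := by rw [hD]; rfl
  unfold dimF
  by_cases hr : r < min (O ++ [s3, s1, s2]).prod q
  · rw [if_pos hr]
    rw [lt_min_iff] at hr
    have h3 := hU1 K (O ++ [s3, s1, s2]) q r hr.2.le hr.1.le (by omega)
    rwa [hL1, un r _ L q hr.1.le hr.2.le] at h3
  rw [if_neg hr, hP]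
  rw [hP] at hr hprod
  rw [mul_comm P q]
  by_cases h3 : P ≤ r
  · have h4 := hU3 K (O ++ [s3, s1, s2]) q r (by rw [hP]; exact h3)
    rw [hP] at h4
    exact mono h4 (min_le_right _ _)
  push Not at h3
  have hqr : q ≤ r := by
    by_contra hcon
    exact hr (lt_min h3 (by omega))
  by_cases h4 : P ≤ r + L
  · have h5 := hU2 K (O ++ [s3, s1, s2]) q r (by omega) hqr (by rw [hP, hL1]; exact h4)
    rw [hP] at h5
    exact mono h5 (min_le_right _ _)
  push Not at h4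
  by_cases h5 : q < 2 * L
  · have h6 := four_lists2 h2 q s1 s2 s3 L (L + q) O hO h12 h23 h3q hD rfl (by omega)
      (by omega) (big L q s1 s2 s3 h5 h12 h23 h1600) r
    rwa [hDl, hprod] at h6
  push Not at h5
  have h6 := Reach.all (K := K) (l := q :: (O ++ [s3, s1, s2])) (fun r' hr1 hr2 => ?_) r
  · rwa [hDl, hprod] at h6
  rw [hDl, hprod] at hr1 hr2 ⊢
  obtain ⟨c, hc, hc3⟩ := crit r' P L q (by omega) h5 (by omega) hr1 hr2
  by_cases h7 : L ≤ c
  · obtain ⟨f1, f2⟩ := hFin K O s3 s1 s2 L c r' hO h12 h23 hD h1600 h7 (by rw [hP]; exact hc3)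
      (by rw [hP]; exact hc)
    have h8 := hInd K (O ++ [s3, s1, s2]) L c r' hD (by omega) (by omega) (by rw [hP]; exact hc)
      f1 f2 q (by omega)
    rwa [hP, mul_comm P q] at h8
  · push Not at h7
    have h8 := hU2 K (O ++ [s3, s1, s2]) q r' (by omega) (by omega) (by rw [hP, hL1]; omega)
    rw [hP] at h8
    exact mono h8 (min_le_right _ _)

end Pool.Agent.Lib.MP_635d71_ag.Fr
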