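import Pool.Agent.Lib.MP_635d71_ag.Fr.SpecB
import Pool.Agent.Lib.MP_635d71_ag.Lists

set_option autoImplicit false

open Module Submodule

namespace Pool.Agent.Lib.MP_635d71_ag.Fr

namespace LisBAux

theorem length_lt_D : ∀ Y : List ℕ, (∀ a ∈ Y, 2 ≤ a) → Y.length + 1 ≤ D Y
  | [], _ => le_rfl
  | q :: l, h => by
    have h1 := length_lt_D l fun a ha => h a (List.mem_cons_of_mem _ ha)
    have h2 : 2 ≤ q := h q List.mem_cons_self
    have h3 : D (q :: l) = (q - 1) + D l := rfl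
    rw [List.length_cons, h3]
    omega

theorem two_pow_le : ∀ Y : List ℕ, (∀ a ∈ Y, 2 ≤ a) → 2 ^ Y.length ≤ Y.prod
  | [], _ => le_rfl
  | q :: l, h => by
    have h1 := two_pow_le l fun a ha => h a (List.mem_cons_of_mem _ ha)
    have h2 : 2 ≤ q := h q List.mem_cons_self
    rw [List.length_cons, List.prod_cons, pow_succ, mul_comm]
    exact Nat.mul_le_mul h2 h1

/-- The lists `O`, `u` exist. -/
theorem split_top {Y top W : List ℕ} (h : Y.Perm (top ++ W)) {m : ℕ} (hm : m ≤ top.length) :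
    ∃ O u : List ℕ, u.length = m ∧ Y.Perm ((O ++ u) ++ W) := by
  refine ⟨top.drop m, top.take m, List.length_take_of_le hm, h.trans (List.Perm.append_right W ?_)⟩
  have h1 : (top.take m ++ top.drop m).Perm (top.drop m ++ top.take m) := List.perm_append_comm
  rwa [List.take_append_drop] at h1

/-- The numbers. -/
theorem num1 {Δ k : ℕ} (h4 : 4 ≤ Δ) (h : Δ ^ 12 ≤ 2 ^ (k + 1)) : 2 * Δ ^ 9 ≤ 2 ^ k := by
  have h1 : 4 * Δ ^ 9 ≤ Δ ^ 12 := by
    calc 4 * Δ ^ 9 ≤ Δ ^ 3 * Δ ^ 9 := Nat.mul_le_mul_right _ (by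
          calc 4 ≤ Δ := h4
            _ = Δ ^ 1 := (pow_one _).symm
            _ ≤ Δ ^ 3 := Nat.pow_le_pow_right (by omega) (by norm_num))
      _ = Δ ^ 12 := by ring
  have h2 : 2 ^ (k + 1) = 2 * 2 ^ k := by ring
  omega

theorem num2 {Δ k m P : ℕ} (h : Δ ^ 12 ≤ 2 ^ k) (h2 : 2 ^ m ≤ P) (h3 : P ≤ Δ ^ 3) : 4 * m ≤ k := by
  refine (Nat.pow_le_pow_iff_right (le_refl 2)).1 ?_
  calc 2 ^ (4 * m) = (2 ^ m) ^ 4 := by rw [← pow_mul, mul_comm]
    _ ≤ (Δ ^ 3) ^ 4 := Nat.pow_le_pow_left (h2.trans h3) 4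
    _ = Δ ^ 12 := by ring
    _ ≤ 2 ^ k := h

theorem num3 {Δ L k ρ : ℕ} (h : Δ ^ 12 ≤ 2 ^ k) (hL : L ≤ Δ) (hρ : 4 ^ ρ ≤ 8 * L) :
    24 * ρ ≤ k + 36 := by
  refine (Nat.pow_le_pow_iff_right (le_refl 2)).1 ?_
  calc 2 ^ (24 * ρ) = (4 ^ ρ) ^ 12 := by
        rw [show (4 : ℕ) = 2 ^ 2 from rfl, ← pow_mul, ← pow_mul]
        congr 1
        ring
    _ ≤ (8 * Δ) ^ 12 := Nat.pow_le_pow_left (hρ.trans (Nat.mul_le_mul_left _ hL)) 12
    _ = 2 ^ 36 * Δ ^ 12 := by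
        rw [mul_pow, show (8 : ℕ) = 2 ^ 3 from rfl, ← pow_mul]
    _ ≤ 2 ^ 36 * 2 ^ k := Nat.mul_le_mul_left _ h
    _ = 2 ^ (k + 36) := by rw [← pow_add, add_comm]

theorem num4 {Δ e : ℕ} (h4 : 4 ≤ Δ) (h : 2 * e ≤ Δ) :
    (2 * Δ + 1) * (2 * e + 1) ≤ 3 * Δ ^ 2 := by
  calc (2 * Δ + 1) * (2 * e + 1) ≤ (2 * Δ + 1) * (Δ + 1) := Nat.mul_le_mul_left _ (by omega)
    _ ≤ 3 * Δ ^ 2 := by nlinarith

end LisBAux

open LisBAux in
theorem pLisB : S_Rch → S_Rho → S_FinB → S_SelB → S_LisB := by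
  intro hRch hRho hFin hSel K _ _ q Y r hq hY hk hD
  obtain ⟨Δ, hΔ⟩ : ∃ Δ, D Y = Δ := ⟨_, rfl⟩
  rw [hΔ] at hD ⊢
  have hlen := length_lt_D Y hY
  rw [hΔ] at hlen
  obtain ⟨L, rfl⟩ : ∃ L, Δ = L + 1 := ⟨Δ - 1, by omega⟩
  have hL1 : L + 1 - 1 = L := rfl
  rw [hL1]
  have h2P := two_pow_le Y hY
  have h9 : 2 * (L + 1) ^ 9 ≤ Y.prod := (num1 (by omega) hD).trans h2P
  have h8 : 2 * D Y ^ 8 ≤ Y.prod := by
    rw [hΔ]
    refine le_trans ?_ h9
    exact Nat.mul_le_mul_left _ (Nat.pow_le_pow_right (by omega) (by norm_num))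
  obtain ⟨top, M, z, hperm, s1, s2, s3, s4, s5⟩ := hSel K Y hY h8
  rw [hΔ] at s1 s2 s3 s5
  have hMz : ∀ a ∈ M ++ z, 2 ≤ a := fun a ha => hY a (hperm.mem_iff.2 (List.mem_append_right _ ha))
  have hlen4 : 4 * (M ++ z).length ≤ Y.length + 1 := num2 hD (two_pow_le _ hMz) s3
  have hlt : Y.length = top.length + (M ++ z).length := by
    rw [hperm.length_eq, List.length_append]
  obtain ⟨ρ, r8, r1, r2, r3, r4⟩ := hRho L (by omega)
  have hρ : 16 * ρ ≤ top.length := by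
    rcases r4 with h | h
    · omega
    · have h24 := num3 hD (Nat.le_succ L) h
      omega
  obtain ⟨O, u, hu, hp⟩ := split_top hperm hρ
  have hmem : ∀ a ∈ (O ++ u) ++ (M ++ z), 2 ≤ a := fun a ha => hY a (hp.mem_iff.2 ha)
  have hO : ∀ a ∈ O, 1 ≤ a := fun a ha => le_trans (by norm_num)
    (hmem a (List.mem_append_left _ (List.mem_append_left _ ha)))
  have hu2 : ∀ a ∈ u, 2 ≤ a := fun a ha =>
    hmem a (List.mem_append_left _ (List.mem_append_right _ ha))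
  have hM : ∀ a ∈ M, 1 ≤ a := fun a ha => le_trans (by norm_num)
    (hmem a (List.mem_append_right _ (List.mem_append_left _ ha)))
  have hz : ∀ a ∈ z, 1 ≤ a := fun a ha => le_trans (by norm_num)
    (hmem a (List.mem_append_right _ (List.mem_append_right _ ha)))
  obtain ⟨l, hl⟩ : ∃ l, (O ++ u) ++ (M ++ z) = l := ⟨_, rfl⟩
  have hDl : D ((O ++ u) ++ (M ++ z)) = L + 1 := by rw [← D_perm hp, hΔ]
  have hPl : ((O ++ u) ++ (M ++ z)).prod = Y.prod := hp.prod_eq.symm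
  have key : Reach K (q :: ((O ++ u) ++ (M ++ z))) r
      (dimF q ((O ++ u) ++ (M ++ z)).prod L r) := by
    refine hRch K _ q L r (by omega) (by omega) hDl (fun hq2 => ?_) (fun c r' c1 c2 c3 => ?_)
    · have hP : q * D Y ^ 2 * D Y ^ 6 ≤ Y.prod := by
        rw [hΔ]
        refine le_trans ?_ h9
        calc q * (L + 1) ^ 2 * (L + 1) ^ 6 = q * (L + 1) ^ 8 := by ring
          _ ≤ (2 * (L + 1)) * (L + 1) ^ 8 := Nat.mul_le_mul_right _ (by omega)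
          _ = 2 * (L + 1) ^ 9 := by ring
      have h1 := lists_final (K := K) q Y [] Y (by rw [List.append_nil]) hq hY hP r
      have h2 : D (q :: Y) = q + L := by
        rw [D, hΔ]
        omega
      have h3 : (q :: Y).prod = ((O ++ u) ++ (M ++ z)).prod * q := by
        rw [List.prod_cons, hPl, mul_comm]
      rw [h2, h3] at h1
      exact Reach.of_equ (Equ.of_perm (hp.cons q)) h1
    · exact hFin K O u M z L ρ c r' hO hu2 hM hz hu (by omega) r1 r2 r3 hDl s1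
        ((num4 (by omega) s1).trans s2) s4 s5 c1 c2 c3
  rw [hPl] at key
  exact Reach.of_equ (Equ.of_perm (hp.symm.cons q)) key

end Pool.Agent.Lib.MP_635d71_ag.Fr
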