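import Pool.Agent.Lib.MP_635d71_ag.Fr.Spec

set_option autoImplicit false

open Module Submodule

namespace Pool.Agent.Lib.MP_635d71_ag.Fr

namespace LtBAux

theorem ball_iff {s3 s1 s2 : ℕ} (a b : Fin s3) (c d : Fin s1) (e f : Fin s2) :
    ((a, c, e, ()) : Grid [s3, s1, s2]) ∈ Ball [s3, s1, s2] (b, d, f, ()) ↔
      (a = b ∧ c = d) ∨ (a = b ∧ e = f) ∨ (c = d ∧ e = f) := by
  have h0 : (() : Grid []) ∈ Ball [] () := Finset.mem_univ _
  rw [mem_Ball_cons, mem_Ball_cons, mem_Ball_cons]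
  constructor
  · rintro (⟨h1, ⟨h2, _⟩ | h2⟩ | h2)
    · exact Or.inl ⟨h1, h2⟩
    · exact Or.inr (Or.inl ⟨h1, (Prod.ext_iff.1 h2).1⟩)
    · have h3 := Prod.ext_iff.1 h2
      exact Or.inr (Or.inr ⟨h3.1, (Prod.ext_iff.1 h3.2).1⟩)
  · rintro (⟨h1, h2⟩ | ⟨h1, h2⟩ | ⟨h1, h2⟩)
    · exact Or.inl ⟨h1, Or.inl ⟨h2, Or.inr rfl⟩⟩
    · exact Or.inl ⟨h1, Or.inr (by rw [h2])⟩
    · exact Or.inr (by rw [h1, h2])

theorem box_iff {s3 s1 s2 : ℕ} (a b x : Fin s3) (c d y : Fin s1) (e f z : Fin s2) :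
    ((a, c, e, ()) : Grid [s3, s1, s2]) ∈ box [s3, s1, s2] (b, d, f, ()) (x, y, z, ()) ↔
      (a = b ∨ a = x) ∧ (c = d ∨ c = y) ∧ (e = f ∨ e = z) := by
  simp only [box, Finset.mem_product, Finset.mem_insert, Finset.mem_singleton]
  constructor
  · rintro ⟨h1, h2, h3, _⟩
    exact ⟨h1, h2, h3⟩
  · rintro ⟨h1, h2, h3⟩
    exact ⟨h1, h2, h3, Finset.mem_univ _⟩

end LtBAux

open LtBAux in
theorem pLtB : S_LtB := by
  rintro s3 s1 s2 ⟨a, c, e, ⟨⟩⟩ ⟨b, d, f, ⟨⟩⟩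
  have k0 : ∀ (a : Fin s3) (c : Fin s1) (e : Fin s2),
      ltr ((a, c, e, ()) : Grid [s3, s1, s2]) 0 = a.val := fun _ _ _ => rfl
  have k1 : ∀ (a : Fin s3) (c : Fin s1) (e : Fin s2),
      ltr ((a, c, e, ()) : Grid [s3, s1, s2]) 1 = c.val := fun _ _ _ => rfl
  have k2 : ∀ (a : Fin s3) (c : Fin s1) (e : Fin s2),
      ltr ((a, c, e, ()) : Grid [s3, s1, s2]) 2 = e.val := fun _ _ _ => rfl
  refine ⟨?_, ?_, ?_⟩
  · refine (ball_iff a b c d e f).trans ⟨?_, ?_⟩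
    · rintro (⟨h1, h2⟩ | ⟨h1, h2⟩ | ⟨h1, h2⟩)
      · refine ⟨2, fun i hi => ?_⟩
        fin_cases i
        · exact congrArg Fin.val h1
        · exact congrArg Fin.val h2
        · exact absurd rfl hi
      · refine ⟨1, fun i hi => ?_⟩
        fin_cases i
        · exact congrArg Fin.val h1
        · exact absurd rfl hi
        · exact congrArg Fin.val h2
      · refine ⟨0, fun i hi => ?_⟩
        fin_cases i
        · exact absurd rfl hi
        · exact congrArg Fin.val h1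
        · exact congrArg Fin.val h2
    · rintro ⟨i, hi⟩
      fin_cases i
      · exact Or.inr (Or.inr ⟨Fin.ext (hi 1 (by decide)), Fin.ext (hi 2 (by decide))⟩)
      · exact Or.inr (Or.inl ⟨Fin.ext (hi 0 (by decide)), Fin.ext (hi 2 (by decide))⟩)
      · exact Or.inl ⟨Fin.ext (hi 0 (by decide)), Fin.ext (hi 1 (by decide))⟩
  · rintro ⟨x, y, z, ⟨⟩⟩
    refine (box_iff a b x c d y e f z).trans ⟨?_, fun h => ?_⟩
    · rintro ⟨h1, h2, h3⟩ i
      fin_cases i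
      · exact h1.imp (congrArg Fin.val) (congrArg Fin.val)
      · exact h2.imp (congrArg Fin.val) (congrArg Fin.val)
      · exact h3.imp (congrArg Fin.val) (congrArg Fin.val)
    · exact ⟨(h 0).imp Fin.ext Fin.ext, (h 1).imp Fin.ext Fin.ext, (h 2).imp Fin.ext Fin.ext⟩
  · constructor
    · intro h i
      rw [h]
    · intro h
      have h0 : a = b := Fin.ext (h 0)
      have h1 : c = d := Fin.ext (h 1)
      have h2 : e = f := Fin.ext (h 2)
      rw [h0, h1, h2]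

end Pool.Agent.Lib.MP_635d71_ag.Fr
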