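import Pool.Agent.Lib.MP_635d71_ag.Fr.SpecB

/-!
# Free largest factor, many factors: letters of words
-/

set_option autoImplicit false

open Module Submodule

namespace Pool.Agent.Lib.MP_635d71_ag.Fr

theorem pLvB : S_LvB := by
  intro l
  induction l with
  | nil =>
    intro g g'
    exact ⟨⟨fun _ p => rfl, fun _ => rfl⟩, ⟨fun _ => ⟨0, fun p _ => rfl⟩, fun _ => mem_Ball_nil _ _⟩,
      fun t => ⟨fun _ p => Or.inl rfl, fun _ => Finset.mem_univ _⟩⟩
  | cons q l ih =>
    rintro ⟨j, h⟩ ⟨j', h'⟩
    refine ⟨⟨fun he p => by rw [he], fun he => ?_⟩, ⟨fun hb => ?_, fun hb => ?_⟩, ?_⟩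
    · have h1 : j = j' := Fin.ext (he 0)
      have h2 : h = h' := (ih h h').1.2 fun p => he (p + 1)
      rw [h1, h2]
    · rcases (mem_Ball_cons j' j h' h).1 hb with ⟨h1, h2⟩ | h1
      · obtain ⟨d, hd⟩ := (ih h h').2.1.1 h2
        refine ⟨d + 1, fun p hp => ?_⟩
        cases p with
        | zero => exact congrArg Fin.val h1
        | succ p => exact hd p fun hpd => hp (by rw [hpd])
      · refine ⟨0, fun p hp => ?_⟩
        cases p with
        | zero => exact absurd rfl hp
        | succ p =>
          change ltv l h p = ltv l h' p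
          rw [h1]
    · obtain ⟨d, hd⟩ := hb
      apply (mem_Ball_cons j' j h' h).2
      cases d with
      | zero => exact Or.inr ((ih h h').1.2 fun p => hd (p + 1) (Nat.succ_ne_zero p))
      | succ d =>
        left
        refine ⟨Fin.ext (hd 0 (Nat.succ_ne_zero d).symm), (ih h h').2.1.2 ⟨d, fun p hp => ?_⟩⟩
        exact hd (p + 1) fun hpd => hp (Nat.succ_injective hpd)
    · rintro ⟨i, t⟩
      have h0 : ((j, h) : Grid (q :: l)) ∈ box (q :: l) (j', h') (i, t) ↔
          (j = j' ∨ j = i) ∧ h ∈ box l h' t := by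
        rw [box, Finset.mem_product, Finset.mem_insert, Finset.mem_singleton]
      rw [h0, (ih h h').2.2 t]
      constructor
      · rintro ⟨h1, h2⟩ p
        cases p with
        | zero =>
          rcases h1 with h1 | h1
          · exact Or.inl (congrArg Fin.val h1)
          · exact Or.inr (congrArg Fin.val h1)
        | succ p => exact h2 p
      · intro h1
        refine ⟨?_, fun p => h1 (p + 1)⟩
        rcases h1 0 with h2 | h2
        · exact Or.inl (Fin.ext h2)
        · exact Or.inr (Fin.ext h2)

end Pool.Agent.Lib.MP_635d71_ag.Fr
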