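import Pool.Agent.Lib.MP_635d71_ag.Fr.Spec

/-!
# Replacing the coordinate space by a subspace in all slices
-/

set_option autoImplicit false

open Module Submodule

namespace Pool.Agent.Lib.MP_635d71_ag.Fr

namespace ModLAux

variable {K : Type} [Field K]

/-- The words with last part in `Ω`. -/
def cyl (s : ℕ) {l : List ℕ} (Ω : Finset (Grid l)) : Finset (Grid (s :: l)) :=
  (Finset.univ ×ˢ Ω : Finset (Fin s × Grid l))

theorem mem_cyl {s : ℕ} {l : List ℕ} (Ω : Finset (Grid l)) (g : Grid (s :: l)) :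
    g ∈ cyl s Ω ↔ g.2 ∈ Ω := by
  obtain ⟨j, g⟩ := g
  have h := Finset.mem_product (s := (Finset.univ : Finset (Fin s))) (t := Ω) (p := (j, g))
  refine h.trans ⟨fun h => h.2, fun h => ⟨Finset.mem_univ _, h⟩⟩

theorem card_cyl (s : ℕ) {l : List ℕ} (Ω : Finset (Grid l)) : (cyl s Ω).card = s * Ω.card := by
  have h := Finset.card_product (Finset.univ : Finset (Fin s)) Ω
  rw [Finset.card_univ, Fintype.card_fin] at h
  exact h

theorem sum_ten {s : ℕ} {l : List ℕ} (f : Grid (s :: l) → K) :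
    f = ∑ j : Fin s, ten (Pi.single j 1) (fun g => f (j, g)) := by
  ext ⟨j, g⟩
  rw [Finset.sum_apply, Finset.sum_eq_single j]
  · rw [ten_apply, Pi.single_eq_same, one_mul]
  · intro i _ hi
    rw [ten_apply, Pi.single_eq_of_ne (Ne.symm hi), zero_mul]
  · intro h
    exact absurd (Finset.mem_univ j) h

end ModLAux

open ModLAux in
theorem pModL : S_ModL := by
  intro K _ s l Ω G S H hG hS hH hsup
  have h1 : coordSub K (cyl s Ω) ⊔ S = ⊤ := by
    rw [eq_top_iff]
    intro f _
    rw [sum_ten f]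
    refine Submodule.sum_mem _ fun j _ => ?_
    have h2 : (fun g => f (j, g)) ∈ coordSub K Ω ⊔ G j := by
      rw [hG j]
      exact Submodule.mem_top
    obtain ⟨a, ha, b, hb, hab⟩ := Submodule.mem_sup.1 h2
    rw [← hab]
    have h3 : ten (Pi.single j (1 : K)) (a + b) =
        ten (Pi.single j (1 : K)) a + ten (Pi.single j (1 : K)) b :=
      (tenL (Pi.single j (1 : K)) l).map_add a b
    rw [h3]
    refine Submodule.add_mem_sup ?_ (hS j ⟨b, hb, rfl⟩)
    intro g hg
    have h4 : a g.2 = 0 := ha g.2 fun h => hg ((mem_cyl Ω g).2 h)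
    change (Pi.single j (1 : K) : Fin s → K) g.1 * a g.2 = 0
    rw [h4, mul_zero]
  have h2 : H ≤ coordSub K (cyl s Ω) := fun f hf g hg =>
    hsup f hf g.1 g.2 fun h => hg ((mem_cyl Ω g).2 h)
  have h3 := finrank_sup_ge (cyl s Ω) H S h2
  have h4 : finrank K (Grid (s :: l) → K) = s * l.prod := by
    rw [Module.finrank_fintype_fun_eq_card, card_grid, List.prod_cons]
  rw [h1, finrank_top, h4, sup_eq_right.2 hH, card_cyl] at h3
  omega

end Pool.Agent.Lib.MP_635d71_ag.Fr
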