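import Pool.Agent.Lib.MP_635d71_ag.Fr.Spec

/-!
# Free largest factor: the module `Near`

`a = c / L - 1`, `c' = c % L + L`: the statement `Core` with the arcs of length `L` in `c'` labels
gives the two families of inequalities needed by `Ind`.
-/

set_option autoImplicit false

open Module Submodule

namespace Pool.Agent.Lib.MP_635d71_ag.Fr

namespace NearAux

/-- Double counting: the sum of the degrees is the sum of the cardinalities. -/
theorem sum_deg {n c : ℕ} (F : Fin n → Finset (Fin c)) :
    ∑ t, deg F t = ∑ i, (F i).card := by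
  classical
  have h1 : ∀ t, deg F t = ∑ i : Fin n, if t ∈ F i then 1 else 0 := by
    intro t
    rw [deg, Finset.card_filter]
  have h2 : ∀ i : Fin n, (F i).card = ∑ t : Fin c, if t ∈ F i then 1 else 0 := by
    intro i
    rw [← Finset.card_filter]
    congr 1
    ext t
    simp
  simp_rw [h1, h2]
  exact Finset.sum_comm

theorem split {L c : ℕ} (hL : 1 ≤ L) (hc : L ≤ c) : c = (c / L - 1) * L + (c % L + L) := by
  have h1 : 1 ≤ c / L := (Nat.one_le_div_iff hL).2 hc
  obtain ⟨b, hb⟩ : ∃ b, c / L = b + 1 := ⟨c / L - 1, by omega⟩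
  have h2 := Nat.div_add_mod c L
  rw [hb] at h2 ⊢
  rw [Nat.add_sub_cancel]
  calc c = L * (b + 1) + c % L := h2.symm
    _ = b * L + (c % L + L) := by ring

theorem ceil_mul {x L : ℕ} (hL : 1 ≤ L) : x ≤ (x + (L - 1)) / L * L := by
  have h1 := Nat.div_add_mod (x + (L - 1)) L
  have h2 := Nat.mod_lt (x + (L - 1)) hL
  have h3 : (x + (L - 1)) / L * L = L * ((x + (L - 1)) / L) := Nat.mul_comm _ _
  omega

end NearAux

open NearAux

theorem pNear : S_Core → S_ArcCard → S_ArcDeg → S_Near := by
  intro hCore hCard hDeg K _ _ l L c r hD hL hLc hrc hyp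
  have hsplit := split hL hLc
  set a := c / L - 1 with ha
  set c' := c % L + L with hc'
  have h1 : L ≤ c' := by omega
  have h2 : c' < 2 * L := by
    have := Nat.mod_lt c hL
    omega
  have hc1 : 1 ≤ c' := by omega
  constructor
  · intro s hs hsL
    have e1 : c * s / L = s * a + c' * s / L := by
      have : c * s = c' * s + L * (s * a) := by
        calc c * s = (a * L + c') * s := by rw [← hsplit]
          _ = c' * s + L * (s * a) := by ring
      rw [this, Nat.add_mul_div_left _ _ hL, Nat.add_comm]
    set n := c' * s / L with hn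
    have hnL : n * L ≤ c' * s := Nat.div_mul_le_self _ _
    have hsn : s ≤ n := by
      rw [hn, Nat.le_div_iff_mul_le hL, Nat.mul_comm]
      exact Nat.mul_le_mul_right s h1
    have hn2 : n ≤ 2 * s := by
      rw [hn]
      apply Nat.div_le_of_le_mul
      calc c' * s ≤ (2 * L) * s := Nat.mul_le_mul_right s h2.le
        _ = L * (2 * s) := by ring
    have hnc : n ≤ c' := by
      rw [hn]
      apply Nat.div_le_of_le_mul
      rw [Nat.mul_comm]
      exact Nat.mul_le_mul_right c' hsL
    obtain ⟨Ω, hG, hcard, hLS⟩ := hyp s n c' hs hsL h1 h2 hsn hn2 hnc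
    have hB := hCore K l Ω L c a c' s n r (arc L c' n) hD hsplit hrc hs hsL hG hcard hLS
    have hdeg : ∀ t : Fin c', min s (deg (arc L c' n) t) = deg (arc L c' n) t := by
      intro t
      apply Nat.min_eq_right
      have hd := (hDeg L c' n t (hs.trans hsn) h1).1
      have : deg (arc L c' n) t * c' < (s + 1) * c' := by
        calc deg (arc L c' n) t * c' < n * L + c' := hd
          _ ≤ c' * s + c' := Nat.add_le_add_right hnL _
          _ = (s + 1) * c' := by ring
      exact Nat.lt_succ_iff.1 (Nat.lt_of_mul_lt_mul_right this)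
    have hsum : ∑ t, min s (deg (arc L c' n) t) = n * L := by
      rw [Finset.sum_congr rfl fun t _ => hdeg t, sum_deg,
        Finset.sum_congr rfl fun i _ => hCard L c' n i hc1 h1]
      simp
    rw [e1]
    rw [hsum] at hB
    have e2 : r * s + (s * a + n) * L = s * (r + a * L) + n * L := by ring
    rw [e2]
    exact hB
  · intro s hs hsL
    have e1 : (c * s + (L - 1)) / L = s * a + (c' * s + (L - 1)) / L := by
      have : c * s + (L - 1) = (c' * s + (L - 1)) + L * (s * a) := by
        have : c * s = c' * s + L * (s * a) := by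
          calc c * s = (a * L + c') * s := by rw [← hsplit]
            _ = c' * s + L * (s * a) := by ring
        omega
      rw [this, Nat.add_mul_div_left _ _ hL, Nat.add_comm]
    have hnL : c' * s ≤ (c' * s + (L - 1)) / L * L := ceil_mul hL
    set n := (c' * s + (L - 1)) / L with hn
    have hsn : s ≤ n := by
      rw [hn, Nat.le_div_iff_mul_le hL, Nat.mul_comm]
      exact (Nat.mul_le_mul_right s h1).trans (Nat.le_add_right _ _)
    have hn2 : n ≤ 2 * s := by
      rw [hn]
      apply Nat.lt_succ_iff.1
      rw [Nat.div_lt_iff_lt_mul hL]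
      have h3 : c' * s + s ≤ 2 * L * s := by
        calc c' * s + s = (c' + 1) * s := by ring
          _ ≤ 2 * L * s := Nat.mul_le_mul_right s h2
      have h4 : (2 * s).succ * L = 2 * L * s + L := by
        rw [Nat.succ_eq_add_one]
        ring
      omega
    have hnc : n ≤ c' := by
      rw [hn]
      apply Nat.lt_succ_iff.1
      rw [Nat.div_lt_iff_lt_mul hL]
      have h3 : c' * s ≤ c' * L := Nat.mul_le_mul_left c' hsL
      have h4 : c'.succ * L = c' * L + L := by
        rw [Nat.succ_eq_add_one]
        ring
      omega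
    obtain ⟨Ω, hG, hcard, hLS⟩ := hyp s n c' hs hsL h1 h2 hsn hn2 hnc
    have hB := hCore K l Ω L c a c' s n r (arc L c' n) hD hsplit hrc hs hsL hG hcard hLS
    have hdeg : ∀ t : Fin c', min s (deg (arc L c' n) t) = s := by
      intro t
      apply Nat.min_eq_left
      have hd := (hDeg L c' n t (hs.trans hsn) h1).2
      have : s * c' < (deg (arc L c' n) t + 1) * c' := by
        calc s * c' = c' * s := Nat.mul_comm _ _
          _ ≤ n * L := hnL
          _ < deg (arc L c' n) t * c' + c' := hd
          _ = (deg (arc L c' n) t + 1) * c' := by ring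
      exact Nat.lt_succ_iff.1 (Nat.lt_of_mul_lt_mul_right this)
    have hsum : ∑ t, min s (deg (arc L c' n) t) = c' * s := by
      rw [Finset.sum_congr rfl fun t _ => hdeg t]
      simp
    rw [e1]
    rw [hsum] at hB
    have e2 : l.prod * s = s * (r + a * L) + c' * s := by
      rw [← hrc]
      calc (r + c) * s = (r + (a * L + c')) * s := by rw [← hsplit]
        _ = s * (r + a * L) + c' * s := by ring
    rw [e2]
    exact hB

end Pool.Agent.Lib.MP_635d71_ag.Fr
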