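import Pool.Agent.Lib.MP_635d71_ag.Fr.SpecB

/-!
# PB1: the fields `xN`, `ss`, `tinj`, `st`, `uniq`
-/

set_option autoImplicit false

open Module Submodule

namespace Pool.Agent.Lib.MP_635d71_ag.Fr

open scoped Classical in
theorem pPB1 : S_LvB → S_Cd1 → S_Cd2 → S_PB1 := by
  intro hL hC1 hC2 u n c ρ F Λ σ τ lam hX
  obtain ⟨h1, h2, h3, h4⟩ := hC2 ρ hX.ρ1
  have uniq : ∀ i j w, w ∈ Ball u (σ i) → w ∈ Ball u (σ j) → i = j := by
    intro i j w hi hj
    by_contra hne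
    obtain ⟨d, hd⟩ := (hL u w (σ i)).2.1.1 hi
    obtain ⟨e, he⟩ := (hL u w (σ j)).2.1.1 hj
    obtain ⟨p, hpd, hpe, -, hf, ht⟩ := hC1 ρ i.val j.val d e (i.isLt.trans_le hX.n4)
      (j.isLt.trans_le hX.n4) (fun h => hne (Fin.ext h))
    have h5 := (hd p hpd).symm.trans (he p hpe)
    rw [hX.hσ, hX.hσ, hf, ht] at h5
    simp at h5
  refine ⟨?_, fun i j h => uniq i j (σ i) (self_mem_Ball u (σ i)) h, ?_, ?_, uniq⟩
  · intro w hw
    obtain ⟨i, d, hd, hcase⟩ := (Finset.mem_filter.1 hw).2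
    refine ⟨i, (hL u w (σ i)).2.1.2 ⟨d, hd⟩, ?_⟩
    rintro rfl
    rcases hcase with ⟨h5, h6⟩ | ⟨h5, -, h6⟩
    · omega
    · rw [hX.hσ] at h6
      have h7 : sgb ρ i.val d = true := by
        cases hs : sgb ρ i.val d
        · rw [hs] at h6
          simp at h6
        · rfl
      have := h1 i.val d h7
      omega
  · intro a b hab
    refine Fin.ext (h4 a.val b.val (a.isLt.trans_le hX.c4) (b.isLt.trans_le hX.c4) ?_)
    intro p hp
    have h5 : (tgb ρ a.val p).toNat = (tgb ρ b.val p).toNat := by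
      rw [← hX.hτ, ← hX.hτ, hab]
    rw [hp] at h5
    cases hs : tgb ρ a.val p
    · rw [hs] at h5
      simp at h5
    · rfl
  · intro i a h
    obtain ⟨d, hd⟩ := (hL u (τ a) (σ i)).2.1.1 h
    obtain ⟨p, hpd, hp⟩ := h3 i.val d
    have h5 := hd p hpd
    rw [hX.hσ, hX.hτ, hp] at h5
    have h6 : tgb ρ a.val p = true := by
      cases hs : tgb ρ a.val p
      · rw [hs] at h5
        simp at h5
      · rfl
    have h7 := h1 i.val p hp
    have h8 := (h2 a.val p h6).1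
    omega

end Pool.Agent.Lib.MP_635d71_ag.Fr
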