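import Pool.Agent.Lib.MP_635d71_ag.Fr.SpecB

/-!
# Free largest factor, many factors: the fields `labF`, `labI`
-/

set_option autoImplicit false

open Module Submodule

namespace Pool.Agent.Lib.MP_635d71_ag.Fr

namespace PB2Aux

/-- A place where the special word has the letter `1` is `< 12 ρ`. -/
theorem lt12 (h2 : S_Cd2) {u : List ℕ} {n c ρ : ℕ} {F : Fin n → Finset (Fin c)}
    {Λ : Fin n → ℕ → Fin c} {σ : Fin n → Grid u} {τ : Fin c → Grid u} {lam : Grid u → Fin c}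
    (C : CtxB u n c ρ F Λ σ τ lam) (i : Fin n) (d : ℕ) (h : ltv u (σ i) d = 1) : d < 12 * ρ := by
  apply (h2 ρ C.ρ1).1 i.val d
  rw [C.hσ i d] at h
  cases hb : sgb ρ i.val d with
  | false => rw [hb] at h; exact absurd h (by decide)
  | true => rfl

/-- A flexible word in the ball of a special word is a change of this special word. -/
theorem key (hL : S_LvB) (h1 : S_Cd1) (h2 : S_Cd2) {u : List ℕ} {n c ρ : ℕ}
    {F : Fin n → Finset (Fin c)} {Λ : Fin n → ℕ → Fin c} {σ : Fin n → Grid u}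
    {τ : Fin c → Grid u} {lam : Grid u → Fin c} (C : CtxB u n c ρ F Λ σ τ lam) (i : Fin n)
    (w : Grid u) (hw : w ∈ FTB u ρ σ) (hB : w ∈ Ball u (σ i)) :
    ∃ d, d < 16 * ρ ∧ FTc u ρ σ i d w ∧ lam w = Λ i d := by
  obtain ⟨j, d, hj⟩ : ∃ (j : Fin n) (d : ℕ), FTc u ρ σ j d w := by
    classical
    unfold FTB at hw
    exact (Finset.mem_filter.1 hw).2
  obtain ⟨e, he⟩ := (hL u w (σ i)).2.1.1 hB
  have hij : j = i := by
    by_contra hne
    obtain ⟨p, hpd, hpe, -, hpi, hpj⟩ := h1 ρ i.val j.val d e (lt_of_lt_of_le i.isLt C.n4)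
      (lt_of_lt_of_le j.isLt C.n4) (fun h => hne (Fin.ext h.symm))
    have e1 := hj.1 p hpd
    have e2 := he p hpe
    rw [C.hσ j p, hpj] at e1
    rw [C.hσ i p, hpi, e1] at e2
    exact absurd e2 (by decide)
  subst hij
  refine ⟨d, ?_, hj, C.hlam _ _ _ hj⟩
  rcases hj.2 with h | h
  · have := lt12 h2 C j d h.1
    omega
  · exact h.2.1

end PB2Aux

theorem pPB2 : S_LvB → S_Cd1 → S_Cd2 → S_PB2 := by
  intro hL h1 h2 u n c ρ F Λ σ τ lam C
  refine ⟨?_, ?_⟩
  · intro i w hw hB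
    obtain ⟨d, hd, -, hlam⟩ := PB2Aux.key hL h1 h2 C i w hw hB
    rw [hlam]
    exact C.ΛF i d hd
  · intro i w hw w' hw' hB hB' heq
    obtain ⟨d, hd, hc, hlam⟩ := PB2Aux.key hL h1 h2 C i w hw hB
    obtain ⟨d', hd', hc', hlam'⟩ := PB2Aux.key hL h1 h2 C i w' hw' hB'
    have hdd : d = d' := C.Λi i d d' hd hd' (by rw [← hlam, ← hlam', heq])
    subst hdd
    apply (hL u w w').1.2
    intro p
    by_cases hp : p = d
    · subst hp
      rcases hc.2 with h | h <;> rcases hc'.2 with h' | h'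
      · rw [h.2, h'.2]
      · have := PB2Aux.lt12 h2 C i p h.1
        omega
      · have := PB2Aux.lt12 h2 C i p h'.1
        omega
      · rw [h.2.2, h'.2.2]
    · rw [hc.1 p hp, hc'.1 p hp]

end Pool.Agent.Lib.MP_635d71_ag.Fr
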