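import Pool.Agent.Lib.MP_635d71_ag.Fr.SpecB

/-!
# Free largest factor, many factors: the field `h4` of the partial label system
-/

set_option autoImplicit false

open Module Submodule

namespace Pool.Agent.Lib.MP_635d71_ag.Fr

theorem pPB4 : S_LvB → S_Cd1 → S_Cd2 → S_PB4 := by
  classical
  intro hL h1 h2 u n c ρ F Λ σ τ lam hC w hw g hg hNT
  obtain ⟨s1, s2, -, s4⟩ := h2 ρ hC.ρ1
  have hw' := (Finset.mem_filter.1 hw).2
  obtain ⟨i, d, hF⟩ := hw'
  have hl : lam w = Λ i d := hC.hlam i d w hF
  obtain ⟨hF1, hF2⟩ := hF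
  rw [hl] at hg ⊢
  have hbox := ((hL u g w).2.2 (τ (Λ i d))).1 hg
  have sg : ∀ (j : Fin n) (p : ℕ), ltv u (σ j) p = 1 → p < 12 * ρ := by
    intro j p hp
    apply s1 j.val p
    rw [hC.hσ] at hp
    cases hb : sgb ρ j.val p
    · rw [hb] at hp
      exact absurd hp (by decide)
    · rfl
  have tz : ∀ (a : Fin c) (p : ℕ), p < 12 * ρ → ltv u (τ a) p = 0 := by
    intro a p hp
    rw [hC.hτ]
    cases hb : tgb ρ a.val p
    · rfl
    · exact absurd (s2 a.val p hb).1 (not_le.2 hp)
  rcases hNT with ⟨j, hj, -⟩ | ⟨b, hb⟩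
  · left
    obtain ⟨e, he⟩ := (hL u g (σ j)).2.1.1 hj
    have hji : j = i := by
      by_contra hne
      obtain ⟨p, p1, p2, p3, p4, p5⟩ := h1 ρ i.val j.val d e (lt_of_lt_of_le i.isLt hC.n4)
        (lt_of_lt_of_le j.isLt hC.n4) (fun h => hne (Fin.ext h.symm))
      have k1 : ltv u g p = 1 := by
        rw [he p p2, hC.hσ, p5]
        rfl
      rcases hbox p with k | k
      · rw [hF1 p p1, hC.hσ, p4, k1] at k
        exact absurd k (by decide)
      · rw [tz _ p p3, k1] at k
        exact absurd k (by decide)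
    subst hji
    have hd1 : ltv u g d = ltv u w d := by
      rcases hbox d with k | k
      · exact k
      · rw [k]
        rcases hF2 with ⟨k1, k2⟩ | ⟨k1, k2, k3⟩
        · rw [k2, tz _ d (sg _ d k1)]
        · rw [k3, hC.hτ, hC.Λt j d k1 k2]
          rfl
    have hd2 : ltv u w d ≠ ltv u (σ j) d := by
      rcases hF2 with ⟨k1, k2⟩ | ⟨k1, k2, k3⟩
      · rw [k1, k2]
        decide
      · intro k
        rw [k3] at k
        exact absurd (sg j d k.symm) (not_lt.2 k1)
    have hed : e = d := by
      by_contra hne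
      apply hd2
      rw [← hd1]
      exact he d fun h => hne h.symm
    apply (hL u g w).1.2
    intro p
    by_cases hp : p = d
    · rw [hp]
      exact hd1
    · rw [he p (by rw [hed]; exact hp), hF1 p hp]
  · right
    have hab : (Λ i d).val = b.val := by
      apply s4 _ _ (lt_of_lt_of_le (Λ i d).isLt hC.c4) (lt_of_lt_of_le b.isLt hC.c4)
      intro p hp
      have hgp : ltv u g p = 1 := by
        rw [hb, hC.hτ, hp]
        rfl
      rcases hbox p with k | k
      · rw [hgp] at k
        by_cases hpd : p = d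
        · subst hpd
          rcases hF2 with ⟨k1, k2⟩ | ⟨k1, k2, k3⟩
          · rw [k2] at k
            exact absurd k (by decide)
          · exact hC.Λt i p k1 k2
        · rw [hF1 p hpd] at k
          exact absurd (sg i p k.symm) (not_lt.2 (s2 b.val p hp).1)
      · rw [hgp, hC.hτ] at k
        cases hb' : tgb ρ (Λ i d).val p
        · rw [hb'] at k
          exact absurd k (by decide)
        · rfl
    rw [hb, Fin.ext hab]

end Pool.Agent.Lib.MP_635d71_ag.Fr
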