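import Pool.Agent.Lib.MP_635d71_ag.Fr.SpecB

/-!
# Free largest factor, many factors: the field `h7`
-/

set_option autoImplicit false

open Module Submodule

namespace Pool.Agent.Lib.MP_635d71_ag.Fr

namespace PB7Aux

theorem toNat_eq_one {b : Bool} (h : b.toNat = 1) : b = true := by
  cases b <;> simp_all

/-- A word which differs from a special word only at `e`, where it has the letter of a target, is
flexible. -/
theorem ftc {u : List ℕ} {n c ρ : ℕ} {F : Fin n → Finset (Fin c)}
    {Λ : Fin n → ℕ → Fin c} {σ : Fin n → Grid u} {τ : Fin c → Grid u} {lam : Grid u → Fin c}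
    (h2 : S_Cd2) (C : CtxB u n c ρ F Λ σ τ lam) {i : Fin n} {a : Fin c} {e : ℕ} {g : Grid u}
    (h : ∀ p, p ≠ e → ltv u g p = ltv u (σ i) p) (hne : ltv u g e ≠ ltv u (σ i) e)
    (hg : ltv u g e = ltv u (τ a) e) : FTc u ρ σ i e g := by
  refine ⟨h, ?_⟩
  have hT := (h2 ρ C.ρ1).2.1 a.val e
  rw [hg, C.hτ, C.hσ] at hne
  rw [hg, C.hτ, C.hσ]
  cases hs : sgb ρ i.val e <;> cases ht : tgb ρ a.val e
  · rw [hs, ht] at hne
    exact absurd rfl hne
  · right
    exact ⟨(hT ht).1, (hT ht).2, by simp⟩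
  · left
    simp
  · rw [hs, ht] at hne
    exact absurd rfl hne

theorem memF {u : List ℕ} {n ρ : ℕ} {σ : Fin n → Grid u} {i : Fin n} {e : ℕ} {g : Grid u}
    (h : FTc u ρ σ i e g) : g ∈ FTB u ρ σ := by
  classical
  unfold FTB
  simp only [Finset.mem_filter]
  exact ⟨Finset.mem_univ _, i, e, h⟩

theorem ftl {u : List ℕ} {n c ρ : ℕ} {σ : Fin n → Grid u} {lam : Grid u → Fin c}
    (hL : S_LvB) {i : Fin n} {e : ℕ} {g : Grid u} (h : FTc u ρ σ i e g) :
    FTL u σ (FTB u ρ σ) lam i g := by
  have hg : g ∈ FTB u ρ σ := memF h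
  refine ⟨hg, g, hg, ?_, rfl⟩
  rw [(hL u g (σ i)).2.1]
  exact ⟨e, h.1⟩

end PB7Aux

open PB7Aux

theorem pPB7 : S_LvB → S_Cd1 → S_Cd2 → S_PB7 := by
  intro hL h1 h2 u n c ρ F Λ σ τ lam C i a w hw hwi hwF g hg hng
  obtain ⟨d, hd⟩ := ((hL u w (σ i)).2.1).1 hw
  have hbox := ((hL u g w).2.2 (τ a)).1 hg
  obtain ⟨c1, c2, -, c4⟩ := h2 ρ C.ρ1
  -- the letter of `w` at `d`
  have hwd : ltv u w d ≠ ltv u (σ i) d := by
    intro h
    apply hwi
    rw [(hL u w (σ i)).1]
    intro p
    by_cases hp : p = d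
    · rw [hp]; exact h
    · exact hd p hp
  have hnF : ¬ FTc u ρ σ i d w := by
    intro h
    exact hwF (memF h)
  have hnF2 : ¬ (12 * ρ ≤ d ∧ d < 16 * ρ ∧ ltv u w d = 1) := fun h => hnF ⟨hd, Or.inr h⟩
  rcases hng with ⟨j, hgj, hgne⟩ | ⟨b, rfl⟩
  · obtain ⟨e, he⟩ := ((hL u g (σ j)).2.1).1 hgj
    have hge : ltv u g e ≠ ltv u (σ j) e := by
      intro h
      apply hgne
      rw [(hL u g (σ j)).1]
      intro p
      by_cases hp : p = e
      · rw [hp]; exact h
      · exact he p hp
    have hij : i = j := by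
      by_contra hne
      have hne' : i.val ≠ j.val := fun h => hne (Fin.ext h)
      obtain ⟨p, hpd, hpe, hp12, hpi, hpj⟩ := h1 ρ i.val j.val d e
        (lt_of_lt_of_le i.isLt C.n4) (lt_of_lt_of_le j.isLt C.n4) hne'
      have e1 : ltv u g p = 1 := by rw [he p hpe, C.hσ, hpj]; rfl
      rcases hbox p with h | h
      · rw [e1, hd p hpd, C.hσ, hpi] at h
        simp at h
      · rw [e1, C.hτ] at h
        have := (c2 a.val p (toNat_eq_one h.symm)).1
        omega
    subst hij
    by_cases hed : e = d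
    · subst hed
      rcases hbox e with h | h
      · left
        rw [(hL u g w).1]
        intro p
        by_cases hp : p = e
        · rw [hp]; exact h
        · rw [he p hp, hd p hp]
      · right; right
        exact ftl hL (ftc h2 C he hge h)
    · right; right
      rcases hbox e with h | h
      · exact absurd (h.trans (hd e hed)) hge
      · exact ftl hL (ftc h2 C he hge h)
  · right; left
    have hab : a.val = b.val := by
      apply c4 _ _ (lt_of_lt_of_le a.isLt C.c4) (lt_of_lt_of_le b.isLt C.c4)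
      intro p hp
      obtain ⟨p1, p2⟩ := c2 b.val p hp
      rcases hbox p with h | h
      · exfalso
        rw [C.hτ, hp] at h
        by_cases hpd : p = d
        · subst hpd
          exact hnF2 ⟨p1, p2, h.symm⟩
        · rw [hd p hpd, C.hσ] at h
          have := c1 i.val p (toNat_eq_one h.symm)
          omega
      · rw [C.hτ, C.hτ, hp] at h
        exact toNat_eq_one h.symm
    rw [Fin.ext hab]

end Pool.Agent.Lib.MP_635d71_ag.Fr
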