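import Pool.Agent.Lib.MP_635d71_ag.Fr.SpecB

/-!
# Free largest factor, many factors: the field `h8` (`S_PB8`)
-/

set_option autoImplicit false

open Module Submodule

namespace Pool.Agent.Lib.MP_635d71_ag.Fr

namespace PB8Aux

theorem toNat_eq_one {b : Bool} (h : 1 = b.toNat) : b = true := by
  cases b
  · exact absurd h (by decide)
  · rfl

theorem mem_FTB {u : List ℕ} {n ρ : ℕ} {σ : Fin n → Grid u} {i : Fin n} {d : ℕ} {g : Grid u}
    (h : FTc u ρ σ i d g) : g ∈ FTB u ρ σ := by
  classical
  unfold FTB
  exact Finset.mem_filter.2 ⟨Finset.mem_univ _, i, d, h⟩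

end PB8Aux

open PB8Aux in
theorem pPB8 : S_LvB → S_Cd1 → S_Cd2 → S_PB8 := by
  intro hLv hCd1 hCd2 u n c ρ F Λ σ τ lam hC i a g hg hcase
  obtain ⟨hs, ht, -, hinj⟩ := hCd2 ρ hC.ρ1
  have hbox := ((hLv u g (σ i)).2.2 (τ a)).1 hg
  rcases hcase with ⟨j, hj⟩ | ⟨b, hb⟩
  · obtain ⟨e, he⟩ := (hLv u g (σ j)).2.1.1 hj
    -- the special word is the same
    have hji : j = i := by
      by_contra hne
      have hne' : i.val ≠ j.val := fun h => hne (Fin.ext h.symm)
      obtain ⟨p, hp, -, hp12, hpi, hpj⟩ := hCd1 ρ i.val j.val e e (lt_of_lt_of_le i.2 hC.n4)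
        (lt_of_lt_of_le j.2 hC.n4) hne'
      have h1 := he p hp
      rw [hC.hσ, hpj] at h1
      rcases hbox p with h2 | h2
      · rw [h1, hC.hσ, hpi] at h2
        exact absurd h2 (by decide)
      · rw [h1, hC.hτ] at h2
        have h3 := ht a.val p (toNat_eq_one h2)
        omega
    subst hji
    by_cases hge : ltv u g e = ltv u (σ j) e
    · left
      refine (hLv u g (σ j)).1.2 fun p => ?_
      by_cases hp : p = e
      · rw [hp]
        exact hge
      · exact he p hp
    · right
      right
      have hgt : ltv u g e = ltv u (τ a) e := (hbox e).resolve_left hge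
      have hF : FTc u ρ σ j e g := by
        refine ⟨he, ?_⟩
        rw [hgt, hC.hσ, hC.hτ] at hge
        rw [hgt, hC.hσ, hC.hτ]
        cases hS : sgb ρ j.val e with
        | true =>
          left
          cases hT : tgb ρ a.val e with
          | true =>
            rw [hS, hT] at hge
            exact absurd rfl hge
          | false => exact ⟨rfl, rfl⟩
        | false =>
          right
          cases hT : tgb ρ a.val e with
          | true => exact ⟨(ht a.val e hT).1, (ht a.val e hT).2, rfl⟩
          | false =>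
            rw [hS, hT] at hge
            exact absurd rfl hge
      exact ⟨mem_FTB hF, g, mem_FTB hF, hj, rfl⟩
  · right
    left
    have hab : a.val = b.val := by
      refine hinj a.val b.val (lt_of_lt_of_le a.2 hC.c4) (lt_of_lt_of_le b.2 hC.c4) fun p hp => ?_
      have h1 : ltv u g p = 1 := by
        rw [hb, hC.hτ, hp]
        rfl
      rcases hbox p with h2 | h2
      · rw [h1, hC.hσ] at h2
        have h3 := hs i.val p (toNat_eq_one h2)
        have h4 := ht b.val p hp
        omega
      · rw [h1, hC.hτ] at h2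
        exact toNat_eq_one h2
    rw [hb, Fin.ext hab]

end Pool.Agent.Lib.MP_635d71_ag.Fr
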