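import Pool.Agent.Lib.MP_635d71_ag.Fr.SpecB

/-!
# Free largest factor: PLL (partial label systems and concatenation on the left)
-/

set_option autoImplicit false

open Module Submodule

namespace Pool.Agent.Lib.MP_635d71_ag.Fr

namespace PLLAux

variable {z O : List ℕ} {o : Grid O}

theorem fp_app (h : Grid O) (g : Grid z) : firstPart z O (app z O h g) = h := firstPart_app z O h g

theorem lp_app (h : Grid O) (g : Grid z) : lastPart z O (app z O h g) = g := lastPart_app z O h g

theorem app_inj {g g' : Grid z} (h : app z O o g = app z O o g') : g = g' := by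
  have h1 := congrArg (lastPart z O) h
  rwa [lp_app, lp_app] at h1

/-- the ball of a word with the first part `o` -/
theorem mem_ball_same {w g : Grid z} :
    app z O o w ∈ Ball (O ++ z) (app z O o g) ↔ w ∈ Ball z g := by
  rw [mem_Ball_app', fp_app, lp_app]
  constructor
  · rintro (⟨-, h⟩ | ⟨-, h⟩)
    · exact h
    · rw [h]
      exact self_mem_Ball _ _
  · intro h
    exact Or.inl ⟨rfl, h⟩

theorem parts {x : Grid (O ++ z)} : app z O (firstPart z O x) (lastPart z O x) = x :=
  app_parts z O x

/-- a word with the first part `o` -/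
theorem eq_of_fp {x : Grid (O ++ z)} (h : firstPart z O x = o) : x = app z O o (lastPart z O x) := by
  rw [eq_app_iff]
  exact ⟨h, rfl⟩

theorem ns_same {n : ℕ} {σ : Fin n → Grid z} {g : Grid z} :
    NS (O ++ z) (fun i => app z O o (σ i)) (app z O o g) ↔ NS z σ g := by
  constructor
  · rintro ⟨i, h1, h2⟩
    exact ⟨i, mem_ball_same.1 h1, fun h => h2 (by rw [h])⟩
  · rintro ⟨i, h1, h2⟩
    exact ⟨i, mem_ball_same.2 h1, fun h => h2 (app_inj h)⟩

theorem tg_same {c : ℕ} {τ : Fin c → Grid z} {g : Grid z} :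
    TG (O ++ z) (fun a => app z O o (τ a)) (app z O o g) ↔ TG z τ g := by
  constructor
  · rintro ⟨a, h⟩
    exact ⟨a, app_inj h⟩
  · rintro ⟨a, h⟩
    exact ⟨a, by rw [h]⟩

theorem ns_diff {n : ℕ} {σ : Fin n → Grid z} {g : Grid (O ++ z)} (ho : firstPart z O g ≠ o)
    (h : NS (O ++ z) (fun i => app z O o (σ i)) g) : ∃ j, lastPart z O g = σ j := by
  obtain ⟨i, h1, -⟩ := h
  rw [mem_Ball_app'] at h1
  rcases h1 with ⟨h1, -⟩ | ⟨-, h1⟩
  · exact absurd h1 ho
  · exact ⟨i, h1⟩

theorem tg_diff {c : ℕ} {τ : Fin c → Grid z} {g : Grid (O ++ z)} (ho : firstPart z O g ≠ o)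
    (h : TG (O ++ z) (fun a => app z O o (τ a)) g) : False := by
  obtain ⟨a, h1⟩ := h
  apply ho
  rw [h1]
  exact fp_app _ _

end PLLAux

open PLLAux in
/-- **PLL** -/
theorem pPLL : S_BxA → S_PLL := by
  intro hBx z O o n c F σ τ X FT lam hP
  have ftl : ∀ (i : Fin n) (g : Grid z), FTL z σ FT lam i g →
      FTL (O ++ z) (fun i => app z O o (σ i)) (FT.image fun g => app z O o g)
        (fun g => lam (lastPart z O g)) i (app z O o g) := by
    rintro i g ⟨h1, g', h2, h3, h4⟩
    refine ⟨Finset.mem_image.2 ⟨g, h1, rfl⟩, app z O o g', Finset.mem_image.2 ⟨g', h2, rfl⟩,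
      mem_ball_same.2 h3, ?_⟩
    show lam (lastPart z O (app z O o g')) = lam (lastPart z O (app z O o g))
    rw [lp_app, lp_app, h4]
  -- a special word is not a neighbour
  have ns_sig : ∀ j, ¬ NS z σ (σ j) := by
    rintro j ⟨i, h1, h2⟩
    exact h2 (by rw [hP.ss j i h1])
  -- boxes
  have box_same : ∀ (w t : Grid z) (g : Grid (O ++ z)),
      g ∈ box (O ++ z) (app z O o w) (app z O o t) →
        firstPart z O g = o ∧ lastPart z O g ∈ box z w t := by
    intro w t g hg
    have h := hBx z O o o w t g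
    obtain ⟨h1, h2⟩ := h.1.1 hg
    exact ⟨h.2.2.1 _ h1, h2⟩
  have box_diff : ∀ (o' : Grid O) (w t : Grid z) (g : Grid (O ++ z)), o' ∈ Ball O o →
      g ∈ box (O ++ z) (app z O o' w) (app z O o t) →
        (firstPart z O g = o' ∨ firstPart z O g = o) ∧ lastPart z O g ∈ box z w t := by
    intro o' w t g ho' hg
    have h := hBx z O o' o w t g
    obtain ⟨h1, h2⟩ := h.1.1 hg
    exact ⟨h.2.1 ho' _ h1, h2⟩
  -- the case of the box of a special word, first part `o`
  have key8 : ∀ (i : Fin n) (a : Fin c) (g : Grid (O ++ z)), firstPart z O g = o →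
      lastPart z O g ∈ box z (σ i) (τ a) →
      ((∃ j, g ∈ Ball (O ++ z) (app z O o (σ j))) ∨ TG (O ++ z) (fun a => app z O o (τ a)) g) →
      g = app z O o (σ i) ∨ g = app z O o (τ a) ∨
        FTL (O ++ z) (fun i => app z O o (σ i)) (FT.image fun g => app z O o g)
          (fun g => lam (lastPart z O g)) i g := by
    intro i a g h1 h2 hN
    have e := eq_of_fp h1
    obtain ⟨g1, hg1⟩ : ∃ g1, g1 = lastPart z O g := ⟨_, rfl⟩
    rw [← hg1] at e h2
    subst e
    rw [tg_same] at hN
    have hN' : (∃ j, g1 ∈ Ball z (σ j)) ∨ TG z τ g1 := by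
      rcases hN with ⟨j, hj⟩ | hN
      · exact Or.inl ⟨j, mem_ball_same.1 hj⟩
      · exact Or.inr hN
    rcases hP.h8 i a _ h2 hN' with h | h | h
    · left
      rw [h]
    · right; left
      rw [h]
    · right; right
      exact ftl i _ h
  refine ⟨?_, ?_, ?_, ?_, ?_, ?_, ?_, ?_, ?_, ?_, ?_, ?_⟩
  · -- ftX
    exact Finset.image_subset_image hP.ftX
  · -- xN
    intro w hw
    obtain ⟨w1, hw1, rfl⟩ := Finset.mem_image.1 hw
    exact ns_same.2 (hP.xN w1 hw1)
  · -- ss
    intro i j h
    exact hP.ss i j (mem_ball_same.1 h)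
  · -- tinj
    intro a b h
    exact hP.tinj (app_inj h)
  · -- st
    intro i a h
    exact hP.st i a (mem_ball_same.1 h)
  · -- labF
    intro i w hX hw
    obtain ⟨w1, hw1, rfl⟩ := Finset.mem_image.1 hX
    change lam (lastPart z O (app z O o w1)) ∈ F i
    rw [lp_app]
    exact hP.labF i w1 hw1 (mem_ball_same.1 hw)
  · -- labI
    intro i w hX w' hX' hw hw' hl
    obtain ⟨w1, hw1, rfl⟩ := Finset.mem_image.1 hX
    obtain ⟨w2, hw2, rfl⟩ := Finset.mem_image.1 hX'
    change lam (lastPart z O (app z O o w1)) = lam (lastPart z O (app z O o w2)) at hl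
    rw [lp_app, lp_app] at hl
    have e := hP.labI i w1 hw1 w2 hw2 (mem_ball_same.1 hw) (mem_ball_same.1 hw') hl
    rw [e]
  · -- uniq
    intro i j w hw hw' hX
    by_cases ho : firstPart z O w = o
    · have e := eq_of_fp ho
      rw [e] at hw hw' hX
      refine hP.uniq i j (lastPart z O w) (mem_ball_same.1 hw) (mem_ball_same.1 hw') ?_
      intro h
      exact hX (Finset.mem_image.2 ⟨_, h, rfl⟩)
    · rw [mem_Ball_app'] at hw hw'
      have e1 := (hw.resolve_left fun h => ho h.1).2
      have e2 := (hw'.resolve_left fun h => ho h.1).2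
      apply hP.ss
      rw [← e1, e2]
      exact self_mem_Ball _ _
  · -- h4
    intro w hw g hg hN
    obtain ⟨w1, hw1, rfl⟩ := Finset.mem_image.1 hw
    change g ∈ box (O ++ z) (app z O o w1) (app z O o (τ (lam (lastPart z O (app z O o w1))))) at hg
    rw [lp_app] at hg
    obtain ⟨h1, h2⟩ := box_same _ _ _ hg
    have e := eq_of_fp h1
    rw [e, ns_same, tg_same] at hN
    change g = app z O o w1 ∨ g = app z O o (τ (lam (lastPart z O (app z O o w1))))
    rw [lp_app]
    rcases hP.h4 w1 hw1 _ h2 hN with h | h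
    · left
      rw [e, h]
    · right
      rw [e, h]
  · -- h5
    intro i w hw hX hFT g hg hN
    obtain ⟨w1, hw1, rfl⟩ := Finset.mem_image.1 hX
    change g ∈ box (O ++ z) (app z O o w1) (app z O o (τ (lam (lastPart z O (app z O o w1))))) at hg
    rw [lp_app] at hg
    have m1 : w1 ∈ Ball z (σ i) := mem_ball_same.1 hw
    have m3 : w1 ∉ FT := fun h => hFT (Finset.mem_image.2 ⟨w1, h, rfl⟩)
    obtain ⟨h1, h2⟩ := box_same _ _ _ hg
    have e := eq_of_fp h1
    rw [e, ns_same, tg_same] at hN
    change g = app z O o w1 ∨ g = app z O o (τ (lam (lastPart z O (app z O o w1)))) ∨ _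
    rw [lp_app]
    rcases hP.h5 i w1 m1 hw1 m3 _ h2 hN with h | h | h
    · left
      rw [e, h]
    · right; left
      rw [e, h]
    · right; right
      rw [e]
      exact ftl i _ h
  · -- h7
    intro i a w hw hne hX g hg hN
    change g ∈ box (O ++ z) w (app z O o (τ a)) at hg
    by_cases ho : firstPart z O w = o
    · have ew := eq_of_fp ho
      obtain ⟨w1, hw1⟩ : ∃ w1, w1 = lastPart z O w := ⟨_, rfl⟩
      rw [← hw1] at ew
      subst ew
      have m1 : w1 ∈ Ball z (σ i) := mem_ball_same.1 hw
      have m2 : w1 ≠ σ i := fun h => hne (by rw [h])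
      have m3 : w1 ∉ X := fun h => hX (Finset.mem_image.2 ⟨w1, h, rfl⟩)
      obtain ⟨h1, h2⟩ := box_same _ _ _ hg
      have e := eq_of_fp h1
      rw [e, ns_same, tg_same] at hN
      rcases hP.h7 i a w1 m1 m2 m3 _ h2 hN with h | h | h
      · left
        rw [e, h]
      · right; left
        rw [e, h]
      · right; right
        rw [e]
        exact ftl i _ h
    · rw [mem_Ball_app'] at hw
      obtain ⟨w1, w2⟩ := hw.resolve_left fun h => ho h.1
      have ew : w = app z O (firstPart z O w) (σ i) := by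
        rw [← w2]
        exact parts.symm
      obtain ⟨o', ho'⟩ : ∃ o', o' = firstPart z O w := ⟨_, rfl⟩
      rw [← ho'] at ew w1 ho
      rw [ew] at hg
      obtain ⟨h1, h2⟩ := box_diff _ _ _ _ w1 hg
      rcases h1 with h1 | h1
      · have hgo : firstPart z O g ≠ o := by rw [h1]; exact ho
        rcases hN with hN | hN
        · obtain ⟨j, hj⟩ := ns_diff hgo hN
          have hball : ∃ j, lastPart z O g ∈ Ball z (σ j) :=
            ⟨j, by rw [hj]; exact self_mem_Ball _ _⟩
          rcases hP.h8 i a _ h2 (Or.inl hball) with h | h | h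
          · left
            rw [ew, ← h, ← h1]
            exact parts.symm
          · exfalso
            apply hP.st j a
            rw [← h, hj]
            exact self_mem_Ball _ _
          · exfalso
            have h3 := hP.xN _ (hP.ftX h.1)
            rw [hj] at h3
            exact ns_sig j h3
        · exact (tg_diff hgo hN).elim
      · have hN' : (∃ j, g ∈ Ball (O ++ z) (app z O o (σ j))) ∨
            TG (O ++ z) (fun a => app z O o (τ a)) g := by
          rcases hN with hN | hN
          · obtain ⟨j, hj, -⟩ := hN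
            exact Or.inl ⟨j, hj⟩
          · exact Or.inr hN
        rcases key8 i a g h1 h2 hN' with h | h | h
        · exfalso
          rw [h, ns_same, tg_same] at hN
          rcases hN with hN | hN
          · exact ns_sig i hN
          · obtain ⟨b, hb⟩ := hN
            apply hP.st i b
            rw [← hb]
            exact self_mem_Ball _ _
        · exact Or.inr (Or.inl h)
        · exact Or.inr (Or.inr h)
  · -- h8
    intro i a g hg hN
    obtain ⟨h1, h2⟩ := box_same _ _ _ hg
    exact key8 i a g h1 h2 hN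

end Pool.Agent.Lib.MP_635d71_ag.Fr
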