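import Pool.Agent.Lib.MP_635d71_ag.Fr.SpecB

/-!
# Free largest factor: PLR (partial label systems, fixed last part)
-/

set_option autoImplicit false

open Module Submodule

namespace Pool.Agent.Lib.MP_635d71_ag.Fr

namespace PLRAux

variable {z l : List ℕ} {w : Grid z}

theorem fp_app (g : Grid l) (h : Grid z) : firstPart z l (app z l g h) = g := firstPart_app z l g h

theorem lp_app (g : Grid l) (h : Grid z) : lastPart z l (app z l g h) = h := lastPart_app z l g h

theorem app_inj {g g' : Grid l} (h : app z l g w = app z l g' w) : g = g' := by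
  have h1 := congrArg (firstPart z l) h
  rwa [fp_app, fp_app] at h1

/-- the ball of a word with the last part `w` -/
theorem mem_ball_same {v g : Grid l} :
    app z l v w ∈ Ball (l ++ z) (app z l g w) ↔ v ∈ Ball l g := by
  rw [mem_Ball_app', fp_app, lp_app]
  constructor
  · rintro (⟨h, -⟩ | ⟨h, -⟩)
    · rw [h]
      exact self_mem_Ball _ _
    · exact h
  · intro h
    exact Or.inr ⟨h, rfl⟩

/-- a word with the last part `w` -/
theorem eq_of_lp {x : Grid (l ++ z)} (h : lastPart z l x = w) : x = app z l (firstPart z l x) w := by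
  rw [eq_app_iff]
  exact ⟨rfl, h⟩

/-- a word of a ball with another last part -/
theorem fp_of_ball {x : Grid (l ++ z)} {g : Grid l} (h : x ∈ Ball (l ++ z) (app z l g w))
    (hw : lastPart z l x ≠ w) : firstPart z l x = g ∧ lastPart z l x ∈ Ball z w := by
  rw [mem_Ball_app'] at h
  exact h.resolve_right fun h1 => hw h1.2

theorem ns_same {n : ℕ} {σ : Fin n → Grid l} {g : Grid l} :
    NS (l ++ z) (fun i => app z l (σ i) w) (app z l g w) ↔ NS l σ g := by
  constructor
  · rintro ⟨i, h1, h2⟩
    exact ⟨i, mem_ball_same.1 h1, fun h => h2 (by rw [h])⟩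
  · rintro ⟨i, h1, h2⟩
    exact ⟨i, mem_ball_same.2 h1, fun h => h2 (app_inj h)⟩

theorem tg_same {c : ℕ} {τ : Fin c → Grid l} {g : Grid l} :
    TG (l ++ z) (fun a => app z l (τ a) w) (app z l g w) ↔ TG l τ g := by
  constructor
  · rintro ⟨a, h⟩
    exact ⟨a, app_inj h⟩
  · rintro ⟨a, h⟩
    exact ⟨a, by rw [h]⟩

theorem ns_diff {n : ℕ} {σ : Fin n → Grid l} {g : Grid (l ++ z)} (hw : lastPart z l g ≠ w)
    (h : NS (l ++ z) (fun i => app z l (σ i) w) g) : ∃ j, firstPart z l g = σ j := by
  obtain ⟨i, h1, -⟩ := h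
  exact ⟨i, (fp_of_ball h1 hw).1⟩

theorem tg_diff {c : ℕ} {τ : Fin c → Grid l} {g : Grid (l ++ z)} (hw : lastPart z l g ≠ w)
    (h : TG (l ++ z) (fun a => app z l (τ a) w) g) : False := by
  obtain ⟨a, h1⟩ := h
  apply hw
  rw [h1]
  exact lp_app _ _

/-- the third case -/
theorem ftl_same {n c : ℕ} {σ : Fin n → Grid l} {FT : Finset (Grid l)} {lam : Grid l → Fin c}
    {i : Fin n} {g : Grid l} (h : FTL l σ FT lam i g) :
    FTL (l ++ z) (fun i => app z l (σ i) w) (FT.image fun g => app z l g w)
      (fun g => lam (firstPart z l g)) i (app z l g w) := by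
  obtain ⟨h1, g', h2, h3, h4⟩ := h
  refine ⟨Finset.mem_image.2 ⟨g, h1, rfl⟩, app z l g' w, Finset.mem_image.2 ⟨g', h2, rfl⟩,
    mem_ball_same.2 h3, ?_⟩
  change lam (firstPart z l (app z l g' w)) = lam (firstPart z l (app z l g w))
  rw [fp_app, fp_app, h4]

end PLRAux

open PLRAux in
/-- **PLR** -/
theorem pPLR : S_BxA → S_PLR := by
  intro hBx z l w n c F σ τ X FT lam hP
  -- boxes
  have box_same : ∀ (v t : Grid l) (g : Grid (l ++ z)),
      g ∈ box (l ++ z) (app z l v w) (app z l t w) →
        g = app z l (firstPart z l g) w ∧ firstPart z l g ∈ box l v t := by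
    intro v t g hg
    obtain ⟨h1, h2⟩ := (hBx z l v t w w g).1.1 hg
    have h3 : lastPart z l g = w :=
      (hBx [] z w w (() : Grid []) (() : Grid []) (app [] z w ())).2.2.1 _ h2
    exact ⟨eq_of_lp h3, h1⟩
  have box_diff : ∀ (v t : Grid l) (w' : Grid z) (g : Grid (l ++ z)), w' ∈ Ball z w →
      g ∈ box (l ++ z) (app z l v w') (app z l t w) →
        (lastPart z l g = w' ∨ lastPart z l g = w) ∧ firstPart z l g ∈ box l v t := by
    intro v t w' g hw' hg
    obtain ⟨h1, h2⟩ := (hBx z l v t w' w g).1.1 hg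
    exact ⟨(hBx [] z w' w (() : Grid []) (() : Grid []) (app [] z w ())).2.1 hw' _ h2, h1⟩
  -- a special word is not a neighbour
  have ns_sig : ∀ j, ¬ NS l σ (σ j) := by
    rintro j ⟨i, h1, h2⟩
    exact h2 (by rw [hP.ss j i h1])
  have conc : ∀ (i : Fin n) (a : Fin c) (v g : Grid l),
      (g = v ∨ g = τ a ∨ FTL l σ FT lam i g) →
      app z l g w = app z l v w ∨ app z l g w = app z l (τ a) w ∨
        FTL (l ++ z) (fun i => app z l (σ i) w) (FT.image fun g => app z l g w)
          (fun g => lam (firstPart z l g)) i (app z l g w) := by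
    rintro i a v g (h | h | h)
    · exact Or.inl (by rw [h])
    · exact Or.inr (Or.inl (by rw [h]))
    · exact Or.inr (Or.inr (ftl_same h))
  refine ⟨?_, ?_, ?_, ?_, ?_, ?_, ?_, ?_, ?_, ?_, ?_, ?_⟩
  · -- ftX
    exact Finset.image_subset_image hP.ftX
  · -- xN
    intro x hx
    obtain ⟨v, hv, rfl⟩ := Finset.mem_image.1 hx
    exact ns_same.2 (hP.xN v hv)
  · -- ss
    intro i j h
    exact hP.ss i j (mem_ball_same.1 h)
  · -- tinj
    intro a b h
    exact hP.tinj (app_inj h)
  · -- st
    intro i a h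
    exact hP.st i a (mem_ball_same.1 h)
  · -- labF
    intro i x hx hb
    obtain ⟨v, hv, rfl⟩ := Finset.mem_image.1 hx
    rw [fp_app]
    exact hP.labF i v hv (mem_ball_same.1 hb)
  · -- labI
    intro i x hx x' hx' hb hb' hl
    obtain ⟨v, hv, rfl⟩ := Finset.mem_image.1 hx
    obtain ⟨v', hv', rfl⟩ := Finset.mem_image.1 hx'
    change lam (firstPart z l (app z l v w)) = lam (firstPart z l (app z l v' w)) at hl
    rw [fp_app, fp_app] at hl
    rw [hP.labI i v hv v' hv' (mem_ball_same.1 hb) (mem_ball_same.1 hb') hl]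
  · -- uniq
    intro i j x hx hx' hX
    by_cases hw : lastPart z l x = w
    · have e := eq_of_lp hw
      rw [e] at hx hx' hX
      exact hP.uniq i j _ (mem_ball_same.1 hx) (mem_ball_same.1 hx')
        fun h => hX (Finset.mem_image.2 ⟨_, h, rfl⟩)
    · have e1 := (fp_of_ball hx hw).1
      have e2 := (fp_of_ball hx' hw).1
      apply hP.ss
      rw [← e1, e2]
      exact self_mem_Ball _ _
  · -- h4
    intro x hx g hg hN
    obtain ⟨v, hv, rfl⟩ := Finset.mem_image.1 hx
    change g ∈ box (l ++ z) (app z l v w) (app z l (τ (lam (firstPart z l (app z l v w)))) w) at hg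
    rw [fp_app] at hg ⊢
    obtain ⟨e, h2⟩ := box_same _ _ _ hg
    rw [e, ns_same, tg_same] at hN
    rcases hP.h4 v hv _ h2 hN with h | h
    · left
      rw [e, h]
    · right
      rw [e, h]
  · -- h5
    intro i x hb hx hFT g hg hN
    obtain ⟨v, hv, rfl⟩ := Finset.mem_image.1 hx
    change g ∈ box (l ++ z) (app z l v w) (app z l (τ (lam (firstPart z l (app z l v w)))) w) at hg
    rw [fp_app] at hg ⊢
    obtain ⟨e, h2⟩ := box_same _ _ _ hg
    rw [e, ns_same, tg_same] at hN
    rw [e]
    exact conc i _ v _ (hP.h5 i v (mem_ball_same.1 hb) hv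
      (fun h => hFT (Finset.mem_image.2 ⟨v, h, rfl⟩)) _ h2 hN)
  · -- h7
    intro i a x hb hne hX g hg hN
    change g ∈ box (l ++ z) x (app z l (τ a) w) at hg
    by_cases hw : lastPart z l x = w
    · have ex := eq_of_lp hw
      obtain ⟨v, hv⟩ : ∃ v, v = firstPart z l x := ⟨_, rfl⟩
      rw [← hv] at ex
      subst ex
      obtain ⟨e, h2⟩ := box_same _ _ _ hg
      rw [e, ns_same, tg_same] at hN
      rw [e]
      exact conc i a v _ (hP.h7 i a v (mem_ball_same.1 hb) (fun h => hne (by rw [h]))
        (fun h => hX (Finset.mem_image.2 ⟨v, h, rfl⟩)) _ h2 hN)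
    · obtain ⟨e1, e2⟩ := fp_of_ball hb hw
      have ex : x = app z l (σ i) (lastPart z l x) := by
        rw [← e1]
        exact (app_parts z l x).symm
      obtain ⟨w', hw'⟩ : ∃ w', w' = lastPart z l x := ⟨_, rfl⟩
      rw [← hw'] at ex e2 hw
      rw [ex] at hg
      obtain ⟨h1, h2⟩ := box_diff _ _ _ _ e2 hg
      rcases h1 with h1 | h1
      · have hgw : lastPart z l g ≠ w := by rw [h1]; exact hw
        rcases hN with hN | hN
        · obtain ⟨j, hj⟩ := ns_diff hgw hN
          have hball : ∃ j, firstPart z l g ∈ Ball l (σ j) :=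
            ⟨j, by rw [hj]; exact self_mem_Ball _ _⟩
          rcases hP.h8 i a _ h2 (Or.inl hball) with h | h | h
          · left
            rw [ex, ← h, ← h1]
            exact (app_parts z l g).symm
          · exfalso
            apply hP.st j a
            rw [← h, hj]
            exact self_mem_Ball _ _
          · exfalso
            have h3 := hP.xN _ (hP.ftX h.1)
            rw [hj] at h3
            exact ns_sig j h3
        · exact (tg_diff hgw hN).elim
      · have e := eq_of_lp h1
        rw [e, ns_same, tg_same] at hN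
        have hN' : (∃ j, firstPart z l g ∈ Ball l (σ j)) ∨ TG l τ (firstPart z l g) := by
          rcases hN with hN | hN
          · obtain ⟨j, hj, -⟩ := hN
            exact Or.inl ⟨j, hj⟩
          · exact Or.inr hN
        rcases hP.h8 i a _ h2 hN' with h | h | h
        · exfalso
          rw [h] at hN
          rcases hN with hN | hN
          · exact ns_sig i hN
          · obtain ⟨b, hb⟩ := hN
            apply hP.st i b
            rw [← hb]
            exact self_mem_Ball _ _
        · right; left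
          rw [e, h]
        · right; right
          rw [e]
          exact ftl_same h
  · -- h8
    intro i a g hg hN
    obtain ⟨e, h2⟩ := box_same _ _ _ hg
    have hN' : (∃ j, firstPart z l g ∈ Ball l (σ j)) ∨ TG l τ (firstPart z l g) := by
      rw [e, tg_same] at hN
      rcases hN with ⟨j, hj⟩ | hN
      · exact Or.inl ⟨j, mem_ball_same.1 hj⟩
      · exact Or.inr hN
    rw [e]
    exact conc i a (σ i) _ (hP.h8 i a _ h2 hN')

end Pool.Agent.Lib.MP_635d71_ag.Fr
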