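import Pool.Agent.Lib.MP_635d71_ag.Fr.Spec

/-!
# Free largest factor: the partial label system (assembly)
-/

set_option autoImplicit false

open Module Submodule

namespace Pool.Agent.Lib.MP_635d71_ag.Fr

theorem pPSA : S_Ps1 → S_Ps2 → S_Ps4 → S_Ps5 → S_Ps7 → S_Ps8 → S_PSA := by
  intro p1 p2 p4 p5 p7 p8 s3 s1 s2 L c n B X R b0 h σ τ lam hC
  obtain ⟨h1, h2, h3, h4, h5⟩ := p1 s3 s1 s2 L c n B X R b0 h σ τ lam hC
  obtain ⟨h6, h7⟩ := p2 s3 s1 s2 L c n B X R b0 h σ τ lam hC
  exact
    { ftX := Finset.subset_union_left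
      xN := h1
      ss := h2
      tinj := h3
      st := h4
      labF := h6
      labI := h7
      uniq := h5
      h4 := p4 s3 s1 s2 L c n B X R b0 h σ τ lam hC
      h5 := by
        intro i w hw hX hF
        rcases Finset.mem_union.1 hX with hx | hx
        · exact absurd hx hF
        · exact p5 s3 s1 s2 L c n B X R b0 h σ τ lam hC i w hw hx
      h7 := p7 s3 s1 s2 L c n B X R b0 h σ τ lam hC
      h8 := p8 s3 s1 s2 L c n B X R b0 h σ τ lam hC }

end Pool.Agent.Lib.MP_635d71_ag.Fr
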