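import Pool.Agent.Lib.MP_635d71_ag.Fr.SpecB

/-!
# Free largest factor, many factors: assembly of the label system
-/

set_option autoImplicit false

open Module Submodule

namespace Pool.Agent.Lib.MP_635d71_ag.Fr

theorem pPSB : S_PB1 → S_PB2 → S_PB4 → S_PB7 → S_PB8 → S_PSB := by
  intro p1 p2 p4 p7 p8 u n c ρ F Λ σ τ lam hC
  obtain ⟨h1, h2, h3, h4, h5⟩ := p1 u n c ρ F Λ σ τ lam hC
  obtain ⟨h6, h7⟩ := p2 u n c ρ F Λ σ τ lam hC
  exact
    { ftX := Finset.Subset.refl _
      xN := h1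
      ss := h2
      tinj := h3
      st := h4
      labF := h6
      labI := h7
      uniq := fun i j w hi hj _ => h5 i j w hi hj
      h4 := p4 u n c ρ F Λ σ τ lam hC
      h5 := fun i w _ hX hF => absurd hX hF
      h7 := p7 u n c ρ F Λ σ τ lam hC
      h8 := p8 u n c ρ F Λ σ τ lam hC }

end Pool.Agent.Lib.MP_635d71_ag.Fr
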