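import Pool.Agent.Lib.MP_635d71_ag.Fr.Spec

/-!
# Free largest factor: module Perm

The set of the points with tangent spaces can be prescribed.
-/

set_option autoImplicit false

open Module Submodule

namespace Pool.Agent.Lib.MP_635d71_ag.Fr

namespace PermAux

/-- Two finite sets of the same cardinality are related by a permutation. -/
theorem exists_perm {r : ℕ} (A B : Finset (Fin r)) (h : A.card = B.card) :
    ∃ p : Equiv.Perm (Fin r), ∀ a, a ∈ A ↔ p a ∈ B := by
  have e : {x // x ∈ A} ≃ {x // x ∈ B} := Finset.equivOfCardEq h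
  refine ⟨e.extendSubtype, fun a => ⟨fun ha => ?_, fun ha => ?_⟩⟩
  · exact e.extendSubtype_mem a ha
  · by_contra hn
    exact e.extendSubtype_not_mem a hn ha

end PermAux

theorem pPerm : S_Perm := by
  intro K _ s l n r m hBR A hA
  obtain ⟨B, x, z, hB, hm⟩ := hBR
  obtain ⟨p, hp⟩ := PermAux.exists_perm A B (hA.trans hB.symm)
  refine ⟨fun a => x (p a), fun a => z (p a), hm.trans (le_of_eq ?_)⟩
  have h1 : (⨆ a, fib s l (x (p a))) = ⨆ a, fib s l (x a) :=
    p.iSup_comp (g := fun b => fib s l (x b))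
  have h2 : (⨆ a ∈ A, zT l (z (p a)) (x (p a))) = ⨆ a ∈ B, zT l (z a) (x a) := by
    rw [← p.iSup_comp (g := fun b => ⨆ (_ : b ∈ B), zT l (z b) (x b))]
    exact iSup_congr fun a => iSup_congr_Prop (hp a) fun _ => rfl
  unfold Tot
  rw [h1, h2]

end Pool.Agent.Lib.MP_635d71_ag.Fr
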