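import Pool.Agent.Lib.MP_635d71_ag.Fr.Spec

/-!
# Free largest factor: the fields `labF`, `labI` of the partial label system
-/

set_option autoImplicit false

open Module Submodule

namespace Pool.Agent.Lib.MP_635d71_ag.Fr

namespace Ps2Aux

variable {s3 s1 s2 L c n B X R : ℕ} {b0 : ℕ → ℕ} {h : ℕ → ℕ → ℕ}
  {σ : Fin n → Grid [s3, s1, s2]} {τ : Fin c → Grid [s3, s1, s2]} {lam : Grid [s3, s1, s2] → Fin c}

theorem sgf_lt (hS : S_Sg) (hC : Ctx s3 s1 s2 L c n B X R b0 h σ τ lam) (i : Fin n) (d : Fin 3) :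
    sgf X B i.val d < 16 * X := by
  obtain ⟨h1, -⟩ := hS X B i.val i.val hC.B1 hC.BX
  have h2 := (h1 d).2
  have h3 : i.val / B < 16 := by
    apply Nat.div_lt_of_lt_mul
    have h4 := i.isLt
    have h5 := hC.nB
    calc i.val < n := h4
      _ ≤ 16 * B := h5
      _ = B * 16 := Nat.mul_comm _ _
  have h6 : i.val / B * X + X ≤ 16 * X := by
    have h7 : (i.val / B + 1) * X ≤ 16 * X := Nat.mul_le_mul_right X h3
    calc i.val / B * X + X = (i.val / B + 1) * X := by ring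
      _ ≤ 16 * X := h7
  omega

theorem ball_form (hL : S_LtB) (hC : Ctx s3 s1 s2 L c n B X R b0 h σ τ lam) {i : Fin n}
    {w : Grid [s3, s1, s2]} (hw : w ∈ Ball [s3, s1, s2] (σ i)) :
    ∃ d : Fin 3, ∀ e, e ≠ d → ltr w e = sgf X B i.val e := by
  obtain ⟨d, hd⟩ := (hL s3 s1 s2 w (σ i)).1.1 hw
  refine ⟨d, fun e he => ?_⟩
  rw [hd e he, hC.hσ i]

theorem ftw_form (hL : S_LtB) (hS : S_Sg) (hC : Ctx s3 s1 s2 L c n B X R b0 h σ τ lam)
    {i : Fin n} {w : Grid [s3, s1, s2]} (hw : w ∈ Ball [s3, s1, s2] (σ i))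
    (hF : w ∈ FTW s3 s1 s2 n B X R) :
    ∃ (d : Fin 3) (v : ℕ), (∀ e, e ≠ d → ltr w e = sgf X B i.val e) ∧ ltr w d = 16 * X + v ∧
      v < R := by
  obtain ⟨d', hd'⟩ := ball_form hL hC hw
  have hF' := (Finset.mem_filter.1 hF).2
  obtain ⟨j, d, -, h2, h3⟩ := hF'
  have hdd : d = d' := by
    by_contra hne
    have h4 := hd' d hne
    have h5 := sgf_lt hS hC i d
    omega
  subst hdd
  exact ⟨d, ltr w d - 16 * X, hd', by omega, by omega⟩

theorem tiw_form (hL : S_LtB) (hS : S_Sg) (hC : Ctx s3 s1 s2 L c n B X R b0 h σ τ lam)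
    {i : Fin n} {w : Grid [s3, s1, s2]} (hw : w ∈ Ball [s3, s1, s2] (σ i))
    (hF : w ∈ TIW s3 s1 s2 n B X) :
    ∃ d : Fin 3, (∀ e, e ≠ d → ltr w e = sgf X B i.val e) ∧ ltr w d ≠ sgf X B i.val d ∧
      ∃ k, ∀ e, k * X ≤ ltr w e ∧ ltr w e < k * X + X := by
  classical
  obtain ⟨d', hd'⟩ := ball_form hL hC hw
  rw [TIW, Finset.mem_filter] at hF
  obtain ⟨-, ⟨j, d, h2, h3⟩, hk⟩ := hF
  refine ⟨d', hd', fun heq => ?_, hk⟩
  have hall : ∀ e, ltr w e = sgf X B i.val e := by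
    intro e
    by_cases he : e = d'
    · rw [he]; exact heq
    · exact hd' e he
  have h4 : i.val = j.val := (hS X B i.val j.val hC.B1 hC.BX).2 d (fun e he => by
    rw [← hall e, h2 e he])
  apply h3
  rw [hall d, h4]

end Ps2Aux

open Ps2Aux

theorem pPs2 : S_LtB → S_Sg → S_Tg → S_FtL → S_TiL → S_Ps2 := by
  intro hL hS hT hFt hTi s3 s1 s2 L c n B X R b0 h σ τ lam hC
  refine ⟨?_, ?_⟩
  · intro i w hw hb
    rcases Finset.mem_union.1 hw with hF | hF
    · obtain ⟨d, v, h1, h2, h3⟩ := ftw_form hL hS hC hb hF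
      exact (hFt s3 s1 s2 L c n B X R b0 h σ τ lam hC i d v w h1 h2 h3).2.2
    · obtain ⟨d, h1, h2, h3⟩ := tiw_form hL hS hC hb hF
      exact (hTi s3 s1 s2 L c n B X R b0 h σ τ lam hC i w w d d h1 h2 h3 h1 h2 h3).1
  · intro i w hw w' hw' hb hb' hlam
    have mixed : ∀ w w' : Grid [s3, s1, s2], w ∈ Ball [s3, s1, s2] (σ i) →
        w' ∈ Ball [s3, s1, s2] (σ i) → w ∈ FTW s3 s1 s2 n B X R → w' ∈ TIW s3 s1 s2 n B X →
        lam w = lam w' → False := by
      intro w w' hb hb' hF hF' hlam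
      obtain ⟨d, v, h1, h2, h3⟩ := ftw_form hL hS hC hb hF
      obtain ⟨d', h1', h2', h3'⟩ := tiw_form hL hS hC hb' hF'
      have k1 := (hFt s3 s1 s2 L c n B X R b0 h σ τ lam hC i d v w h1 h2 h3).1
      have k2 := (hTi s3 s1 s2 L c n B X R b0 h σ τ lam hC i w' w' d' d' h1' h2' h3'
        h1' h2' h3').2.1
      have k3 := ((hT (16 * X) R (by omega)).2.2 (b0 (i.val / B)) v d h3).2
      have k4 : (b0 (i.val / B) + d.val + 1) * R ≤ (b0 (i.val / B) + 3) * R :=
        Nat.mul_le_mul_right R (by have := d.isLt; omega)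
      have k5 : b0 (i.val / B) * R ≤ (b0 (i.val / B) + d.val) * R :=
        Nat.mul_le_mul_right R (by omega)
      rw [← hlam, k1] at k2
      rcases k2 with k2 | k2
      · exact absurd (lt_of_lt_of_le k2 (k5.trans k3.1)) (lt_irrefl _)
      · exact absurd (lt_of_lt_of_le k3.2 (k4.trans k2)) (lt_irrefl _)
    rcases Finset.mem_union.1 hw with hF | hF <;> rcases Finset.mem_union.1 hw' with hF' | hF'
    · obtain ⟨d, v, h1, h2, h3⟩ := ftw_form hL hS hC hb hF
      obtain ⟨d', v', h1', h2', h3'⟩ := ftw_form hL hS hC hb' hF'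
      have k := hFt s3 s1 s2 L c n B X R b0 h σ τ lam hC i d v w h1 h2 h3
      have k' := hFt s3 s1 s2 L c n B X R b0 h σ τ lam hC i d' v' w' h1' h2' h3'
      have t := ((hT (16 * X) R (by omega)).2.2 (b0 (i.val / B)) v d h3).2
      have t' := ((hT (16 * X) R (by omega)).2.2 (b0 (i.val / B)) v' d' h3').2
      have hfl : flab R (b0 (i.val / B)) d v = flab R (b0 (i.val / B)) d' v' := by
        rw [← k.1, ← k'.1, hlam]
      have hdd : d = d' := by
        have a1 : (b0 (i.val / B) + d.val) * R < (b0 (i.val / B) + d'.val + 1) * R :=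
          lt_of_le_of_lt t.1 (by rw [hfl]; exact t'.2)
        have a2 : (b0 (i.val / B) + d'.val) * R < (b0 (i.val / B) + d.val + 1) * R :=
          lt_of_le_of_lt t'.1 (by rw [← hfl]; exact t.2)
        have a3 := Nat.lt_of_mul_lt_mul_right a1
        have a4 := Nat.lt_of_mul_lt_mul_right a2
        ext
        omega
      subst hdd
      apply (hL s3 s1 s2 w w').2.2.2
      intro e
      by_cases he : e = d
      · subst he
        have j1 := k.2.1
        have j2 := k'.2.1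
        rw [hlam] at j1
        omega
      · rw [h1 e he, h1' e he]
    · exact (mixed w w' hb hb' hF hF' hlam).elim
    · exact (mixed w' w hb' hb hF' hF hlam.symm).elim
    · obtain ⟨d, h1, h2, h3⟩ := tiw_form hL hS hC hb hF
      obtain ⟨d', h1', h2', h3'⟩ := tiw_form hL hS hC hb' hF'
      exact (hL s3 s1 s2 w w').2.2.2 ((hTi s3 s1 s2 L c n B X R b0 h σ τ lam hC i w w' d d'
        h1 h2 h3 h1' h2' h3').2.2 hlam)

end Pool.Agent.Lib.MP_635d71_ag.Fr
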