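import Pool.Agent.Lib.MP_635d71_ag.Fr.Spec

/-!
# Free largest factor: the field `h4` of the partial label system
-/

set_option autoImplicit false

open Module Submodule

namespace Pool.Agent.Lib.MP_635d71_ag.Fr

namespace Ps4Aux

variable {s3 s1 s2 L c n B X R : ℕ} {b0 : ℕ → ℕ} {h : ℕ → ℕ → ℕ}
  {σ : Fin n → Grid [s3, s1, s2]} {τ : Fin c → Grid [s3, s1, s2]} {lam : Grid [s3, s1, s2] → Fin c}

theorem sgf_lt (hS : S_Sg) (hC : Ctx s3 s1 s2 L c n B X R b0 h σ τ lam) (i : Fin n) (d : Fin 3) :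
    sgf X B i.val d < 16 * X := by
  obtain ⟨h1, -⟩ := hS X B i.val i.val hC.B1 hC.BX
  have h2 := (h1 d).2
  have h3 : i.val / B < 16 := by
    apply Nat.div_lt_of_lt_mul
    have h4 := i.isLt
    have h5 := hC.nB
    calc i.val < n := h4
      _ ≤ 16 * B := h5
      _ = B * 16 := Nat.mul_comm _ _
  have h6 : i.val / B * X + X ≤ 16 * X := by
    have h7 : (i.val / B + 1) * X ≤ 16 * X := Nat.mul_le_mul_right X h3
    calc i.val / B * X + X = (i.val / B + 1) * X := by ring
      _ ≤ 16 * X := h7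
  omega

end Ps4Aux

open Ps4Aux

theorem pPs4 : S_LtB → S_Sg → S_Tg → S_FtL → S_Ps4 := by
  intro hL hS hT hFt s3 s1 s2 L c n B X R b0 h σ τ lam hC w hw g hg hNT
  have hw' := (Finset.mem_filter.1 hw).2
  obtain ⟨i, d, h1, h2, h3⟩ := hw'
  have hR : 1 ≤ R := by omega
  have hk := hFt s3 s1 s2 L c n B X R b0 h σ τ lam hC i d (ltr w d - 16 * X) w h1 (by omega)
    (by omega)
  have hτ : ∀ (a : Fin c) (e : Fin 3), 16 * X ≤ ltr (τ a) e := by
    intro a e
    rw [hC.hτ a]
    exact ((hT (16 * X) R hR).1 a.val e).1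
  have hbox := ((hL s3 s1 s2 g w).2.1 (τ (lam w))).1 hg
  have hgd : 16 * X ≤ ltr g d := by
    rcases hbox d with k | k
    · rw [k]; exact h2
    · rw [k]; exact hτ _ _
  by_cases c1 : ∀ e, e ≠ d → ltr g e = ltr w e
  · left
    apply (hL s3 s1 s2 g w).2.2.2
    intro e
    by_cases he : e = d
    · subst he
      rcases hbox e with k | k
      · exact k
      · rw [k, hk.2.1]
        omega
    · exact c1 e he
  by_cases c2 : ∀ e, e ≠ d → ltr g e = ltr (τ (lam w)) e
  · right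
    apply (hL s3 s1 s2 g (τ (lam w))).2.2.2
    intro e
    by_cases he : e = d
    · subst he
      rcases hbox e with k | k
      · rw [k, hk.2.1]
        omega
      · exact k
    · exact c2 e he
  exfalso
  push Not at c1 c2
  obtain ⟨e1, he1, hne1⟩ := c1
  obtain ⟨e2, he2, hne2⟩ := c2
  have g1 : 16 * X ≤ ltr g e1 := by
    rw [(hbox e1).resolve_left hne1]
    exact hτ _ _
  have g2 : ltr g e2 < 16 * X := by
    rw [(hbox e2).resolve_right hne2, h1 e2 he2]
    exact sgf_lt hS hC i e2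
  rcases hNT with ⟨j, hj, -⟩ | ⟨a, ha⟩
  · obtain ⟨d', hd'⟩ := (hL s3 s1 s2 g (σ j)).1.1 hj
    have big : ∀ e, 16 * X ≤ ltr g e → e = d' := by
      intro e he
      by_contra hne
      have k1 := hd' e hne
      rw [hC.hσ j] at k1
      have k2 := sgf_lt hS hC j e
      omega
    exact he1 ((big e1 g1).trans (big d hgd).symm)
  · rw [ha] at g2
    exact absurd (lt_of_lt_of_le g2 (hτ a e2)) (lt_irrefl _)

end Pool.Agent.Lib.MP_635d71_ag.Fr
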