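import Pool.Agent.Lib.MP_635d71_ag.Fr.Spec

/-!
# Ps5: the field `h5` of the partial label system
-/

set_option autoImplicit false

open Module Submodule

namespace Pool.Agent.Lib.MP_635d71_ag.Fr

namespace Ps5Aux

theorem clus {X a b y : ℕ} (h1 : a * X ≤ y) (h2 : y < a * X + X) (h3 : b * X ≤ y)
    (h4 : y < b * X + X) : a = b := by
  rcases lt_trichotomy a b with h | h | h
  · exfalso
    have : (a + 1) * X ≤ b * X := Nat.mul_le_mul_right X h
    rw [Nat.add_mul, Nat.one_mul] at this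
    omega
  · exact h
  · exfalso
    have : (b + 1) * X ≤ a * X := Nat.mul_le_mul_right X h
    rw [Nat.add_mul, Nat.one_mul] at this
    omega

theorem low {X B n i y : ℕ} (hi : i < n) (hn : n ≤ 16 * B)
    (h : y < i / B * X + X) : y < 16 * X := by
  have h1 : i / B < 16 := Nat.div_lt_of_lt_mul (by omega)
  have h2 : (i / B + 1) * X ≤ 16 * X := Nat.mul_le_mul_right X (by omega)
  rw [Nat.add_mul, Nat.one_mul] at h2
  omega

theorem change {s3 s1 s2 : ℕ} (g1 g2 : Grid [s3, s1, s2]) (d : Fin 3) :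
    ∃ g : Grid [s3, s1, s2], ltr g d = ltr g2 d ∧ ∀ e, e ≠ d → ltr g e = ltr g1 e := by
  obtain ⟨a1, b1, c1, u1⟩ := g1
  obtain ⟨a2, b2, c2, u2⟩ := g2
  fin_cases d
  · refine ⟨(a2, b1, c1, u1), rfl, ?_⟩
    intro e he
    fin_cases e
    · exact absurd rfl he
    · rfl
    · rfl
  · refine ⟨(a1, b2, c1, u1), rfl, ?_⟩
    intro e he
    fin_cases e
    · rfl
    · exact absurd rfl he
    · rfl
  · refine ⟨(a1, b1, c2, u1), rfl, ?_⟩
    intro e he
    fin_cases e
    · rfl
    · rfl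
    · exact absurd rfl he

theorem other (d : Fin 3) : ∃ e : Fin 3, e ≠ d := by
  fin_cases d
  · exact ⟨1, by decide⟩
  · exact ⟨0, by decide⟩
  · exact ⟨0, by decide⟩

end Ps5Aux

open Ps5Aux in
theorem pPs5 : S_LtB → S_Sg → S_Tg → S_FtL → S_Ps5 := by
  classical
  intro hLtB hSg hTg hFtL s3 s1 s2 L c n B X R b0 h σ τ lam ctx i w hw hwT g hg hNT
  have hX : 1 ≤ X := by
    have := ctx.Xodd
    omega
  -- letters of special words
  have hs : ∀ (j : Fin n) (e : Fin 3), j.val / B * X ≤ sgf X B j.val e ∧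
      sgf X B j.val e < j.val / B * X + X := fun j e => (hSg X B j.val j.val ctx.B1 ctx.BX).1 e
  have hR : 1 ≤ R := by
    by_contra hR0
    have h0 : R = 0 := by omega
    have h1 := ctx.cR
    rw [h0] at h1
    have h2 := (lam w).isLt
    omega
  have ht : ∀ (a : Fin c) (e : Fin 3), 16 * X ≤ ltr (τ a) e ∧ ltr (τ a) e < 16 * X + R := by
    intro a e
    rw [ctx.hτ a]
    exact (hTg (16 * X) R hR).1 a.val e
  -- `w`
  obtain ⟨dw, hdw⟩ := (hLtB s3 s1 s2 w (σ i)).1.1 hw
  rw [ctx.hσ i] at hdw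
  have hwk : ∃ k, ∀ e, k * X ≤ ltr w e ∧ ltr w e < k * X + X := by
    rw [TIW, Finset.mem_filter] at hwT
    exact hwT.2.2
  obtain ⟨k, hk⟩ := hwk
  have hki : k = i.val / B := by
    obtain ⟨e, he⟩ := other dw
    have h1 := hk e
    have h2 := hs i e
    rw [← hdw e he] at h2
    exact clus h1.1 h1.2 h2.1 h2.2
  subst hki
  have hwlow : ∀ e, ltr w e < 16 * X := fun e => low i.isLt ctx.nB (hk e).2
  have hbox := (hLtB s3 s1 s2 g w).2.1 (τ (lam w)) |>.1 hg
  rcases hNT with ⟨j, hgj, -⟩ | ⟨a, ha⟩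
  · obtain ⟨dj, hdj⟩ := (hLtB s3 s1 s2 g (σ j)).1.1 hgj
    rw [ctx.hσ j] at hdj
    have hgw : ∀ e, e ≠ dj → ltr g e = ltr w e := by
      intro e he
      rcases hbox e with h1 | h1
      · exact h1
      · exfalso
        have h2 := low j.isLt ctx.nB (hs j e).2
        have h3 := (ht (lam w) e).1
        rw [← h1, hdj e he] at h3
        omega
    rcases hbox dj with h1 | h1
    · left
      refine (hLtB s3 s1 s2 g w).2.2.2 fun d => ?_
      rcases eq_or_ne d dj with h2 | h2
      · rw [h2]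
        exact h1
      · exact hgw d h2
    · right
      right
      have hij : i.val / B = j.val / B := by
        obtain ⟨e, he⟩ := other dj
        have h2 := hk e
        have h3 := hs j e
        rw [← hdj e he, hgw e he] at h3
        exact clus h2.1 h2.2 h3.1 h3.2
      have h3 := ht (lam w) dj
      rw [← h1] at h3
      obtain ⟨v, hv⟩ : ∃ v, ltr g dj = 16 * X + v := ⟨ltr g dj - 16 * X, by omega⟩
      have hvR : v < R := by omega
      obtain ⟨g', hg'1, hg'2⟩ := change (σ i) g dj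
      rw [ctx.hσ i] at hg'2
      have L1 := (hFtL s3 s1 s2 L c n B X R b0 h σ τ lam ctx j dj v g hdj hv hvR).1
      have L2 := (hFtL s3 s1 s2 L c n B X R b0 h σ τ lam ctx i dj v g' hg'2
        (hg'1.trans hv) hvR).1
      refine ⟨?_, g', ?_, ?_, ?_⟩
      · rw [FTW, Finset.mem_filter]
        exact ⟨Finset.mem_univ _, j, dj, hdj, h3.1, h3.2⟩
      · rw [FTW, Finset.mem_filter]
        refine ⟨Finset.mem_univ _, i, dj, hg'2, ?_, ?_⟩
        · rw [hg'1]
          exact h3.1
        · rw [hg'1]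
          exact h3.2
      · refine (hLtB s3 s1 s2 g' (σ i)).1.2 ⟨dj, fun e he => ?_⟩
        rw [ctx.hσ i]
        exact hg'2 e he
      · apply Fin.ext
        rw [L1, L2, hij]
  · right
    left
    refine (hLtB s3 s1 s2 g (τ (lam w))).2.2.2 fun d => ?_
    rcases hbox d with h1 | h1
    · exfalso
      have h2 := (ht a d).1
      rw [← ha, h1] at h2
      have h3 := hwlow d
      omega
    · exact h1

end Pool.Agent.Lib.MP_635d71_ag.Fr
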