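import Pool.Agent.Lib.MP_635d71_ag.Fr.Spec

set_option autoImplicit false

open Module Submodule

namespace Pool.Agent.Lib.MP_635d71_ag.Fr

namespace Ps7Aux

private theorem third (d d' : Fin 3) : ∃ e : Fin 3, e ≠ d ∧ e ≠ d' := by
  revert d d'
  decide

private theorem divEq {X k l x : ℕ} (h1 : k * X ≤ x) (h2 : x < k * X + X) (h3 : l * X ≤ x)
    (h4 : x < l * X + X) : k = l := by
  have hX : 0 < X := by omega
  have e1 : x / X = k := by
    apply Nat.div_eq_of_lt_le h1
    rw [Nat.add_mul, Nat.one_mul]
    exact h2
  have e2 : x / X = l := by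
    apply Nat.div_eq_of_lt_le h3
    rw [Nat.add_mul, Nat.one_mul]
    exact h4
  rw [← e1, ← e2]

end Ps7Aux

open Ps7Aux in
theorem pPs7 : S_LtB → S_Sg → S_Tg → S_Ps7 := by
  intro hLt hSg hTg s3 s1 s2 L c n B X R b0 h σ τ lam C i a w hw hwi hwX g hg hN
  have hR : 1 ≤ R := by
    rcases Nat.eq_zero_or_pos R with h0 | h0
    · have h1 := C.cR
      have h2 := a.isLt
      rw [h0] at h1
      omega
    · exact h0
  have hT1 := (hTg (16 * X) R hR).1
  have hlow : ∀ (j : Fin n) (e : Fin 3), j.val / B * X ≤ sgf X B j.val e ∧
      sgf X B j.val e < j.val / B * X + X :=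
    fun j e => (hSg X B j.val j.val C.B1 C.BX).1 e
  have h16 : ∀ (j : Fin n) (e : Fin 3), sgf X B j.val e < 16 * X := by
    intro j e
    have h1 : j.val / B < 16 := by
      have hB := C.B1
      rw [Nat.div_lt_iff_lt_mul (by omega)]
      have h5 := j.isLt
      have h6 := C.nB
      omega
    have h2 := (hlow j e).2
    have h3 : (j.val / B + 1) * X ≤ 16 * X := Nat.mul_le_mul_right X h1
    have h4 : (j.val / B + 1) * X = j.val / B * X + X := by ring
    omega
  obtain ⟨d, hd⟩ := (hLt s3 s1 s2 w (σ i)).1.1 hw
  rw [C.hσ i] at hd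
  have hwF : ¬ (16 * X ≤ ltr w d ∧ ltr w d < 16 * X + R) := by
    intro hh
    apply hwX
    rw [Finset.mem_union]
    left
    simp only [FTW, Finset.mem_filter, Finset.mem_univ, true_and]
    exact ⟨i, d, hd, hh.1, hh.2⟩
  have hwT : ¬ (i.val / B * X ≤ ltr w d ∧ ltr w d < i.val / B * X + X) := by
    intro hh
    apply hwX
    rw [Finset.mem_union]
    right
    simp only [TIW, Finset.mem_filter, Finset.mem_univ, true_and]
    refine ⟨⟨i, d, hd, ?_⟩, i.val / B, ?_⟩
    · intro he
      apply hwi
      rw [(hLt s3 s1 s2 w (σ i)).2.2, C.hσ i]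
      intro e
      by_cases hed : e = d
      · rw [hed]
        exact he
      · exact hd e hed
    · intro e
      by_cases hed : e = d
      · rw [hed]
        exact hh
      · rw [hd e hed]
        exact hlow i e
  have hb := ((hLt s3 s1 s2 g w).2.1 (τ a)).1 hg
  rw [C.hτ a] at hb
  rcases hN with ⟨j, hj, -⟩ | ⟨b, hgb⟩
  · obtain ⟨d', hd'⟩ := (hLt s3 s1 s2 g (σ j)).1.1 hj
    rw [C.hσ j] at hd'
    have hgw : ∀ e, e ≠ d' → ltr g e = ltr w e := by
      intro e he
      rcases hb e with h1 | h1
      · exact h1
      · exfalso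
        have h2 := h16 j e
        have h3 := (hT1 a.val e).1
        rw [← hd' e he, h1] at h2
        omega
    rcases hb d' with h1 | h1
    · left
      rw [(hLt s3 s1 s2 g w).2.2]
      intro e
      by_cases he : e = d'
      · rw [he]
        exact h1
      · exact hgw e he
    · by_cases hdd : d' = d
      · right
        right
        rw [hdd] at hd' hgw h1
        have hij : i.val = j.val := by
          apply (hSg X B i.val j.val C.B1 C.BX).2 d
          intro e he
          rw [← hd e he, ← hgw e he, hd' e he]
        have hgF : g ∈ FTW s3 s1 s2 n B X R := by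
          simp only [FTW, Finset.mem_filter, Finset.mem_univ, true_and]
          refine ⟨j, d, hd', ?_, ?_⟩
          · rw [h1]
            exact (hT1 a.val d).1
          · rw [h1]
            exact (hT1 a.val d).2
        have hij' : i = j := Fin.ext hij
        refine ⟨hgF, g, hgF, ?_, rfl⟩
        rw [hij']
        exact hj
      · exfalso
        obtain ⟨e, he1, he2⟩ := third d d'
        have hk : i.val / B = j.val / B := by
          have h2 := hlow i e
          have h3 := hlow j e
          rw [← hd e he1, ← hgw e he2] at h2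
          rw [← hd' e he2] at h3
          exact divEq h2.1 h2.2 h3.1 h3.2
        apply hwT
        have hne : d ≠ d' := fun hh => hdd hh.symm
        rw [← hgw d hne, hd' d hne, hk]
        exact hlow j d
  · right
    left
    rw [(hLt s3 s1 s2 g (τ a)).2.2, C.hτ a]
    have hgT : ∀ e, 16 * X ≤ ltr g e ∧ ltr g e < 16 * X + R := by
      intro e
      rw [hgb, C.hτ b]
      exact hT1 b.val e
    intro e
    rcases hb e with h1 | h1
    · exfalso
      by_cases he : e = d
      · apply hwF
        have h2 := hgT e
        rw [h1, he] at h2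
        exact h2
      · have h2 := hgT e
        rw [h1, hd e he] at h2
        have h3 := h16 i e
        omega
    · exact h1

end Pool.Agent.Lib.MP_635d71_ag.Fr
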