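import Pool.Agent.Lib.MP_635d71_ag.Fr.Spec

/-!
# Free largest factor: the field `h8` of the label system with three large factors
-/

set_option autoImplicit false

open Module Submodule

namespace Pool.Agent.Lib.MP_635d71_ag.Fr

namespace Ps8Aux

/-- the letters of the special words are `< 16 X` -/
theorem sgf_lt (hSg : S_Sg) {X B n : ℕ} (hB : 1 ≤ B) (hBX : B ≤ X * X) (hn : n ≤ 16 * B)
    (i : Fin n) (d : Fin 3) : sgf X B i.val d < 16 * X := by
  have h1 := ((hSg X B i.val i.val hB hBX).1 d).2
  have h2 : i.val / B < 16 := by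
    rw [Nat.div_lt_iff_lt_mul (by omega)]
    exact lt_of_lt_of_le i.2 hn
  have h3 : i.val / B * X + X ≤ 16 * X := by
    have h4 : (i.val / B + 1) * X ≤ 16 * X := Nat.mul_le_mul_right X h2
    calc i.val / B * X + X = (i.val / B + 1) * X := by ring
      _ ≤ 16 * X := h4
  omega

end Ps8Aux

open Ps8Aux in
/-- **Ps8.** -/
theorem pPs8 : S_LtB → S_Sg → S_Tg → S_Ps8 := by
  intro hLt hSg hTg s3 s1 s2 L c n B X R b0 h σ τ lam hC i a g hg hN
  have hR : 1 ≤ R := by
    rcases Nat.eq_zero_or_pos R with h0 | h0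
    · have h1 := hC.cR
      have h2 := a.2
      rw [h0] at h1
      omega
    · exact h0
  have hs : ∀ (j : Fin n) (d : Fin 3), sgf X B j.val d < 16 * X := fun j d =>
    sgf_lt hSg hC.B1 hC.BX hC.nB j d
  have ht : ∀ (b : Fin c) (d : Fin 3), 16 * X ≤ tgf (16 * X) R b.val d ∧
      tgf (16 * X) R b.val d < 16 * X + R := fun b d => (hTg (16 * X) R hR).1 b.val d
  have hb : ∀ d, ltr g d = sgf X B i.val d ∨ ltr g d = tgf (16 * X) R a.val d := by
    have h1 := ((hLt s3 s1 s2 g (σ i)).2.1 (τ a)).1 hg
    intro d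
    have h2 := h1 d
    rw [hC.hσ, hC.hτ] at h2
    exact h2
  -- exactly one letter of the target
  have hone : ∀ d : Fin 3, (∀ e, e ≠ d → ltr g e = sgf X B i.val e) →
      ltr g d = tgf (16 * X) R a.val d →
      FTL [s3, s1, s2] σ (FTW s3 s1 s2 n B X R) lam i g := by
    intro d hd hd'
    have hm : g ∈ FTW s3 s1 s2 n B X R := by
      unfold FTW
      rw [Finset.mem_filter]
      refine ⟨Finset.mem_univ _, i, d, hd, ?_⟩
      rw [hd']
      exact ht a d
    refine ⟨hm, g, hm, ?_, rfl⟩
    rw [(hLt s3 s1 s2 g (σ i)).1]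
    refine ⟨d, fun e he => ?_⟩
    rw [hC.hσ]
    exact hd e he
  -- two letters of the target and one of the special word
  have htwo : ∀ d e f : Fin 3, d ≠ e → ltr g d = tgf (16 * X) R a.val d →
      ltr g e = tgf (16 * X) R a.val e → ltr g f = sgf X B i.val f → False := by
    intro d e f hde hd he hf
    rcases hN with ⟨j, hj⟩ | ⟨b, hb'⟩
    · rw [(hLt s3 s1 s2 g (σ j)).1] at hj
      obtain ⟨m, hm⟩ := hj
      rw [hC.hσ] at hm
      by_cases h1 : d = m
      · have h2 := hm e (fun h3 => hde (h1.trans h3.symm))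
        have h3 := hs j e
        have h4 := (ht a e).1
        omega
      · have h2 := hm d h1
        have h3 := hs j d
        have h4 := (ht a d).1
        omega
    · have h2 : ltr g f = tgf (16 * X) R b.val f := by
        rw [hb', hC.hτ]
      have h3 := hs i f
      have h4 := (ht b f).1
      omega
  rcases hb 0 with h0 | h0 <;> rcases hb 1 with h1 | h1 <;> rcases hb 2 with h2 | h2
  · left
    rw [(hLt s3 s1 s2 g (σ i)).2.2, hC.hσ]
    intro d
    fin_cases d
    · exact h0
    · exact h1
    · exact h2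
  · right; right
    refine hone 2 ?_ h2
    intro e he
    fin_cases e
    · exact h0
    · exact h1
    · exact absurd rfl he
  · right; right
    refine hone 1 ?_ h1
    intro e he
    fin_cases e
    · exact h0
    · exact absurd rfl he
    · exact h2
  · exact (htwo 1 2 0 (by decide) h1 h2 h0).elim
  · right; right
    refine hone 0 ?_ h0
    intro e he
    fin_cases e
    · exact absurd rfl he
    · exact h1
    · exact h2
  · exact (htwo 0 2 1 (by decide) h0 h2 h1).elim
  · exact (htwo 0 1 2 (by decide) h0 h1 h2).elim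
  · right; left
    rw [(hLt s3 s1 s2 g (τ a)).2.2, hC.hτ]
    intro d
    fin_cases d
    · exact h0
    · exact h1
    · exact h2

end Pool.Agent.Lib.MP_635d71_ag.Fr
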