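import Pool.Agent.Lib.MP_635d71_ag.Fr.SpecB
import Pool.Agent.Lib.MP_635d71_ag.AllR

/-!
# MP_635d71_ag, package Fr, module Rch (helper4)
-/

set_option autoImplicit false

open Module Submodule

namespace Pool.Agent.Lib.MP_635d71_ag.Fr

namespace RchAux

theorem numA {P q L r : ℕ} (h1 : r < P) (h2 : r < q) :
    r * (q + min (P - r) L) = r * min P (r + L) + (q - r) * r := by
  have h3 : min P (r + L) = r + min (P - r) L := by omega
  rw [h3]
  obtain ⟨d, rfl⟩ := Nat.exists_eq_add_of_lt h2
  rw [show r + d + 1 - r = d + 1 by omega]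
  ring

theorem numB {P q L r : ℕ} (hL : 1 ≤ L) (hP : q + L < P)
    (h : r * (q + L) ≤ q * P + (q + L)) : r < P := by
  by_contra hc
  have h1 : P ≤ r := by omega
  have h2 : P * (q + L) ≤ r * (q + L) := Nat.mul_le_mul_right _ h1
  have h3 : P * (q + L) = q * P + P * L := by ring
  have h4 : P * 1 ≤ P * L := Nat.mul_le_mul_left _ hL
  omega

theorem numC {P q L r c : ℕ} (hL : 1 ≤ L) (hq : 2 * L ≤ q) (hc : r + c = P)
    (h : q * P ≤ r * (q + L) + (q + L)) : 3 * c ≤ P + 3 := by
  subst hc
  by_contra hn
  have h1 : r + c + 4 ≤ 3 * c := by omega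
  -- `(c - 1) (q + L) ≤ P L`
  have h2 : 3 * L ≤ q + L := by omega
  have h3 : q * (r + c) + c * L ≤ r * (q + L) + (q + L) + c * L := by omega
  have h4 : c * (q + L) ≤ (r + c) * L + (q + L) := by nlinarith
  obtain ⟨d, rfl⟩ : ∃ d, c = d + 1 := ⟨c - 1, by omega⟩
  have h5 : d * (q + L) ≤ (r + (d + 1)) * L := by nlinarith
  have h6 : d * (3 * L) ≤ d * (q + L) := Nat.mul_le_mul_left _ h2
  have h7 : (3 * d) * L ≤ (r + (d + 1)) * L := by nlinarith
  have h8 : 3 * d ≤ r + (d + 1) := Nat.le_of_mul_le_mul_right h7 (by omega)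
  omega

end RchAux

theorem pRch : S_Ind → S_Un1 → S_Un2 → S_Un3 → S_Rch := by
  intro hInd hUn1 hUn2 hUn3 K _ _ l q L r hq hL hD hyp hBR
  have hDq : D (q :: l) = q + L := by
    have : D (q :: l) = (q - 1) + D l := rfl
    rw [this, hD]
    omega
  have hPq : (q :: l).prod = q * l.prod := List.prod_cons
  unfold dimF
  by_cases hA : r < min l.prod q
  · rw [if_pos hA]
    have hA1 : r < l.prod := by omega
    have hA2 : r < q := by omega
    have h1 := hUn1 K l q r hA2.le hA1.le (by omega)
    refine h1.mono (le_of_eq ?_)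
    rw [hD, Nat.add_sub_cancel]
    exact RchAux.numA hA1 hA2
  · rw [if_neg hA]
    by_cases hB : l.prod ≤ r
    · refine (hUn3 K l q r hB).mono ?_
      rw [mul_comm q l.prod]
      exact min_le_right _ _
    · have hqr : q ≤ r := by omega
      by_cases hC : l.prod ≤ r + L
      · refine (hUn2 K l q r hq hqr (by rw [hD, Nat.add_sub_cancel]; exact hC)).mono ?_
        rw [mul_comm q l.prod]
        exact min_le_right _ _
      · by_cases hE : q < 2 * L
        · exact hyp hE
        · have hall := Reach.all (K := K) (l := q :: l) ?_ r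
          · rw [hDq, hPq, mul_comm q l.prod] at hall
            exact hall
          · intro r' h1 h2
            rw [hDq, hPq] at h1 h2 ⊢
            have h3 : r' < l.prod := RchAux.numB hL (by omega) h1
            by_cases hF : l.prod ≤ r' + L
            · refine (hUn2 K l q r' hq (by omega)
                (by rw [hD, Nat.add_sub_cancel]; exact hF)).mono ?_
              exact min_le_right _ _
            · obtain ⟨c, hc⟩ : ∃ c, r' + c = l.prod := ⟨l.prod - r', by omega⟩
              have h4 : 3 * c ≤ l.prod + 3 := RchAux.numC hL (by omega) hc h2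
              have h5 := hBR c r' (by omega) h4 hc
              have h6 := hInd K l L c r' hD hL (by omega) hc h5.1 h5.2 q hq
              rw [mul_comm l.prod q] at h6
              exact h6

end Pool.Agent.Lib.MP_635d71_ag.Fr
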