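import Pool.Agent.Lib.MP_635d71_ag.Fr.SpecB

set_option autoImplicit false

open Module Submodule

namespace Pool.Agent.Lib.MP_635d71_ag.Fr

namespace RhoAux

theorem lin (k : ℕ) : 16 * (k + 8) ≤ 2 ^ (k + 7) := by
  induction k with
  | zero => norm_num
  | succ k ih =>
    have h : (2 : ℕ) ^ (k + 1 + 7) = 2 * 2 ^ (k + 7) := by
      rw [show k + 1 + 7 = (k + 7) + 1 by ring, pow_succ]; ring
    rw [h]
    omega

theorem ex (L : ℕ) : ∃ ρ, 2 * L ≤ 4 ^ ρ :=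
  ⟨2 * L, (Nat.lt_pow_self (by norm_num)).le⟩

end RhoAux

theorem pRho : S_Rho := by
  intro L hL
  by_cases h8 : 2 * L ≤ 4 ^ 8
  · exact ⟨8, le_rfl, h8, by norm_num; omega, by norm_num, Or.inl rfl⟩
  · classical
    obtain ⟨ρ, hρ, hmin⟩ : ∃ ρ, 2 * L ≤ 4 ^ ρ ∧ ∀ m < ρ, ¬ 2 * L ≤ 4 ^ m :=
      ⟨Nat.find (RhoAux.ex L), Nat.find_spec (RhoAux.ex L), fun m hm => Nat.find_min (RhoAux.ex L) hm⟩
    have h9 : 9 ≤ ρ := by
      by_contra hc
      have : ρ ≤ 8 := by omega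
      exact h8 (hρ.trans (Nat.pow_le_pow_right (by norm_num) this))
    obtain ⟨k, rfl⟩ : ∃ k, ρ = k + 9 := ⟨ρ - 9, by omega⟩
    have hlt := hmin (k + 8) (by omega)
    have e4 : (4 : ℕ) ^ (k + 9) = 4 * 4 ^ (k + 8) := by rw [pow_succ]; ring
    have h4 : 4 ^ (k + 9) < 8 * L := by rw [e4]; omega
    refine ⟨k + 9, by omega, hρ, ?_, ?_, Or.inr h4.le⟩
    · have hsq : (4 : ℕ) ^ (k + 9) = 2 ^ (k + 9) * 2 ^ (k + 9) := by
        rw [← mul_pow]
        norm_num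
      have hb : (512 : ℕ) ≤ 2 ^ (k + 9) := by
        calc (512 : ℕ) = 2 ^ 9 := by norm_num
          _ ≤ 2 ^ (k + 9) := Nat.pow_le_pow_right (by norm_num) (by omega)
      rw [hsq] at h4
      by_contra hc
      have hc : L < 7 * 2 ^ (k + 9) := by omega
      have h1 : 56 * 2 ^ (k + 9) ≤ 2 ^ (k + 9) * 2 ^ (k + 9) := Nat.mul_le_mul_right _ (by omega)
      omega
    · have := RhoAux.lin (k + 1)
      have e1 : k + 1 + 8 = k + 9 := by ring
      have e2 : k + 1 + 7 = k + 9 - 1 := by omega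
      rw [e1, e2] at this
      exact this

end Pool.Agent.Lib.MP_635d71_ag.Fr
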