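import Pool.Agent.Lib.MP_635d71_ag.Fr.SpecB

/-!
# Free largest factor: module Sdr

Different representatives, greedy.
-/

set_option autoImplicit false

open Module Submodule

namespace Pool.Agent.Lib.MP_635d71_ag.Fr

namespace SdrAux

theorem greedy (N : ℕ) (C : ℕ → Finset ℕ) (h : ∀ d < N, N ≤ (C d).card) :
    ∀ k ≤ N, ∃ f : ℕ → ℕ, (∀ d < k, f d ∈ C d) ∧ ∀ d < k, ∀ e < k, f d = f e → d = e := by
  intro k
  induction k with
  | zero => exact fun _ => ⟨id, fun d hd => absurd hd (Nat.not_lt_zero d),
      fun d hd => absurd hd (Nat.not_lt_zero d)⟩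
  | succ k ih =>
    intro hk
    obtain ⟨f, hf1, hf2⟩ := ih (by omega)
    have h1 : ((Finset.range k).image f).card < (C k).card := by
      have h2 := Finset.card_image_le (s := Finset.range k) (f := f)
      rw [Finset.card_range] at h2
      have h3 := h k (by omega)
      omega
    obtain ⟨x, hx, hx2⟩ := Finset.exists_mem_notMem_of_card_lt_card h1
    have hne : ∀ d < k, f d ≠ x := fun d hd he =>
      hx2 (Finset.mem_image.2 ⟨d, Finset.mem_range.2 hd, he⟩)
    refine ⟨fun d => if d = k then x else f d, fun d hd => ?_, fun d hd e he hde => ?_⟩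
    · by_cases h2 : d = k
      · simp only [h2, if_true]
        exact hx
      · simp only [h2, if_false]
        exact hf1 d (by omega)
    · by_cases h2 : d = k
      · by_cases h3 : e = k
        · rw [h2, h3]
        · simp only [h2, h3, if_true, if_false] at hde
          exact absurd hde.symm (hne e (by omega))
      · by_cases h3 : e = k
        · simp only [h2, h3, if_true, if_false] at hde
          exact absurd hde (hne d (by omega))
        · simp only [h2, h3, if_false] at hde
          exact hf2 d (by omega) e (by omega) hde

end SdrAux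

theorem pSdr : S_Sdr := fun N C h => SdrAux.greedy N C h N le_rfl

end Pool.Agent.Lib.MP_635d71_ag.Fr
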