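import Pool.Agent.Lib.MP_635d71_ag.Fr.SpecB
import Pool.Agent.Lib.MP_635d71_ag.Lists

/-!
# Selection of the last factors

The proofs of `lists_final`, `core` and `core_aux` (`Lists.lean`, `Core.lean`) with `q = 2`, `S = Y`,
`O = []`, up to the choice of the last factors.
-/

set_option autoImplicit false

open Module Submodule

namespace Pool.Agent.Lib.MP_635d71_ag.Fr

namespace SelBAux

variable {K : Type} [Field K]

/-- The conclusion of `S_SelB` for one list, with `D Y = Δ`. -/
def Sel (K : Type) [Field K] (Y : List ℕ) (Δ : ℕ) : Prop :=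
  ∃ top M z : List ℕ, Y.Perm (top ++ (M ++ z)) ∧
    2 * D (M ++ z) ≤ Δ ∧ 3 * Δ ^ 2 ≤ (M ++ z).prod ∧ (M ++ z).prod ≤ Δ ^ 3 ∧
    4 * D z ≤ z.prod ∧
    ∀ b v C, C ⊆ Ball z v → (b - 1) * (2 * Δ + 1) ≤ 2 * z.prod → Good K z b C

/-- The last step: the special factors are chosen. -/
theorem sel_aux (Δ σ : ℕ) (T z M R z' Y : List ℕ) (hz' : z'.Perm z)
    (hY : Y.Perm (T ++ (z ++ (M ++ R)))) (hY2 : ∀ a ∈ Y, 2 ≤ a)
    (hTp : T.prod ≤ 432) (hδ : D (T ++ (z ++ (M ++ R))) = Δ) (h47 : 47 ≤ Δ)
    (hP : 2 * Δ ^ 2 * Δ ^ 6 ≤ (T ++ (z ++ (M ++ R))).prod)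
    (hσ : 5 * σ ≤ Δ) (hσ2 : 2 ≤ σ) (hA : ∀ a ∈ z ++ M, a ≤ σ) (hB : ∀ a ∈ R, σ ≤ a)
    (hZl : 3 * (Δ * Δ) ≤ (z ++ M).prod) (hZu : (z ++ M).prod ≤ 3 * (Δ * Δ) * σ)
    (h4 : 4 * D z' ≤ z'.prod)
    (base : ∀ b w C, C ⊆ Ball z' w → (b - 1) * (2 * Δ + 1) ≤ 2 * z'.prod → Good K z' b C) :
    Sel K Y Δ := by
  have hmem : ∀ a ∈ T ++ (z ++ (M ++ R)), 2 ≤ a := fun a ha => hY2 a (hY.mem_iff.2 ha)
  have hpMz : (M ++ z').Perm (z ++ M) := (List.perm_append_comm).trans (hz'.append_right M)
  have hprodM : (M ++ z').prod = (z ++ M).prod := hpMz.prod_eq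
  have hDM : D (M ++ z') = D (z ++ M) := D_perm hpMz
  have hYp : (T ++ (z ++ (M ++ R))).prod = T.prod * ((z ++ M).prod * R.prod) := by
    rw [List.prod_append, ← List.append_assoc, List.prod_append]
  have hΔpos : 0 < Δ := by omega
  -- the sum of the chosen factors is small
  have hdouble : D (z ++ M) + 1 ≤ D R := by
    refine D_lt_D σ hσ2 (z ++ M) R (fun a ha => ⟨hmem a ?_, hA a ha⟩) hB ?_
    · simp only [List.mem_append] at ha ⊢; tauto
    · have h1 : 432 * ((z ++ M).prod * ((z ++ M).prod * σ)) ≤ 432 * ((z ++ M).prod * R.prod) := by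
        calc 432 * ((z ++ M).prod * ((z ++ M).prod * σ)) ≤
            432 * ((3 * (Δ * Δ) * σ) * ((3 * (Δ * Δ) * σ) * σ)) := Nat.mul_le_mul_left _
              (Nat.mul_le_mul hZu (Nat.mul_le_mul_right _ hZu))
          _ ≤ 2 * (Δ ^ 2 * Δ ^ 6) := num_sig Δ Δ σ h47 hσ
          _ = 2 * Δ ^ 2 * Δ ^ 6 := by ring
          _ ≤ _ := hP
          _ = T.prod * ((z ++ M).prod * R.prod) := hYp
          _ ≤ _ := Nat.mul_le_mul_right _ hTp
      have h2 : 0 < (z ++ M).prod := by
        have : 0 < 3 * (Δ * Δ) := by positivity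
        omega
      have h3 := Nat.le_of_mul_le_mul_left h1 (by norm_num)
      have h4 := Nat.le_of_mul_le_mul_left h3 h2
      rw [mul_comm]
      exact h4
  have hDD : 2 * D (z ++ M) ≤ Δ := by
    have h1 := D_append T (z ++ (M ++ R))
    have h2 := D_append (z ++ M) R
    rw [List.append_assoc] at h2
    have h3 := one_le_D T
    omega
  refine ⟨R ++ T, M, z', hY.trans ?_, by rw [hDM]; exact hDD, ?_, ?_, h4, base⟩
  · have e0 : (T ++ (z ++ (M ++ R))).Perm ((R ++ T) ++ (z ++ M)) := by
      rw [← Multiset.coe_eq_coe]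
      simp only [← Multiset.coe_add]
      abel
    exact e0.trans (List.Perm.append_left _ hpMz.symm)
  · rw [hprodM, pow_two]; exact hZl
  · rw [hprodM]
    refine hZu.trans ?_
    calc 3 * (Δ * Δ) * σ = Δ * Δ * (3 * σ) := by ring
      _ ≤ Δ * Δ * Δ := Nat.mul_le_mul_left _ (by omega)
      _ = Δ ^ 3 := by ring

/-- The selection. -/
theorem sel_core (Δ : ℕ) (T z W z' Y : List ℕ) (hz' : z'.Perm z)
    (hY : Y.Perm (T ++ (z ++ W))) (hY2 : ∀ a ∈ Y, 2 ≤ a) (hTp : T.prod ≤ 432)
    (hs : (z ++ W).Pairwise (· ≤ ·))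
    (hδ : D (T ++ (z ++ W)) = Δ) (h47 : 47 ≤ Δ)
    (hP : 2 * Δ ^ 2 * Δ ^ 6 ≤ (T ++ (z ++ W)).prod)
    (hcase : z.prod < 3 * Δ ^ 2 ∨ ∃ σ, 2 ≤ σ ∧ 5 * σ ≤ Δ ∧ (∀ a ∈ z, a ≤ σ) ∧ (∀ a ∈ W, σ ≤ a) ∧
      z.prod ≤ σ ^ 3)
    (h4 : 4 * D z' ≤ z'.prod)
    (base : ∀ b w C, C ⊆ Ball z' w → (b - 1) * (2 * Δ + 1) ≤ 2 * z'.prod → Good K z' b C) :
    Sel K Y Δ := by
  have hmem : ∀ a ∈ T ++ (z ++ W), 2 ≤ a := fun a ha => hY2 a (hY.mem_iff.2 ha)
  by_cases hc : z.prod < 3 * (Δ * Δ)
  · have hYp : (T ++ (z ++ W)).prod = T.prod * (z ++ W).prod := List.prod_append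
    have hbig : 3 * (Δ * Δ) ≤ (z ++ W).prod := by
      have h1 : 432 * (3 * (Δ * Δ)) ≤ 432 * (z ++ W).prod := by
        have h0 : 47 ^ 2 ≤ Δ * Δ := by
          rw [pow_two]
          exact Nat.mul_le_mul h47 h47
        calc 432 * (3 * (Δ * Δ)) = 1296 * (Δ * Δ) := by ring
          _ ≤ (Δ * Δ) * (Δ * Δ) := Nat.mul_le_mul_right _ (by omega)
          _ = 1 * Δ ^ 2 * Δ ^ 2 := by ring
          _ ≤ 2 * Δ ^ 2 * Δ ^ 6 := Nat.mul_le_mul (Nat.mul_le_mul_right _ (by omega))
              (Nat.pow_le_pow_right (by omega) (by norm_num))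
          _ ≤ _ := hP
          _ = T.prod * (z ++ W).prod := hYp
          _ ≤ _ := Nat.mul_le_mul_right _ hTp
      exact Nat.le_of_mul_le_mul_left h1 (by norm_num)
    obtain ⟨M, σ, R, rfl, h1, h2⟩ := exists_cut (3 * (Δ * Δ)) W z hc hbig
    have hs2 : ((z ++ M) ++ (σ :: R)).Pairwise (· ≤ ·) := by
      rw [List.append_assoc]; exact hs
    rw [List.pairwise_append] at hs2
    obtain ⟨_, hs3, hs4⟩ := hs2
    rw [List.pairwise_cons] at hs3
    have hB : ∀ a ∈ σ :: R, σ ≤ a := by
      intro a ha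
      rcases List.mem_cons.1 ha with rfl | ha
      · exact le_rfl
      · exact hs3.1 a ha
    have hσ2 : 2 ≤ σ := hmem σ (by simp)
    -- at least six large elements
    have hlen : 6 ≤ (σ :: R).length := by
      by_contra hcon
      push Not at hcon
      have h3 := prod_le_choose' (σ :: R) (fun a ha => (by omega : 1 ≤ σ).trans (hB a ha)) Δ 5 ?_
        (by omega)
      · refine num5 Δ Δ (T ++ (z ++ (M ++ σ :: R))).prod h47 le_rfl ?_ ?_
        · refine le_trans ?_ hP
          exact le_of_eq (by ring)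
        · rw [hYp, ← List.append_assoc, List.prod_append]
          calc T.prod * ((z ++ M).prod * (σ :: R).prod) ≤
              432 * ((3 * (Δ * Δ)) * (Δ - 1 + 5).choose 5) :=
                Nat.mul_le_mul hTp (Nat.mul_le_mul h1.le h3)
            _ = _ := by ring
      · have h6 := D_append_le T (z ++ (M ++ σ :: R))
        have h7 := D_append_le z (M ++ σ :: R)
        have h8 := D_append_le M (σ :: R)
        omega
    have hσ5 : 5 * σ ≤ Δ := by
      have h3 := len_mul_le σ (σ :: R) hB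
      have h6 := D_append_le T (z ++ (M ++ σ :: R))
      have h7 := D_append_le z (M ++ σ :: R)
      have h8 := D_append_le M (σ :: R)
      have h9 : 6 * (σ - 1) ≤ (σ :: R).length * (σ - 1) := Nat.mul_le_mul_right _ hlen
      omega
    have hprod : (z ++ (M ++ [σ])).prod = (z ++ M).prod * σ := by
      rw [← List.append_assoc, List.prod_append, List.prod_singleton]
    have hMR : M ++ [σ] ++ R = M ++ σ :: R := by simp
    refine sel_aux Δ σ T z (M ++ [σ]) R z' Y hz' (by rw [hMR]; exact hY) hY2 hTp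
      (by rw [hMR]; exact hδ) h47 (by rw [hMR]; exact hP) hσ5 hσ2 ?_
      (fun a ha => hB a (List.mem_cons_of_mem _ ha)) (by rw [hprod]; exact h2) ?_ h4 base
    · intro a ha
      rw [← List.append_assoc, List.mem_append, List.mem_singleton] at ha
      rcases ha with ha | rfl
      · exact hs4 a ha σ List.mem_cons_self
      · exact le_rfl
    · rw [hprod]
      exact Nat.mul_le_mul_right _ h1.le
  · push Not at hc
    rcases hcase with h | ⟨σ, h1, h2, h3, h5, h6⟩
    · rw [pow_two] at h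
      omega
    · refine sel_aux Δ σ T z [] W z' Y hz' hY hY2 hTp hδ h47 hP h2 h1
        (by simpa using h3) h5 (by simpa using hc) ?_ h4 base
      rw [List.append_nil]
      refine h6.trans ?_
      calc σ ^ 3 = σ * σ * σ := by ring
        _ ≤ (3 * (Δ * Δ)) * σ := Nat.mul_le_mul_right _ (by
            have : σ * σ ≤ Δ * Δ := Nat.mul_le_mul (by omega) (by omega)
            omega)

/-- The selection for lists. -/
theorem sel_lists [Infinite K] (Y : List ℕ) (hY : ∀ a ∈ Y, 2 ≤ a) (Δ : ℕ) (hδ : D Y = Δ)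
    (hP : 2 * Δ ^ 2 * Δ ^ 6 ≤ Y.prod) : Sel K Y Δ := by
  have hY1 : ∀ a ∈ Y, 1 ≤ a := fun a ha => (by norm_num : 1 ≤ 2).trans (hY a ha)
  have hP8 : 2 * Δ ^ 8 ≤ Y.prod := by
    refine le_trans (le_of_eq ?_) hP
    ring
  have h47 : 47 ≤ Δ := by
    have h1 := prod_le_two_pow Y hY1
    rw [hδ] at h1
    have h2 := one_le_D Y
    exact num47 Δ (by omega) (hP8.trans h1)
  obtain ⟨n2, n3, U, hperm, hsort, hU⟩ := exists_sort Y hY
  by_cases hn2 : 5 ≤ n2
  · -- five factors of size two
    obtain ⟨m, rfl⟩ : ∃ m, n2 = 5 + m := ⟨n2 - 5, by omega⟩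
    have h1 : ([2, 2, 2, 2, 2] : List ℕ) ++ (List.replicate m 2 ++ (List.replicate n3 3 ++ U)) =
      List.replicate (5 + m) 2 ++ (List.replicate n3 3 ++ U) := by
      rw [List.replicate_add]
      simp [List.replicate]
    have hperm' : Y.Perm ([] ++ ([2, 2, 2, 2, 2] ++
        (List.replicate m 2 ++ (List.replicate n3 3 ++ U)))) := by
      rw [List.nil_append, h1]; exact hperm
    refine sel_core Δ [] [2, 2, 2, 2, 2] (List.replicate m 2 ++ (List.replicate n3 3 ++ U))
      [2, 2, 2, 2, 2] Y (List.Perm.refl _) hperm' hY (by simp) ?_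
      (by rw [← D_perm hperm', hδ]) h47 (by rw [← hperm'.prod_eq]; exact hP) (Or.inl ?_) (by simp [D])
      ?_
    · rw [h1, List.pairwise_append, List.pairwise_append]
      refine ⟨List.pairwise_replicate.2 (Or.inr le_rfl), ⟨List.pairwise_replicate.2 (Or.inr le_rfl),
        hsort, ?_⟩, ?_⟩
      · intro a ha b hb
        rw [List.eq_of_mem_replicate ha]
        have := hU b hb
        omega
      · intro a ha b hb
        rw [List.eq_of_mem_replicate ha]
        rcases List.mem_append.1 hb with hb | hb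
        · rw [List.eq_of_mem_replicate hb]; norm_num
        · have := hU b hb
          omega
    · have : 47 ^ 2 ≤ Δ ^ 2 := Nat.pow_le_pow_left h47 2
      simp only [List.prod_cons, List.prod_nil]
      omega
    · intro b w C hC hb
      exact base_one [2, 2, 2, 2, 2] (by simp) (by simp) Δ (by simp; omega) b w C hC hb
  · by_cases hn3 : 4 ≤ n3
    · -- four factors of size three
      obtain ⟨m, rfl⟩ : ∃ m, n3 = 4 + m := ⟨n3 - 4, by omega⟩
      have h1 : ([3, 3, 3, 3] : List ℕ) ++ (List.replicate m 3 ++ U) =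
        List.replicate (4 + m) 3 ++ U := by
        rw [List.replicate_add]
        simp [List.replicate]
      have hperm' : Y.Perm (List.replicate n2 2 ++ ([3, 3, 3, 3] ++
          (List.replicate m 3 ++ U))) := by
        rw [h1]; exact hperm
      refine sel_core Δ (List.replicate n2 2) [3, 3, 3, 3] (List.replicate m 3 ++ U)
        [3, 3, 3, 3] Y (List.Perm.refl _) hperm' hY ?_ ?_
        (by rw [← D_perm hperm', hδ]) h47 (by rw [← hperm'.prod_eq]; exact hP) (Or.inl ?_)
        (by simp [D]) ?_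
      · exact (replicate_prod_le n2 4 2 (by norm_num) (by omega)).trans (by norm_num)
      · rw [h1, List.pairwise_append]
        refine ⟨List.pairwise_replicate.2 (Or.inr le_rfl), hsort, ?_⟩
        intro a ha b hb
        rw [List.eq_of_mem_replicate ha]
        have := hU b hb
        omega
      · have : 47 ^ 2 ≤ Δ ^ 2 := Nat.pow_le_pow_left h47 2
        simp only [List.prod_cons, List.prod_nil]
        omega
      · intro b w C hC hb
        have hp : ([3, 3, 3, 3] : List ℕ).prod = 81 := by simp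
        rw [hp] at hb
        have hb2 : b ≤ 2 := by
          by_contra hcon
          have : 2 * (2 * Δ + 1) ≤ (b - 1) * (2 * Δ + 1) := Nat.mul_le_mul_right _ (by omega)
          omega
        exact base_slices 3 [3, 3, 3] (by simp) (by simp) b (by omega) (by simp [D]; omega) w C hC
    · -- many large factors
      have hTp : (List.replicate n2 2 ++ List.replicate n3 3).prod ≤ 432 := by
        rw [List.prod_append]
        calc (List.replicate n2 2).prod * (List.replicate n3 3).prod ≤ 2 ^ 4 * 3 ^ 3 :=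
              Nat.mul_le_mul (replicate_prod_le n2 4 2 (by norm_num) (by omega))
                (replicate_prod_le n3 3 3 (by norm_num) (by omega))
          _ = 432 := by norm_num
      have hperm' : Y.Perm ((List.replicate n2 2 ++ List.replicate n3 3) ++ U) := by
        rw [List.append_assoc]; exact hperm
      have hDU : D U ≤ Δ := by
        have h5 := D_perm hperm'
        have h6 := D_append_le (List.replicate n2 2 ++ List.replicate n3 3) U
        omega
      have hlen : 9 ≤ U.length := by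
        by_contra hcon
        push Not at hcon
        have h3 := prod_le_choose' U (fun a ha => by have := hU a ha; omega) Δ 8 hDU (by omega)
        refine num8 Δ Y.prod h47 hP8 ?_
        rw [hperm'.prod_eq, List.prod_append]
        exact Nat.mul_le_mul hTp h3
      obtain ⟨s1, s2, s3, W, rfl⟩ : ∃ s1 s2 s3 W, U = s1 :: s2 :: s3 :: W := by
        match U, hlen with
        | s1 :: s2 :: s3 :: W, _ => exact ⟨s1, s2, s3, W, rfl⟩
      have hs := hsort
      rw [List.pairwise_cons, List.pairwise_cons, List.pairwise_cons] at hs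
      obtain ⟨i1, i2, i3, i4⟩ := hs
      have g1 : 4 ≤ s1 := hU s1 (by simp)
      have g12 : s1 ≤ s2 := i1 s2 (by simp)
      have g23 : s2 ≤ s3 := i2 s3 (by simp)
      have hW : ∀ a ∈ s3 :: W, s3 ≤ a := by
        intro a ha
        rcases List.mem_cons.1 ha with rfl | ha
        · exact le_rfl
        · exact i3 a ha
      simp only [List.length_cons] at hlen
      have hD7 : 7 * (s3 - 1) + (s1 - 1) + (s2 - 1) + 1 ≤ Δ := by
        have h1 := len_mul_le s3 (s3 :: W) hW
        have h2 : D (s1 :: s2 :: s3 :: W) = (s1 - 1) + ((s2 - 1) + D (s3 :: W)) := rfl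
        have h3 : 7 * (s3 - 1) ≤ (s3 :: W).length * (s3 - 1) :=
          Nat.mul_le_mul_right _ (by rw [List.length_cons]; omega)
        omega
      obtain ⟨z', hz', h4, base⟩ := base_triple (K := K) s1 s2 s3 Δ g1 g12 g23 hD7
      refine sel_core Δ (List.replicate n2 2 ++ List.replicate n3 3) [s1, s2, s3] W z' Y hz'
        hperm' hY hTp hsort
        (by rw [hδ.symm, D_perm hperm']; rfl) h47 (by
          have h9 : Y.prod = ((List.replicate n2 2 ++ List.replicate n3 3) ++
            ([s1, s2, s3] ++ W)).prod := hperm'.prod_eq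
          rw [← h9]; exact hP)
        (Or.inr ⟨s3, by omega, by omega, ?_, ?_, ?_⟩) h4 base
      · intro a ha
        simp only [List.mem_cons, List.not_mem_nil, or_false] at ha
        rcases ha with rfl | rfl | rfl <;> omega
      · intro a ha
        exact i3 a ha
      · simp only [List.prod_cons, List.prod_nil, mul_one]
        calc s1 * (s2 * s3) ≤ s3 * (s3 * s3) := Nat.mul_le_mul (g12.trans g23)
              (Nat.mul_le_mul_right _ g23)
          _ = s3 ^ 3 := by ring

end SelBAux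

theorem pSelB : S_SelB := by
  intro K _ _ Y hY hP
  exact SelBAux.sel_lists Y hY (D Y) rfl (le_trans (le_of_eq (by ring)) hP)

end Pool.Agent.Lib.MP_635d71_ag.Fr
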