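import Pool.Agent.Lib.MP_635d71_ag.Fr.Spec

set_option autoImplicit false

open Module Submodule

namespace Pool.Agent.Lib.MP_635d71_ag.Fr

namespace SgAux

theorem cancel {X a b u v : ℕ} (hu : u < X) (hv : v < X) (h : a * X + u = b * X + v) :
    a = b ∧ u = v := by
  have hX : 0 < X := by omega
  have h1 : (a * X + u) / X = a := by
    rw [Nat.add_comm, Nat.add_mul_div_right _ _ hX, Nat.div_eq_of_lt hu, Nat.zero_add]
  have h2 : (b * X + v) / X = b := by
    rw [Nat.add_comm, Nat.add_mul_div_right _ _ hX, Nat.div_eq_of_lt hv, Nat.zero_add]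
  have h3 : a = b := by rw [← h1, h, h2]
  subst h3
  exact ⟨rfl, by omega⟩

theorem mod_cancel {X u u' v : ℕ} (hu : u < X) (hu' : u' < X) (h : (u + v) % X = (u' + v) % X) :
    u = u' := by
  have h1 : u ≡ u' [MOD X] := Nat.ModEq.add_right_cancel' v h
  have h2 : u % X = u' % X := h1
  rwa [Nat.mod_eq_of_lt hu, Nat.mod_eq_of_lt hu'] at h2

theorem rec_eq {X B i j : ℕ} (h1 : i / B = j / B) (h2 : i % B / X = j % B / X)
    (h3 : i % B % X = j % B % X) : i = j := by
  have h4 : i % B = j % B := by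
    rw [← Nat.div_add_mod (i % B) X, ← Nat.div_add_mod (j % B) X, h2, h3]
  rw [← Nat.div_add_mod i B, ← Nat.div_add_mod j B, h1, h4]

end SgAux

open SgAux in
theorem pSg : S_Sg := by
  intro X B i j hB hBX
  have hX : 0 < X := by
    rcases Nat.eq_zero_or_pos X with h | h
    · subst h
      omega
    · exact h
  have hu : ∀ i : ℕ, i % B / X < X := fun i =>
    Nat.div_lt_of_lt_mul (lt_of_lt_of_le (Nat.mod_lt i hB) hBX)
  have hv : ∀ i : ℕ, i % B % X < X := fun i => Nat.mod_lt _ hX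
  have hw : ∀ i : ℕ, (i % B / X + i % B % X) % X < X := fun i => Nat.mod_lt _ hX
  constructor
  · intro d
    have h1 := hu i
    have h2 := hv i
    have h3 := hw i
    fin_cases d
    · exact ⟨Nat.le_add_right _ _, Nat.add_lt_add_left h1 _⟩
    · exact ⟨Nat.le_add_right _ _, Nat.add_lt_add_left h2 _⟩
    · exact ⟨Nat.le_add_right _ _, Nat.add_lt_add_left h3 _⟩
  · intro d h
    have g0 : (0 : Fin 3) ≠ d → i / B = j / B ∧ i % B / X = j % B / X := fun h0 =>
      cancel (hu i) (hu j) (h 0 h0)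
    have g1 : (1 : Fin 3) ≠ d → i / B = j / B ∧ i % B % X = j % B % X := fun h0 =>
      cancel (hv i) (hv j) (h 1 h0)
    have g2 : (2 : Fin 3) ≠ d → i / B = j / B ∧
        (i % B / X + i % B % X) % X = (j % B / X + j % B % X) % X := fun h0 =>
      cancel (hw i) (hw j) (h 2 h0)
    fin_cases d
    · obtain ⟨a1, a2⟩ := g1 (by decide)
      obtain ⟨_, b2⟩ := g2 (by decide)
      refine rec_eq a1 ?_ a2
      rw [a2] at b2
      exact mod_cancel (hu i) (hu j) b2
    · obtain ⟨a1, a2⟩ := g0 (by decide)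
      obtain ⟨_, b2⟩ := g2 (by decide)
      refine rec_eq a1 a2 ?_
      rw [a2, Nat.add_comm, Nat.add_comm (j % B / X)] at b2
      exact mod_cancel (hv i) (hv j) b2
    · obtain ⟨a1, a2⟩ := g0 (by decide)
      obtain ⟨_, b2⟩ := g1 (by decide)
      exact rec_eq a1 a2 b2

end Pool.Agent.Lib.MP_635d71_ag.Fr
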