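import Pool.Agent.Lib.MP_635d71_ag.Fr.Spec

/-!
# Free largest factor: Tg, the targets
-/

set_option autoImplicit false

open Module Submodule

namespace Pool.Agent.Lib.MP_635d71_ag.Fr

namespace TgAux

theorem mod_div {R c w : ℕ} (hw : w < R) : (c * R + w) % R = w ∧ (c * R + w) / R = c := by
  have hR : 0 < R := lt_of_le_of_lt (Nat.zero_le _) hw
  rw [add_comm, Nat.add_mul_mod_self_right, Nat.mod_eq_of_lt hw, Nat.add_mul_div_right _ _ hR,
    Nat.div_eq_of_lt hw, Nat.zero_add]
  exact ⟨rfl, rfl⟩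

theorem cancel {R r q q' : ℕ} (hq : q < R) (hq' : q' < R) (h : (r + q) % R = (r + q') % R) :
    q = q' := by
  have h1 : q ≡ q' [MOD R] := Nat.ModEq.add_left_cancel' r h
  have h2 : q % R = q' % R := h1
  rwa [Nat.mod_eq_of_lt hq, Nat.mod_eq_of_lt hq'] at h2

theorem sbm_lt {R : ℕ} (hR : 1 ≤ R) (u v : ℕ) : sbm R u v < R := Nat.mod_lt _ hR

theorem sbm_add {R v b : ℕ} (hR : 1 ≤ R) (hv : v < R) : (sbm R v b + b) % R = v := by
  have h1 : b % R < R := Nat.mod_lt _ hR
  have h2 : v + (R - b % R) + b = v + R * (b / R + 1) := by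
    have h3 := Nat.mod_add_div b R
    rw [mul_add, mul_one]
    omega
  rw [sbm, Nat.mod_add_mod, h2, Nat.add_mul_mod_self_left, Nat.mod_eq_of_lt hv]

end TgAux

theorem pTg : S_Tg := by
  intro A R hR
  refine ⟨fun a d => ?_, fun a a' ha ha' h => ?_, fun b v d hv => ?_⟩
  · have h1 : a % R < R := Nat.mod_lt _ hR
    have h2 : (a % R + a / R) % R < R := Nat.mod_lt _ hR
    fin_cases d
    · show A ≤ A + a % R ∧ A + a % R < A + R
      omega
    · show A ≤ A + a % R ∧ A + a % R < A + R
      omega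
    · show A ≤ A + (a % R + a / R) % R ∧ A + (a % R + a / R) % R < A + R
      omega
  · have h0 : A + a % R = A + a' % R := congrFun h 0
    have h2 : A + (a % R + a / R) % R = A + (a' % R + a' / R) % R := congrFun h 2
    have h3 : a % R = a' % R := Nat.add_left_cancel h0
    have h4 := Nat.add_left_cancel h2
    rw [h3] at h4
    have h5 := TgAux.cancel (Nat.div_lt_of_lt_mul ha) (Nat.div_lt_of_lt_mul ha') h4
    rw [← Nat.mod_add_div a R, ← Nat.mod_add_div a' R, h3, h5]
  · have key : ∀ (k w : ℕ), w < R → (b + k) * R ≤ (b + k) * R + w ∧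
        (b + k) * R + w < (b + k + 1) * R := by
      intro k w hw
      rw [add_mul (b + k) 1 R, one_mul]
      omega
    fin_cases d
    · refine ⟨?_, key 0 v hv⟩
      show A + ((b + 0) * R + v) % R = A + v
      rw [(TgAux.mod_div hv).1]
    · refine ⟨?_, key 1 v hv⟩
      show A + ((b + 1) * R + v) % R = A + v
      rw [(TgAux.mod_div hv).1]
    · have hw := TgAux.sbm_lt hR v (b + 2)
      refine ⟨?_, key 2 _ hw⟩
      show A + (((b + 2) * R + sbm R v (b + 2)) % R + ((b + 2) * R + sbm R v (b + 2)) / R) % R =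
        A + v
      rw [(TgAux.mod_div hw).1, (TgAux.mod_div hw).2, TgAux.sbm_add hR hv]

end Pool.Agent.Lib.MP_635d71_ag.Fr
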