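import Pool.Agent.Lib.MP_635d71_ag.Fr.Spec

/-!
# Free largest factor: the labels of the words in `TIW`
-/

set_option autoImplicit false

open Module Submodule

namespace Pool.Agent.Lib.MP_635d71_ag.Fr

namespace TiLAux

/-- The quotient is determined. -/
private theorem quo (X k y : ℕ) (h1 : k * X ≤ y) (h2 : y < k * X + X) : y / X = k :=
  Nat.div_eq_of_lt_le h1 (by rw [Nat.succ_mul]; exact h2)

private theorem pair (X p q p' q' : ℕ) (hq : q < X) (hq' : q' < X)
    (h : p * X + q = p' * X + q') : p = p' ∧ q = q' := by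
  have h1 : p = p' := by
    rw [← quo X p (p * X + q) (by omega) (by omega), h]
    exact quo X p' (p' * X + q') (by omega) (by omega)
  subst h1
  exact ⟨rfl, by omega⟩

private theorem sbm_cast (X u v : ℕ) (hX : 0 < X) :
    ((sbm X u v : ℕ) : ZMod X) = (u : ZMod X) - (v : ZMod X) := by
  have h1 : v % X ≤ X := (Nat.mod_lt v hX).le
  rw [sbm, ZMod.natCast_mod, Nat.cast_add, Nat.cast_sub h1, ZMod.natCast_self, ZMod.natCast_mod]
  ring

private theorem cast_inj' (X a b : ℕ) (ha : a < X) (hb : b < X)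
    (h : (a : ZMod X) = (b : ZMod X)) : a = b := by
  have h1 := (ZMod.natCast_eq_natCast_iff' a b X).1 h
  rwa [Nat.mod_eq_of_lt ha, Nat.mod_eq_of_lt hb] at h1

private theorem half (X : ℕ) (hX : X % 2 = 1) (t : ZMod X) (h : 2 * t = 0) : t = 0 := by
  have h1 : ((2 * ((X + 1) / 2) : ℕ) : ZMod X) = 1 := by
    have h2 : 2 * ((X + 1) / 2) = X + 1 := by omega
    rw [h2, Nat.cast_add, ZMod.natCast_self, Nat.cast_one, zero_add]
  rw [Nat.cast_mul] at h1
  have h3 : (((X + 1) / 2 : ℕ) : ZMod X) * (((2 : ℕ) : ZMod X) * t) = 0 := by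
    have h4 : ((2 : ℕ) : ZMod X) = 2 := by norm_num
    rw [h4, h, mul_zero]
  calc t = (((2 : ℕ) : ZMod X) * (((X + 1) / 2 : ℕ) : ZMod X)) * t := by rw [h1, one_mul]
    _ = (((X + 1) / 2 : ℕ) : ZMod X) * (((2 : ℕ) : ZMod X) * t) := by ring
    _ = 0 := h3

private theorem key (X : ℕ) (hX : X % 2 = 1) (s a a' : Fin 3 → ℕ) (hs : ∀ e, s e < X)
    (ha : ∀ e, a e < X) (ha' : ∀ e, a' e < X) (h0 : s 2 = (s 0 + s 1) % X) (d d' : Fin 3)
    (h1 : ∀ e, e ≠ d → a e = s e) (h2 : a d ≠ s d) (h1' : ∀ e, e ≠ d' → a' e = s e)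
    (h2' : a' d' ≠ s d') (h3 : sbm X (a 2) (a 0 + a 1) = sbm X (a' 2) (a' 0 + a' 1))
    (h4 : sbm X (a 0) (a 1) = sbm X (a' 0) (a' 1)) : ∀ e, a e = a' e := by
  have hX0 : 0 < X := by omega
  have c0 : (s 2 : ZMod X) = (s 0 : ZMod X) + (s 1 : ZMod X) := by
    rw [h0, ZMod.natCast_mod, Nat.cast_add]
  have c3 : (a 2 : ZMod X) - ((a 0 : ZMod X) + (a 1 : ZMod X)) =
      (a' 2 : ZMod X) - ((a' 0 : ZMod X) + (a' 1 : ZMod X)) := by
    rw [← Nat.cast_add, ← Nat.cast_add, ← sbm_cast X _ _ hX0, ← sbm_cast X _ _ hX0, h3]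
  have c4 : (a 0 : ZMod X) - (a 1 : ZMod X) = (a' 0 : ZMod X) - (a' 1 : ZMod X) := by
    rw [← sbm_cast X _ _ hX0, ← sbm_cast X _ _ hX0, h4]
  have i1 : ∀ e, (a e : ZMod X) = (s e : ZMod X) → a e = s e := fun e =>
    cast_inj' X _ _ (ha e) (hs e)
  have i2 : ∀ e, (a' e : ZMod X) = (s e : ZMod X) → a' e = s e := fun e =>
    cast_inj' X _ _ (ha' e) (hs e)
  have i3 : ∀ e, (a e : ZMod X) = (a' e : ZMod X) → a e = a' e := fun e =>
    cast_inj' X _ _ (ha e) (ha' e)
  fin_cases d <;> fin_cases d'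
  · have e1 := h1 1 (by decide)
    have e2 := h1 2 (by decide)
    have f1 := h1' 1 (by decide)
    have f2 := h1' 2 (by decide)
    rw [e1, e2, f1, f2] at c3
    have g0 := i3 0 (by linear_combination -c3)
    intro e
    fin_cases e
    · exact g0
    · exact e1.trans f1.symm
    · exact e2.trans f2.symm
  · have e1 := h1 1 (by decide)
    have e2 := h1 2 (by decide)
    have f1 := h1' 0 (by decide)
    have f2 := h1' 2 (by decide)
    rw [e1, e2, f1, f2] at c3
    rw [e1, f1] at c4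
    have g0 := half X hX ((a 0 : ZMod X) - (s 0 : ZMod X)) (by linear_combination c4 - c3)
    exact absurd (i1 0 (sub_eq_zero.1 g0)) h2
  · have e1 := h1 1 (by decide)
    have e2 := h1 2 (by decide)
    have f1 := h1' 0 (by decide)
    have f2 := h1' 1 (by decide)
    rw [e1, f1, f2] at c4
    exact absurd (i1 0 (by linear_combination c4)) h2
  · have e1 := h1 0 (by decide)
    have e2 := h1 2 (by decide)
    have f1 := h1' 1 (by decide)
    have f2 := h1' 2 (by decide)
    rw [e1, e2, f1, f2] at c3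
    rw [e1, f1] at c4
    have g0 := half X hX ((a 1 : ZMod X) - (s 1 : ZMod X)) (by linear_combination -c4 - c3)
    exact absurd (i1 1 (sub_eq_zero.1 g0)) h2
  · have e1 := h1 0 (by decide)
    have e2 := h1 2 (by decide)
    have f1 := h1' 0 (by decide)
    have f2 := h1' 2 (by decide)
    rw [e1, e2, f1, f2] at c3
    have g0 := i3 1 (by linear_combination -c3)
    intro e
    fin_cases e
    · exact e1.trans f1.symm
    · exact g0
    · exact e2.trans f2.symm
  · have e1 := h1 0 (by decide)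
    have e2 := h1 2 (by decide)
    have f1 := h1' 0 (by decide)
    have f2 := h1' 1 (by decide)
    rw [e1, f1, f2] at c4
    exact absurd (i1 1 (by linear_combination -c4)) h2
  · have e1 := h1 0 (by decide)
    have e2 := h1 1 (by decide)
    have f1 := h1' 1 (by decide)
    have f2 := h1' 2 (by decide)
    rw [e1, e2, f1] at c4
    exact absurd (i2 0 (by linear_combination -c4)) h2'
  · have e1 := h1 0 (by decide)
    have e2 := h1 1 (by decide)
    have f1 := h1' 0 (by decide)
    have f2 := h1' 2 (by decide)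
    rw [e1, e2, f1] at c4
    exact absurd (i2 1 (by linear_combination c4)) h2'
  · have e1 := h1 0 (by decide)
    have e2 := h1 1 (by decide)
    have f1 := h1' 0 (by decide)
    have f2 := h1' 1 (by decide)
    rw [e1, e2, f1, f2] at c3
    have g0 := i3 2 (by linear_combination c3)
    intro e
    fin_cases e
    · exact e1.trans f1.symm
    · exact e2.trans f2.symm
    · exact g0

/-- The index of the label. -/
def idx (X : ℕ) (y : Fin 3 → ℕ) : ℕ :=
  sbm X (y 2 % X) (y 0 % X + y 1 % X) * X + sbm X (y 0 % X) (y 1 % X)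

private theorem idx_lt (X : ℕ) (hX : 0 < X) (y : Fin 3 → ℕ) : idx X y < X * X := by
  have h1 : sbm X (y 2 % X) (y 0 % X + y 1 % X) + 1 ≤ X := Nat.mod_lt _ hX
  have h2 : sbm X (y 0 % X) (y 1 % X) < X := Nat.mod_lt _ hX
  have h3 := Nat.mul_le_mul_right X h1
  rw [Nat.add_mul, one_mul] at h3
  rw [idx]
  omega

end TiLAux

open TiLAux in
/-- The labels of the words in `TIW`. -/
theorem pTiL : S_Sg → S_TiL := by
  intro hSg s3 s1 s2 L c n B X R b0 h σ τ lam hC i g g' d d' hg hgd hgk hg' hgd' hgk'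
  have hX : 0 < X := by have := hC.Xodd; omega
  obtain ⟨hr, -⟩ := hSg X B i.val i.val hC.B1 hC.BX
  have hK : i.val / B + 1 ≤ 16 := by
    have h1 : i.val < 16 * B := lt_of_lt_of_le i.2 hC.nB
    have h2 : i.val / B < 16 := (Nat.div_lt_iff_lt_mul hC.B1).2 h1
    omega
  have hK' : i.val / B * X + X ≤ 16 * X := by
    have h1 := Nat.mul_le_mul_right X hK
    rw [Nat.add_mul, one_mul] at h1
    exact h1
  -- all letters are in the interval number `i / B`
  have hgen : ∀ (w : Grid [s3, s1, s2]) (d : Fin 3), (∀ e, e ≠ d → ltr w e = sgf X B i.val e) →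
      (∃ k, ∀ e, k * X ≤ ltr w e ∧ ltr w e < k * X + X) →
      ∀ e, i.val / B * X ≤ ltr w e ∧ ltr w e < i.val / B * X + X := by
    rintro w d hw ⟨k, hk⟩
    obtain ⟨e0, he0⟩ : ∃ e0 : Fin 3, e0 ≠ d := by
      fin_cases d
      · exact ⟨1, by decide⟩
      · exact ⟨0, by decide⟩
      · exact ⟨0, by decide⟩
    have h1 := quo X k _ (hk e0).1 (hk e0).2
    rw [hw e0 he0, quo X (i.val / B) _ (hr e0).1 (hr e0).2] at h1
    rw [h1]
    exact hk
  have hl := hgen g d hg hgk
  have hl' := hgen g' d' hg' hgk'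
  have hN : ∀ w : Grid [s3, s1, s2],
      (∀ e, i.val / B * X ≤ ltr w e ∧ ltr w e < i.val / B * X + X) →
      (lam w).val = h (i.val / B) (idx X (ltr w)) := by
    intro w hw
    have h1 : lamN X R b0 h (ltr w) = h (i.val / B) (idx X (ltr w)) := by
      have h2 : ∀ e, ¬ 16 * X ≤ ltr w e := fun e => by
        have := (hw e).2
        omega
      rw [lamN, if_neg (h2 0), if_neg (h2 1), if_neg (h2 2), quo X _ _ (hw 0).1 (hw 0).2]
      rfl
    rw [← h1]
    refine hC.hlam w ?_
    rw [h1]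
    exact hC.lab.hc i _ (idx_lt X hX _)
  refine ⟨hC.lab.hF i _ _ (idx_lt X hX _) (hN g hl), ?_, fun hlam => ?_⟩
  · rw [hN g hl]
    exact hC.lab.hb i _ (idx_lt X hX _)
  · have h1 : idx X (ltr g) = idx X (ltr g') := by
      refine hC.lab.hi i _ _ (idx_lt X hX _) (idx_lt X hX _) ?_
      rw [← hN g hl, ← hN g' hl', hlam]
    obtain ⟨h2, h3⟩ := pair X _ _ _ _ (Nat.mod_lt _ hX) (Nat.mod_lt _ hX) h1
    have hdec : ∀ y : ℕ, i.val / B * X ≤ y ∧ y < i.val / B * X + X →
        y = i.val / B * X + y % X := by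
      intro y hy
      have h4 := Nat.div_add_mod y X
      rw [quo X _ _ hy.1 hy.2, mul_comm] at h4
      exact h4.symm
    have hs2 : sgf X B i.val 2 % X = (sgf X B i.val 0 % X + sgf X B i.val 1 % X) % X := by
      have h4 : sgf X B i.val 2 =
        i.val / B * X + (i.val % B / X + i.val % B % X) % X := rfl
      have h5 : sgf X B i.val 0 = i.val / B * X + i.val % B / X := rfl
      have h6 : sgf X B i.val 1 = i.val / B * X + i.val % B % X := rfl
      rw [h4, h5, h6, Nat.mul_add_mod_self_right, Nat.mul_add_mod_self_right,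
        Nat.mul_add_mod_self_right, Nat.mod_mod, ← Nat.add_mod]
    have h4 := key X hC.Xodd (fun e => sgf X B i.val e % X) (fun e => ltr g e % X)
      (fun e => ltr g' e % X) (fun e => Nat.mod_lt _ hX) (fun e => Nat.mod_lt _ hX)
      (fun e => Nat.mod_lt _ hX) hs2 d d' (fun e he => by
        change ltr g e % X = sgf X B i.val e % X
        rw [hg e he]) (fun h5 => hgd (by
          have h6 : ltr g d % X = sgf X B i.val d % X := h5
          rw [hdec _ (hl d), h6, ← hdec _ (hr d)])) (fun e he => by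
        change ltr g' e % X = sgf X B i.val e % X
        rw [hg' e he]) (fun h5 => hgd' (by
          have h6 : ltr g' d' % X = sgf X B i.val d' % X := h5
          rw [hdec _ (hl' d'), h6, ← hdec _ (hr d')])) h2 h3
    intro e
    have h5 : ltr g e % X = ltr g' e % X := h4 e
    rw [hdec _ (hl e), h5, ← hdec _ (hl' e)]

end Pool.Agent.Lib.MP_635d71_ag.Fr
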