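import Pool.Agent.Lib.MP_635d71_ag.Fr.Spec

/-!
# Free largest factor, module Two
-/

set_option autoImplicit false

open Module Submodule

namespace Pool.Agent.Lib.MP_635d71_ag.Fr

namespace TwoAux

lemma card_lt (r n : ℕ) (h : n ≤ r) :
    (Finset.univ.filter fun a : Fin r => a.val < n).card = n := by
  have h1 : (Finset.univ.filter fun a : Fin r => a.val < n).map Fin.valEmbedding
      = Finset.range n := by
    ext t
    simp only [Finset.mem_map, Finset.mem_filter, Finset.mem_univ, true_and,
      Fin.valEmbedding_apply, Finset.mem_range]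
    constructor
    · rintro ⟨a, ha, rfl⟩
      exact ha
    · intro ht
      exact ⟨⟨t, lt_of_lt_of_le ht h⟩, ht, rfl⟩
  rw [← Finset.card_map Fin.valEmbedding, h1, Finset.card_range]

lemma card_mid (r n n' : ℕ) (h : n + n' ≤ r) :
    (Finset.univ.filter fun a : Fin r => n ≤ a.val ∧ a.val < n + n').card = n' := by
  have h1 : (Finset.univ.filter fun a : Fin r => n ≤ a.val ∧ a.val < n + n').map
      Fin.valEmbedding = Finset.Ico n (n + n') := by
    ext t
    simp only [Finset.mem_map, Finset.mem_filter, Finset.mem_univ, true_and,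
      Fin.valEmbedding_apply, Finset.mem_Ico]
    constructor
    · rintro ⟨a, ha, rfl⟩
      exact ha
    · intro ht
      exact ⟨⟨t, lt_of_lt_of_le ht.2 h⟩, ht, rfl⟩
  rw [← Finset.card_map Fin.valEmbedding, h1, Nat.card_Ico, Nat.add_sub_cancel_left]

end TwoAux

theorem pTwo : S_Perm → S_TwoA → S_TwoB → S_Two := by
  intro hP hA hB K _ _ s s' l n n' r m m' hn h1 h2
  have c1 := TwoAux.card_lt r n (le_trans (Nat.le_add_right n n') hn)
  have c2 := TwoAux.card_mid r n n' hn
  obtain ⟨x, z, hx⟩ := hP K s l n r m h1 _ c1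
  obtain ⟨x', z', hx'⟩ := hP K s' l n' r m' h2 _ c2
  obtain ⟨y, hy, hy'⟩ := hA K s s' l r m m' _ _ x x' z z' hx hx'
  have hd : Disjoint (Finset.univ.filter fun a : Fin r => a.val < n)
      (Finset.univ.filter fun a : Fin r => n ≤ a.val ∧ a.val < n + n') := by
    rw [Finset.disjoint_left]
    intro a ha ha'
    simp only [Finset.mem_filter, Finset.mem_univ, true_and] at ha ha'
    omega
  obtain ⟨w, hw⟩ := hB K s s' l r _ _ y z z' hd
  refine ⟨_, y, w, ?_, le_trans (Nat.add_le_add hy hy') hw⟩
  rw [Finset.card_union_of_disjoint hd, c1, c2]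

end Pool.Agent.Lib.MP_635d71_ag.Fr
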