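import Pool.Agent.Lib.MP_635d71_ag.Fr.Spec

/-!
# Free largest factor: a common choice of the points for two formats
-/

set_option autoImplicit false

open Module Submodule

namespace Pool.Agent.Lib.MP_635d71_ag.Fr

namespace TwoAAux

variable {K : Type} [Field K]

/-- The spanning family of `Tot`. -/
def vec (s : ℕ) (l : List ℕ) {r : ℕ} (A : Finset (Fin r)) (z : Fin r → Fin s → K) :
    (Fin r × Fin s) ⊕ (A × TI l) → (Fin r → Coord l → K) → Grid (s :: l) → K
  | Sum.inl p => fun x => ten (Pi.single p.2 1) (E l (x p.1))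
  | Sum.inr p => fun x => ten (z p.1) (TVec l (x p.1) p.2)

lemma fib_eq (s : ℕ) (l : List ℕ) (x : Coord l → K) :
    fib s l x = span K (Set.range fun j : Fin s => ten (Pi.single j (1 : K)) (E l x)) := by
  apply le_antisymm
  · rintro _ ⟨u, rfl⟩
    have h : u = ∑ j, u j • (Pi.single j (1 : K) : Fin s → K) := by
      funext i
      rw [Finset.sum_apply, Finset.sum_eq_single i]
      · simp
      · intro j _ hj
        simp [Pi.single_eq_of_ne' hj]
      · intro hi
        exact absurd (Finset.mem_univ i) hi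
    rw [h, map_sum]
    refine Submodule.sum_mem _ fun j _ => ?_
    rw [map_smul]
    exact Submodule.smul_mem _ _ (subset_span ⟨j, rfl⟩)
  · rw [span_le]
    rintro _ ⟨j, rfl⟩
    exact ⟨Pi.single j 1, rfl⟩

lemma Tot_eq (s : ℕ) (l : List ℕ) {r : ℕ} (A : Finset (Fin r)) (x : Fin r → Coord l → K)
    (z : Fin r → Fin s → K) :
    Tot s l A x z = ⊥ ⊔ span K (Set.range fun i => vec s l A z i x) := by
  rw [bot_sup_eq]
  apply le_antisymm
  · refine sup_le (iSup_le fun a => ?_) (iSup_le fun a => iSup_le fun ha => ?_)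
    · rw [fib_eq, span_le]
      rintro _ ⟨j, rfl⟩
      exact subset_span ⟨Sum.inl (a, j), rfl⟩
    · rw [zT, T, Submodule.map_span, span_le]
      rintro _ ⟨_, ⟨i, rfl⟩, rfl⟩
      exact subset_span ⟨Sum.inr (⟨a, ha⟩, i), rfl⟩
  · rw [span_le]
    rintro _ ⟨i, rfl⟩
    rcases i with ⟨a, j⟩ | ⟨⟨a, ha⟩, i⟩
    · refine mem_sup_left ((le_iSup (fun a => fib s l (x a)) a) ?_)
      exact ⟨Pi.single j 1, rfl⟩
    · refine mem_sup_right ((le_iSup₂ (f := fun a (_ : a ∈ A) => zT l (z a) (x a)) a ha) ?_)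
      exact ⟨TVec l (x a) i, subset_span ⟨i, rfl⟩, rfl⟩

lemma linePoly_vec (s : ℕ) (l : List ℕ) {r : ℕ} (A : Finset (Fin r)) (z : Fin r → Fin s → K)
    (i : (Fin r × Fin s) ⊕ (A × TI l)) : LinePoly K (vec s l A z i) := by
  intro x0 x1 c
  rcases i with ⟨a, j⟩ | ⟨⟨a, ha⟩, i⟩
  · obtain ⟨p, hp⟩ := linePoly_E l (LinearMap.proj a :
      (Fin r → Coord l → K) →ₗ[K] (Coord l → K)) x0 x1 c.2
    refine ⟨Polynomial.C ((Pi.single j 1 : Fin s → K) c.1) * p, fun t => ?_⟩
    rw [Polynomial.eval_mul, Polynomial.eval_C, ← hp]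
    rfl
  · obtain ⟨p, hp⟩ := linePoly_TVec l (LinearMap.proj a :
      (Fin r → Coord l → K) →ₗ[K] (Coord l → K)) i x0 x1 c.2
    refine ⟨Polynomial.C (z a c.1) * p, fun t => ?_⟩
    rw [Polynomial.eval_mul, Polynomial.eval_C, ← hp]
    rfl

/-- The condition on the points is big. -/
lemma big_Tot (s : ℕ) (l : List ℕ) {r : ℕ} (A : Finset (Fin r)) (z : Fin r → Fin s → K) (m : ℕ) :
    Big K {x : Fin r → Coord l → K | m ≤ finrank K (Tot s l A x z)} := by
  have h := big_rank (K := K) (⊥ : Submodule K (Grid (s :: l) → K)) (vec s l A z)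
    (linePoly_vec s l A z) m
  have e : {x : Fin r → Coord l → K | m ≤ finrank K (Tot s l A x z)} =
      {x | m ≤ finrank K ↥((⊥ : Submodule K (Grid (s :: l) → K)) ⊔
        span K (Set.range fun i => vec s l A z i x))} := by
    ext x
    rw [Set.mem_ofPred_eq, Set.mem_ofPred_eq, Tot_eq]
  rw [e]
  exact h

end TwoAAux

theorem pTwoA : S_TwoA := by
  intro K _ _ s s' l r m m' A A' x x' z z' h h'
  obtain ⟨y, hy, hy'⟩ := Big.inter_nonempty (TwoAAux.big_Tot s l A z m)
    (TwoAAux.big_Tot s' l A' z' m') ⟨x, h⟩ ⟨x', h'⟩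
  exact ⟨y, hy, hy'⟩

end Pool.Agent.Lib.MP_635d71_ag.Fr
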