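import Pool.Agent.Lib.MP_635d71_ag.Fr.Spec

/-!
# Free largest factor, module TwoB (helper66)
-/

set_option autoImplicit false

open Module Submodule

namespace Pool.Agent.Lib.MP_635d71_ag.Fr

namespace TwoBAux

variable {K : Type} [Field K] {s s' : ℕ} {l : List ℕ}

/-- extension by zero, first part -/
def IL (s s' : ℕ) (l : List ℕ) : (Grid (s :: l) → K) →ₗ[K] (Grid ((s + s') :: l) → K) where
  toFun f p := Fin.addCases (motive := fun _ => K) (fun i => f (i, p.2)) (fun _ => 0) p.1
  map_add' f f' := by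
    funext p
    obtain ⟨j, g⟩ := p
    refine Fin.addCases (fun i => ?_) (fun i => ?_) j
    · simp
    · simp
  map_smul' c f := by
    funext p
    obtain ⟨j, g⟩ := p
    refine Fin.addCases (fun i => ?_) (fun i => ?_) j
    · simp
    · simp

/-- extension by zero, second part -/
def IR (s s' : ℕ) (l : List ℕ) : (Grid (s' :: l) → K) →ₗ[K] (Grid ((s + s') :: l) → K) where
  toFun f p := Fin.addCases (motive := fun _ => K) (fun _ => 0) (fun i => f (i, p.2)) p.1
  map_add' f f' := by
    funext p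
    obtain ⟨j, g⟩ := p
    refine Fin.addCases (fun i => ?_) (fun i => ?_) j
    · simp
    · simp
  map_smul' c f := by
    funext p
    obtain ⟨j, g⟩ := p
    refine Fin.addCases (fun i => ?_) (fun i => ?_) j
    · simp
    · simp

theorem IL_left (f : Grid (s :: l) → K) (i : Fin s) (g : Grid l) :
    IL s s' l f (Fin.castAdd s' i, g) = f (i, g) := by
  show Fin.addCases (motive := fun _ => K) (fun i => f (i, g)) (fun _ => 0) (Fin.castAdd s' i) = _
  rw [Fin.addCases_left]

theorem IL_right (f : Grid (s :: l) → K) (i : Fin s') (g : Grid l) :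
    IL s s' l f (Fin.natAdd s i, g) = 0 := by
  show Fin.addCases (motive := fun _ => K) (fun i => f (i, g)) (fun _ => 0) (Fin.natAdd s i) = _
  rw [Fin.addCases_right]

theorem IR_left (f : Grid (s' :: l) → K) (i : Fin s) (g : Grid l) :
    IR s s' l f (Fin.castAdd s' i, g) = 0 := by
  show Fin.addCases (motive := fun _ => K) (fun _ => 0) (fun i => f (i, g)) (Fin.castAdd s' i) = _
  rw [Fin.addCases_left]

theorem IR_right (f : Grid (s' :: l) → K) (i : Fin s') (g : Grid l) :
    IR s s' l f (Fin.natAdd s i, g) = f (i, g) := by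
  show Fin.addCases (motive := fun _ => K) (fun _ => 0) (fun i => f (i, g)) (Fin.natAdd s i) = _
  rw [Fin.addCases_right]

theorem IL_inj : Function.Injective (IL s s' l : (Grid (s :: l) → K) →ₗ[K] _) := by
  intro f f' h
  funext p
  obtain ⟨i, g⟩ := p
  have h1 := congrFun h (Fin.castAdd s' i, g)
  rwa [IL_left, IL_left] at h1

theorem IR_inj : Function.Injective (IR s s' l : (Grid (s' :: l) → K) →ₗ[K] _) := by
  intro f f' h
  funext p
  obtain ⟨i, g⟩ := p
  have h1 := congrFun h (Fin.natAdd s i, g)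
  rwa [IR_right, IR_right] at h1

theorem IL_ten (u : Fin s → K) (f : Grid l → K) :
    IL s s' l (ten u f) = ten (Fin.append u (0 : Fin s' → K)) f := by
  funext p
  obtain ⟨j, g⟩ := p
  refine Fin.addCases (fun i => ?_) (fun i => ?_) j
  · rw [IL_left, ten_apply, ten_apply, Fin.append_left]
  · rw [IL_right, ten_apply, Fin.append_right, Pi.zero_apply, zero_mul]

theorem IR_ten (u : Fin s' → K) (f : Grid l → K) :
    IR s s' l (ten u f) = ten (Fin.append (0 : Fin s → K) u) f := by
  funext p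
  obtain ⟨j, g⟩ := p
  refine Fin.addCases (fun i => ?_) (fun i => ?_) j
  · rw [IR_left, ten_apply, Fin.append_left, Pi.zero_apply, zero_mul]
  · rw [IR_right, ten_apply, ten_apply, Fin.append_right]

theorem fib_le {q r : ℕ} (A : Finset (Fin r)) (x : Fin r → Coord l → K) (z : Fin r → Fin q → K)
    (a : Fin r) (u : Fin q → K) : ten u (E l (x a)) ∈ Tot q l A x z := by
  unfold Tot
  refine mem_sup_left (mem_iSup_of_mem a ?_)
  exact ⟨u, rfl⟩

theorem zT_le {q r : ℕ} (A : Finset (Fin r)) (x : Fin r → Coord l → K) (z : Fin r → Fin q → K)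
    (a : Fin r) (ha : a ∈ A) (f : Grid l → K) (hf : f ∈ T l (x a)) :
    ten (z a) f ∈ Tot q l A x z := by
  unfold Tot
  refine mem_sup_right (mem_iSup_of_mem a (mem_iSup_of_mem ha ?_))
  exact ⟨f, hf, rfl⟩

theorem Tot_le {q r : ℕ} (A : Finset (Fin r)) (x : Fin r → Coord l → K) (z : Fin r → Fin q → K)
    (S : Submodule K (Grid (q :: l) → K)) (h1 : ∀ a u, ten u (E l (x a)) ∈ S)
    (h2 : ∀ a ∈ A, ∀ f ∈ T l (x a), ten (z a) f ∈ S) : Tot q l A x z ≤ S := by
  unfold Tot
  refine sup_le (iSup_le fun a => ?_) (iSup₂_le fun a ha => ?_)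
  · rintro _ ⟨u, rfl⟩
    exact h1 a u
  · rintro _ ⟨f, hf, rfl⟩
    exact h2 a ha f hf

end TwoBAux

open TwoBAux in
theorem pTwoB : S_TwoB := by
  classical
  intro K _ s s' l r A A' x z z' hdis
  obtain ⟨w, hw1, hw2⟩ : ∃ w : Fin r → Fin (s + s') → K,
      (∀ a ∈ A, w a = Fin.append (z a) 0) ∧ ∀ a ∈ A', w a = Fin.append 0 (z' a) :=
    ⟨fun a => if a ∈ A then Fin.append (z a) 0 else Fin.append 0 (z' a), fun a ha => if_pos ha,
      fun a ha => if_neg fun h => Finset.disjoint_left.1 hdis h ha⟩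
  refine ⟨w, ?_⟩
  have h1 : (Tot s l A x z).map (IL s s' l) ≤ Tot (s + s') l (A ∪ A') x w := by
    rw [map_le_iff_le_comap]
    refine Tot_le A x z _ (fun a u => ?_) (fun a ha f hf => ?_)
    · rw [mem_comap, IL_ten]
      exact fib_le _ x w a _
    · rw [mem_comap, IL_ten, ← hw1 a ha]
      exact zT_le _ x w a (Finset.mem_union_left _ ha) f hf
  have h2 : (Tot s' l A' x z').map (IR s s' l) ≤ Tot (s + s') l (A ∪ A') x w := by
    rw [map_le_iff_le_comap]
    refine Tot_le A' x z' _ (fun a u => ?_) (fun a ha f hf => ?_)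
    · rw [mem_comap, IR_ten]
      exact fib_le _ x w a _
    · rw [mem_comap, IR_ten, ← hw2 a ha]
      exact zT_le _ x w a (Finset.mem_union_right _ ha) f hf
  have h3 : (Tot s l A x z).map (IL s s' l) ⊓ (Tot s' l A' x z').map (IR s s' l) = ⊥ := by
    rw [eq_bot_iff]
    rintro f ⟨⟨f1, -, h4⟩, ⟨f2, -, h5⟩⟩
    rw [mem_bot]
    funext p
    obtain ⟨j, g⟩ := p
    refine Fin.addCases (fun i => ?_) (fun i => ?_) j
    · rw [← h5, IR_left]
      rfl
    · rw [← h4, IL_right]
      rfl
  have h4 := Submodule.finrank_sup_add_finrank_inf_eq ((Tot s l A x z).map (IL s s' l))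
    ((Tot s' l A' x z').map (IR s s' l))
  rw [h3, finrank_bot, Nat.add_zero] at h4
  have h5 := (Submodule.equivMapOfInjective (IL s s' l) IL_inj (Tot s l A x z)).finrank_eq
  have h6 := (Submodule.equivMapOfInjective (IR s s' l) IR_inj (Tot s' l A' x z')).finrank_eq
  rw [h5, h6, ← h4]
  exact Submodule.finrank_mono (sup_le h1 h2)

end Pool.Agent.Lib.MP_635d71_ag.Fr
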