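import Pool.Agent.Lib.MP_635d71_ag.Fr.Spec

/-!
# Free largest factor: the unbalanced range, `r ≤ q`
-/

set_option autoImplicit false

open Module Submodule

namespace Pool.Agent.Lib.MP_635d71_ag.Fr

namespace Un1Aux

variable {K : Type} [Field K]

theorem good_zero' (l : List ℕ) : Good K l 0 ∅ :=
  ⟨fun _ _ => 0, by rw [Finset.card_empty, Nat.zero_mul]; exact Nat.zero_le _⟩

theorem good_one (l : List ℕ) (g : Grid l) : Good K l 1 ∅ := by
  refine ⟨fun _ => cpt l g, ?_⟩
  have h1 : (⨆ _ : Fin 1, T l (cpt l g : Coord l → K)) = coordSub K (Ball l g) := by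
    rw [iSup_const, T_cpt]
  rw [h1, Finset.card_empty, Nat.one_mul, Nat.zero_add, ← card_Ball l g,
    ← finrank_coordSub (K := K) (Ball l g)]
  exact Submodule.finrank_mono le_sup_right

/-- The number of points. -/
def bb (q r : ℕ) : Fin q → ℕ := fun j => if j.val < r then 1 else 0

theorem sum_bb (q r : ℕ) (h : r ≤ q) : ∑ j, bb q r j = r := by
  have h1 : ∑ j, bb q r j = (Finset.univ.filter fun j : Fin q => j.val < r).card := by
    rw [Finset.card_filter]
    rfl
  rw [h1, Fin.card_filter_val_lt, min_eq_right h]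

theorem step [Infinite K] (l : List ℕ) (q r : ℕ) (hrq : r ≤ q) (hr : r ≤ l.prod)
    (g0 : Grid l) :
    Reach K (q :: l) (∑ j, bb q r j) (r * min l.prod (r + (D l - 1)) + (q - r) * r) := by
  classical
  have hG : ∀ j, Good K l (bb q r j) ∅ := by
    intro j
    by_cases hj : j.val < r
    · rw [bb, if_pos hj]
      exact good_one l g0
    · rw [bb, if_neg hj]
      exact good_zero' l
  obtain ⟨z, hz⟩ := slices l (bb q r) (fun _ => (∅ : Finset (Grid l))) (fun _ => (⊥ : Submodule K _))
    (fun _ => bot_le) hG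
  let x : (Σ j, Fin (bb q r j)) → Coord (q :: l) → K := fun i => cons (Pi.single i.1 1) (z i)
  refine ⟨fun a => x (finSigmaFinEquiv.symm a), ?_⟩
  have hS : (⨆ a, T (q :: l) (x (finSigmaFinEquiv.symm a))) = ⨆ i, T (q :: l) (x i) :=
    (finSigmaFinEquiv (n := bb q r)).symm.iSup_comp (g := fun i => T (q :: l) (x i))
  rw [hS]
  have h1 := sum_finrank_le (K := K) (G := Grid l) (⨆ i, T (q :: l) (x i))
    (fun j => (⊥ : Submodule K (Grid l → K)) ⊔ (⨆ a, T l (z ⟨j, a⟩)) ⊔
          span K {f | ∃ i : Σ j, Fin (bb q r j), i.1 ≠ j ∧ f = E l (z i)}) (by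
      intro j g hg
      refine ⟨ten (Pi.single j 1) g, ?_, ?_, ?_⟩
      · have h2 : ((⊥ : Submodule K (Grid l → K)) ⊔ (⨆ a, T l (z ⟨j, a⟩)) ⊔
          span K {f | ∃ i : Σ j, Fin (bb q r j), i.1 ≠ j ∧ f = E l (z i)}).map
            (tenL (Pi.single j 1) l) ≤ ⨆ i, T (q :: l) (x i) := by
          rw [Submodule.map_sup, Submodule.map_sup, Submodule.map_iSup, Submodule.map_bot]
          refine sup_le (sup_le bot_le (iSup_le fun a => ?_)) ?_
          · refine le_trans ?_ (le_iSup (fun i => T (q :: l) (x i)) ⟨j, a⟩)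
            rintro _ ⟨f, hf, rfl⟩
            exact ten_mem_T (x ⟨j, a⟩) hf
          · rw [Submodule.map_span_le]
            rintro _ ⟨i, hi, rfl⟩
            refine (le_iSup (fun i => T (q :: l) (x i)) i) ?_
            exact ten_E_mem_T (x i) (Pi.single j 1)
        exact h2 ⟨g, hg, rfl⟩
      · intro j' hj' c
        change (Pi.single j (1 : K) : Fin q → K) j' * g c = 0
        rw [Pi.single_eq_of_ne hj'.ne, zero_mul]
      · intro c
        change (Pi.single j (1 : K) : Fin q → K) j * g c = g c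
        rw [Pi.single_eq_same, one_mul])
  refine le_trans ?_ h1
  have hD := one_le_D l
  have h3 : ∀ j, (if j.val < r then min l.prod (r + (D l - 1)) else r) ≤
      finrank K ↥((⊥ : Submodule K (Grid l → K)) ⊔ (⨆ a, T l (z ⟨j, a⟩)) ⊔
          span K {f | ∃ i : Σ j, Fin (bb q r j), i.1 ≠ j ∧ f = E l (z i)}) := by
    intro j
    refine le_trans ?_ (hz j)
    have h4 : bb q r j + ∑ j' ∈ Finset.univ.erase j, bb q r j' = r := by
      rw [Finset.add_sum_erase Finset.univ (bb q r) (Finset.mem_univ j), sum_bb q r hrq]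
    rw [finrank_bot]
    by_cases hj : j.val < r
    · have h5 : bb q r j = 1 := by rw [bb, if_pos hj]
      rw [if_pos hj, h5, Nat.one_mul]
      rw [h5] at h4
      refine min_le_min le_rfl ?_
      omega
    · have h5 : bb q r j = 0 := by rw [bb, if_neg hj]
      rw [if_neg hj, h5, Nat.zero_mul]
      rw [h5] at h4
      refine le_min hr ?_
      omega
  refine le_trans ?_ (Finset.sum_le_sum fun j _ => h3 j)
  rw [Finset.sum_ite, Finset.sum_const, Finset.sum_const, smul_eq_mul, smul_eq_mul]
  have h6 : (Finset.univ.filter fun j : Fin q => j.val < r).card = r := by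
    rw [Fin.card_filter_val_lt, min_eq_right hrq]
  have h7 : (Finset.univ.filter fun j : Fin q => ¬ j.val < r).card = q - r := by
    have h8 := Finset.card_filter_add_card_filter_not (s := (Finset.univ : Finset (Fin q)))
      (fun j : Fin q => j.val < r)
    rw [h6, Finset.card_univ, Fintype.card_fin] at h8
    omega
  rw [h6, h7]

end Un1Aux

open Un1Aux

theorem pUn1 : S_Un1 := by
  intro K _ _ l q r hrq hr hP
  have hne : Nonempty (Grid l) := by
    rw [← Fintype.card_pos_iff, card_grid]
    exact hP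
  obtain ⟨g0⟩ := hne
  have h := step (K := K) l q r hrq hr g0
  rw [sum_bb q r hrq] at h
  exact h

end Pool.Agent.Lib.MP_635d71_ag.Fr
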