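import Pool.Agent.Lib.MP_635d71_ag.Fr.Spec
import Pool.Agent.Lib.MP_635d71_ag.Point
import Pool.Agent.Lib.MP_635d71_ag.Filt

set_option autoImplicit false

open Module Submodule

namespace Pool.Agent.Lib.MP_635d71_ag.Fr

namespace Un2Aux

variable {K : Type} [Field K]

theorem good_one (l : List ℕ) (g : Grid l) : Good K l 1 ∅ := by
  refine ⟨fun _ => cpt l g, ?_⟩
  have h1 : finrank K (T l (cpt l g : Coord l → K)) = D l := by
    rw [T_cpt, finrank_coordSub, card_Ball]
  have h2 : T l (cpt l g : Coord l → K) ≤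
      coordSub K (∅ : Finset (Grid l)) ⊔ ⨆ _ : Fin 1, T l (cpt l g : Coord l → K) :=
    le_sup_of_le_right (le_iSup (fun _ : Fin 1 => T l (cpt l g : Coord l → K)) 0)
  have h3 := Submodule.finrank_mono h2
  rw [h1] at h3
  rw [Finset.card_empty, zero_add, one_mul]
  exact h3

/-- slices -/
theorem top_of_slices {q : ℕ} (l : List ℕ) (S : Submodule K (Grid (q :: l) → K))
    (h : ∀ j : Fin q, (⊤ : Submodule K (Grid l → K)) ≤ S.comap (tenL (Pi.single j 1) l)) :
    S = ⊤ := by
  rw [eq_top_iff]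
  intro f _
  have h1 : f = ∑ j : Fin q, ten (Pi.single j (1 : K)) (fun g => f (j, g)) := by
    ext ⟨j, g⟩
    rw [Finset.sum_apply, Finset.sum_eq_single j]
    · simp
    · intro b _ hb
      simp [Pi.single_eq_of_ne (Ne.symm hb)]
    · intro hj
      exact absurd (Finset.mem_univ _) hj
  rw [h1]
  exact Submodule.sum_mem _ fun j _ => h j (Submodule.mem_top (x := fun g => f (j, g)))

end Un2Aux

theorem pUn2 : S_SlF → S_Un2 := by
  intro hSlF K _ _ l q r hq hqr hP
  by_cases h0 : l.prod = 0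
  · exact ⟨fun _ _ => 0, by rw [h0, mul_zero]; exact Nat.zero_le _⟩
  have hg : Nonempty (Grid l) := by
    rw [← Fintype.card_pos_iff, card_grid]
    omega
  obtain ⟨g⟩ := hg
  have hD := one_le_D l
  obtain ⟨x, w, hxw⟩ := hSlF K l ∅ q 1 (r - q) (Un2Aux.good_one l g) (by
    rw [Finset.card_empty]
    omega)
  -- the tuples
  obtain ⟨y, hy1, hy2⟩ : ∃ y : Fin r → Coord (q :: l) → K,
      (∀ j : Fin q, ∃ a, y a = cons (Pi.single j 1) (x j 0)) ∧
      ∀ i : Fin (r - q), ∃ a, tl (y a) = w i := by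
    refine ⟨fun a => if h : a.val < q then cons (Pi.single ⟨a.val, h⟩ 1) (x ⟨a.val, h⟩ 0)
      else cons 0 (w ⟨a.val - q, by omega⟩), fun j => ?_, fun i => ?_⟩
    · exact ⟨⟨j.val, by omega⟩, dif_pos j.isLt⟩
    · refine ⟨⟨q + i.val, by omega⟩, ?_⟩
      have h1 : ¬ q + i.val < q := by omega
      have h2 : (if h : q + i.val < q then cons (Pi.single ⟨q + i.val, h⟩ 1) (x ⟨q + i.val, h⟩ 0)
          else cons 0 (w ⟨q + i.val - q, by omega⟩) : Coord (q :: l) → K) =
          cons 0 (w ⟨q + i.val - q, by omega⟩) := dif_neg h1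
      change tl (if h : q + i.val < q then cons (Pi.single ⟨q + i.val, h⟩ 1) (x ⟨q + i.val, h⟩ 0)
          else cons 0 (w ⟨q + i.val - q, by omega⟩) : Coord (q :: l) → K) = w i
      rw [h2]
      change w ⟨q + i.val - q, _⟩ = w i
      congr 1
      ext
      exact Nat.add_sub_cancel_left ..
  refine ⟨y, ?_⟩
  have htop : (⨆ a, T (q :: l) (y a) : Submodule K (Grid (q :: l) → K)) = ⊤ := by
    refine Un2Aux.top_of_slices l _ fun j => ?_
    rw [← hxw j]
    refine sup_le (sup_le (sup_le ?_ ?_) ?_) ?_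
    · intro f hf
      have hf0 : f = 0 := by
        ext g
        exact hf g (Finset.notMem_empty g)
      rw [hf0]
      exact Submodule.zero_mem _
    · refine iSup_le fun b => ?_
      intro f hf
      obtain ⟨a, ha⟩ := hy1 j
      have hb : b = 0 := Subsingleton.elim _ _
      subst hb
      have h1 : ten (hd (y a)) f ∈ T (q :: l) (y a) := by
        refine ten_mem_T (y a) ?_
        rw [ha]
        exact hf
      rw [ha] at h1
      have h2 := mem_iSup_of_mem (p := fun a => T (q :: l) (y a)) a (by rw [ha]; exact h1)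
      exact h2
    · rw [span_le]
      rintro f ⟨j', b, -, rfl⟩
      obtain ⟨a, ha⟩ := hy1 j'
      have hb : b = 0 := Subsingleton.elim _ _
      subst hb
      have h1 := ten_E_mem_T (y a) (Pi.single j 1 : Fin q → K)
      have h2 := mem_iSup_of_mem (p := fun a => T (q :: l) (y a)) a h1
      rw [ha] at h2
      exact h2
    · rw [span_le]
      rintro f ⟨i, rfl⟩
      obtain ⟨a, ha⟩ := hy2 i
      have h1 := ten_E_mem_T (y a) (Pi.single j 1 : Fin q → K)
      have h2 := mem_iSup_of_mem (p := fun a => T (q :: l) (y a)) a h1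
      rw [ha] at h2
      exact h2
  rw [htop, finrank_top, finrank_fintype_fun_eq_card, card_grid, List.prod_cons]

end Pool.Agent.Lib.MP_635d71_ag.Fr
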