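import Pool.Agent.Lib.MP_635d71_ag.Fr.Spec

/-!
# Un3: all words, the fibres span everything
-/

set_option autoImplicit false

open Module Submodule

namespace Pool.Agent.Lib.MP_635d71_ag.Fr

namespace Un3Aux

/-- If every basis vector is in a submodule, it is everything. -/
theorem eq_top_of_single {K : Type} [Field K] {G : Type} [Fintype G] [DecidableEq G]
    (S : Submodule K (G → K)) (h : ∀ g : G, (Pi.single g (1 : K) : G → K) ∈ S) : S = ⊤ := by
  rw [eq_top_iff]
  intro f _
  rw [pi_eq_sum_univ' f]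
  exact Submodule.sum_mem _ fun g _ => Submodule.smul_mem _ _ (h g)

end Un3Aux

theorem pUn3 : S_Un3 := by
  intro K _ l q r hr
  let e : Fin l.prod ≃ Grid l := (Fintype.equivFinOfCardEq (card_grid l)).symm
  refine ⟨fun a => if h : a.val < l.prod then cons 0 (cpt l (e ⟨a.val, h⟩)) else 0, ?_⟩
  have top : (⨆ a : Fin r, T (q :: l) ((fun a : Fin r => if h : a.val < l.prod then
      cons 0 (cpt l (e ⟨a.val, h⟩)) else 0) a : Coord (q :: l) → K) :
      Submodule K (Grid (q :: l) → K)) = ⊤ := by
    refine Un3Aux.eq_top_of_single _ ?_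
    rintro ⟨j, g⟩
    have hlt : (e.symm g).val < r := lt_of_lt_of_le (e.symm g).isLt hr
    refine Submodule.mem_iSup_of_mem (⟨(e.symm g).val, hlt⟩ : Fin r) ?_
    have hx : (if h : (⟨(e.symm g).val, hlt⟩ : Fin r).val < l.prod then
        cons 0 (cpt l (e ⟨(⟨(e.symm g).val, hlt⟩ : Fin r).val, h⟩)) else 0 :
        Coord (q :: l) → K) = cons 0 (cpt l g) := by
      rw [dif_pos (e.symm g).isLt]
      have : e ⟨(e.symm g).val, (e.symm g).isLt⟩ = g := e.apply_symm_apply g
      rw [this]
    have hm := ten_E_mem_T (cons 0 (cpt l g) : Coord (q :: l) → K) (Pi.single j 1)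
    rw [tl_cons, E_cpt, ten_single] at hm
    simp only [hx]
    exact hm
  rw [top, finrank_top, Module.finrank_fintype_fun_eq_card, card_grid, List.prod_cons]

end Pool.Agent.Lib.MP_635d71_ag.Fr
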