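import Pool.Agent.Lib.MP_635d71_ag.Fr.Spec

/-!
# Free largest factor: matrices of rank at most `r` (the normalized parametrization)
-/

set_option autoImplicit false

open Module Submodule

namespace Pool.Agent.Lib.MP_635d71_ag.Fr

namespace UpMAux

variable {ρ κ : Type} {r s : ℕ}

/-- The variables of the normalized parametrization. -/
abbrev Up (κ : Type) (r s : ℕ) : Type := (Fin r × κ) ⊕ (Fin s × Fin r)

/-- The generic matrix of the normalized parametrization. -/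
noncomputable def gen (κ : Type) (r s : ℕ) (q : κ) : Fin r ⊕ Fin s → MvPolynomial (Up κ r s) ℂ
  | Sum.inl a => MvPolynomial.X (Sum.inl (a, q))
  | Sum.inr b => ∑ j, MvPolynomial.X (Sum.inr (b, j)) * MvPolynomial.X (Sum.inl (j, q))

/-- The normalized parametrization. -/
noncomputable def psi (f : ρ ≃ Fin r ⊕ Fin s) :
    MvPolynomial (ρ × κ) ℂ →ₐ[ℂ] MvPolynomial (Up κ r s) ℂ :=
  MvPolynomial.aeval fun m : ρ × κ => gen κ r s m.2 (f m.1)

/-- The first rows. -/
def C1 (f : ρ ≃ Fin r ⊕ Fin s) (C : ρ → Fin r → ℂ) : Matrix (Fin r) (Fin r) ℂ :=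
  Matrix.of fun a j => C (f.symm (Sum.inl a)) j

/-- The other rows. -/
def C2 (f : ρ ≃ Fin r ⊕ Fin s) (C : ρ → Fin r → ℂ) : Matrix (Fin s) (Fin r) ℂ :=
  Matrix.of fun b j => C (f.symm (Sum.inr b)) j

/-- The point of the normalized parametrization. -/
noncomputable def pnt (f : ρ ≃ Fin r ⊕ Fin s) (C : ρ → Fin r → ℂ) (A : Fin r → κ → ℂ) :
    Up κ r s → ℂ
  | Sum.inl (a, q) => (C1 f C * Matrix.of A) a q
  | Sum.inr (b, j) => (C2 f C * (C1 f C)⁻¹) b j

lemma psi_eval (f : ρ ≃ Fin r ⊕ Fin s) (C : ρ → Fin r → ℂ) (A : Fin r → κ → ℂ)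
    (h : (C1 f C).det ≠ 0) (p : MvPolynomial (ρ × κ) ℂ) :
    MvPolynomial.aeval (pnt f C A) (psi f p) =
      MvPolynomial.aeval (fun m : ρ × κ => ∑ j, C m.1 j * A j m.2) p := by
  have h0 : (MvPolynomial.aeval (pnt f C A)).comp (psi f) =
      (MvPolynomial.aeval (fun m : ρ × κ => ∑ j, C m.1 j * A j m.2) :
        MvPolynomial (ρ × κ) ℂ →ₐ[ℂ] ℂ) := by
    apply MvPolynomial.algHom_ext
    rintro ⟨x, q⟩
    rw [AlgHom.comp_apply, psi, MvPolynomial.aeval_X, MvPolynomial.aeval_X]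
    obtain ⟨y, rfl⟩ := f.symm.surjective x
    change MvPolynomial.aeval (pnt f C A) (gen κ r s q (f (f.symm y))) =
      ∑ j, C (f.symm y) j * A j q
    rw [Equiv.apply_symm_apply]
    rcases y with a | b
    · rw [gen, MvPolynomial.aeval_X]
      rfl
    · rw [gen, map_sum]
      have h1 : (C2 f C * (C1 f C)⁻¹) * (C1 f C * Matrix.of A) = C2 f C * Matrix.of A := by
        rw [Matrix.mul_assoc, ← Matrix.mul_assoc (C1 f C)⁻¹,
          Matrix.nonsing_inv_mul _ (isUnit_iff_ne_zero.2 h), Matrix.one_mul]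
      have h2 : ((C2 f C * (C1 f C)⁻¹) * (C1 f C * Matrix.of A)) b q =
          (C2 f C * Matrix.of A) b q := by rw [h1]
      rw [Matrix.mul_apply] at h2
      have h3 : (C2 f C * Matrix.of A) b q = ∑ j, C (f.symm (Sum.inr b)) j * A j q := rfl
      rw [← h3, ← h2]
      refine Finset.sum_congr rfl fun j _ => ?_
      rw [map_mul, MvPolynomial.aeval_X, MvPolynomial.aeval_X]
      rfl
  rw [← h0]
  rfl

/-- The variables of the parametrization by two matrices. -/
abbrev Wv (ρ κ : Type) (r : ℕ) : Type := (ρ × Fin r) ⊕ (Fin r × κ)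

/-- The determinant of the first rows. -/
noncomputable def dlt (f : ρ ≃ Fin r ⊕ Fin s) : MvPolynomial (Wv ρ κ r) ℂ :=
  (Matrix.of fun a j : Fin r =>
    (MvPolynomial.X (Sum.inl (f.symm (Sum.inl a), j)) : MvPolynomial (Wv ρ κ r) ℂ)).det

lemma dlt_eval (f : ρ ≃ Fin r ⊕ Fin s) (y : Wv ρ κ r → ℂ) :
    MvPolynomial.eval y (dlt f) = (C1 f fun x j => y (Sum.inl (x, j))).det := by
  rw [dlt, RingHom.map_det]
  have h : (MvPolynomial.eval y).mapMatrix (Matrix.of fun a j : Fin r =>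
      (MvPolynomial.X (Sum.inl (f.symm (Sum.inl a), j)) : MvPolynomial (Wv ρ κ r) ℂ)) =
      C1 f fun x j => y (Sum.inl (x, j)) := by
    ext a j
    rw [RingHom.mapMatrix_apply, Matrix.map_apply, Matrix.of_apply, MvPolynomial.eval_X]
    rfl
  rw [h]

lemma dlt_ne (f : ρ ≃ Fin r ⊕ Fin s) : (dlt f : MvPolynomial (Wv ρ κ r) ℂ) ≠ 0 := by
  intro h
  have h1 := dlt_eval f (Sum.elim (fun m : ρ × Fin r =>
    if f m.1 = Sum.inl m.2 then (1 : ℂ) else 0) fun _ : Fin r × κ => (0 : ℂ))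
  have h2 : C1 f (fun x j => Sum.elim (fun m : ρ × Fin r =>
      if f m.1 = Sum.inl m.2 then (1 : ℂ) else 0) (fun _ : Fin r × κ => (0 : ℂ))
        (Sum.inl (x, j))) = 1 := by
    ext a j
    rw [C1, Matrix.of_apply, Sum.elim_inl, Equiv.apply_symm_apply, Matrix.one_apply]
    by_cases haj : a = j
    · rw [if_pos haj, if_pos (by rw [haj])]
    · rw [if_neg haj, if_neg fun h3 => haj (Sum.inl_injective h3)]
  rw [h, map_zero, h2, Matrix.det_one] at h1
  exact zero_ne_one h1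

lemma psi_ker (f : ρ ≃ Fin r ⊕ Fin s) (p : MvPolynomial (ρ × κ) ℂ) (hp : psi f p = 0)
    (C : ρ → Fin r → ℂ) (A : Fin r → κ → ℂ) :
    MvPolynomial.eval (fun m : ρ × κ => ∑ j, C m.1 j * A j m.2) p = 0 := by
  obtain ⟨Q, hQ⟩ : ∃ Q : MvPolynomial (Wv ρ κ r) ℂ, Q = MvPolynomial.aeval (fun m : ρ × κ =>
    ∑ j, (MvPolynomial.X (Sum.inl (m.1, j)) : MvPolynomial (Wv ρ κ r) ℂ) *
      MvPolynomial.X (Sum.inr (j, m.2))) p := ⟨_, rfl⟩
  have hQe : ∀ y : Wv ρ κ r → ℂ, MvPolynomial.eval y Q =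
      MvPolynomial.aeval (fun m : ρ × κ =>
        ∑ j, y (Sum.inl (m.1, j)) * y (Sum.inr (j, m.2))) p := by
    intro y
    have h : (MvPolynomial.aeval y).comp (MvPolynomial.aeval (fun m : ρ × κ =>
        ∑ j, (MvPolynomial.X (Sum.inl (m.1, j)) : MvPolynomial (Wv ρ κ r) ℂ) *
          MvPolynomial.X (Sum.inr (j, m.2)))) =
        (MvPolynomial.aeval (fun m : ρ × κ =>
          ∑ j, y (Sum.inl (m.1, j)) * y (Sum.inr (j, m.2))) :
            MvPolynomial (ρ × κ) ℂ →ₐ[ℂ] ℂ) := by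
      apply MvPolynomial.algHom_ext
      intro m
      rw [AlgHom.comp_apply, MvPolynomial.aeval_X, MvPolynomial.aeval_X, map_sum]
      refine Finset.sum_congr rfl fun j _ => ?_
      rw [map_mul, MvPolynomial.aeval_X, MvPolynomial.aeval_X]
    rw [← h, hQ]
    rfl
  have hQD : Q * dlt f = 0 := by
    apply MvPolynomial.funext
    intro y
    rw [map_mul, map_zero, dlt_eval]
    by_cases hy : (C1 f fun x j => y (Sum.inl (x, j))).det = 0
    · rw [hy, mul_zero]
    · rw [hQe, ← psi_eval f (fun x j => y (Sum.inl (x, j))) (fun j q => y (Sum.inr (j, q))) hy,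
        hp, map_zero, zero_mul]
  have hQ0 : Q = 0 := (mul_eq_zero.1 hQD).resolve_right (dlt_ne f)
  have h2 := hQe (Sum.elim (fun m : ρ × Fin r => C m.1 m.2) fun m : Fin r × κ => A m.1 m.2)
  rw [hQ0, map_zero] at h2
  exact h2.symm

end UpMAux

open UpMAux in
/-- The normalized parametrization of the matrices of rank at most `r`. -/
theorem pUpM : S_UpM := by
  intro ρ κ _ _ _ _ r hr
  have hc : Fintype.card ρ = Fintype.card (Fin r ⊕ Fin (Fintype.card ρ - r)) := by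
    rw [Fintype.card_sum, Fintype.card_fin, Fintype.card_fin]
    omega
  have f : ρ ≃ Fin r ⊕ Fin (Fintype.card ρ - r) := Fintype.equivOfCardEq hc
  refine ⟨Up κ r (Fintype.card ρ - r), inferInstance, psi f, ?_, fun p hp C A =>
    psi_ker f p hp C A⟩
  rw [Fintype.card_sum, Fintype.card_prod, Fintype.card_prod, Fintype.card_fin, Fintype.card_fin,
    mul_comm (Fintype.card ρ - r) r, ← mul_add, Nat.add_sub_assoc hr]

end Pool.Agent.Lib.MP_635d71_ag.Fr
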