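import Pool.Agent.Lib.MP_635d71_ag.Fr.Spec
import Pool.Agent.Lib.MP_635d71_ag.AGUpper

/-!
# Free largest factor, module UpU (helper66)
-/

set_option autoImplicit false

open Module Submodule

namespace Pool.Agent.Lib.MP_635d71_ag.Fr

theorem pUpU : S_UpM → S_UpU := by
  classical
  intro hUpM k n i r hr
  have hcρ : Fintype.card (∀ l : {l : Fin k // l ≠ i}, Fin (n l + 1)) =
      ∏ l ∈ Finset.univ.erase i, (n l + 1) := by
    rw [Fintype.card_pi]
    have h1 := Finset.prod_subtype (p := fun l => l ≠ i) (F := inferInstance) (Finset.univ.erase i)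
      (fun l => by rw [Finset.mem_erase]; simp) (fun l => n l + 1)
    rw [h1]
    exact Finset.prod_congr rfl fun l _ => Fintype.card_fin _
  obtain ⟨υ, fυ, ψ, h1, h2⟩ := hUpM (∀ l : {l : Fin k // l ≠ i}, Fin (n l + 1)) (Fin (n i + 1)) r
    (by rw [hcρ]; exact hr)
  rw [Fintype.card_fin, hcρ] at h1
  obtain ⟨σ, hσ⟩ : ∃ σ : Idx n → (∀ l : {l : Fin k // l ≠ i}, Fin (n l + 1)) × Fin (n i + 1),
      (∀ a, σ a = ((fun l : {l : Fin k // l ≠ i} => a l.1), a i)) :=
    ⟨fun a => ((fun l : {l : Fin k // l ≠ i} => a l.1), a i), fun a => rfl⟩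
  have hker : RingHom.ker (ψ.comp (MvPolynomial.rename σ)) ≤
      MvPolynomial.vanishingIdeal ℂ (lowRank n r) := by
    intro p hp
    rw [RingHom.mem_ker, AlgHom.comp_apply] at hp
    rw [MvPolynomial.mem_vanishingIdeal_iff]
    rintro _ ⟨x, rfl⟩
    have h3 := h2 (MvPolynomial.rename σ p) hp
      (fun m j => ∏ l : {l : Fin k // l ≠ i}, x j l.1 (m l)) (fun j c => x j i c)
    rw [MvPolynomial.eval_rename] at h3
    have h4 : ((fun m : (∀ l : {l : Fin k // l ≠ i}, Fin (n l + 1)) × Fin (n i + 1) =>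
        ∑ j, (∏ l : {l : Fin k // l ≠ i}, x j l.1 (m.1 l)) * x j i m.2) ∘ σ) = rankSum x := by
      funext a
      rw [Function.comp_apply, hσ]
      unfold rankSum
      rw [Finset.sum_apply]
      refine Finset.sum_congr rfl fun j _ => ?_
      unfold rankOne
      rw [Fintype.prod_eq_mul_prod_subtype_ne (fun l => x j l (a l)) i, mul_comm]
    rw [h4] at h3
    exact h3
  unfold coneDim
  have a1 : Algebra.trdeg ℂ (CoordRing n r) ≤
      Algebra.trdeg ℂ (MvPolynomial (Idx n) ℂ ⧸ RingHom.ker (ψ.comp (MvPolynomial.rename σ))) :=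
    trdeg_le_of_surjective (Ideal.Quotient.factorₐ ℂ hker)
      (Ideal.Quotient.factor_surjective hker)
  have a2 : Algebra.trdeg ℂ (MvPolynomial (Idx n) ℂ ⧸
      RingHom.ker (ψ.comp (MvPolynomial.rename σ))) ≤ Algebra.trdeg ℂ (MvPolynomial υ ℂ) :=
    trdeg_le_of_injective (Ideal.kerLiftAlg (ψ.comp (MvPolynomial.rename σ)))
      (Ideal.kerLiftAlg_injective _)
  have a3 : Algebra.trdeg ℂ (MvPolynomial υ ℂ) =
      ((r * ((n i + 1) + ∏ l ∈ Finset.univ.erase i, (n l + 1) - r) : ℕ) : Cardinal) := by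
    rw [MvPolynomial.trdeg_of_isDomain, Cardinal.mk_fintype, h1, Cardinal.lift_natCast]
  exact a1.trans (a2.trans (le_of_eq a3))

end Pool.Agent.Lib.MP_635d71_ag.Fr
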