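import Pool.Agent.Lib.MP_635d71_ag.Fr.SpecB

/-! # Fr: binary words -/

set_option autoImplicit false

open Module Submodule

namespace Pool.Agent.Lib.MP_635d71_ag.Fr

theorem pWd : S_Wd := by
  intro u
  induction u with
  | nil =>
    intro f _ hf
    refine ⟨(), fun p => ?_⟩
    rw [hf p (Nat.zero_le p)]
    cases p <;> rfl
  | cons q l ih =>
    intro f h2 hf
    obtain ⟨g, hg⟩ := ih (fun p => f (p + 1)) (fun a ha => h2 a (List.mem_cons_of_mem _ ha))
      (fun p hp => hf (p + 1) (by
        rw [List.length_cons]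
        omega))
    have hq : 2 ≤ q := h2 q List.mem_cons_self
    have hb : (f 0).toNat < q := by
      have h3 : (f 0).toNat < 2 := Bool.toNat_lt (f 0)
      omega
    refine ⟨(⟨(f 0).toNat, hb⟩, g), fun p => ?_⟩
    cases p with
    | zero => rfl
    | succ p => exact hg p

end Pool.Agent.Lib.MP_635d71_ag.Fr
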