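import Pool.Agent.Lib.MP_635d71_ag.Fr.Add
import Pool.Agent.Lib.MP_635d71_ag.Fr.ArcCard
import Pool.Agent.Lib.MP_635d71_ag.Fr.ArcDeg
import Pool.Agent.Lib.MP_635d71_ag.Fr.Blk
import Pool.Agent.Lib.MP_635d71_ag.Fr.BoxE
import Pool.Agent.Lib.MP_635d71_ag.Fr.Bx
import Pool.Agent.Lib.MP_635d71_ag.Fr.BxA
import Pool.Agent.Lib.MP_635d71_ag.Fr.Car
import Pool.Agent.Lib.MP_635d71_ag.Fr.Cd1
import Pool.Agent.Lib.MP_635d71_ag.Fr.Cd2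
import Pool.Agent.Lib.MP_635d71_ag.Fr.Cd3
import Pool.Agent.Lib.MP_635d71_ag.Fr.Com
import Pool.Agent.Lib.MP_635d71_ag.Fr.CorB
import Pool.Agent.Lib.MP_635d71_ag.Fr.Core
import Pool.Agent.Lib.MP_635d71_ag.Fr.Cx
import Pool.Agent.Lib.MP_635d71_ag.Fr.CxB
import Pool.Agent.Lib.MP_635d71_ag.Fr.Drop
import Pool.Agent.Lib.MP_635d71_ag.Fr.Fam
import Pool.Agent.Lib.MP_635d71_ag.Fr.FamB
import Pool.Agent.Lib.MP_635d71_ag.Fr.Fin1
import Pool.Agent.Lib.MP_635d71_ag.Fr.FinB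
import Pool.Agent.Lib.MP_635d71_ag.Fr.FtL
import Pool.Agent.Lib.MP_635d71_ag.Fr.Full
import Pool.Agent.Lib.MP_635d71_ag.Fr.GB
import Pool.Agent.Lib.MP_635d71_ag.Fr.GO
import Pool.Agent.Lib.MP_635d71_ag.Fr.GoB
import Pool.Agent.Lib.MP_635d71_ag.Fr.HRk
import Pool.Agent.Lib.MP_635d71_ag.Fr.Hin
import Pool.Agent.Lib.MP_635d71_ag.Fr.Ind
import Pool.Agent.Lib.MP_635d71_ag.Fr.LS1
import Pool.Agent.Lib.MP_635d71_ag.Fr.LS2
import Pool.Agent.Lib.MP_635d71_ag.Fr.LSy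
import Pool.Agent.Lib.MP_635d71_ag.Fr.Lab
import Pool.Agent.Lib.MP_635d71_ag.Fr.LabE
import Pool.Agent.Lib.MP_635d71_ag.Fr.Lam
import Pool.Agent.Lib.MP_635d71_ag.Fr.Lift
import Pool.Agent.Lib.MP_635d71_ag.Fr.Lis
import Pool.Agent.Lib.MP_635d71_ag.Fr.LisB
import Pool.Agent.Lib.MP_635d71_ag.Fr.LtB
import Pool.Agent.Lib.MP_635d71_ag.Fr.LvB
import Pool.Agent.Lib.MP_635d71_ag.Fr.ModL
import Pool.Agent.Lib.MP_635d71_ag.Fr.Near
import Pool.Agent.Lib.MP_635d71_ag.Fr.Num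
import Pool.Agent.Lib.MP_635d71_ag.Fr.PB1
import Pool.Agent.Lib.MP_635d71_ag.Fr.PB2
import Pool.Agent.Lib.MP_635d71_ag.Fr.PB4
import Pool.Agent.Lib.MP_635d71_ag.Fr.PB7
import Pool.Agent.Lib.MP_635d71_ag.Fr.PB8
import Pool.Agent.Lib.MP_635d71_ag.Fr.PLL
import Pool.Agent.Lib.MP_635d71_ag.Fr.PLR
import Pool.Agent.Lib.MP_635d71_ag.Fr.PSA
import Pool.Agent.Lib.MP_635d71_ag.Fr.PSB
import Pool.Agent.Lib.MP_635d71_ag.Fr.Perm
import Pool.Agent.Lib.MP_635d71_ag.Fr.Ps1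
import Pool.Agent.Lib.MP_635d71_ag.Fr.Ps2
import Pool.Agent.Lib.MP_635d71_ag.Fr.Ps4
import Pool.Agent.Lib.MP_635d71_ag.Fr.Ps5
import Pool.Agent.Lib.MP_635d71_ag.Fr.Ps7
import Pool.Agent.Lib.MP_635d71_ag.Fr.Ps8
import Pool.Agent.Lib.MP_635d71_ag.Fr.Rch
import Pool.Agent.Lib.MP_635d71_ag.Fr.Rho
import Pool.Agent.Lib.MP_635d71_ag.Fr.Sdr
import Pool.Agent.Lib.MP_635d71_ag.Fr.SelB
import Pool.Agent.Lib.MP_635d71_ag.Fr.Sg
import Pool.Agent.Lib.MP_635d71_ag.Fr.SlF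
import Pool.Agent.Lib.MP_635d71_ag.Fr.Tg
import Pool.Agent.Lib.MP_635d71_ag.Fr.TiL
import Pool.Agent.Lib.MP_635d71_ag.Fr.Two
import Pool.Agent.Lib.MP_635d71_ag.Fr.TwoA
import Pool.Agent.Lib.MP_635d71_ag.Fr.TwoB
import Pool.Agent.Lib.MP_635d71_ag.Fr.Un1
import Pool.Agent.Lib.MP_635d71_ag.Fr.Un2
import Pool.Agent.Lib.MP_635d71_ag.Fr.Un3
import Pool.Agent.Lib.MP_635d71_ag.Fr.UpM
import Pool.Agent.Lib.MP_635d71_ag.Fr.UpU
import Pool.Agent.Lib.MP_635d71_ag.Fr.Van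
import Pool.Agent.Lib.MP_635d71_ag.Fr.Wd

/-! # MP_635d71_ag, package Fr: assembly (helper69) -/

set_option autoImplicit false

namespace Pool.Agent.Lib.MP_635d71_ag.Fr

theorem fPerm : S_Perm := pPerm
theorem fDrop : S_Drop := pDrop
theorem fAdd : S_Add := pAdd
theorem fTwoA : S_TwoA := pTwoA
theorem fTwoB : S_TwoB := pTwoB
theorem fTwo : S_Two := pTwo fPerm fTwoA fTwoB
theorem fFull : S_Full := pFull
theorem fInd : S_Ind := pInd fDrop fAdd fTwo fFull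
theorem fSlF : S_SlF := pSlF
theorem fModL : S_ModL := pModL
theorem fHRk : S_HRk := pHRk
theorem fVan : S_Van := pVan
theorem fCore : S_Core := pCore fSlF fModL fHRk fVan
theorem fArcCard : S_ArcCard := pArcCard
theorem fArcDeg : S_ArcDeg := pArcDeg
theorem fNear : S_Near := pNear fCore fArcCard fArcDeg
theorem fCom : S_Com := pCom
theorem fBlk : S_Blk := pBlk
theorem fHin : S_Hin := pHin
theorem fLab : S_Lab := pLab fCom fBlk fHin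
theorem fNum : S_Num := pNum
theorem fLtB : S_LtB := pLtB
theorem fSg : S_Sg := pSg
theorem fTg : S_Tg := pTg
theorem fFtL : S_FtL := pFtL fSg fTg
theorem fTiL : S_TiL := pTiL fSg
theorem fPs1 : S_Ps1 := pPs1 fLtB fSg fTg
theorem fPs2 : S_Ps2 := pPs2 fLtB fSg fTg fFtL fTiL
theorem fPs4 : S_Ps4 := pPs4 fLtB fSg fTg fFtL
theorem fPs5 : S_Ps5 := pPs5 fLtB fSg fTg fFtL
theorem fPs7 : S_Ps7 := pPs7 fLtB fSg fTg
theorem fPs8 : S_Ps8 := pPs8 fLtB fSg fTg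
theorem fBx : S_Bx := pBx fLtB fSg fTg
theorem fCx : S_Cx := pCx fSg fTg
theorem fPSA : S_PSA := pPSA fPs1 fPs2 fPs4 fPs5 fPs7 fPs8
theorem fLabE : S_LabE := pLabE
theorem fBxA : S_BxA := pBxA
theorem fLift : S_Lift := pLift fLabE fBxA
theorem fBoxE : S_BoxE := pBoxE
theorem fLS1 : S_LS1 := pLS1 fBoxE
theorem fLS2 : S_LS2 := pLS2 fBoxE
theorem fLSy : S_LSy := pLSy fBoxE fLS1 fLS2
theorem fCar : S_Car := pCar
theorem fGB : S_GB := pGB fCar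
theorem fGO : S_GO := pGO fCar fGB
theorem fFin1 : S_Fin1 := pFin1 fNear fArcCard fLab fNum fCx fPSA fBx fLift fLSy fGO
theorem fUn1 : S_Un1 := pUn1
theorem fUn2 : S_Un2 := pUn2 fSlF
theorem fUn3 : S_Un3 := pUn3
theorem fLis : S_Lis := pLis fInd fFin1 fUn1 fUn2 fUn3
theorem fUpM : S_UpM := pUpM
theorem fUpU : S_UpU := pUpU fUpM
theorem fFam : S_Fam := pFam fLis fUpU
theorem fLvB : S_LvB := pLvB
theorem fWd : S_Wd := pWd
theorem fCd1 : S_Cd1 := pCd1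
theorem fCd2 : S_Cd2 := pCd2
theorem fCd3 : S_Cd3 := pCd3
theorem fSdr : S_Sdr := pSdr
theorem fLam : S_Lam := pLam fBlk fCd3 fSdr
theorem fRho : S_Rho := pRho
theorem fCxB : S_CxB := pCxB fLvB fWd fCd1 fCd2
theorem fPB1 : S_PB1 := pPB1 fLvB fCd1 fCd2
theorem fPB2 : S_PB2 := pPB2 fLvB fCd1 fCd2
theorem fPB4 : S_PB4 := pPB4 fLvB fCd1 fCd2
theorem fPB7 : S_PB7 := pPB7 fLvB fCd1 fCd2
theorem fPB8 : S_PB8 := pPB8 fLvB fCd1 fCd2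
theorem fPSB : S_PSB := pPSB fPB1 fPB2 fPB4 fPB7 fPB8
theorem fPLL : S_PLL := pPLL fBxA
theorem fPLR : S_PLR := pPLR fBxA
theorem fGoB : S_GoB := pGoB
theorem fFinB : S_FinB := pFinB fNear fArcCard fLam fRho fCxB fPSB fPLL fPLR fLift fLSy fBxA fGoB
theorem fSelB : S_SelB := pSelB
theorem fRch : S_Rch := pRch fInd fUn1 fUn2 fUn3
theorem fLisB : S_LisB := pLisB fRch fRho fFinB fSelB
theorem fFamB : S_FamB := pFamB fLisB fUpU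
theorem fCorB : S_CorB := pCorB fFam fFamB

end Pool.Agent.Lib.MP_635d71_ag.Fr
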