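import Mathlib
import Pool.Agent.Lib.MP_635d71_ag.GoodBase

/-!
# Free largest factor: definitions

The format is `s :: l` (`s` is the size of the first factor, `l` the list of the others);
`L = D l - 1`, `P = l.prod`. See `Spec.lean` for the plan.
-/

set_option autoImplicit false

open Module Submodule

namespace Pool.Agent.Lib.MP_635d71_ag.Fr

variable {K : Type} [Field K]

/-! ### points with and without tangent spaces -/

/-- `K^s ⊗ E(x)` -/
def fib (s : ℕ) (l : List ℕ) (x : Coord l → K) : Submodule K (Grid (s :: l) → K) :=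
  LinearMap.range (tenR (q := s) (E l x))

/-- `z ⊗ T(x)` -/
def zT {s : ℕ} (l : List ℕ) (z : Fin s → K) (x : Coord l → K) : Submodule K (Grid (s :: l) → K) :=
  (T l x).map (tenL z l)

/-- The sum of all the fibres `K^s ⊗ E(x_a)` and of the spaces `z_a ⊗ T(x_a)`, `a ∈ A`. -/
def Tot (s : ℕ) (l : List ℕ) {r : ℕ} (A : Finset (Fin r)) (x : Fin r → Coord l → K)
    (z : Fin r → Fin s → K) : Submodule K (Grid (s :: l) → K) :=
  (⨆ a, fib s l (x a)) ⊔ ⨆ a ∈ A, zT l (z a) (x a)

/-- There are `r` tuples, `n` of them with tangent spaces, which span at least `m` dimensions. -/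
def BR (K : Type) [Field K] (s : ℕ) (l : List ℕ) (n r m : ℕ) : Prop :=
  ∃ (A : Finset (Fin r)) (x : Fin r → Coord l → K) (z : Fin r → Fin s → K),
    A.card = n ∧ m ≤ finrank K (Tot s l A x z)

/-- `e_a ⊗ z` -/
def zf {s c : ℕ} (a : Fin c) (z : Fin s → K) : Fin c × Fin s → K :=
  fun p => if p.1 = a then z p.2 else 0

/-- The number of the sets `F i` which contain `t`. -/
def deg {n c : ℕ} (F : Fin n → Finset (Fin c)) (t : Fin c) : ℕ :=
  (Finset.univ.filter fun i => t ∈ F i).card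

/-! ### linear systems and label systems -/

/-- A linear system on `Ω`: `n` words `σ i` (their tuples are among the tuples `y`), `|Ω| - c` tuples
with linearly independent products supported in `Ω`, and a linear map `Φ` to `K^c` which kills these
products and maps the tangent space at `σ i` onto a space which contains the coordinates in `F i`. -/
def LS (K : Type) [Field K] (l : List ℕ) (Ω : Finset (Grid l)) (n c : ℕ)
    (F : Fin n → Finset (Fin c)) : Prop :=
  ∃ (N : ℕ) (σ : Fin n → Grid l) (y : Fin N → Coord l → K) (e : Fin n → Fin N)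
    (Φ : (Grid l → K) →ₗ[K] (Fin c → K)),
    N + c = Ω.card ∧ Function.Injective e ∧ (∀ i, y (e i) = cpt l (σ i)) ∧
    (∀ i, Ball l (σ i) ⊆ Ω) ∧ (∀ a, E l (y a) ∈ coordSub K Ω) ∧
    LinearIndependent K (fun a => E l (y a)) ∧ (∀ a, Φ (E l (y a)) = 0) ∧
    ∀ i, ∀ a ∈ F i, ∃ f ∈ T l (cpt l (σ i) : Coord l → K), Φ f = Pi.single a 1

/-- The words all letters of which are letters of `w` or of `t`. -/
def box : ∀ l : List ℕ, Grid l → Grid l → Finset (Grid l)
  | [], _, _ => Finset.univ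
  | q :: l, w, t => (({w.1, t.1} : Finset (Fin q)) ×ˢ box l w.2 t.2 : Finset (Fin q × Grid l))

/-- The tuple with `E l (bpt l w t)` the characteristic function of `box l w t`. -/
def bpt (K : Type) [Field K] : ∀ l : List ℕ, Grid l → Grid l → Coord l → K
  | [], _, _ => fun _ => 0
  | q :: l, w, t => cons (fun j : Fin q => if j = w.1 ∨ j = t.1 then 1 else 0) (bpt K l w.2 t.2)

/-- `g` is a neighbour of one of the words `σ i`. -/
def NS (l : List ℕ) {n : ℕ} (σ : Fin n → Grid l) (g : Grid l) : Prop :=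
  ∃ i, g ∈ Ball l (σ i) ∧ g ≠ σ i

/-- `g` is one of the words `τ a`. -/
def TG (l : List ℕ) {c : ℕ} (τ : Fin c → Grid l) (g : Grid l) : Prop := ∃ a, g = τ a

/-- `g` is in `FT` and has the label of a neighbour of `σ i` in `FT`. -/
def FTL (l : List ℕ) {n c : ℕ} (σ : Fin n → Grid l) (FT : Finset (Grid l)) (lam : Grid l → Fin c)
    (i : Fin n) (g : Grid l) : Prop :=
  g ∈ FT ∧ ∃ g' ∈ FT, g' ∈ Ball l (σ i) ∧ lam g' = lam g

/-- A label system: special words `σ i`, targets `τ a`, a label `lam g` for every neighbour `g` of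
a special word. -/
structure LSys (l : List ℕ) (Ω : Finset (Grid l)) (n c : ℕ) (F : Fin n → Finset (Fin c))
    (σ : Fin n → Grid l) (τ : Fin c → Grid l) (FT : Finset (Grid l)) (lam : Grid l → Fin c) :
    Prop where
  ss : ∀ i j, σ i ∈ Ball l (σ j) → i = j
  tinj : Function.Injective τ
  st : ∀ i a, τ a ∉ Ball l (σ i)
  ft : ∀ w ∈ FT, NS l σ w
  h4 : ∀ w ∈ FT, ∀ g ∈ box l w (τ (lam w)), NS l σ g ∨ TG l τ g → g = w ∨ g = τ (lam w)
  h5 : ∀ i, ∀ w ∈ Ball l (σ i), w ≠ σ i → w ∉ FT → ∀ g ∈ box l w (τ (lam w)),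
    NS l σ g ∨ TG l τ g → g = w ∨ g = τ (lam w) ∨ FTL l σ FT lam i g
  h6 : ∀ i, ∀ a ∈ F i, ∃ w ∈ Ball l (σ i), w ≠ σ i ∧ lam w = a
  hball : ∀ i, Ball l (σ i) ⊆ Ω
  htar : ∀ a, τ a ∈ Ω
  hbox : ∀ i, ∀ w ∈ Ball l (σ i), w ≠ σ i → box l w (τ (lam w)) ⊆ Ω

/-- A partial label system: the words in `X` have a label, the others can have any label. -/
structure PSys (z : List ℕ) (n c : ℕ) (F : Fin n → Finset (Fin c)) (σ : Fin n → Grid z)
    (τ : Fin c → Grid z) (X FT : Finset (Grid z)) (lam : Grid z → Fin c) : Prop where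
  ftX : FT ⊆ X
  xN : ∀ w ∈ X, NS z σ w
  ss : ∀ i j, σ i ∈ Ball z (σ j) → i = j
  tinj : Function.Injective τ
  st : ∀ i a, τ a ∉ Ball z (σ i)
  labF : ∀ i, ∀ w ∈ X, w ∈ Ball z (σ i) → lam w ∈ F i
  labI : ∀ i, ∀ w ∈ X, ∀ w' ∈ X, w ∈ Ball z (σ i) → w' ∈ Ball z (σ i) → lam w = lam w' → w = w'
  uniq : ∀ i j w, w ∈ Ball z (σ i) → w ∈ Ball z (σ j) → w ∉ X → i = j
  h4 : ∀ w ∈ FT, ∀ g ∈ box z w (τ (lam w)), NS z σ g ∨ TG z τ g → g = w ∨ g = τ (lam w)
  h5 : ∀ i, ∀ w ∈ Ball z (σ i), w ∈ X → w ∉ FT → ∀ g ∈ box z w (τ (lam w)),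
    NS z σ g ∨ TG z τ g → g = w ∨ g = τ (lam w) ∨ FTL z σ FT lam i g
  h7 : ∀ i a, ∀ w ∈ Ball z (σ i), w ≠ σ i → w ∉ X → ∀ g ∈ box z w (τ a),
    NS z σ g ∨ TG z τ g → g = w ∨ g = τ a ∨ FTL z σ FT lam i g
  h8 : ∀ i a, ∀ g ∈ box z (σ i) (τ a), (∃ j, g ∈ Ball z (σ j)) ∨ TG z τ g →
    g = σ i ∨ g = τ a ∨ FTL z σ FT lam i g

/-! ### arcs -/

/-- The cyclic interval of length `L` in `Fin c` which starts at `⌊i c / n⌋`. -/
def arc (L c n : ℕ) (i : Fin n) : Finset (Fin c) :=
  Finset.univ.filter fun t => ∃ x < L, t.val = (i.val * c / n + x) % c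

/-- Labels for the clusters `{i | i / B = k}`: three consecutive blocks of length `R`, the first
of which is the block number `b0 k`, and `X * X` further labels `h k e`, all in the arcs of the
cluster. -/
structure LabData (L c n B X R : ℕ) (b0 : ℕ → ℕ) (h : ℕ → ℕ → ℕ) : Prop where
  blk : ∀ (i : Fin n) (t : Fin c), b0 (i.val / B) * R ≤ t.val → t.val < (b0 (i.val / B) + 3) * R →
    t ∈ arc L c n i
  blc : ∀ i : Fin n, (b0 (i.val / B) + 3) * R ≤ c
  hc : ∀ (i : Fin n) (e : ℕ), e < X * X → h (i.val / B) e < c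
  hF : ∀ (i : Fin n) (e : ℕ) (t : Fin c), e < X * X → t.val = h (i.val / B) e → t ∈ arc L c n i
  hb : ∀ (i : Fin n) (e : ℕ), e < X * X → h (i.val / B) e < b0 (i.val / B) * R ∨
    (b0 (i.val / B) + 3) * R ≤ h (i.val / B) e
  hi : ∀ (i : Fin n) (e e' : ℕ), e < X * X → e' < X * X → h (i.val / B) e = h (i.val / B) e' → e = e'

/-- The dimension of the cone over the secant variety; `P` is the product of the sizes of the other
factors, `L + 1` the dimension of the tangent spaces of their product. -/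
def dimF (q P L r : ℕ) : ℕ :=
  if r < min P q then r * (q + min (P - r) L) else min (r * (q + L)) (P * q)

/-! ### words with three letters -/

/-- The letters of a word of `[s3, s1, s2]`. -/
def ltr {s3 s1 s2 : ℕ} (g : Grid [s3, s1, s2]) : Fin 3 → ℕ := ![g.1.val, g.2.1.val, g.2.2.1.val]

/-- The letters of the special word number `i`: clusters of length `B`, a Latin square code. -/
def sgf (X B i : ℕ) : Fin 3 → ℕ :=
  ![i / B * X + i % B / X, i / B * X + i % B % X, i / B * X + (i % B / X + i % B % X) % X]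

/-- The letters of the target with label `a`. -/
def tgf (A R a : ℕ) : Fin 3 → ℕ := ![A + a % R, A + a % R, A + (a % R + a / R) % R]

/-- The words all letters of which are `< A`. -/
def Fset (s3 s1 s2 A : ℕ) : Finset (Grid [s3, s1, s2]) :=
  Finset.univ.filter fun g => ∀ d, ltr g d < A

/-- The words with at least two letters `< A`. -/
def Qset (s3 s1 s2 A : ℕ) : Finset (Grid [s3, s1, s2]) :=
  Finset.univ.filter fun g => ∃ d, ∀ e, e ≠ d → ltr g e < A

open scoped Classical in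
/-- The flexible words: a special word with one letter changed to one in `[16 X, 16 X + R)`. -/
noncomputable def FTW (s3 s1 s2 n B X R : ℕ) : Finset (Grid [s3, s1, s2]) :=
  Finset.univ.filter fun g => ∃ (i : Fin n) (d : Fin 3), (∀ e, e ≠ d → ltr g e = sgf X B i.val e) ∧
    16 * X ≤ ltr g d ∧ ltr g d < 16 * X + R

open scoped Classical in
/-- The words in the box of a cluster which differ from a special word in exactly one letter. -/
noncomputable def TIW (s3 s1 s2 n B X : ℕ) : Finset (Grid [s3, s1, s2]) :=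
  Finset.univ.filter fun g => (∃ (i : Fin n) (d : Fin 3), (∀ e, e ≠ d → ltr g e = sgf X B i.val e) ∧
    ltr g d ≠ sgf X B i.val d) ∧
    ∃ k, ∀ e, k * X ≤ ltr g e ∧ ltr g e < k * X + X

/-- `u - v` modulo `X`. -/
def sbm (X u v : ℕ) : ℕ := (u + (X - v % X)) % X

/-- The label of a word in `FTW` or `TIW`. -/
def lamN (X R : ℕ) (b0 : ℕ → ℕ) (h : ℕ → ℕ → ℕ) (y : Fin 3 → ℕ) : ℕ :=
  if 16 * X ≤ y 0 then b0 (y 1 / X) * R + (y 0 - 16 * X)
  else if 16 * X ≤ y 1 then (b0 (y 0 / X) + 1) * R + (y 1 - 16 * X)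
  else if 16 * X ≤ y 2 then (b0 (y 0 / X) + 2) * R + sbm R (y 2 - 16 * X) (b0 (y 0 / X) + 2)
  else h (y 0 / X) (sbm X (y 2 % X) (y 0 % X + y 1 % X) * X + sbm X (y 0 % X) (y 1 % X))

/-- The label of a flexible word with the letter `16 X + v` at the place `d`, `b` the number of the
first block of its cluster. -/
def flab (R b : ℕ) (d : Fin 3) (v : ℕ) : ℕ := (b + d.val) * R + if d = 2 then sbm R v (b + 2) else v

/-- The data of the label system with three large factors. -/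
structure Ctx (s3 s1 s2 L c n B X R : ℕ) (b0 : ℕ → ℕ) (h : ℕ → ℕ → ℕ)
    (σ : Fin n → Grid [s3, s1, s2]) (τ : Fin c → Grid [s3, s1, s2])
    (lam : Grid [s3, s1, s2] → Fin c) : Prop where
  lab : LabData L c n B X R b0 h
  B1 : 1 ≤ B
  BX : B ≤ X * X
  Xodd : X % 2 = 1
  nB : n ≤ 16 * B
  cR : c ≤ R * R
  S3 : 16 * X + R ≤ s3
  S1 : 16 * X + R ≤ s1
  S2 : 16 * X + R ≤ s2
  hσ : ∀ i, ltr (σ i) = sgf X B i.val
  hτ : ∀ a, ltr (τ a) = tgf (16 * X) R a.val
  hlam : ∀ g, lamN X R b0 h (ltr g) < c → (lam g).val = lamN X R b0 h (ltr g)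

end Pool.Agent.Lib.MP_635d71_ag.Fr
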