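import Pool.Agent.Lib.MP_635d71_ag.Fr.Base

/-!
# Free largest factor, many factors: definitions
-/

set_option autoImplicit false

open Module Submodule

namespace Pool.Agent.Lib.MP_635d71_ag.Fr

/-- The letter of a word at the place `p` (zero if `p` is not smaller than the length). -/
def ltv : ∀ l : List ℕ, Grid l → ℕ → ℕ
  | [], _, _ => 0
  | _ :: _, g, 0 => g.1.val
  | _ :: l, g, p + 1 => ltv l g.2 p

/-- The binary letters of the special word number `i < 4 ^ ρ`: three copies of the `2 ρ` digits and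
their complements, at the places `< 12 ρ`. -/
def sgb (ρ i p : ℕ) : Bool :=
  decide (p < 12 * ρ) && (if p % (4 * ρ) < 2 * ρ then i.testBit (p % (4 * ρ))
    else !i.testBit (p % (4 * ρ) - 2 * ρ))

/-- The binary letters of the target number `a < 4 ^ ρ`, `a = b * 2 ^ ρ + x`: the digits of `x` and
their complements, the digits of `(x + b) % 2 ^ ρ` and their complements, at the places in
`[12 ρ, 16 ρ)`. -/
def tgb (ρ a p : ℕ) : Bool :=
  decide (12 * ρ ≤ p) && (if p < 13 * ρ then (a % 2 ^ ρ).testBit (p - 12 * ρ)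
    else if p < 14 * ρ then !(a % 2 ^ ρ).testBit (p - 13 * ρ)
    else if p < 15 * ρ then ((a % 2 ^ ρ + a / 2 ^ ρ) % 2 ^ ρ).testBit (p - 14 * ρ)
    else decide (p < 16 * ρ) && !((a % 2 ^ ρ + a / 2 ^ ρ) % 2 ^ ρ).testBit (p - 15 * ρ))

/-- `g` is the special word `σ i` with the letter at the place `d` changed to the possible other
letter of a target: from `1` to `0`, or (places in `[12 ρ, 16 ρ)`) to `1`. -/
def FTc (u : List ℕ) {n : ℕ} (ρ : ℕ) (σ : Fin n → Grid u) (i : Fin n) (d : ℕ) (g : Grid u) : Prop :=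
  (∀ p, p ≠ d → ltv u g p = ltv u (σ i) p) ∧ ((ltv u (σ i) d = 1 ∧ ltv u g d = 0) ∨
    (12 * ρ ≤ d ∧ d < 16 * ρ ∧ ltv u g d = 1))

open scoped Classical in
/-- The set of these words. -/
noncomputable def FTB (u : List ℕ) {n : ℕ} (ρ : ℕ) (σ : Fin n → Grid u) : Finset (Grid u) :=
  Finset.univ.filter fun g => ∃ (i : Fin n) (d : ℕ), FTc u ρ σ i d g

/-- The data of the label system with many factors. -/
structure CtxB (u : List ℕ) (n c ρ : ℕ) (F : Fin n → Finset (Fin c)) (Λ : Fin n → ℕ → Fin c)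
    (σ : Fin n → Grid u) (τ : Fin c → Grid u) (lam : Grid u → Fin c) : Prop where
  ρ1 : 1 ≤ ρ
  n4 : n ≤ 4 ^ ρ
  c4 : c ≤ 4 ^ ρ
  hσ : ∀ i p, ltv u (σ i) p = (sgb ρ i.val p).toNat
  hτ : ∀ a p, ltv u (τ a) p = (tgb ρ a.val p).toNat
  ΛF : ∀ i d, d < 16 * ρ → Λ i d ∈ F i
  Λi : ∀ i d e, d < 16 * ρ → e < 16 * ρ → Λ i d = Λ i e → d = e
  Λt : ∀ i d, 12 * ρ ≤ d → d < 16 * ρ → tgb ρ (Λ i d).val d = true
  hlam : ∀ i d g, FTc u ρ σ i d g → lam g = Λ i d

end Pool.Agent.Lib.MP_635d71_ag.Fr
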