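import Pool.Agent.Lib.MP_635d71_ag.Fr.SpecB

/-!
# Free largest factor, many factors: the binary codes
-/

set_option autoImplicit false

open Module Submodule

namespace Pool.Agent.Lib.MP_635d71_ag.Fr

namespace Cd2Aux

/-- Two numbers less than `2 ^ ρ` with the same digits are equal. -/
theorem eq_of_digits (ρ x y : ℕ) (hx : x < 2 ^ ρ) (hy : y < 2 ^ ρ)
    (h1 : ∀ j < ρ, y.testBit j = true → x.testBit j = true)
    (h0 : ∀ j < ρ, y.testBit j = false → x.testBit j = false) : x = y := by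
  refine Nat.eq_of_testBit_eq fun j => ?_
  by_cases hj : j < ρ
  · cases hb : y.testBit j with
    | true => exact h1 j hj hb
    | false => exact h0 j hj hb
  · have hp : 2 ^ ρ ≤ 2 ^ j := Nat.pow_le_pow_right (by norm_num) (not_lt.1 hj)
    rw [Nat.testBit_lt_two_pow (hx.trans_le hp), Nat.testBit_lt_two_pow (hy.trans_le hp)]

theorem tgb0 (ρ a j : ℕ) (hj : j < ρ) : tgb ρ a (12 * ρ + j) = (a % 2 ^ ρ).testBit j := by
  unfold tgb
  have e1 : 12 * ρ ≤ 12 * ρ + j := Nat.le_add_right _ _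
  have e2 : 12 * ρ + j < 13 * ρ := by omega
  have e3 : 12 * ρ + j - 12 * ρ = j := by omega
  rw [decide_eq_true e1, if_pos e2, e3, Bool.true_and]

theorem tgb1 (ρ a j : ℕ) (hj : j < ρ) : tgb ρ a (13 * ρ + j) = !(a % 2 ^ ρ).testBit j := by
  unfold tgb
  have e1 : 12 * ρ ≤ 13 * ρ + j := by omega
  have e2 : ¬ 13 * ρ + j < 13 * ρ := by omega
  have e3 : 13 * ρ + j < 14 * ρ := by omega
  have e4 : 13 * ρ + j - 13 * ρ = j := by omega
  rw [decide_eq_true e1, if_neg e2, if_pos e3, e4, Bool.true_and]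

theorem tgb2 (ρ a j : ℕ) (hj : j < ρ) :
    tgb ρ a (14 * ρ + j) = ((a % 2 ^ ρ + a / 2 ^ ρ) % 2 ^ ρ).testBit j := by
  unfold tgb
  have e1 : 12 * ρ ≤ 14 * ρ + j := by omega
  have e2 : ¬ 14 * ρ + j < 13 * ρ := by omega
  have e3 : ¬ 14 * ρ + j < 14 * ρ := by omega
  have e4 : 14 * ρ + j < 15 * ρ := by omega
  have e5 : 14 * ρ + j - 14 * ρ = j := by omega
  rw [decide_eq_true e1, if_neg e2, if_neg e3, if_pos e4, e5, Bool.true_and]

theorem tgb3 (ρ a j : ℕ) (hj : j < ρ) :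
    tgb ρ a (15 * ρ + j) = !((a % 2 ^ ρ + a / 2 ^ ρ) % 2 ^ ρ).testBit j := by
  unfold tgb
  have e1 : 12 * ρ ≤ 15 * ρ + j := by omega
  have e2 : ¬ 15 * ρ + j < 13 * ρ := by omega
  have e3 : ¬ 15 * ρ + j < 14 * ρ := by omega
  have e4 : ¬ 15 * ρ + j < 15 * ρ := by omega
  have e5 : 15 * ρ + j < 16 * ρ := by omega
  have e6 : 15 * ρ + j - 15 * ρ = j := by omega
  rw [decide_eq_true e1, if_neg e2, if_neg e3, if_neg e4, decide_eq_true e5, e6, Bool.true_and,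
    Bool.true_and]

theorem tgb_supp (ρ a p : ℕ) (h : tgb ρ a p = true) : 12 * ρ ≤ p ∧ p < 16 * ρ := by
  unfold tgb at h
  rw [Bool.and_eq_true, decide_eq_true_eq] at h
  obtain ⟨h1, h2⟩ := h
  refine ⟨h1, ?_⟩
  by_cases e2 : p < 13 * ρ
  · omega
  · by_cases e3 : p < 14 * ρ
    · omega
    · by_cases e4 : p < 15 * ρ
      · omega
      · rw [if_neg e2, if_neg e3, if_neg e4, Bool.and_eq_true, decide_eq_true_eq] at h2
        exact h2.1

theorem sgb_one (ρ i k : ℕ) (hρ : 1 ≤ ρ) (hk : k < 3) (h : i.testBit 0 = true) :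
    sgb ρ i (k * (4 * ρ)) = true := by
  unfold sgb
  have e1 : k * (4 * ρ) < 12 * ρ := by
    have : k * (4 * ρ) ≤ 2 * (4 * ρ) := Nat.mul_le_mul_right _ (by omega)
    omega
  have e2 : k * (4 * ρ) % (4 * ρ) = 0 := Nat.mul_mod_left _ _
  rw [decide_eq_true e1, e2, if_pos (by omega), h]
  rfl

theorem sgb_zero (ρ i k : ℕ) (hρ : 1 ≤ ρ) (hk : k < 3) (h : i.testBit 0 = false) :
    sgb ρ i (2 * ρ + k * (4 * ρ)) = true := by
  unfold sgb
  have e1 : 2 * ρ + k * (4 * ρ) < 12 * ρ := by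
    have : k * (4 * ρ) ≤ 2 * (4 * ρ) := Nat.mul_le_mul_right _ (by omega)
    omega
  have e2 : (2 * ρ + k * (4 * ρ)) % (4 * ρ) = 2 * ρ := by
    rw [Nat.add_mul_mod_self_right, Nat.mod_eq_of_lt (by omega)]
  rw [decide_eq_true e1, e2, if_neg (lt_irrefl _), Nat.sub_self, h]
  rfl

end Cd2Aux

theorem pCd2 : S_Cd2 := by
  intro ρ hρ
  refine ⟨?_, Cd2Aux.tgb_supp ρ, ?_, ?_⟩
  · intro i p h
    unfold sgb at h
    rw [Bool.and_eq_true, decide_eq_true_eq] at h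
    exact h.1
  · intro i d
    cases h : i.testBit 0 with
    | true =>
      by_cases hd : d = 0 * (4 * ρ)
      · exact ⟨1 * (4 * ρ), by omega, Cd2Aux.sgb_one ρ i 1 hρ (by norm_num) h⟩
      · exact ⟨0 * (4 * ρ), fun h' => hd h'.symm, Cd2Aux.sgb_one ρ i 0 hρ (by norm_num) h⟩
    | false =>
      by_cases hd : d = 2 * ρ + 0 * (4 * ρ)
      · exact ⟨2 * ρ + 1 * (4 * ρ), by omega, Cd2Aux.sgb_zero ρ i 1 hρ (by norm_num) h⟩
      · exact ⟨2 * ρ + 0 * (4 * ρ), fun h' => hd h'.symm,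
          Cd2Aux.sgb_zero ρ i 0 hρ (by norm_num) h⟩
  · intro a b ha hb hab
    have h4 : (4 : ℕ) ^ ρ = 2 ^ ρ * 2 ^ ρ := by
      rw [← mul_pow]
      norm_num
    have hpos : 0 < 2 ^ ρ := Nat.two_pow_pos ρ
    have hx : a % 2 ^ ρ = b % 2 ^ ρ := by
      refine Cd2Aux.eq_of_digits ρ _ _ (Nat.mod_lt _ hpos) (Nat.mod_lt _ hpos) ?_ ?_
      · intro j hj h
        rw [← Cd2Aux.tgb0 ρ b j hj] at h
        rw [← Cd2Aux.tgb0 ρ a j hj]
        exact hab _ h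
      · intro j hj h
        have h1 : tgb ρ b (13 * ρ + j) = true := by
          rw [Cd2Aux.tgb1 ρ b j hj, h]
          rfl
        have h2 := hab _ h1
        rw [Cd2Aux.tgb1 ρ a j hj] at h2
        exact Bool.not_eq_true' _ ▸ h2
    have hy : (a % 2 ^ ρ + a / 2 ^ ρ) % 2 ^ ρ = (b % 2 ^ ρ + b / 2 ^ ρ) % 2 ^ ρ := by
      refine Cd2Aux.eq_of_digits ρ _ _ (Nat.mod_lt _ hpos) (Nat.mod_lt _ hpos) ?_ ?_
      · intro j hj h
        rw [← Cd2Aux.tgb2 ρ b j hj] at h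
        rw [← Cd2Aux.tgb2 ρ a j hj]
        exact hab _ h
      · intro j hj h
        have h1 : tgb ρ b (15 * ρ + j) = true := by
          rw [Cd2Aux.tgb3 ρ b j hj, h]
          rfl
        have h2 := hab _ h1
        rw [Cd2Aux.tgb3 ρ a j hj] at h2
        exact Bool.not_eq_true' _ ▸ h2
    have hq : a / 2 ^ ρ = b / 2 ^ ρ := by
      rw [hx] at hy
      have h1 : a / 2 ^ ρ ≡ b / 2 ^ ρ [MOD 2 ^ ρ] := Nat.ModEq.add_left_cancel' _ hy
      have h2 : a / 2 ^ ρ < 2 ^ ρ := Nat.div_lt_of_lt_mul (h4 ▸ ha)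
      have h3 : b / 2 ^ ρ < 2 ^ ρ := Nat.div_lt_of_lt_mul (h4 ▸ hb)
      exact Nat.ModEq.eq_of_lt_of_lt h1 h2 h3
    rw [← Nat.div_add_mod a (2 ^ ρ), ← Nat.div_add_mod b (2 ^ ρ), hx, hq]

end Pool.Agent.Lib.MP_635d71_ag.Fr
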