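import Pool.Agent.Lib.MP_635d71_ag.Fr.SpecB

/-!
# Free largest factor, many factors: the beginning of the induction
-/

set_option autoImplicit false

open Module Submodule

namespace Pool.Agent.Lib.MP_635d71_ag.Fr

namespace FinBAux

/-- The numbers. -/
theorem nums (L c P Ωc : ℕ) (hL : 24 ≤ L) (hc : L ≤ c) (h3 : 3 * c ≤ P + 3)
    (hΩ : 4 * Ωc ≤ P) :
    (c / L - 1 - 1) * (2 * (L + 1) + 1) ≤ 2 * P ∧ 2 * c + Ωc ≤ P := by
  constructor
  · have h1 : c / L * L ≤ c := Nat.div_mul_le_self c L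
    have h2 : (c / L - 1 - 1) * L ≤ c / L * L :=
      Nat.mul_le_mul_right _ ((Nat.sub_le _ _).trans (Nat.sub_le _ _))
    have h4 : (c / L - 1 - 1) * (2 * (L + 1) + 1) =
        2 * ((c / L - 1 - 1) * L) + (c / L - 1 - 1) * 3 := by ring
    have h5 : (c / L - 1 - 1) * 3 ≤ (c / L - 1 - 1) * L := Nat.mul_le_mul_left _ (by omega)
    omega
  · omega

/-- The linear system. -/
theorem ls (K : Type) [Field K] [Infinite K] (hArcCard : S_ArcCard) (hLam : S_Lam)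
    (hCxB : S_CxB) (hPSB : S_PSB) (hPLL : S_PLL) (hPLR : S_PLR) (hLift : S_Lift) (hLSy : S_LSy)
    (hBxA : S_BxA) (O u Y : List ℕ) (L ρ s n c : ℕ) (o : Grid O) (w : Grid Y)
    (hu : ∀ a ∈ u, 2 ≤ a) (hlen : u.length = 16 * ρ) (hρ : 1 ≤ ρ) (h4 : 2 * L ≤ 4 ^ ρ)
    (h7 : 7 * 2 ^ ρ ≤ L) (h16 : 16 * ρ ≤ 2 ^ (ρ - 1)) (hD : D ((O ++ u) ++ Y) = L + 1)
    (hL : 1 ≤ L) (hs1 : 1 ≤ s) (hsL : s ≤ L) (hLc : L ≤ c) (hc2 : c < 2 * L) (hsn : s ≤ n)
    (hn2 : n ≤ 2 * s) :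
    LS K ((O ++ u) ++ Y) (Finset.univ.filter fun g => lastPart Y (O ++ u) g ∈ Ball Y w) n c
      (arc L c n) := by
  obtain ⟨Λ, hΛF, hΛi, hΛt⟩ := hLam L c n ρ hρ (by omega) hLc h7 h16
  obtain ⟨σ, τ, lam, ctx⟩ := hCxB u n c ρ (arc L c n) Λ hu hlen hρ (by omega) (by omega)
    (by omega) hΛF hΛi hΛt
  have hP1 := hPSB u n c ρ (arc L c n) Λ σ τ lam ctx
  have hP2 := hPLL u O o n c (arc L c n) σ τ _ _ lam hP1
  have hP3 := hPLR Y (O ++ u) w n c (arc L c n) _ _ _ _ _ hP2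
  obtain ⟨lam', hS⟩ := hLift ((O ++ u) ++ Y) [] () n c (arc L c n) _ _ _ _ _
    (Finset.univ.filter fun g : Grid ((O ++ u) ++ Y) => lastPart Y (O ++ u) g ∈ Ball Y w) hP3
    (fun i => by rw [hArcCard L c n i (by omega) hLc, List.nil_append, hD]) (by omega) (by omega)
    (fun i g hg a p hp => by
      have h1 : lastPart Y (O ++ u) g ∈ Ball Y w := (mem_Ball_app Y (O ++ u) _ w g hg).2
      rw [← app_parts Y (O ++ u) g] at hp
      have h2 := ((hBxA Y (O ++ u) _ _ _ _ p).1.1 hp).2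
      refine Finset.mem_filter.2 ⟨Finset.mem_univ _, ?_⟩
      change lastPart Y (O ++ u) p ∈ Ball Y w
      rcases (hBxA [] Y (lastPart Y (O ++ u) g) w () () (app [] Y w ())).2.1 h1 _ h2 with h3 | h3
      · rw [h3]
        exact h1
      · rw [h3]
        exact self_mem_Ball Y w)
    (fun i a p hp o' ho' => by
      have h2 := ((hBxA Y (O ++ u) _ _ _ _ p).1.1 hp).2
      refine Finset.mem_filter.2 ⟨Finset.mem_univ _, ?_⟩
      change lastPart Y (O ++ u) p ∈ Ball Y w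
      rw [(hBxA [] Y w w () () (app [] Y w ())).2.2.1 _ h2]
      exact self_mem_Ball Y w)
  exact hLSy K _ _ n c _ _ _ _ lam' hS

end FinBAux

theorem pFinB : S_Near → S_ArcCard → S_Lam → S_Rho → S_CxB → S_PSB → S_PLL → S_PLR → S_Lift →
    S_LSy → S_BxA → S_GoB → S_FinB := by
  intro hNear hArcCard hLam _ hCxB hPSB hPLL hPLR hLift hLSy hBxA hGoB
  intro K _ _ O u M z L ρ c r hO hu hM hz hlen hρ h4 h7 h16 hD hD2 hD3 hDz hG hLc h3c hrc
  have hρ16 : 16 ≤ 2 ^ (ρ - 1) := le_trans (by omega) h16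
  have h2ρ : 2 ^ (ρ - 1) ≤ 2 ^ ρ := Nat.pow_le_pow_right (by norm_num) (by omega)
  have hL : 24 ≤ L := by omega
  obtain ⟨o⟩ := nonempty_grid O hO
  obtain ⟨w⟩ := nonempty_grid (M ++ z) (by
    intro a ha
    rcases List.mem_append.1 ha with h | h
    · exact hM a h
    · exact hz a h)
  have hT : ∀ a ∈ O ++ u, 1 ≤ a := by
    intro a ha
    rcases List.mem_append.1 ha with h | h
    · exact hO a h
    · exact le_trans (by norm_num) (hu a h)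
  obtain ⟨hGd, hΩ⟩ := hGoB K (O ++ u) M z w (L + 1) hT hM hD.le hD2 hD3 hDz hG
  obtain ⟨hn1, hn2⟩ := FinBAux.nums L c _ _ hL hLc h3c hΩ
  refine hNear K ((O ++ u) ++ (M ++ z)) L c r hD (by omega) hLc hrc ?_
  intro s n c' hs hsL hLc' hc' hsn hn hnc
  exact ⟨_, hGd _ hn1, hn2, FinBAux.ls K hArcCard hLam hCxB hPSB hPLL hPLR hLift hLSy hBxA O u
    (M ++ z) L ρ s n c' o w hu hlen hρ h4 h7 h16 hD (by omega) hs hsL hLc' hc' hsn hn⟩

end Pool.Agent.Lib.MP_635d71_ag.Fr
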