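import Pool.Agent.Lib.MP_635d71_ag.Fr.Spec

/-!
# Free largest factor, module LSy (helper66)
-/

set_option autoImplicit false

open Module Submodule

namespace Pool.Agent.Lib.MP_635d71_ag.Fr

theorem pLSy : S_BoxE → S_LS1 → S_LS2 → S_LSy := by
  classical
  intro hBox hLS1 hLS2 K _ l Ω n c F σ τ FT lam h
  obtain ⟨Φ, hΦ1, hΦ2, hΦ3⟩ := hLS1 K l Ω n c F σ τ FT lam h
  have hcov := hLS2 K l Ω n c F σ τ FT lam h
  obtain ⟨tgt, htgt⟩ : ∃ tgt : Finset (Grid l), tgt = Finset.univ.image τ := ⟨_, rfl⟩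
  have hmem : ∀ g, g ∈ tgt ↔ TG l τ g := by
    intro g
    rw [htgt]
    simp only [Finset.mem_image, Finset.mem_univ, true_and]
    constructor
    · rintro ⟨a, ha⟩
      exact ⟨a, ha.symm⟩
    · rintro ⟨a, ha⟩
      exact ⟨a, ha.symm⟩
  have htc : tgt.card = c := by
    rw [htgt, Finset.card_image_of_injective _ h.tinj, Finset.card_univ, Fintype.card_fin]
  have hsub : tgt ⊆ Ω := by
    intro g hg
    obtain ⟨a, rfl⟩ := (hmem g).1 hg
    exact h.htar a
  obtain ⟨S, hS⟩ : ∃ S : Finset (Grid l), S = Ω \ tgt := ⟨_, rfl⟩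
  have hSm : ∀ g, g ∈ S ↔ g ∈ Ω ∧ ¬ TG l τ g := by
    intro g
    rw [hS, Finset.mem_sdiff, hmem]
  have hcard : S.card + c = Ω.card := by
    have h1 := Finset.card_sdiff_add_card_eq_card hsub
    rw [hS]
    omega
  have hNSt : ∀ g, NS l σ g → ¬ TG l τ g := by
    rintro g ⟨i, hi, -⟩ ⟨a, rfl⟩
    exact h.st i a hi
  have hNSΩ : ∀ g, NS l σ g → g ∈ Ω := by
    rintro g ⟨i, hi, -⟩
    exact h.hball i hi
  have hσS : ∀ i, σ i ∈ S := by
    intro i
    rw [hSm]
    refine ⟨h.hball i (self_mem_Ball l (σ i)), ?_⟩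
    rintro ⟨a, ha⟩
    have h1 := h.st i a
    rw [← ha] at h1
    exact h1 (self_mem_Ball l (σ i))
  have hσN : ∀ i, ¬ NS l σ (σ i) := by
    rintro i ⟨j, hj, hne⟩
    exact hne (congrArg σ (h.ss i j hj))
  obtain ⟨p, hp1, hp2⟩ : ∃ p : Grid l → Coord l → K,
      (∀ g, NS l σ g → p g = bpt K l g (τ (lam g))) ∧ ∀ g, ¬ NS l σ g → p g = cpt l g :=
    ⟨fun g => if NS l σ g then bpt K l g (τ (lam g)) else cpt l g, fun g hg => if_pos hg,
      fun g hg => if_neg hg⟩
  obtain ⟨q⟩ : Nonempty (Fin S.card ≃ S) := ⟨S.equivFin.symm⟩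
  have hy : ∀ g (hg : g ∈ S), E l (p g) ∈ span K (Set.range fun a => E l (p (q a).1)) := by
    intro g hg
    refine subset_span ⟨q.symm ⟨g, hg⟩, ?_⟩
    show E l (p (q (q.symm ⟨g, hg⟩)).1) = E l (p g)
    rw [Equiv.apply_symm_apply]
  refine ⟨S.card, σ, fun a => p (q a).1, fun i => q.symm ⟨σ i, hσS i⟩, Φ, hcard, ?_, ?_, h.hball,
    ?_, ?_, ?_, hΦ3⟩
  · intro i j hij
    have h1 := q.symm.injective hij
    have h2 : σ i = σ j := congrArg Subtype.val h1
    refine h.ss i j ?_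
    rw [h2]
    exact self_mem_Ball l (σ j)
  · intro i
    show p (q (q.symm ⟨σ i, hσS i⟩)).1 = cpt l (σ i)
    rw [Equiv.apply_symm_apply]
    exact hp2 _ (hσN i)
  · intro a
    have hg := ((hSm _).1 (q a).2).1
    rw [mem_coordSub]
    intro g' hg'
    by_cases hN : NS l σ (q a).1
    · show E l (p (q a).1) g' = 0
      rw [hp1 _ hN, (hBox K l _ _ g').1, if_neg]
      intro hbox
      obtain ⟨i, hi, hne⟩ := hN
      exact hg' (h.hbox i _ hi hne hbox)
    · show E l (p (q a).1) g' = 0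
      rw [hp2 _ hN, E_cpt, Pi.single_eq_of_ne]
      rintro rfl
      exact hg' hg
  · rw [linearIndependent_iff_card_le_finrank_span, Fintype.card_fin, Set.finrank]
    have h1 : coordSub K Ω ≤ span K (Set.range fun a => E l (p (q a).1)) ⊔
        span K (Set.range fun a : Fin c => (Pi.single (τ a) 1 : Grid l → K)) := by
      refine hcov.trans (sup_le (sup_le ?_ ?_) ?_)
      · rw [span_le]
        rintro f ⟨g, hg1, hg2, hg3, rfl⟩
        refine mem_sup_left ?_
        have h2 := hy g ((hSm g).2 ⟨hg1, hg3⟩)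
        rw [hp2 g hg2, E_cpt] at h2
        exact h2
      · rw [span_le]
        rintro f ⟨g, hg, rfl⟩
        refine mem_sup_left ?_
        have h2 := hy g ((hSm g).2 ⟨hNSΩ g hg, hNSt g hg⟩)
        rw [hp1 g hg] at h2
        exact h2
      · rw [span_le]
        rintro f ⟨a, rfl⟩
        exact mem_sup_right (subset_span ⟨a, rfl⟩)
    have h2 := Submodule.finrank_mono h1
    rw [finrank_coordSub] at h2
    have h3 := Submodule.finrank_add_le_finrank_add_finrank
      (span K (Set.range fun a => E l (p (q a).1)))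
      (span K (Set.range fun a : Fin c => (Pi.single (τ a) 1 : Grid l → K)))
    have h4 := finrank_range_le_card (R := K) (fun a : Fin c => (Pi.single (τ a) 1 : Grid l → K))
    rw [Set.finrank, Fintype.card_fin] at h4
    show S.card ≤ finrank K ↥(span K (Set.range fun a => E l (p (q a).1)))
    omega
  · intro a
    obtain ⟨hg1, hg2⟩ := (hSm _).1 (q a).2
    by_cases hN : NS l σ (q a).1
    · show Φ (E l (p (q a).1)) = 0
      rw [hp1 _ hN]
      exact hΦ2 _ hN
    · show Φ (E l (p (q a).1)) = 0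
      rw [hp2 _ hN, E_cpt]
      exact hΦ1 _ hN hg2

end Pool.Agent.Lib.MP_635d71_ag.Fr
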