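import Pool.Agent.Lib.MP_635d71_ag.Fr.Spec

/-!
# Free largest factor: `Num`
-/

set_option autoImplicit false

open Module Submodule

namespace Pool.Agent.Lib.MP_635d71_ag.Fr

namespace NumAux

theorem le_of_sq {a b : ℕ} (h : a * a ≤ b * b) : a ≤ b := by
  by_contra hc
  have : b < a := by omega
  nlinarith

end NumAux

theorem pNum : S_Num := by
  intro L hL
  obtain ⟨m, hm⟩ : ∃ m, m = Nat.sqrt (L / 8) := ⟨_, rfl⟩
  obtain ⟨v, hv⟩ : ∃ v, v = Nat.sqrt (2 * L) := ⟨_, rfl⟩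
  have hm1 : m * m ≤ L / 8 := by rw [hm]; exact Nat.sqrt_le _
  have hm2 : L / 8 < (m + 1) * (m + 1) := by rw [hm]; exact Nat.lt_succ_sqrt _
  have hv1 : v * v ≤ 2 * L := by rw [hv]; exact Nat.sqrt_le _
  have hv2 : 2 * L < (v + 1) * (v + 1) := by rw [hv]; exact Nat.lt_succ_sqrt _
  have hm3 : 8 * (m * m) ≤ L := by omega
  clear hm hv
  -- the product of `16 m` and `v`
  have hmv : 2 * (m * v) ≤ L := by
    refine NumAux.le_of_sq ?_
    have h1 : 8 * (m * m) * (v * v) ≤ L * (2 * L) := Nat.mul_le_mul hm3 hv1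
    nlinarith
  have hw : (16 * m + v) * (16 * m + v) ≤ 50 * L := by nlinarith
  have h66 : 66 * (16 * m + v) ≤ 4 * L := by
    refine NumAux.le_of_sq ?_
    nlinarith
  have h14 : 14 * v ≤ L := by
    refine NumAux.le_of_sq ?_
    nlinarith
  obtain ⟨X, hX⟩ : ∃ X, X = 2 * ((m + 1) / 2) + 1 := ⟨_, rfl⟩
  have hX1 : m + 1 ≤ X := by omega
  have hX2 : X ≤ m + 2 := by omega
  have hXX1 : (m + 1) * (m + 1) ≤ X * X := Nat.mul_le_mul hX1 hX1
  have hXX2 : X * X ≤ (m + 2) * (m + 2) := Nat.mul_le_mul hX2 hX2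
  have hXX3 : X * X ≤ m * m + 4 * m + 4 := by nlinarith
  refine ⟨X, v + 1, by omega, by omega, by omega, by omega, ?_, by omega, by omega⟩
  have h1 : 16 * X + (v + 1) ≤ 16 * m + v + 33 := by omega
  calc (16 * X + (v + 1)) ^ 2 ≤ (16 * m + v + 33) ^ 2 := Nat.pow_le_pow_left h1 2
    _ ≤ 55 * (L + 1) := by nlinarith

end Pool.Agent.Lib.MP_635d71_ag.Fr
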