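import Pool.Agent.Lib.MP_635d71_ag.Fr.Spec

/-!
# Free largest factor: Ps1, the simple fields of the partial label system
-/

set_option autoImplicit false

open Module Submodule

namespace Pool.Agent.Lib.MP_635d71_ag.Fr

namespace Ps1Aux

theorem third : ∀ d d' : Fin 3, ∃ e, e ≠ d ∧ e ≠ d' := by decide

theorem interval {X k k' y : ℕ} (h1 : k * X ≤ y) (h2 : y < k * X + X) (h3 : k' * X ≤ y)
    (h4 : y < k' * X + X) : k = k' := by
  rcases lt_trichotomy k k' with h | h | h
  · have := Nat.mul_le_mul_right X (Nat.succ_le_of_lt h)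
    rw [Nat.succ_mul] at this
    omega
  · exact h
  · have := Nat.mul_le_mul_right X (Nat.succ_le_of_lt h)
    rw [Nat.succ_mul] at this
    omega

theorem sgf_lt (hSg : S_Sg) {X B n : ℕ} (hB : 1 ≤ B) (hBX : B ≤ X * X) (hn : n ≤ 16 * B)
    (i : Fin n) (d : Fin 3) : sgf X B i.val d < 16 * X := by
  have h1 := ((hSg X B i.val i.val hB hBX).1 d).2
  have h2 : i.val / B < 16 := Nat.div_lt_of_lt_mul (by have := i.isLt; linarith)
  have h3 : i.val / B * X + X ≤ 16 * X := by
    rw [← Nat.succ_mul]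
    exact Nat.mul_le_mul_right X (Nat.succ_le_of_lt h2)
  omega

theorem mem_TIW (s3 s1 s2 n B X : ℕ) (g : Grid [s3, s1, s2]) : g ∈ TIW s3 s1 s2 n B X ↔
    (∃ (i : Fin n) (d : Fin 3), (∀ e, e ≠ d → ltr g e = sgf X B i.val e) ∧
      ltr g d ≠ sgf X B i.val d) ∧ ∃ k, ∀ e, k * X ≤ ltr g e ∧ ltr g e < k * X + X := by
  unfold TIW
  simp only [Finset.mem_filter, Finset.mem_univ, true_and]

theorem mem_FTW (s3 s1 s2 n B X R : ℕ) (g : Grid [s3, s1, s2]) : g ∈ FTW s3 s1 s2 n B X R ↔
    ∃ (i : Fin n) (d : Fin 3), (∀ e, e ≠ d → ltr g e = sgf X B i.val e) ∧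
      16 * X ≤ ltr g d ∧ ltr g d < 16 * X + R := by
  unfold FTW
  simp only [Finset.mem_filter, Finset.mem_univ, true_and]

end Ps1Aux

open Ps1Aux in
theorem pPs1 : S_LtB → S_Sg → S_Tg → S_Ps1 := by
  intro hL hSg hTg s3 s1 s2 L c n B X R b0 h σ τ lam hC
  have hB := hC.B1
  have hBX := hC.BX
  have hlt : ∀ (i : Fin n) (d : Fin 3), sgf X B i.val d < 16 * X := sgf_lt hSg hB hBX hC.nB
  have hball : ∀ (w : Grid [s3, s1, s2]) (i : Fin n), w ∈ Ball [s3, s1, s2] (σ i) ↔
      ∃ d : Fin 3, ∀ e, e ≠ d → ltr w e = sgf X B i.val e := by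
    intro w i
    rw [(hL s3 s1 s2 w (σ i)).1, hC.hσ i]
  have hss : ∀ i j, σ i ∈ Ball [s3, s1, s2] (σ j) → i = j := by
    intro i j hij
    obtain ⟨d, hd⟩ := (hball _ _).1 hij
    rw [hC.hσ i] at hd
    exact Fin.ext ((hSg X B i.val j.val hB hBX).2 d hd)
  have heq : ∀ (w : Grid [s3, s1, s2]) (i : Fin n), (∀ d, ltr w d = sgf X B i.val d) → w = σ i := by
    intro w i hw
    rw [(hL s3 s1 s2 w (σ i)).2.2, hC.hσ i]
    exact hw
  refine ⟨?_, hss, ?_, ?_, ?_⟩
  · intro w hw
    rcases Finset.mem_union.1 hw with hw | hw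
    · obtain ⟨i, d, h1, h2, h3⟩ := (mem_FTW s3 s1 s2 n B X R w).1 hw
      refine ⟨i, (hball w i).2 ⟨d, h1⟩, ?_⟩
      rintro rfl
      rw [hC.hσ i] at h2
      have := hlt i d
      omega
    · obtain ⟨⟨i, d, h1, h2⟩, _⟩ := (mem_TIW s3 s1 s2 n B X w).1 hw
      refine ⟨i, (hball w i).2 ⟨d, h1⟩, ?_⟩
      rintro rfl
      rw [hC.hσ i] at h2
      exact h2 rfl
  · intro a a' haa
    have hR : 1 ≤ R := by
      rcases Nat.eq_zero_or_pos R with h0 | h0
      · have h1 := hC.cR
        have h2 := a.isLt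
        rw [h0] at h1
        omega
      · exact h0
    have h1 : tgf (16 * X) R a.val = tgf (16 * X) R a'.val := by
      rw [← hC.hτ a, ← hC.hτ a', haa]
    exact Fin.ext ((hTg (16 * X) R hR).2.1 a.val a'.val (lt_of_lt_of_le a.isLt hC.cR)
      (lt_of_lt_of_le a'.isLt hC.cR) h1)
  · intro i a hmem
    have hR : 1 ≤ R := by
      rcases Nat.eq_zero_or_pos R with h0 | h0
      · have h1 := hC.cR
        have h2 := a.isLt
        rw [h0] at h1
        omega
      · exact h0
    obtain ⟨d, hd⟩ := (hball _ _).1 hmem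
    obtain ⟨e, he, _⟩ := third d d
    have h1 := hd e he
    rw [hC.hτ a] at h1
    have h2 := ((hTg (16 * X) R hR).1 a.val e).1
    have h3 := hlt i e
    omega
  · intro i j w hi hj hw
    obtain ⟨d, hd⟩ := (hball w i).1 hi
    obtain ⟨d', hd'⟩ := (hball w j).1 hj
    by_cases hdd : d = d'
    · subst hdd
      exact Fin.ext ((hSg X B i.val j.val hB hBX).2 d
        (fun e he => (hd e he).symm.trans (hd' e he)))
    by_cases hwi : ltr w d = sgf X B i.val d
    · have h1 : w = σ i := heq w i (fun e => by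
        by_cases he : e = d
        · rw [he]; exact hwi
        · exact hd e he)
      rw [h1] at hj
      exact hss i j hj
    · exfalso
      apply hw
      refine Finset.mem_union_right _ ((mem_TIW s3 s1 s2 n B X w).2
        ⟨⟨i, d, hd, hwi⟩, i.val / B, ?_⟩)
      obtain ⟨e0, he0, he0'⟩ := third d d'
      have hk : i.val / B = j.val / B := by
        have h1 := (hSg X B i.val i.val hB hBX).1 e0
        have h2 := (hSg X B j.val j.val hB hBX).1 e0
        rw [← hd e0 he0] at h1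
        rw [← hd' e0 he0'] at h2
        exact interval h1.1 h1.2 h2.1 h2.2
      intro e
      by_cases he : e = d
      · rw [he, hd' d hdd, hk]
        exact (hSg X B j.val j.val hB hBX).1 d
      · rw [hd e he]
        exact (hSg X B i.val i.val hB hBX).1 e

end Pool.Agent.Lib.MP_635d71_ag.Fr
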