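import Pool.Agent.Lib.MP_635d71_ag.Fr.Spec

/-!
# Free largest factor: simultaneous generic points for all slices
-/

set_option autoImplicit false

open Module Submodule

namespace Pool.Agent.Lib.MP_635d71_ag.Fr

namespace SlFAux

variable {K : Type} [Field K]

/-- The index set of all the points. -/
abbrev Ix (s a N : ℕ) : Type := (Fin s × Fin a) ⊕ Fin N

/-- The vectors of slice `j`. -/
def vec (l : List ℕ) (s a N : ℕ) (j : Fin s) :
    (Fin a × TI l) ⊕ ({p : Fin s × Fin a // p.1 ≠ j} ⊕ Fin N) →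
      (Ix s a N → Coord l → K) → Grid l → K := fun k z =>
  Sum.elim (fun p => TVec l (z (Sum.inl (j, p.1))) p.2)
    (Sum.elim (fun p => E l (z (Sum.inl p.1))) (fun i => E l (z (Sum.inr i)))) k

theorem span_vec (l : List ℕ) (s a N : ℕ) (j : Fin s) (M : Submodule K (Grid l → K))
    (z : Ix s a N → Coord l → K) :
    M ⊔ (⨆ b, T l (z (Sum.inl (j, b)))) ⊔
      span K (Set.range fun i : {p : Fin s × Fin a // p.1 ≠ j} ⊕ Fin N =>
        E l (z (Sum.elim (fun p => Sum.inl p.1) Sum.inr i))) =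
      M ⊔ span K (Set.range fun k => vec l s a N j k z) := by
  rw [sup_assoc]
  congr 1
  have h1 : (Set.range fun k => vec l s a N j k z) =
      (⋃ b, Set.range (TVec l (z (Sum.inl (j, b))))) ∪
        Set.range (fun i : {p : Fin s × Fin a // p.1 ≠ j} ⊕ Fin N =>
          E l (z (Sum.elim (fun p => Sum.inl p.1) Sum.inr i))) := by
    ext g
    simp only [Set.mem_range, Set.mem_union, Set.mem_iUnion]
    constructor
    · rintro ⟨p | i | i, rfl⟩
      · exact Or.inl ⟨p.1, p.2, rfl⟩
      · exact Or.inr ⟨Sum.inl i, rfl⟩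
      · exact Or.inr ⟨Sum.inr i, rfl⟩
    · rintro (⟨b, t, rfl⟩ | ⟨i | i, rfl⟩)
      · exact ⟨Sum.inl (b, t), rfl⟩
      · exact ⟨Sum.inr (Sum.inl i), rfl⟩
      · exact ⟨Sum.inr (Sum.inr i), rfl⟩
  rw [h1, span_union, span_iUnion]
  rfl

theorem linePoly_vec (l : List ℕ) (s a N : ℕ) (j : Fin s)
    (k : (Fin a × TI l) ⊕ ({p : Fin s × Fin a // p.1 ≠ j} ⊕ Fin N)) :
    LinePoly K (vec (K := K) l s a N j k) := by
  rcases k with p | p | i
  · exact linePoly_TVec l (LinearMap.proj (R := K) (φ := fun _ => Coord l → K)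
      (Sum.inl (j, p.1) : Ix s a N)) p.2
  · exact linePoly_E l (LinearMap.proj (R := K) (φ := fun _ => Coord l → K)
      (Sum.inl p.1 : Ix s a N))
  · exact linePoly_E l (LinearMap.proj (R := K) (φ := fun _ => Coord l → K)
      (Sum.inr i : Ix s a N))

theorem card_ne (s a N : ℕ) (j : Fin s) :
    Fintype.card ({p : Fin s × Fin a // p.1 ≠ j} ⊕ Fin N) = (s - 1) * a + N := by
  classical
  have h : (Finset.univ.filter fun p : Fin s × Fin a => p.1 ≠ j) =
      (Finset.univ.erase j) ×ˢ (Finset.univ : Finset (Fin a)) := by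
    ext ⟨x, y⟩
    simp
  rw [Fintype.card_sum, Fintype.card_fin, Fintype.card_subtype, h, Finset.card_product,
    Finset.card_erase_of_mem (Finset.mem_univ j), Finset.card_univ, Finset.card_univ,
    Fintype.card_fin, Fintype.card_fin]

end SlFAux

open SlFAux in
theorem pSlF : S_SlF := by
  classical
  intro K _ _ l Ω s a N hG hn
  have hfin : finrank K (Grid l → K) = l.prod := by
    rw [Module.finrank_fintype_fun_eq_card, card_grid]
  obtain ⟨z, hz⟩ := Big.exists_forall (K := K)
    (fun j : Fin s => {z : Ix s a N → Coord l → K | l.prod ≤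
      finrank K ↥(coordSub K Ω ⊔ span K (Set.range fun k => vec l s a N j k z))})
    (fun j => big_rank (coordSub K Ω) (vec l s a N j) (linePoly_vec l s a N j) _) (by
      intro j
      obtain ⟨x, hx⟩ := hG.finrank_sup (coordSub K Ω) le_rfl
      obtain ⟨w, hw⟩ := point_lemma' l (coordSub K Ω ⊔ ⨆ b, T l (x b))
        ({p : Fin s × Fin a // p.1 ≠ j} ⊕ Fin N)
      let z : Ix s a N → Coord l → K := Sum.elim
        (fun p => if h : p.1 = j then x p.2 else w (Sum.inl ⟨p, h⟩)) (fun i => w (Sum.inr i))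
      refine ⟨z, ?_⟩
      change l.prod ≤ finrank K _
      rw [← span_vec]
      have hz1 : ∀ b, z (Sum.inl (j, b)) = x b := fun b => by
        simp only [z, Sum.elim_inl, dif_pos]
      have hz2 : (fun i : {p : Fin s × Fin a // p.1 ≠ j} ⊕ Fin N =>
          E l (z (Sum.elim (fun p => Sum.inl p.1) Sum.inr i))) = fun i => E l (w i) := by
        funext i
        rcases i with ⟨p, hp⟩ | i
        · simp only [z, Sum.elim_inl, dif_neg hp]
        · rfl
      have hz3 : (⨆ b, T l (z (Sum.inl (j, b)))) = ⨆ b, T l (x b) := by simp only [hz1]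
      rw [hz2, hz3]
      refine le_trans ?_ hw
      rw [card_ne]
      rw [finrank_coordSub] at hx
      refine le_min le_rfl ?_
      omega)
  refine ⟨fun j b => z (Sum.inl (j, b)), fun i => z (Sum.inr i), fun j => ?_⟩
  have h1 := hz j
  change l.prod ≤ finrank K _ at h1
  rw [← span_vec] at h1
  have h2 : coordSub K Ω ⊔ (⨆ b, T l (z (Sum.inl (j, b)))) ⊔
      span K (Set.range fun i : {p : Fin s × Fin a // p.1 ≠ j} ⊕ Fin N =>
        E l (z (Sum.elim (fun p => Sum.inl p.1) Sum.inr i))) = ⊤ := by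
    apply Submodule.eq_top_of_finrank_eq
    apply le_antisymm (Submodule.finrank_le _)
    rw [hfin]
    exact h1
  rw [sup_assoc _ (span K _) (span K _), ← span_union, ← h2]
  congr 2
  ext g
  simp only [Set.mem_union, Set.mem_range]
  constructor
  · rintro (⟨j', b, hj, rfl⟩ | ⟨i, rfl⟩)
    · exact ⟨Sum.inl ⟨(j', b), hj⟩, rfl⟩
    · exact ⟨Sum.inr i, rfl⟩
  · rintro ⟨⟨p, hp⟩ | i, rfl⟩
    · exact Or.inl ⟨p.1, p.2, hp, rfl⟩
    · exact Or.inr ⟨i, rfl⟩

end Pool.Agent.Lib.MP_635d71_ag.Fr
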