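import Pool.Agent.Lib.MP_635d71_ag.Fr.Base
import Pool.Agent.Lib.MP_635d71_ag.AGUpper

/-!
# Free largest factor: statements with complete proofs

THEOREM.  `k >= 4`, `i` an index, `q = n_i + 1`, `L = sum_{l != i} n_l`, `P = prod_{l != i} (n_l + 1)`,
`S` three other indices with `n_j <= n_i` and `1600 (L + 1) <= (n_j + 1)^2` for `j` in `S`.  Then for
all `r` the cone over the `r`-th secant variety has dimension `dimF q P L r`.

PLAN.  `Ind`: induction over the large factor in steps of `L`, the beginning are the sizes `s <= L`,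
where `n = floor(c s / L)` or `ceil(c s / L)` points (`c = P - r`) have tangent spaces (`BR`).
`Core`: all slices are filled by generic points up to a finite set `Ω` of words; in `Ω` a linear
system `LS` of `n'` special words gives the rest.  `arc`: cyclic intervals of length `L` in `c' < 2L`
labels.  `LSys`, `PSys`: label systems; `Lift`: from `z` to `O ++ z`; `Ctx`: the label system for
three large factors.

All modules are independent: the statements used are hypotheses.  Module `X` is the file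
`Pool/Agent/Lib/MP_635d71_ag/Fr/X.lean` (first line: import of this file), namespace
`Pool.Agent.Lib.MP_635d71_ag.Fr`, `theorem pX : S_Y → S_Z → … → S_X`; the statements used are listed
as (from …), in this order.  Library: `Fmt`, `Filt` (`sum_finrank_le`, `finrank_coordSub`,
`finrank_sup_ge`), `Big` (`Big.inter_nonempty`, `Big.exists_forall`, `big_rank`, `LinePoly`), `Point`
(`linePoly_E`, `linePoly_TVec`, `ten_mem_T`, `ten_E_mem_T`, `E_mem_T`, `ten_single`, `E_cpt`,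
`T_cpt`, `mem_Ball_cons`, `mem_Ball_comm`, `self_mem_Ball`, `card_Ball`, `finrank_T_le`,
`one_le_D`), `Step` (`point_lemma'`, `slices`, `slice`, `sum_card_slice`, `Good.finrank_sup`),
`MainB`, `App` (`app`, `firstPart`, `lastPart`, `mem_Ball_app'`, `eq_app_iff`, `app_parts`),
`GoodInd` (`cset`, `mem_cset`, `card_cset_le`, `good_ind`, `Good.mono`), `GoodBase` (`base_flow`).
-/

set_option autoImplicit false

open Module Submodule

namespace Pool.Agent.Lib.MP_635d71_ag.Fr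

/-! ## Part I: linear algebra -/

/-- **Perm.**  The set of the points with tangent spaces can be prescribed.  Proof: compose `x`, `z`
with a permutation of `Fin r` which maps `A` onto the given set of `BR` (equal cardinality). -/
def S_Perm : Prop := ∀ (K : Type) [Field K] (s : ℕ) (l : List ℕ) (n r m : ℕ),
  BR K s l n r m → ∀ A : Finset (Fin r), A.card = n →
    ∃ (x : Fin r → Coord l → K) (z : Fin r → Fin s → K), m ≤ finrank K (Tot s l A x z)

/-- **Drop.**  Proof: `i = 1` is enough.  If `l.prod = 0` everything is zero (`Grid l` is empty,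
`card_grid`).  Otherwise fix `A`, `z`; the conditions on `x` (i) `m + L <= finrank Tot` and (ii)
`E l (x a) ≠ 0`, i.e. `1 <= finrank (span {E l (x a)})`, for all `a`, define nonempty big sets
(`big_rank`; `Tot` is the span of the vectors `ten (Pi.single j 1) (E l (x a))` and
`ten (z a) (TVec l (x a) i)`, `LinePoly` by `linePoly_E`, `linePoly_TVec`, multiplied by constants; for
(ii) `E_cpt`), so they have a common point.  Remove `a` from `A`: `finrank (zT (z a) (x a)) ≤ L + 1`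
(`finrank_T_le`) and, if `z a ≠ 0`, the nonzero vector `z a ⊗ E` is in it and in `fib (x a)` (if
`z a = 0` the space is `0`), so the dimension decreases by at most `L`. -/
def S_Drop : Prop := ∀ (K : Type) [Field K] [Infinite K] (s : ℕ) (l : List ℕ) (L n r m i : ℕ),
  D l = L + 1 → BR K s l (n + i) r (m + i * L) → BR K s l n r m

/-- **Add.**  Proof: enlarge `A` (`Finset.exists_superset_card_eq`). -/
def S_Add : Prop := ∀ (K : Type) [Field K] (s : ℕ) (l : List ℕ) (n n' r m : ℕ),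
  n ≤ n' → n' ≤ r → BR K s l n r m → BR K s l n' r m

/-- **TwoA.**  Proof: both conditions on `x` (with `A, z` and `A', z'` fixed) define big nonempty
sets (`big_rank`, see `Drop`); `Big.inter_nonempty`. -/
def S_TwoA : Prop := ∀ (K : Type) [Field K] [Infinite K] (s s' : ℕ) (l : List ℕ) (r m m' : ℕ)
  (A A' : Finset (Fin r)) (x x' : Fin r → Coord l → K) (z : Fin r → Fin s → K)
  (z' : Fin r → Fin s' → K), m ≤ finrank K (Tot s l A x z) → m' ≤ finrank K (Tot s' l A' x' z') →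
    ∃ y : Fin r → Coord l → K, m ≤ finrank K (Tot s l A y z) ∧ m' ≤ finrank K (Tot s' l A' y z')

/-- **TwoB.**  Proof: `w a = (z a, 0)` for `a ∈ A` and `(0, z' a)` otherwise (`Fin.append`).  The
two extension maps by zero `(Grid (s :: l) → K) → (Grid ((s + s') :: l) → K)` are injective, with
images of intersection zero, and map `Tot s l A x z` and `Tot s' l A' x z'` into
`Tot (s + s') l (A ∪ A') x w`. -/
def S_TwoB : Prop := ∀ (K : Type) [Field K] (s s' : ℕ) (l : List ℕ) (r : ℕ)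
  (A A' : Finset (Fin r)) (x : Fin r → Coord l → K) (z : Fin r → Fin s → K)
  (z' : Fin r → Fin s' → K), Disjoint A A' → ∃ w : Fin r → Fin (s + s') → K,
    finrank K (Tot s l A x z) + finrank K (Tot s' l A' x z') ≤
      finrank K (Tot (s + s') l (A ∪ A') x w)

/-- **Two** (from `Perm`, `TwoA`, `TwoB`).  Proof: `A = {a < n}`, `A' = {n ≤ a < n + n'}`. -/
def S_Two : Prop := ∀ (K : Type) [Field K] [Infinite K] (s s' : ℕ) (l : List ℕ) (n n' r m m' : ℕ),
  n + n' ≤ r → BR K s l n r m → BR K s' l n' r m' → BR K (s + s') l (n + n') r (m + m')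

/-- **Full.**  Proof: `A = univ`; the tuples `cons (z a) (x a)`; `fib` and `zT` are contained in
`T (q :: l) (cons (z a) (x a))` (`ten_E_mem_T`, `ten_mem_T`). -/
def S_Full : Prop := ∀ (K : Type) [Field K] (q : ℕ) (l : List ℕ) (r m : ℕ),
  BR K q l r r m → Reach K (q :: l) r m

/-- **Ind** (from `Drop`, `Add`, `Two`, `Full`).  Proof: claim for all `q ≥ 1`: (i)
`BR q n r (r q + n L)` if `n ≤ r`, `n L ≤ c q`; (s) `BR q n r (P q)` if `n ≤ r`, `c q ≤ n L`.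
`q ≤ L`: (i) `n ≤ c q / L`, `Drop`; (s) `n ≥ (c q + (L - 1)) / L`, `Add`.  For `q = L` in the first
hypothesis: `BR L c r (P L)` (`c * L / L = c`, `r L + c L = P L`), by `Drop` `BR L n' r (r L + n' L)`
for `n' ≤ c`.  `q > L`: `Two` for `L` and `q - L`: (i) `n' = min n c` and `n - n'`,
(s) `n' = c` and `n - c` (`n ≥ c` as `n L ≥ c q ≥ c L`).  Strong induction on `q`.
Finally `n = r` and `Full`: `r (q + L) ≤ P q` iff `r L ≤ c q` (`P = r + c`). -/
def S_Ind : Prop := ∀ (K : Type) [Field K] [Infinite K] (l : List ℕ) (L c r : ℕ),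
  D l = L + 1 → 1 ≤ L → c ≤ r → r + c = l.prod →
  (∀ s, 1 ≤ s → s ≤ L → BR K s l (c * s / L) r (r * s + c * s / L * L)) →
  (∀ s, 1 ≤ s → s ≤ L → BR K s l ((c * s + (L - 1)) / L) r (l.prod * s)) →
  ∀ q, 1 ≤ q → Reach K (q :: l) r (min (r * (q + L)) (l.prod * q))

/-- **SlF** (simultaneous generic points for all slices).  Proof: as `slices` in `Step.lean`, with `N`
further points.  For every `j` the set of `(x, w)` with
`l.prod ≤ finrank (coordSub Ω ⊔ span (all the vectors of slice j))` is big (`big_rank` with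
`M = coordSub K Ω`) and nonempty: choose the points `x j` by `Good.finrank_sup` and the others by
`point_lemma'`: the dimension is at least `min l.prod (Ω.card + a * D l + (s - 1) * a + N)`. -/
def S_SlF : Prop := ∀ (K : Type) [Field K] [Infinite K] (l : List ℕ) (Ω : Finset (Grid l))
  (s a N : ℕ), Good K l a Ω → l.prod ≤ Ω.card + a * D l + (s - 1) * a + N →
  ∃ (x : Fin s → Fin a → Coord l → K) (w : Fin N → Coord l → K), ∀ j : Fin s,
    coordSub K Ω ⊔ (⨆ b, T l (x j b)) ⊔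
      span K {f | ∃ (j' : Fin s) (b : Fin a), j' ≠ j ∧ f = E l (x j' b)} ⊔
      span K (Set.range fun i => E l (w i)) = ⊤

/-- **ModL** (linear algebra).  Proof: `KΩ` = functions vanishing at `(j, g)`, `g ∉ Ω`,
= `coordSub` of a set with `s * Ω.card` elements.  `S ⊔ KΩ = ⊤` (every `ten (Pi.single j 1) f` is in
it), `H ≤ S ⊓ KΩ`, and `finrank (S ⊔ KΩ) + finrank (S ⊓ KΩ) = finrank S + finrank KΩ`. -/
def S_ModL : Prop := ∀ (K : Type) [Field K] (s : ℕ) (l : List ℕ) (Ω : Finset (Grid l))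
  (G : Fin s → Submodule K (Grid l → K)) (S H : Submodule K (Grid (s :: l) → K)),
  (∀ j, coordSub K Ω ⊔ G j = ⊤) → (∀ j, (G j).map (tenL (Pi.single j 1) l) ≤ S) → H ≤ S →
  (∀ f ∈ H, ∀ (j : Fin s) (g : Grid l), g ∉ Ω → f (j, g) = 0) →
    s * l.prod + finrank K H ≤ finrank K S + s * Ω.card

/-- **HRk.**  Proof: `Ψ h (a, j) = Φ (h (j, ·)) a` kills all `fib (y a)`, and the image of
`ten (z i) f`, `f ∈ T l (v i)`, `Φ f = e_a`, is `zf a (z i)`; rank-nullity for the restriction of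
`Ψ`; `finrank (⨆ fib (y a)) ≥ s N` by `sum_finrank_le` with all `W j = span (E l (y a))`. -/
def S_HRk : Prop := ∀ (K : Type) [Field K] (s : ℕ) (l : List ℕ) (N n c : ℕ)
  (y : Fin N → Coord l → K) (z : Fin n → Fin s → K) (v : Fin n → Coord l → K)
  (Φ : (Grid l → K) →ₗ[K] (Fin c → K)) (F : Fin n → Finset (Fin c)),
  LinearIndependent K (fun a => E l (y a)) → (∀ a, Φ (E l (y a)) = 0) →
  (∀ i, ∀ a ∈ F i, ∃ f ∈ T l (v i), Φ f = Pi.single a 1) →
    s * N + finrank K ↥(⨆ i, span K {f | ∃ a ∈ F i, f = zf a (z i)}) ≤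
      finrank K ↥((⨆ a, fib s l (y a)) ⊔ ⨆ i, zT l (z i) (v i))

/-- **Van.**  Proof: `sum_finrank_le` with `q := c`, `G := Fin s`, `W a` = span of the vectors
`(t i ^ j)_j` with `a ∈ F i`; any `min s d` of them are linearly independent (Vandermonde determinant
for the first `min s d` coordinates), so `finrank (W a) ≥ min s (deg F a)`. -/
def S_Van : Prop := ∀ (K : Type) [Field K] (s n c : ℕ) (t : Fin n → K)
  (F : Fin n → Finset (Fin c)), Function.Injective t →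
    ∑ a, min s (deg F a) ≤
      finrank K ↥(⨆ i, span K {f | ∃ a ∈ F i, f = zf a (fun j : Fin s => t i ^ (j : ℕ))})

/-- **Core** (from `SlF`, `ModL`, `HRk`, `Van`).  Proof: `LS` gives `N = Ω.card - c'` tuples `y`.  Let
`N0 = r - s a - N` (`s a ≤ L a ≤ c` and `2 c + Ω.card ≤ P`, so this is an honest difference);
`Ω.card + a (D l) + (s - 1) a + N0 = P` (`a L + r + c' = P`), so `SlF` gives `x j b`, `w`.  The `r`
points: `x j b` with `z = e_j` (with tangent spaces), `w` (without), `y` (tangent spaces for the `y (e i) =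
cpt l (σ i)`, `z i = (t i ^ j)_j`, `t` injective, `K` infinite).  `S = Tot`,
`G j = (⨆ T (x j b)) ⊔ span (E (x j' b)) ⊔ span (E (w i))`, `H = (⨆ fib (y a)) ⊔ ⨆ zT (z i) (cpt (σ i))`
(`T_cpt`, `Ball ⊆ Ω`).  `ModL`, `HRk`, `Van`: `finrank Tot ≥ s P - s Ω.card + s N + Σ`,
and `P - c' = r + a L`. -/
def S_Core : Prop := ∀ (K : Type) [Field K] [Infinite K] (l : List ℕ) (Ω : Finset (Grid l))
  (L c a c' s n r : ℕ) (F : Fin n → Finset (Fin c')), D l = L + 1 → c = a * L + c' →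
  r + c = l.prod → 1 ≤ s → s ≤ L → Good K l a Ω → 2 * c + Ω.card ≤ l.prod → LS K l Ω n c' F →
    BR K s l (s * a + n) r (s * (r + a * L) + ∑ t, min s (deg F t))

/-- **Near** (from `Core`, `ArcCard`, `ArcDeg`).  Proof: `a = c / L - 1`, `c' = c % L + L`,
`c = a L + c'`, `F = arc L c' n`.  First: `n = c' s / L`, `c s / L = s a + n`; `deg ≤ s`
(`deg c' < n L + c' ≤ c' s + c'`), so the sum is `Σ deg = Σ card (F i) = n L` (double count) and
`s (r + a L) + n L = r s + (s a + n) L`.  Second: `n = (c' s + (L - 1)) / L`, `n L ≥ c' s`,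
`deg ≥ s` (`c' s ≤ n L < deg c' + c'`), the sum is `c' s`, `s (r + a L + c') = s P`.
In both cases `s ≤ n ≤ 2 s`, `n ≤ c'`. -/
def S_Near : Prop := ∀ (K : Type) [Field K] [Infinite K] (l : List ℕ) (L c r : ℕ),
  D l = L + 1 → 1 ≤ L → L ≤ c → r + c = l.prod →
  (∀ s n c', 1 ≤ s → s ≤ L → L ≤ c' → c' < 2 * L → s ≤ n → n ≤ 2 * s → n ≤ c' →
    ∃ Ω : Finset (Grid l), Good K l (c / L - 1) Ω ∧ 2 * c + Ω.card ≤ l.prod ∧
      LS K l Ω n c' (arc L c' n)) →
  (∀ s, 1 ≤ s → s ≤ L → BR K s l (c * s / L) r (r * s + c * s / L * L)) ∧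
  (∀ s, 1 ≤ s → s ≤ L → BR K s l ((c * s + (L - 1)) / L) r (l.prod * s))

/-! ## Part II: arcs and labels -/

/-- **ArcCard.**  Proof: `x ↦ (a_i + x) % c` is injective on `x < L ≤ c`. -/
def S_ArcCard : Prop := ∀ (L c n : ℕ) (i : Fin n), 1 ≤ c → L ≤ c → (arc L c n i).card = L

/-- **ArcDeg.**  Proof: `a_i = i c / n < c` for `i < n`.  `t ∈ arc i` iff `a_i ≤ t < a_i + L` or
`t + c < a_i + L`.  The number of `i < n` with `a_i ≤ m` (`m < c`) is `ceil((m + 1) n / c)`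
(`i c / n ≤ m` iff `i c < (m + 1) n`).  So `deg t` is `ceil((t+1)n/c) - ceil((t+1-L)n/c)` if
`L ≤ t`, and `ceil((t+1)n/c) + n - ceil((t+1+c-L)n/c)` if `t < L`; as
`x ≤ ceil x < x + 1`, both differ from `n L / c` by less than one. -/
def S_ArcDeg : Prop := ∀ (L c n : ℕ) (t : Fin c), 1 ≤ n → L ≤ c →
  deg (arc L c n) t * c < n * L + c ∧ n * L < deg (arc L c n) t * c + c

/-- **Com** (labels common to the arcs of a cluster).  Proof: if no `i : Fin n` has `i / B = k`, any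
`g`.  Otherwise let `i1` be the largest one and `g = i1 c / n`.  For `i` in the cluster `i ≤ i1`,
`i1 - i ≤ B - 1 = s / 8` and `a_{i1} - a_i ≤ L / 4 + 1`: `a_{i1} n ≤ i1 c`, `i c < (a_i + 1) n`, so
`(a_{i1} - a_i - 1) n < (i1 - i) c ≤ (s / 8) c`, `8 (a_{i1} - a_i - 1) n < s c < 2 s L ≤ 2 n L`, so
`4 (a_{i1} - a_i - 1) < L`.  So `(g + x) % c = (a_i + (x + g - a_i)) % c` with `x + g - a_i < L`. -/
def S_Com : Prop := ∀ (L c n s k : ℕ), 1 ≤ s → s ≤ n → 1 ≤ L → L ≤ c → c < 2 * L →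
  ∃ g < c, ∀ i : Fin n, i.val / (s / 8 + 1) = k → ∀ x < L - L / 4 - 1, ∀ t : Fin c,
    t.val = (g + x) % c → t ∈ arc L c n i

/-- **Blk.**  Proof: the numbers `(g + x) % c`, `x < M` are `[g, min (g + M) c)` and
`[0, g + M - c)`.  If `g + M - c ≥ 3 R` (as integers) `b = 0`.  Otherwise `min (g + M) c - g ≥ 4 R`
(if `g + M ≤ c` it is `M ≥ 7 R`, otherwise it is `c - g > M - 3 R ≥ 4 R`) and `b = ceil(g / R)`:
`b R ≤ g + R - 1`, `(b + 3) R ≤ g + 4 R - 1`. -/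
def S_Blk : Prop := ∀ (c R M g : ℕ), 1 ≤ R → 7 * R ≤ M → M ≤ c → g < c →
  ∃ b, (b + 3) * R ≤ c ∧ ∀ t, b * R ≤ t → t < (b + 3) * R → ∃ x < M, t = (g + x) % c

/-- **Hin.**  Proof: the set of the `(g + x) % c`, `x < M`, has `M` elements, at most `3 R` of them
are in the block; enumerate the others. -/
def S_Hin : Prop := ∀ (c R M g b Y : ℕ), 3 * R + Y ≤ M → M ≤ c → g < c →
  ∃ h : ℕ → ℕ, (∀ e < Y, h e < c ∧ (∃ x < M, h e = (g + x) % c) ∧
    (h e < b * R ∨ (b + 3) * R ≤ h e)) ∧ ∀ e < Y, ∀ e' < Y, h e = h e' → e = e'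

/-- **Lab** (from `Com`, `Blk`, `Hin`).  Proof: `M = L - L / 4 - 1`, `b0 k` from `Blk` and `h k` from
`Hin` (`Y = X * X`) for the `g` of the cluster `k` in `Com`. -/
def S_Lab : Prop := ∀ (L c n s X R : ℕ), 1 ≤ s → s ≤ n → 1 ≤ L → L ≤ c → c < 2 * L → 1 ≤ R →
  7 * R ≤ L - L / 4 - 1 → 3 * R + X * X ≤ L - L / 4 - 1 →
    ∃ (b0 : ℕ → ℕ) (h : ℕ → ℕ → ℕ), LabData L c n (s / 8 + 1) X R b0 h

/-- **Num.**  Proof: `m = Nat.sqrt (L / 8)`, `X = 2 * ((m + 1) / 2) + 1` (`m + 1 ≤ X ≤ m + 2`),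
`v = Nat.sqrt (2 * L)`, `R = v + 1`.  `(m + 1)² > L / 8`; `(16 m)² ≤ 32 L`, `v² ≤ 2 L`, so
`16 m v ≤ 8 L`, `(16 m + v)² ≤ 50 L`, and `16 X + R ≤ 16 m + v + 33`, `66 (16 m + v) ≤ 4 L` as
`(66 (16 m + v))² ≤ 4356 * 50 L ≤ 16 L²` (`L ≥ 14000`), `1089 ≤ L`.  `7 R ≤ 7 v + 7`,
`X * X ≤ m² + 4 m + 4 ≤ L / 8 + 4 m + 4`. -/
def S_Num : Prop := ∀ L : ℕ, 14000 ≤ L → ∃ X R : ℕ, X % 2 = 1 ∧ L / 8 + 1 ≤ X * X ∧
  2 * L ≤ R * R ∧ 1 ≤ R ∧ (16 * X + R) ^ 2 ≤ 55 * (L + 1) ∧ 7 * R ≤ L - L / 4 - 1 ∧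
  3 * R + X * X ≤ L - L / 4 - 1

/-! ## Part III: the label system with three large factors -/

/-- **LtB** (letters).  Proof: `Grid [s3, s1, s2] = Fin s3 × Fin s1 × Fin s2 × Unit`,
`mem_Ball_cons`; `box` is a product; `Fin.forall_fin_succ`. -/
def S_LtB : Prop := ∀ (s3 s1 s2 : ℕ) (g g' : Grid [s3, s1, s2]),
  (g ∈ Ball [s3, s1, s2] g' ↔ ∃ d : Fin 3, ∀ e, e ≠ d → ltr g e = ltr g' e) ∧
  (∀ t : Grid [s3, s1, s2], g ∈ box [s3, s1, s2] g' t ↔
    ∀ d, ltr g d = ltr g' d ∨ ltr g d = ltr t d) ∧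
  (g = g' ↔ ∀ d, ltr g d = ltr g' d)

/-- **Sg** (the Latin square code).  Proof: `u = i % B / X < X` (`i % B < B ≤ X²`),
`v = i % B % X < X`, the letters minus `(i / B) X` are `u, v, (u + v) % X`, all `< X`.  If two words
agree at the two places `e ≠ d`, then `i / B` (a letter divided by `X`) and two of `u, v, (u + v) % X`
agree, so all agree, so `i % B = u X + v` and `i` agree. -/
def S_Sg : Prop := ∀ (X B i j : ℕ), 1 ≤ B → B ≤ X * X →
  (∀ d, i / B * X ≤ sgf X B i d ∧ sgf X B i d < i / B * X + X) ∧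
  ∀ d : Fin 3, (∀ e, e ≠ d → sgf X B i e = sgf X B j e) → i = j

/-- **Tg** (targets).  Proof: `a % R` and `(a % R + a / R) % R` determine `a % R` and
`a / R < R`.  `(sbm R v b + b) % R = v`. -/
def S_Tg : Prop := ∀ (A R : ℕ), 1 ≤ R →
  (∀ (a : ℕ) (d : Fin 3), A ≤ tgf A R a d ∧ tgf A R a d < A + R) ∧
  (∀ a a', a < R * R → a' < R * R → tgf A R a = tgf A R a' → a = a') ∧
  ∀ (b v : ℕ) (d : Fin 3), v < R → tgf A R (flab R b d v) d = A + v ∧
    (b + d.val) * R ≤ flab R b d v ∧ flab R b d v < (b + d.val + 1) * R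

/-- **FtL** (labels of flexible words; from `Sg`, `Tg`).  Proof: the letters `e ≠ d` are
`< 16 X` (`i / B < 16` as `i < n ≤ 16 B`) and divided by `X` give `i / B` (`X > 0` is odd), so
`lamN` is `flab`; it is `< (b0 + 3) R ≤ c` (`blc`). -/
def S_FtL : Prop := ∀ (s3 s1 s2 L c n B X R : ℕ) (b0 : ℕ → ℕ) (h : ℕ → ℕ → ℕ)
  (σ : Fin n → Grid [s3, s1, s2]) (τ : Fin c → Grid [s3, s1, s2]) (lam : Grid [s3, s1, s2] → Fin c),
  Ctx s3 s1 s2 L c n B X R b0 h σ τ lam → ∀ (i : Fin n) (d : Fin 3) (v : ℕ) (g : Grid [s3, s1, s2]),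
    (∀ e, e ≠ d → ltr g e = sgf X B i.val e) → ltr g d = 16 * X + v → v < R →
    (lam g).val = flab R (b0 (i.val / B)) d v ∧ ltr (τ (lam g)) d = 16 * X + v ∧ lam g ∈ arc L c n i

/-- **TiL** (labels of the words in `TIW`; from `Sg`).  Proof: all letters of `g` are in
`[k X, k X + X)`, and two of them are letters of `sgf X B i`, so `k = i / B < 16` and no letter is
`≥ 16 X`; `lamN = h (i / B) (idx)`, `idx < X * X`, `lam g` = this number (`hc`), in `arc i` (`hF`), outside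
of the blocks (`hb`).  Injectivity: `δ = y2 - y0 - y1`, `ε = y0 - y1` modulo `X` are equal for
`g`, `g'` (`hi`).  If `g` and `g'` are neighbours of `sgf i` changed at the same place, equal
`δ` gives the same letter.  Changed at different places: with `δ ≠ 0` the three neighbours with
this `δ` have `ε = (u - v) - δ`, `(u - v) + δ`, `(u - v)` (places `0, 1, 2`), pairwise different as `X`
is odd (`2 δ ≠ 0`); `δ = 0` would be `sgf i` itself. -/
def S_TiL : Prop := ∀ (s3 s1 s2 L c n B X R : ℕ) (b0 : ℕ → ℕ) (h : ℕ → ℕ → ℕ)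
  (σ : Fin n → Grid [s3, s1, s2]) (τ : Fin c → Grid [s3, s1, s2]) (lam : Grid [s3, s1, s2] → Fin c),
  Ctx s3 s1 s2 L c n B X R b0 h σ τ lam → ∀ (i : Fin n) (g g' : Grid [s3, s1, s2]) (d d' : Fin 3),
    (∀ e, e ≠ d → ltr g e = sgf X B i.val e) → ltr g d ≠ sgf X B i.val d →
    (∃ k, ∀ e, k * X ≤ ltr g e ∧ ltr g e < k * X + X) →
    (∀ e, e ≠ d' → ltr g' e = sgf X B i.val e) → ltr g' d' ≠ sgf X B i.val d' →
    (∃ k, ∀ e, k * X ≤ ltr g' e ∧ ltr g' e < k * X + X) →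
    lam g ∈ arc L c n i ∧
    ((lam g).val < b0 (i.val / B) * R ∨ (b0 (i.val / B) + 3) * R ≤ (lam g).val) ∧
    (lam g = lam g' → ∀ e, ltr g e = ltr g' e)

/-- **Ps1** (from `LtB`, `Sg`, `Tg`): the fields `xN`, `ss`, `tinj`, `st`, `uniq` of `PSys` for
`X = FTW ∪ TIW`, `FT = FTW`.  Proof: `xN`: by definition (a letter `≥ 16 X` is not a letter of a
special word; all letters of `σ i` are `< 16 X`).  `ss`: `Sg`.  `tinj`: `Tg` (`a < c ≤ R²`).
`st`: letters `≥ 16 X`.  `uniq`: `w` agrees with `σ i` except at `d`, with `σ j` except at `d'`.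
If `d = d'`: `i = j` by `Sg`.  If `w = σ i` or `w = σ j`: `ss`.  Otherwise the third place shows that
`i / B = j / B = k`; the letter of `w` at `d` is the one of `σ j`, so all letters of `w` are in
`[k X, k X + X)` and `w ∈ TIW`. -/
def S_Ps1 : Prop := ∀ (s3 s1 s2 L c n B X R : ℕ) (b0 : ℕ → ℕ) (h : ℕ → ℕ → ℕ)
  (σ : Fin n → Grid [s3, s1, s2]) (τ : Fin c → Grid [s3, s1, s2]) (lam : Grid [s3, s1, s2] → Fin c),
  Ctx s3 s1 s2 L c n B X R b0 h σ τ lam →
    (∀ w ∈ FTW s3 s1 s2 n B X R ∪ TIW s3 s1 s2 n B X, NS [s3, s1, s2] σ w) ∧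
    (∀ i j, σ i ∈ Ball [s3, s1, s2] (σ j) → i = j) ∧ Function.Injective τ ∧
    (∀ i a, τ a ∉ Ball [s3, s1, s2] (σ i)) ∧
    ∀ i j w, w ∈ Ball [s3, s1, s2] (σ i) → w ∈ Ball [s3, s1, s2] (σ j) →
      w ∉ FTW s3 s1 s2 n B X R ∪ TIW s3 s1 s2 n B X → i = j

/-- **Ps2** (from `LtB`, `Sg`, `Tg`, `FtL`, `TiL`): the fields `labF`, `labI`.  Proof: a word of `FTW`
in `Ball (σ i)` is `σ i` changed at one place `d` to `16 X + v` (it has exactly one letter `≥ 16 X`, the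
others are those of some `σ j`, and of `σ i`): `FtL` for `i`.  A word of `TIW` in `Ball (σ i)` is
`σ i` changed at one place (it is not a special word: `Sg`): `TiL`.  `labI`: two words of `FTW`: the
label is in the block number `b0 + d`, so the places `d` are equal, then `ltr (τ (lam w)) d` gives the
letter.  `FTW` and `TIW`: in the blocks / outside.  Two words of `TIW`: `TiL`. -/
def S_Ps2 : Prop := ∀ (s3 s1 s2 L c n B X R : ℕ) (b0 : ℕ → ℕ) (h : ℕ → ℕ → ℕ)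
  (σ : Fin n → Grid [s3, s1, s2]) (τ : Fin c → Grid [s3, s1, s2]) (lam : Grid [s3, s1, s2] → Fin c),
  Ctx s3 s1 s2 L c n B X R b0 h σ τ lam →
    (∀ i, ∀ w ∈ FTW s3 s1 s2 n B X R ∪ TIW s3 s1 s2 n B X, w ∈ Ball [s3, s1, s2] (σ i) →
      lam w ∈ arc L c n i) ∧
    ∀ i, ∀ w ∈ FTW s3 s1 s2 n B X R ∪ TIW s3 s1 s2 n B X,
      ∀ w' ∈ FTW s3 s1 s2 n B X R ∪ TIW s3 s1 s2 n B X, w ∈ Ball [s3, s1, s2] (σ i) →
      w' ∈ Ball [s3, s1, s2] (σ i) → lam w = lam w' → w = w'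

/-- **Ps4** (from `LtB`, `Sg`, `Tg`, `FtL`): the field `h4`.  Proof: `w` is a special word `sgf i`
changed at `d` to `16 X + v`, and `τ (lam w)` has the same letter at `d` (`FtL`).  Let `g` be in the
box.  At the two places `e ≠ d` the letter of `g` is the one of `w` or of `τ`.  Both of `w`:
`g = w`.  Both of `τ`: `g = τ (lam w)`.  Otherwise `g` has exactly two letters `≥ 16 X`: not a
neighbour of a special word (which has at most one), not a target (three). -/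
def S_Ps4 : Prop := ∀ (s3 s1 s2 L c n B X R : ℕ) (b0 : ℕ → ℕ) (h : ℕ → ℕ → ℕ)
  (σ : Fin n → Grid [s3, s1, s2]) (τ : Fin c → Grid [s3, s1, s2]) (lam : Grid [s3, s1, s2] → Fin c),
  Ctx s3 s1 s2 L c n B X R b0 h σ τ lam →
    ∀ w ∈ FTW s3 s1 s2 n B X R, ∀ g ∈ box [s3, s1, s2] w (τ (lam w)),
      NS [s3, s1, s2] σ g ∨ TG [s3, s1, s2] τ g → g = w ∨ g = τ (lam w)

/-- **Ps5** (from `LtB`, `Sg`, `Tg`, `FtL`): the field `h5`.  Proof: all letters of `w` are in the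
interval of one cluster, which is the one of `σ i`; `< 16 X`.  `g` in the box: if no letter is one of
`τ`, `g = w`; three: `g = τ (lam w)`; two letters `≥ 16 X`: neither neighbour nor target.  One, at
`d`: not a target; if it is a neighbour of `σ j`, the two other letters of `g` (those of `w`) are
those of `σ j`, so `j / B = i / B` and `g ∈ FTW`; `g'` = `σ i` changed at `d` to the same letter;
both labels are `flab R (b0 (i / B)) d v` (`FtL`). -/
def S_Ps5 : Prop := ∀ (s3 s1 s2 L c n B X R : ℕ) (b0 : ℕ → ℕ) (h : ℕ → ℕ → ℕ)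
  (σ : Fin n → Grid [s3, s1, s2]) (τ : Fin c → Grid [s3, s1, s2]) (lam : Grid [s3, s1, s2] → Fin c),
  Ctx s3 s1 s2 L c n B X R b0 h σ τ lam →
    ∀ i, ∀ w ∈ Ball [s3, s1, s2] (σ i), w ∈ TIW s3 s1 s2 n B X →
      ∀ g ∈ box [s3, s1, s2] w (τ (lam w)), NS [s3, s1, s2] σ g ∨ TG [s3, s1, s2] τ g →
        g = w ∨ g = τ (lam w) ∨ FTL [s3, s1, s2] σ (FTW s3 s1 s2 n B X R) lam i g

/-- **Ps7** (from `LtB`, `Sg`, `Tg`): the field `h7`.  Proof: `w` is `σ i` changed at `d` to a letter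
`x`, not in `[16 X, 16 X + R)` (`w ∉ FTW`), not in the interval of the cluster `i / B` (`w ∉ TIW`).
`g` in the box of `w` and `τ a`.  Target: all letters of `g` in `[16 X, 16 X + R)`, so all are those
of `τ a`.  Neighbour of `σ j`: at most one letter is one of `τ a` which is not one of `w`; none:
`g = w`; exactly the letter `d`: the others are those of `σ i` and of `σ j`, so `j = i`, and
`g ∈ FTW ∩ Ball (σ i)` (take `g' = g`).  Exactly the letter `e ≠ d`: the letter `x` and the third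
letter of `g` are those of `σ j`, the third one is also a letter of `σ i`, so `i / B = j / B`, and `x`
is in the interval of the cluster: contradiction. -/
def S_Ps7 : Prop := ∀ (s3 s1 s2 L c n B X R : ℕ) (b0 : ℕ → ℕ) (h : ℕ → ℕ → ℕ)
  (σ : Fin n → Grid [s3, s1, s2]) (τ : Fin c → Grid [s3, s1, s2]) (lam : Grid [s3, s1, s2] → Fin c),
  Ctx s3 s1 s2 L c n B X R b0 h σ τ lam →
    ∀ i a, ∀ w ∈ Ball [s3, s1, s2] (σ i), w ≠ σ i →
      w ∉ FTW s3 s1 s2 n B X R ∪ TIW s3 s1 s2 n B X → ∀ g ∈ box [s3, s1, s2] w (τ a),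
      NS [s3, s1, s2] σ g ∨ TG [s3, s1, s2] τ g →
        g = w ∨ g = τ a ∨ FTL [s3, s1, s2] σ (FTW s3 s1 s2 n B X R) lam i g

/-- **Ps8** (from `LtB`, `Sg`, `Tg`): the field `h8`.  Proof: `g` in the box of `σ i` and `τ a`: no
letter of `τ a`: `g = σ i`; one: `g ∈ FTW ∩ Ball (σ i)` (take `g' = g`); two: not in a ball of a special
word, not a target; three: `g = τ a`. -/
def S_Ps8 : Prop := ∀ (s3 s1 s2 L c n B X R : ℕ) (b0 : ℕ → ℕ) (h : ℕ → ℕ → ℕ)
  (σ : Fin n → Grid [s3, s1, s2]) (τ : Fin c → Grid [s3, s1, s2]) (lam : Grid [s3, s1, s2] → Fin c),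
  Ctx s3 s1 s2 L c n B X R b0 h σ τ lam →
    ∀ i a, ∀ g ∈ box [s3, s1, s2] (σ i) (τ a),
      (∃ j, g ∈ Ball [s3, s1, s2] (σ j)) ∨ TG [s3, s1, s2] τ g →
        g = σ i ∨ g = τ a ∨ FTL [s3, s1, s2] σ (FTW s3 s1 s2 n B X R) lam i g

/-- **Bx** (from `LtB`, `Sg`, `Tg`): the boxes are small.  Proof: the letters of `σ i` and `τ a` are
`< 16 X + R`; a neighbour of `σ i` has at most one other letter. -/
def S_Bx : Prop := ∀ (s3 s1 s2 L c n B X R : ℕ) (b0 : ℕ → ℕ) (h : ℕ → ℕ → ℕ)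
  (σ : Fin n → Grid [s3, s1, s2]) (τ : Fin c → Grid [s3, s1, s2]) (lam : Grid [s3, s1, s2] → Fin c),
  Ctx s3 s1 s2 L c n B X R b0 h σ τ lam →
    (∀ i a, box [s3, s1, s2] (σ i) (τ a) ⊆ Fset s3 s1 s2 (16 * X + R)) ∧
    ∀ i, ∀ g ∈ Ball [s3, s1, s2] (σ i), ∀ a,
      box [s3, s1, s2] g (τ a) ⊆ Qset s3 s1 s2 (16 * X + R)

/-- **Cx** (existence of the data; from `Sg`, `Tg`).  Proof: the words with the given letters
(`sgf` has letters `< 16 X`: `i / B < 16`; `tgf` has letters `< 16 X + R`), and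
`lam g = lamN % c`. -/
def S_Cx : Prop := ∀ (s3 s1 s2 L c n B X R : ℕ) (b0 : ℕ → ℕ) (h : ℕ → ℕ → ℕ),
  LabData L c n B X R b0 h → 1 ≤ B → B ≤ X * X → X % 2 = 1 → n ≤ 16 * B → c ≤ R * R → 1 ≤ c →
  16 * X + R ≤ s3 → 16 * X + R ≤ s1 → 16 * X + R ≤ s2 →
    ∃ (σ : Fin n → Grid [s3, s1, s2]) (τ : Fin c → Grid [s3, s1, s2])
      (lam : Grid [s3, s1, s2] → Fin c), Ctx s3 s1 s2 L c n B X R b0 h σ τ lam

/-- **PSA** (from `Ps1`, `Ps2`, `Ps4`, `Ps5`, `Ps7`, `Ps8`): assemble. -/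
def S_PSA : Prop := ∀ (s3 s1 s2 L c n B X R : ℕ) (b0 : ℕ → ℕ) (h : ℕ → ℕ → ℕ)
  (σ : Fin n → Grid [s3, s1, s2]) (τ : Fin c → Grid [s3, s1, s2]) (lam : Grid [s3, s1, s2] → Fin c),
  Ctx s3 s1 s2 L c n B X R b0 h σ τ lam →
    PSys [s3, s1, s2] n c (arc L c n) σ τ (FTW s3 s1 s2 n B X R ∪ TIW s3 s1 s2 n B X)
      (FTW s3 s1 s2 n B X R) lam

/-! ## Part IV: from label systems to linear systems -/

/-- **LabE** (extension of the labels).  Proof: for every `i` the map `lam` is injective from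
`N i ∩ X` to `F i`; extend it to a bijection `N i → F i` (equal cardinality;
`Finset.exists_equiv_extend_of_card_eq` or counting).  `lam' w = lam w` for `w ∈ X`, otherwise the
value of the bijection for the unique `i` with `w ∈ N i` (any value if there is none; `c > 0`). -/
def S_LabE : Prop := ∀ (W : Type) [Fintype W] [DecidableEq W] (n c : ℕ) (N : Fin n → Finset W)
  (F : Fin n → Finset (Fin c)) (X : Finset W) (lam : W → Fin c), (∀ i, (N i).card = (F i).card) →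
  (∀ i, ∀ w ∈ N i, w ∈ X → lam w ∈ F i) →
  (∀ i, ∀ w ∈ N i, ∀ w' ∈ N i, w ∈ X → w' ∈ X → lam w = lam w' → w = w') →
  (∀ i j w, w ∈ N i → w ∈ N j → w ∉ X → i = j) →
    ∃ lam' : W → Fin c, (∀ w ∈ X, lam' w = lam w) ∧ ∀ i, ∀ a ∈ F i, ∃ w ∈ N i, lam' w = a

/-- **BxA** (boxes and concatenation).  Proof: induction on `O`. -/
def S_BxA : Prop := ∀ (z O : List ℕ) (o o' : Grid O) (w t : Grid z) (g : Grid (O ++ z)),
  (g ∈ box (O ++ z) (app z O o w) (app z O o' t) ↔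
    firstPart z O g ∈ box O o o' ∧ lastPart z O g ∈ box z w t) ∧
  (o ∈ Ball O o' → ∀ p ∈ box O o o', p = o ∨ p = o') ∧ (∀ p ∈ box O o o, p = o) ∧
  w ∈ box z w t ∧ t ∈ box z w t

/-- **Lift** (from `LabE`, `BxA`).  Proof: `σ' i = app o (σ i)`, `τ' a = app o (τ a)`,
`FT' = app o '' FT`.  `mem_Ball_app'`: `N' i = Ball (σ' i) \ {σ' i}` consists of the `app o w`, `w` in
`Ball (σ i)`, `w ≠ σ i`, and of the `app o' (σ i)`, `o' ∈ Ball o`, `o' ≠ o`; it has `D (O ++ z) - 1 =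
card (F i)` elements (`card_Ball`).  `LabE` with `X' = app o '' X` (labels `lam (lastPart)`; a word
`app o' (σ i)` is a neighbour of no other `σ' j`: `ss`, and not in `X'`).  `h4`: a word of
the box of `app o w` and `app o (τ a)` is `app o g`, `g ∈ box w (τ a)` (`BxA`); `app o g` is in
`NS'` iff `g ∈ NS` (or ...: `app o g ∈ Ball (σ' j)` iff `g ∈ Ball (σ j)`), target iff `g` is.  `h5` for
`app o w`: `h5` (`w ∈ X`) or `h7` (`w ∉ X`).  `h5` for `app o' (σ i)`, `o' ≠ o`: the box consists of the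
`app o' g` and `app o g`, `g ∈ box (σ i) (τ a)` (`BxA`); `app o' g` is no target, and it is in `NS'` iff
`g = σ j` for some `j`, then `h8` gives `g = σ i` (`g = τ a` contradicts `st`, `g ∈ FT` contradicts
`ss`, `xN`); `app o g`: `h8` gives `g = σ i` (then `app o g = σ' i` is not in `NS'` by `ss` and not a
target by `st`) or `g = τ a` or the third case.  The last three fields: hypotheses. -/
def S_Lift : Prop := ∀ (z O : List ℕ) (o : Grid O) (n c : ℕ) (F : Fin n → Finset (Fin c))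
  (σ : Fin n → Grid z) (τ : Fin c → Grid z) (X FT : Finset (Grid z)) (lam : Grid z → Fin c)
  (Ω : Finset (Grid (O ++ z))), PSys z n c F σ τ X FT lam →
  (∀ i, (F i).card + 1 = D (O ++ z)) → 1 ≤ c → 1 ≤ n →
  (∀ i, ∀ g ∈ Ball z (σ i), ∀ a, ∀ p ∈ box z g (τ a), app z O o p ∈ Ω) →
  (∀ i a, ∀ p ∈ box z (σ i) (τ a), ∀ o' ∈ Ball O o, app z O o' p ∈ Ω) →
    ∃ lam' : Grid (O ++ z) → Fin c, LSys (O ++ z) Ω n c F (fun i => app z O o (σ i))
      (fun a => app z O o (τ a)) (FT.image fun g => app z O o g) lam'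

/-- **BoxE.**  Proof: induction on `l`. -/
def S_BoxE : Prop := ∀ (K : Type) [Field K] (l : List ℕ) (w t g : Grid l),
  E l (bpt K l w t) g = (if g ∈ box l w t then 1 else 0) ∧ w ∈ box l w t ∧ t ∈ box l w t

/-- **LS1** (from `BoxE`).  Proof: `Φ f = ∑ g, f g • v g`, `v (τ a) = e_a`; `v g = - e_(lam g)` for
`g ∈ FT`; `v g = - e_(lam g) + ∑ e_(lam g')`, the sum over the `g' ∈ FT` in `box g (τ (lam g))`, for the other
neighbours `g`; `v g = 0` otherwise.  `Φ (E (bpt g τ)) = ∑ v g'` over the box: by `h4` it is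
`v g + v τ = 0` for `g ∈ FT` (the words which are neither in `NS` nor targets have `v = 0`); by `h5` it is
`v g + v τ + ∑ v g'` (`g' ∈ FT ∩ box`) `= 0` for the others.  Last: `a ∈ F i`, `w` of `h6`; `Pi.single w 1` is
in `T (cpt (σ i)) = coordSub (Ball (σ i))` (`T_cpt`).  If `w ∈ FT`: `f = - e_w`.  Otherwise
`f = - e_w + ∑ (- e_(g''))`, `g'' ∈ FT ∩ Ball (σ i)` with `lam g'' = lam g'` (`FTL`), the sum over the `g'`. -/
def S_LS1 : Prop := ∀ (K : Type) [Field K] (l : List ℕ) (Ω : Finset (Grid l)) (n c : ℕ)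
  (F : Fin n → Finset (Fin c)) (σ : Fin n → Grid l) (τ : Fin c → Grid l) (FT : Finset (Grid l))
  (lam : Grid l → Fin c), LSys l Ω n c F σ τ FT lam →
  ∃ Φ : (Grid l → K) →ₗ[K] (Fin c → K),
    (∀ g, ¬ NS l σ g → ¬ TG l τ g → Φ (Pi.single g 1) = 0) ∧
    (∀ g, NS l σ g → Φ (E l (bpt K l g (τ (lam g)))) = 0) ∧
    ∀ i, ∀ a ∈ F i, ∃ f ∈ T l (cpt l (σ i) : Coord l → K), Φ f = Pi.single a 1

/-- **LS2** (from `BoxE`).  Proof: let `Z` be the right-hand side.  It contains `Pi.single g 1` for all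
`g ∈ Ω` which are not neighbours.  `g ∈ FT`: `Pi.single g 1 = E (bpt g τ) - ∑` over the other words of the
box, which are in `Ω` (`hbox`) and by `h4` not neighbours, so in `Z`.  Other neighbours:
the same, the other words of the box which are neighbours are in `FT` (`h5`).  A function supported
in `Ω` is a combination of the `Pi.single g 1`, `g ∈ Ω`. -/
def S_LS2 : Prop := ∀ (K : Type) [Field K] (l : List ℕ) (Ω : Finset (Grid l)) (n c : ℕ)
  (F : Fin n → Finset (Fin c)) (σ : Fin n → Grid l) (τ : Fin c → Grid l) (FT : Finset (Grid l))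
  (lam : Grid l → Fin c), LSys l Ω n c F σ τ FT lam →
  coordSub K Ω ≤ span K {f | ∃ g ∈ Ω, ¬ NS l σ g ∧ ¬ TG l τ g ∧ f = Pi.single g 1} ⊔
    span K {f | ∃ g, NS l σ g ∧ f = E l (bpt K l g (τ (lam g)))} ⊔
    span K {f | ∃ a, f = Pi.single (τ a) 1}

/-- **LSy** (from `BoxE`, `LS1`, `LS2`).  Proof: `N = Ω.card - c`, the tuples are indexed by the words
`g ∈ Ω` which are not targets: `bpt g (τ (lam g))` for neighbours (`NS ⊆ Ω` by `hball`; targets are not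
neighbours: `st`) and `cpt g` for the others, among them the `σ i` (`ss`, `st`).  They are independent:
by `LS2` their span and the `c` vectors `Pi.single (τ a) 1` span a space which contains `coordSub K Ω`, so
`finrank (span) ≥ Ω.card - c = N` (`linearIndependent_iff_card_le_finrank_span`). -/
def S_LSy : Prop := ∀ (K : Type) [Field K] (l : List ℕ) (Ω : Finset (Grid l)) (n c : ℕ)
  (F : Fin n → Finset (Fin c)) (σ : Fin n → Grid l) (τ : Fin c → Grid l) (FT : Finset (Grid l))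
  (lam : Grid l → Fin c), LSys l Ω n c F σ τ FT lam → LS K l Ω n c F

/-! ## Part V: the good set and the numbers -/

/-- **Car.**  Proof: `Fset` embeds in `(Fin A)³`; `Qset` is contained in the union of three sets (the
place `d`), each of the form (one letter arbitrary, two letters `< A`); the slice of `Qset` over
`j`: if `j < A`, the other letters `x, y` satisfy `x < A` or `y < A`; if `A ≤ j` both are `< A`. -/
def S_Car : Prop := ∀ (s3 s1 s2 A : ℕ), (Fset s3 s1 s2 A).card ≤ A ^ 3 ∧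
  (Qset s3 s1 s2 A).card ≤ A ^ 2 * (s1 + s2 + s3) ∧ Fset s3 s1 s2 A ⊆ Qset s3 s1 s2 A ∧
  ∀ j : Fin s3, (slice (l := [s1, s2]) (Qset s3 s1 s2 A) j).card ≤ A * (s1 + s2) ∧
    (A ≤ j.val → (slice (l := [s1, s2]) (Qset s3 s1 s2 A) j).card ≤ A ^ 2 ∧
      ∀ x ∈ slice (l := [s1, s2]) (Qset s3 s1 s2 A) j, x.1.val < A ∧ x.2.1.val < A)

/-- **GB** (from `Car`).  Proof: `base_flow` with `m0 = T1 = A`, `β` of `exists_split g b`
(`∑ β = b`, `g β_i ≤ b + (g - 1)`, `b + 1 ≤ g (β_i + 1)`), `nx = finRotate g` (`g ≥ 2`).  Numbers: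
`S = s1 + s2 + s3`, `s3 = A + g`, `g ≥ 4 s3 / 5`; `b ≤ s1 s2 s3 / (2 (S - 2)) + 1`, so
`β ≤ 5 s1 s2 / (8 (S - 2)) + 2.1 ≤ 0.32 s1 + 3` and `b ≤ s1 s2 / 2 + 1`.  Sides:
`A + 2 β ≤ 0.84 s1 + 6 ≤ s1`.  Bad slices: `A (s1 + s2) + b ≤ 0.9 s1 s2 + 1`.  Good slices:
`A² + β (s1 + s2) - β² + β'² + b` with `β' ≤ β + 1` or so: at most
`0.04 s1 s2 + (0.625 (s1 + s2) + 0.5 s3) s1 s2 / (S - 2) + small ≤ 0.7 s1 s2`. -/
def S_GB : Prop := ∀ (K : Type) [Field K] [Infinite K] (A g s1 s2 T b : ℕ), s1 ≤ s2 →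
  s2 ≤ A + g → 5 * A ≤ s1 → 1000 ≤ s1 → 2 * (s1 + s2 + (A + g)) ≤ T + 4 →
  b * T ≤ (A + g) * (s1 * s2) + T → Good K [A + g, s1, s2] b (Qset (A + g) s1 s2 A)

/-- **GO** (from `Car`, `GB`).  Proof: `D (O ++ z) ≥ s1 + s2 + s3 - 2` (`D_append`, `one_le_D`), so
`s1² ≥ 1600 (3 s1 - 2)`, `s1 ≥ 4000`; `5 A ≤ s1` (`25 * 55 ≤ 1600`).  `good_ind` with `Θ = 2 (L + 1)`,
`c = 1`, `w = L + 1`, `F = Fset`, `Q = Qset`: base `GB` with `T = Θ`;
`hnum`: `2 (Q + F + 2 (L + 1)) ≤ s1 s2 s3`, as `A² ≤ 55 s1² / 1600`.  `Ω.card ≤ Q + F D(O)`,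
`D(O) ≤ O.prod` (`D_le_prod`), `8 (Q + F) ≤ s1 s2 s3`. -/
def S_GO : Prop := ∀ (K : Type) [Field K] [Infinite K] (O : List ℕ) (s3 s1 s2 L A : ℕ)
  (o : Grid O), (∀ a ∈ O, 1 ≤ a) → s1 ≤ s2 → s2 ≤ s3 → D (O ++ [s3, s1, s2]) = L + 1 →
  A ^ 2 ≤ 55 * (L + 1) → 1600 * (L + 1) ≤ s1 ^ 2 →
    (∀ b, b * (2 * (L + 1)) ≤ (O ++ [s3, s1, s2]).prod + 2 * (L + 1) →
      Good K (O ++ [s3, s1, s2]) b
        (cset [s3, s1, s2] O o (Fset s3 s1 s2 A) (Qset s3 s1 s2 A))) ∧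
    4 * (cset [s3, s1, s2] O o (Fset s3 s1 s2 A) (Qset s3 s1 s2 A)).card ≤
      (O ++ [s3, s1, s2]).prod

/-- **Fin1** (from `Near`, `ArcCard`, `Lab`, `Num`, `Cx`, `PSA`, `Bx`, `Lift`, `LSy`, `GO`).
Proof: `L ≥ 14000` as in `GO`.  `X, R` of `Num`, `A = 16 X + R ≤ s1` (`A² ≤ 55 (L + 1) ≤ s1²`).  `Near`: for
`s, n, c'` put `B = s / 8 + 1` (`B ≤ L / 8 + 1 ≤ X²`, `n ≤ 2 s ≤ 16 B`, `c' < 2 L ≤ R²`); `Lab`, `Cx`,
`PSA`, `Lift` with `o` any word of `O` (nonempty: `nonempty_grid`), `Ω` = the set of `GO` (`mem_cset`,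
`Bx`, `firstPart_app`, `lastPart_app`), `LSy`.  `a = c / L - 1`: `a L ≤ c - L`,
`2 a (L + 1) ≤ 4 a L ≤ 4 c ... ` or `2 a L + 2 a ≤ 3 c ≤ P + 3 ≤ P + 2 (L + 1)` (`a ≤ c`);
`2 c + Ω.card ≤ P`: `3 c ≤ P + 3`, `4 Ω.card ≤ P`, `P ≥ 24`. -/
def S_Fin1 : Prop := ∀ (K : Type) [Field K] [Infinite K] (O : List ℕ) (s3 s1 s2 L c r : ℕ),
  (∀ a ∈ O, 1 ≤ a) → s1 ≤ s2 → s2 ≤ s3 → D (O ++ [s3, s1, s2]) = L + 1 →
  1600 * (L + 1) ≤ s1 ^ 2 → L ≤ c → 3 * c ≤ (O ++ [s3, s1, s2]).prod + 3 →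
  r + c = (O ++ [s3, s1, s2]).prod →
    (∀ s, 1 ≤ s → s ≤ L → BR K s (O ++ [s3, s1, s2]) (c * s / L) r (r * s + c * s / L * L)) ∧
    (∀ s, 1 ≤ s → s ≤ L → BR K s (O ++ [s3, s1, s2]) ((c * s + (L - 1)) / L) r
      ((O ++ [s3, s1, s2]).prod * s))

/-! ## Part VI: the unbalanced range, the theorem -/

/-- **Un1.**  Proof: `slices` with `b j = 1` for `j < r`, `0` otherwise, `C = ∅`, `M = ⊥`
(`Good K l 1 ∅`: `T_cpt`, `card_Ball`; `l.prod > 0`), and `sum_finrank_le` as in `good_step`: the slices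
`j < r` have dimension at least `min P (D l + (r - 1))`, the others at least `min P r = r`. -/
def S_Un1 : Prop := ∀ (K : Type) [Field K] [Infinite K] (l : List ℕ) (q r : ℕ), r ≤ q →
  r ≤ l.prod → 1 ≤ l.prod →
    Reach K (q :: l) r (r * min l.prod (r + (D l - 1)) + (q - r) * r)

/-- **Un2** (from `SlF`).  Proof: `SlF` with `Ω = ∅`, `s = q`, `a = 1`, `N = r - q`
(`D l + (q - 1) + (r - q) ≥ l.prod`; `Good K l 1 ∅` if `l.prod > 0`, trivial if `l.prod = 0`): the points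
`x j 0` with `z = e_j`, and `w` with any `z`; all slices are full (`sum_finrank_le`).  `q ≥ 1`. -/
def S_Un2 : Prop := ∀ (K : Type) [Field K] [Infinite K] (l : List ℕ) (q r : ℕ), 1 ≤ q → q ≤ r →
  l.prod ≤ r + (D l - 1) → Reach K (q :: l) r (q * l.prod)

/-- **Un3.**  Proof: the points `cpt` of all words: the fibres span everything (`ten_E_mem_T`,
`E_cpt`, `ten_single`; `Fintype.card (Grid l) = l.prod ≤ r`). -/
def S_Un3 : Prop := ∀ (K : Type) [Field K] (l : List ℕ) (q r : ℕ), l.prod ≤ r →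
  Reach K (q :: l) r (q * l.prod)

/-- **Lis** (from `Ind`, `Fin1`, `Un1`, `Un2`, `Un3`).  Proof: `l = O ++ [s3, s1, s2]`,
`P = l.prod`, `D (q :: l) = q + L`.  `r < min P q`: `Un1` (`P - r` and `r ≤ P`).  `P ≤ r`: `Un3`.
`q ≤ r < P`, `P ≤ r + L`: `Un2`.  `q ≤ r`, `r + L < P`: if `q < 2 L` `four_lists2` of `FourFinal2`
(`8 (L + 1) (q + L)² ≤ 72 (L + 1)³ ≤ (s1 s2 s3)²`; import it).  If `2 L ≤ q`: `Reach.all`: let `r'` be
near-critical, `r' (q + L) ≤ P q + (q + L)`, `P q ≤ r' (q + L) + (q + L)`, `c = P - r'`.  As `q + L ≤ P`: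
`c + 1 ≥ P L / (q + L) ≥ L ≥ 1`, so `r' ≤ P`.  `c ≤ P / 3 + 1`: `(r' + 1) (q + L) ≥ P q` and `2 L ≤ q`.
If `c ≥ L`: `Ind` with `Fin1` (`c ≤ r'` as `3 c ≤ P + 3`).  If `c < L`: `q ≤ r'` (as `q + L < P`, so
`q < P - L < r'`) and `Un2`. -/
def S_Lis : Prop := ∀ (K : Type) [Field K] [Infinite K] (O : List ℕ) (q s3 s1 s2 L r : ℕ),
  (2 : K) ≠ 0 → (∀ a ∈ O, 1 ≤ a) → s1 ≤ s2 → s2 ≤ s3 → s3 ≤ q →
  D (O ++ [s3, s1, s2]) = L + 1 → 1600 * (L + 1) ≤ s1 ^ 2 →
    Reach K (q :: (O ++ [s3, s1, s2])) r (dimF q (O ++ [s3, s1, s2]).prod L r)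

/-- **UpM** (matrices of rank at most `r`).  Proof: let `r ≤ card ρ`, `ρ1` a subset of `ρ` of
cardinality `r`, identified with `Fin r`; variables: `U` of size `Fin r × κ` and `V` of size
`(ρ \ ρ1) × Fin r`; `ψ` maps the variable `(a, b)` to `U (a, b)` if `a ∈ ρ1`, to `∑ j, V (a, j) U (j, b)`
otherwise.  Kernel: let `ψ p = 0`.  In the polynomial ring in the entries of `C` (`ρ × Fin r`) and
`A` (`Fin r × κ`) let `Q` be `p` at the matrix `C A`, `δ = det C1`, `C1` the rows of `C` in `ρ1`.  At every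
point with `δ ≠ 0`: `C A = (A'; B A')`, `A' = C1 A`, `B = C2 C1⁻¹`, so `Q = 0` there.  So `Q δ = 0`
(`MvPolynomial.funext`), `δ ≠ 0` (at `C1 = 1`), `Q = 0`.  Compare `upPsi_ker` in `AGUpper.lean`. -/
def S_UpM : Prop := ∀ (ρ κ : Type) [Fintype ρ] [Fintype κ] [DecidableEq ρ] [DecidableEq κ] (r : ℕ),
  r ≤ Fintype.card ρ → ∃ (υ : Type) (_ : Fintype υ)
    (ψ : MvPolynomial (ρ × κ) ℂ →ₐ[ℂ] MvPolynomial υ ℂ),
    Fintype.card υ = r * (Fintype.card κ + Fintype.card ρ - r) ∧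
    ∀ p : MvPolynomial (ρ × κ) ℂ, ψ p = 0 → ∀ (C : ρ → Fin r → ℂ) (A : Fin r → κ → ℂ),
      MvPolynomial.eval (fun m : ρ × κ => ∑ j, C m.1 j * A j m.2) p = 0

/-- **UpU** (from `UpM`).  Proof: `Idx n` is `ρ × κ`, `κ = Fin (n i + 1)`, `ρ` = multi-indices of the other
factors; a tensor of rank at most `r` is of the form `∑ j, C m.1 j * A j m.2`.  Then as in
`coneDim_le`: `trdeg_le_of_surjective`, `trdeg_le_of_injective`, `MvPolynomial.trdeg_of_isDomain`. -/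
def S_UpU : Prop := ∀ (k : ℕ) (n : Fin k → ℕ) (i : Fin k) (r : ℕ),
  r ≤ ∏ l ∈ Finset.univ.erase i, (n l + 1) →
    coneDim n r ≤ ((r * ((n i + 1) + ∏ l ∈ Finset.univ.erase i, (n l + 1) - r) : ℕ) : Cardinal)

/-- **Fam** (from `Lis`, `UpU`).  Proof: upper bound: `coneDim_le` and `UpU`.  Lower bound: as in
`four_factors2` of `FourFinal2.lean` (sort the three factors, permutation `Equ.of_perm`,
`exists_vecs`, `le_coneDim`). -/
def S_Fam : Prop := ∀ (k : ℕ) (n : Fin k → ℕ) (i : Fin k) (S : Finset (Fin k)), S.card = 3 →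
  i ∉ S → (∀ j ∈ S, n j ≤ n i) →
  (∀ j ∈ S, 1600 * (∑ l ∈ Finset.univ.erase i, n l + 1) ≤ (n j + 1) ^ 2) → ∀ r : ℕ,
    coneDim n r = ((dimF (n i + 1) (∏ l ∈ Finset.univ.erase i, (n l + 1))
      (∑ l ∈ Finset.univ.erase i, n l) r : ℕ) : Cardinal)

end Pool.Agent.Lib.MP_635d71_ag.Fr
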