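import Pool.Agent.Lib.MP_635d71_ag.Fr.BaseB
import Pool.Agent.Lib.MP_635d71_ag.Fr.Spec

/-!
# Free largest factor, many factors: statements with complete proofs

THEOREM.  `k >= 1800`, all `n_j >= 1`, `i` an index, `L = sum_{l != i} n_l`,
`(L + 1) ^ 12 <= 2 ^ k`, `P = prod_{l != i} (n_l + 1)`, `q = n_i + 1` (no bound for `n_i`).  Then for
all `r` the cone over the `r`-th secant variety has dimension `dimF q P L r`.

PLAN.  As in `Spec.lean`; the core is a label system of binary words in `16 ρ` factors: special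
words: a constant weight code of distance `6`, targets: a constant weight code on other places.
No clusters.  The label system is lifted from `u` to `(O ++ u) ++ (M ++ z)`, the good set consists of
all the words with last part in `Ball (M ++ z) w0`: `flex_top`, `flex_bot` of `FlexB.lean` (helper30).

Rules as in `Spec.lean`: module `X` is the file `Fr/X.lean`, first line: import of this file (or
of `Spec.lean`), `theorem pX : S_Y → … → S_X`.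
-/

set_option autoImplicit false

open Module Submodule

namespace Pool.Agent.Lib.MP_635d71_ag.Fr

/-! ## Part I: codes -/

/-- **LvB** (letters).  Proof: induction on `l` (`mem_Ball_cons`; for `[]` all words are equal; for
`q :: l`: `(j, g) ∈ Ball (j', g')` iff `j = j' ∧ g ∈ Ball g'` (then the place is `d + 1`) or `g = g'` (the
place `0`)). -/
def S_LvB : Prop := ∀ (l : List ℕ) (g g' : Grid l),
  (g = g' ↔ ∀ p, ltv l g p = ltv l g' p) ∧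
  (g ∈ Ball l g' ↔ ∃ d, ∀ p, p ≠ d → ltv l g p = ltv l g' p) ∧
  ∀ t, (g ∈ box l g' t ↔ ∀ p, ltv l g p = ltv l g' p ∨ ltv l g p = ltv l t p)

/-- **Wd** (binary words).  Proof: induction on `u` (generalize `f`; tail: `fun p => f (p + 1)`). -/
def S_Wd : Prop := ∀ (u : List ℕ) (f : ℕ → Bool), (∀ a ∈ u, 2 ≤ a) →
  (∀ p, u.length ≤ p → f p = false) → ∃ g : Grid u, ∀ p, ltv u g p = (f p).toNat

/-- **Cd1.**  Proof: `i`, `j` differ in a digit `b < 2 ρ` (`Nat.eq_of_testBit_eq`,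
`Nat.testBit_lt_two_pow`; `4 ^ ρ = 2 ^ (2 ρ)`).  If the digit of `i` is `0`, the three places
`b, b + 4 ρ, b + 8 ρ`, otherwise `b + 2 ρ, b + 6 ρ, b + 10 ρ` are good; one of them is neither `d` nor `e`. -/
def S_Cd1 : Prop := ∀ (ρ i j d e : ℕ), i < 4 ^ ρ → j < 4 ^ ρ → i ≠ j →
  ∃ p, p ≠ d ∧ p ≠ e ∧ p < 12 * ρ ∧ sgb ρ i p = false ∧ sgb ρ j p = true

/-- **Cd2.**  Proof: places of the supports: definition.  Weight: at the three places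
`0, 4 ρ, 8 ρ` or the three places `2 ρ, 6 ρ, 10 ρ` the letter of the special word is `1`; two of them are
different from `d`.  Last: every digit of `x = b % 2 ^ ρ` which is `1` is `1` in `a % 2 ^ ρ`, and by the complements
every digit which is `0` is `0`: `a % 2 ^ ρ = b % 2 ^ ρ`; the same for `(x + a / 2 ^ ρ) % 2 ^ ρ`, and
`a / 2 ^ ρ, b / 2 ^ ρ < 2 ^ ρ`. -/
def S_Cd2 : Prop := ∀ (ρ : ℕ), 1 ≤ ρ →
  (∀ i p, sgb ρ i p = true → p < 12 * ρ) ∧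
  (∀ a p, tgb ρ a p = true → 12 * ρ ≤ p ∧ p < 16 * ρ) ∧
  (∀ i d, ∃ p, p ≠ d ∧ sgb ρ i p = true) ∧
  ∀ a b, a < 4 ^ ρ → b < 4 ^ ρ → (∀ p, tgb ρ b p = true → tgb ρ a p = true) → a = b

/-- **Cd3** (every letter is `1` for half of a block).  Proof: `a = b 2 ^ ρ + x`: `a % 2 ^ ρ = x`,
`a / 2 ^ ρ = b`.  For a place in `[12 ρ, 13 ρ)` the set contains the `x < 2 ^ ρ` with a given digit
`1`; flipping the digit (`x ^^^ 2 ^ j`) is a bijection with the set of the others, so it has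
`2 ^ (ρ - 1)` elements; complements: the same.  For the places in `[14 ρ, 16 ρ)` the map
`x ↦ (x + b) % 2 ^ ρ` is a permutation of `range (2 ^ ρ)`. -/
def S_Cd3 : Prop := ∀ (ρ b p : ℕ), 1 ≤ ρ → 12 * ρ ≤ p → p < 16 * ρ →
  2 ^ (ρ - 1) ≤ ((Finset.range (2 ^ ρ)).filter fun x => tgb ρ (b * 2 ^ ρ + x) p = true).card

/-- **Sdr** (different representatives, greedy).  Proof: induction on the number of places. -/
def S_Sdr : Prop := ∀ (N : ℕ) (C : ℕ → Finset ℕ), (∀ d < N, N ≤ (C d).card) →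
  ∃ f : ℕ → ℕ, (∀ d < N, f d ∈ C d) ∧ ∀ d < N, ∀ e < N, f d = f e → d = e

/-- **Lam** (labels; from `Blk`, `Cd3`, `Sdr`).  Proof: `Blk` with `M = L`, `g = i c / n`, `R = 2 ^ ρ`: the
arc `i` contains the block `b0` (`[b0 R, b0 R + R)`).  `Sdr` with `N = 16 ρ` and
`C d = {a in this block | 12 ρ ≤ d → tgb ρ a d = true}`; `card ≥ 2 ^ (ρ - 1) ≥ 16 ρ` by `Cd3`. -/
def S_Lam : Prop := ∀ (L c n ρ : ℕ), 1 ≤ ρ → 1 ≤ c → L ≤ c → 7 * 2 ^ ρ ≤ L →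
  16 * ρ ≤ 2 ^ (ρ - 1) → ∃ Λ : Fin n → ℕ → Fin c, (∀ i d, d < 16 * ρ → Λ i d ∈ arc L c n i) ∧
    (∀ i d e, d < 16 * ρ → e < 16 * ρ → Λ i d = Λ i e → d = e) ∧
    ∀ i d, 12 * ρ ≤ d → d < 16 * ρ → tgb ρ (Λ i d).val d = true

/-- **Rho** (numbers).  Proof: if `2 L ≤ 4 ^ 8` take `8` (`7 * 256 = 1792`).  Otherwise the least `ρ`
with `2 L ≤ 4 ^ ρ` (`ρ ≥ 9`, `4 ^ (ρ - 1) < 2 L`, so `4 ^ ρ < 8 L` and
`7 * 2 ^ ρ * 2 ^ ρ < 56 L ≤ L * 2 ^ ρ`). -/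
def S_Rho : Prop := ∀ L : ℕ, 1792 ≤ L → ∃ ρ, 8 ≤ ρ ∧ 2 * L ≤ 4 ^ ρ ∧ 7 * 2 ^ ρ ≤ L ∧
  16 * ρ ≤ 2 ^ (ρ - 1) ∧ (ρ = 8 ∨ 4 ^ ρ ≤ 8 * L)

/-! ## Part II: the label system -/

/-- **CxB** (existence; from `LvB`, `Wd`, `Cd1`, `Cd2`).  Proof: `Wd` for `sgb`, `tgb` (zero at the places
`≥ 16 ρ = u.length`).  `lam g = Λ i d` if `FTc i d g`: `i` is unique (if `FTc i d g` and `FTc j e g`, `i ≠ j`,
a place `p ≠ d, e` of `Cd1` has different letters), then `d` is unique (`g ≠ σ i` at `d`, equal elsewhere);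
otherwise any value (`c ≥ 1`). -/
def S_CxB : Prop := ∀ (u : List ℕ) (n c ρ : ℕ) (F : Fin n → Finset (Fin c))
  (Λ : Fin n → ℕ → Fin c), (∀ a ∈ u, 2 ≤ a) → u.length = 16 * ρ → 1 ≤ ρ → n ≤ 4 ^ ρ →
  c ≤ 4 ^ ρ → 1 ≤ c → (∀ i d, d < 16 * ρ → Λ i d ∈ F i) →
  (∀ i d e, d < 16 * ρ → e < 16 * ρ → Λ i d = Λ i e → d = e) →
  (∀ i d, 12 * ρ ≤ d → d < 16 * ρ → tgb ρ (Λ i d).val d = true) →
    ∃ (σ : Fin n → Grid u) (τ : Fin c → Grid u) (lam : Grid u → Fin c),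
      CtxB u n c ρ F Λ σ τ lam

/-- **PB1** (from `LvB`, `Cd1`, `Cd2`): the fields `xN`, `ss`, `tinj`, `st`, `uniq` of `PSys` for
`X = FT = FTB`.  Proof: `xN`: definition (`g ≠ σ i`: the letters at `d` differ; in the second case
`sgb` is zero at `d ≥ 12 ρ`).  `ss`, `uniq`: if `w` agrees with `σ i` except at `d` and with `σ j` except at
`e`, `i ≠ j`: `Cd1`.  `tinj`: `Cd2`.  `st`: `Cd2` (weight; targets are zero at the places `< 12 ρ`). -/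
def S_PB1 : Prop := ∀ (u : List ℕ) (n c ρ : ℕ) (F : Fin n → Finset (Fin c))
  (Λ : Fin n → ℕ → Fin c) (σ : Fin n → Grid u) (τ : Fin c → Grid u) (lam : Grid u → Fin c),
  CtxB u n c ρ F Λ σ τ lam → (∀ w ∈ FTB u ρ σ, NS u σ w) ∧ (∀ i j, σ i ∈ Ball u (σ j) → i = j) ∧
    Function.Injective τ ∧ (∀ i a, τ a ∉ Ball u (σ i)) ∧
    ∀ i j w, w ∈ Ball u (σ i) → w ∈ Ball u (σ j) → i = j

/-- **PB2** (from `LvB`, `Cd1`, `Cd2`): the fields `labF`, `labI`.  Proof: a word `w ∈ FTB` in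
`Ball (σ i)`: `FTc j d w`, `j = i` by `Cd1`; `d < 16 ρ` (`Cd2`); `lam w = Λ i d`. -/
def S_PB2 : Prop := ∀ (u : List ℕ) (n c ρ : ℕ) (F : Fin n → Finset (Fin c))
  (Λ : Fin n → ℕ → Fin c) (σ : Fin n → Grid u) (τ : Fin c → Grid u) (lam : Grid u → Fin c),
  CtxB u n c ρ F Λ σ τ lam → (∀ i, ∀ w ∈ FTB u ρ σ, w ∈ Ball u (σ i) → lam w ∈ F i) ∧
    ∀ i, ∀ w ∈ FTB u ρ σ, ∀ w' ∈ FTB u ρ σ, w ∈ Ball u (σ i) → w' ∈ Ball u (σ i) →
      lam w = lam w' → w = w'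

/-- **PB4** (from `LvB`, `Cd1`, `Cd2`): the field `h4`.  Proof: `FTc i d w`, `λ = Λ i d`, `g` in the box
of `w` and `τ λ`.  Target `τ b`: where `tgb b` is `1` (a place `p ≥ 12 ρ`), the letter of `w` is not `1` or
`p = d`, and then `tgb λ d = 1` (`Λt`); so `tgb b ≤ tgb λ`, `b = λ` (`Cd2`).  Neighbour of `σ j`
(equal except at `e`): if `j ≠ i` take `p ≠ d, e` of `Cd1`: the letter of `g` at `p` is `1`, but those of
`w` and `τ λ` are `0`.  So `j = i`, and at `d` the letters of `w` and of `τ λ` are equal and different from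
the one of `σ i`, so `e = d` and `g = w`. -/
def S_PB4 : Prop := ∀ (u : List ℕ) (n c ρ : ℕ) (F : Fin n → Finset (Fin c))
  (Λ : Fin n → ℕ → Fin c) (σ : Fin n → Grid u) (τ : Fin c → Grid u) (lam : Grid u → Fin c),
  CtxB u n c ρ F Λ σ τ lam → ∀ w ∈ FTB u ρ σ, ∀ g ∈ box u w (τ (lam w)),
    NS u σ g ∨ TG u τ g → g = w ∨ g = τ (lam w)

/-- **PB7** (from `LvB`, `Cd1`, `Cd2`): the field `h7`.  Proof: `w` agrees with `σ i` except at `d`; as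
`w ∉ FTB`, the letter `x` of `w` at `d` is not `0` if `σ i` has `1`, and not `1` if `12 ρ ≤ d < 16 ρ`.
`g` in the box of `w`, `τ a`.  Target `τ b`: where `tgb b` is `1`, `w` does not have the letter `1`
(`p ≥ 12 ρ`; at `p = d` by the second condition), so `tgb a` is `1`: `b = a` (`Cd2`).  Neighbour of `σ j`
(except at `e`): `j = i` by `Cd1` (a place `p ≠ d, e`).  If `e = d`: the letter of `g` at `d` is `x`
(then `g = w`) or the one of `τ a`, different from the one of `σ i`: `g ∈ FTB`, `FTL` with `g' = g`.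
If `e ≠ d`: the letter of `g` at `e` is not the one of `σ i`, so it is the one of `τ a`: `g ∈ FTB`. -/
def S_PB7 : Prop := ∀ (u : List ℕ) (n c ρ : ℕ) (F : Fin n → Finset (Fin c))
  (Λ : Fin n → ℕ → Fin c) (σ : Fin n → Grid u) (τ : Fin c → Grid u) (lam : Grid u → Fin c),
  CtxB u n c ρ F Λ σ τ lam → ∀ i a, ∀ w ∈ Ball u (σ i), w ≠ σ i → w ∉ FTB u ρ σ →
    ∀ g ∈ box u w (τ a), NS u σ g ∨ TG u τ g → g = w ∨ g = τ a ∨ FTL u σ (FTB u ρ σ) lam i g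

/-- **PB8** (from `LvB`, `Cd1`, `Cd2`): the field `h8`.  Proof: as `PB7`. -/
def S_PB8 : Prop := ∀ (u : List ℕ) (n c ρ : ℕ) (F : Fin n → Finset (Fin c))
  (Λ : Fin n → ℕ → Fin c) (σ : Fin n → Grid u) (τ : Fin c → Grid u) (lam : Grid u → Fin c),
  CtxB u n c ρ F Λ σ τ lam → ∀ i a, ∀ g ∈ box u (σ i) (τ a),
    (∃ j, g ∈ Ball u (σ j)) ∨ TG u τ g → g = σ i ∨ g = τ a ∨ FTL u σ (FTB u ρ σ) lam i g

/-- **PSB** (from `PB1`, `PB2`, `PB4`, `PB7`, `PB8`): assemble (`h5` is empty). -/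
def S_PSB : Prop := ∀ (u : List ℕ) (n c ρ : ℕ) (F : Fin n → Finset (Fin c))
  (Λ : Fin n → ℕ → Fin c) (σ : Fin n → Grid u) (τ : Fin c → Grid u) (lam : Grid u → Fin c),
  CtxB u n c ρ F Λ σ τ lam → PSys u n c F σ τ (FTB u ρ σ) (FTB u ρ σ) lam

/-- **PLL** (from `BxA`).  Proof: `app o w ∈ Ball (app o v)` iff `w ∈ Ball v`; `app o' v' ∈ Ball (app o v)`
with `o' ≠ o` iff `o' ∈ Ball o` and `v' = v` (`mem_Ball_app'`, `eq_app_iff`).  Boxes of words `app o w`,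
`app o t`: `app o g`, `g ∈ box w t`.  `uniq`: word `app o' g`: `o' = o`: `uniq`; `o' ≠ o`: `g = σ i = σ j`.
`h7` for `app o' (σ i)`, `o' ≠ o`: the box consists of the `app o' g`, `app o g`, `g ∈ box (σ i) (τ a)`
(`BxA`); `app o' g` is a neighbour only if `g = σ j`: `h8` gives `g = σ i`; `app o g`: `h8`.  Compare the proof of
`Lift` in `Spec.lean`. -/
def S_PLL : Prop := ∀ (z O : List ℕ) (o : Grid O) (n c : ℕ) (F : Fin n → Finset (Fin c))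
  (σ : Fin n → Grid z) (τ : Fin c → Grid z) (X FT : Finset (Grid z)) (lam : Grid z → Fin c),
  PSys z n c F σ τ X FT lam → PSys (O ++ z) n c F (fun i => app z O o (σ i))
    (fun a => app z O o (τ a)) (X.image fun g => app z O o g) (FT.image fun g => app z O o g)
    (fun g => lam (lastPart z O g))

/-- **PLR** (from `BxA`).  Proof: as `PLL`, with the two parts interchanged. -/
def S_PLR : Prop := ∀ (z l : List ℕ) (w : Grid z) (n c : ℕ) (F : Fin n → Finset (Fin c))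
  (σ : Fin n → Grid l) (τ : Fin c → Grid l) (X FT : Finset (Grid l)) (lam : Grid l → Fin c),
  PSys l n c F σ τ X FT lam → PSys (l ++ z) n c F (fun i => app z l (σ i) w)
    (fun a => app z l (τ a) w) (X.image fun g => app z l g w) (FT.image fun g => app z l g w)
    (fun g => lam (firstPart z l g))

/-! ## Part III: the good set, the theorem -/

/-- **GoB.**  Proof: `flex_top` with `W = Ball (M ++ z) w` (`card_Ball_le`), base: `flex_bot`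
(as in `reach_closeB` of `MainB.lean`).  Cardinality: `card_le_of_lastPart`, `card_Ball`,
`four_D_le`. -/
def S_GoB : Prop := ∀ (K : Type) [Field K] [Infinite K] (T M z : List ℕ) (w : Grid (M ++ z))
  (Δ : ℕ), (∀ a ∈ T, 1 ≤ a) → (∀ a ∈ M, 1 ≤ a) → D (T ++ (M ++ z)) ≤ Δ → 2 * D (M ++ z) ≤ Δ →
  (2 * Δ + 1) * (2 * D (M ++ z) + 1) ≤ (M ++ z).prod → 4 * D z ≤ z.prod →
  (∀ b v C, C ⊆ Ball z v → (b - 1) * (2 * Δ + 1) ≤ 2 * z.prod → Good K z b C) →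
    (∀ b, (b - 1) * (2 * Δ + 1) ≤ 2 * (T ++ (M ++ z)).prod → Good K (T ++ (M ++ z)) b
      (Finset.univ.filter fun g => lastPart (M ++ z) T g ∈ Ball (M ++ z) w)) ∧
    4 * (Finset.univ.filter fun g => lastPart (M ++ z) T g ∈ Ball (M ++ z) w).card ≤
      (T ++ (M ++ z)).prod

/-- **FinB** (from `Near`, `ArcCard`, `Lam`, `Rho`, `CxB`, `PSB`, `PLL`, `PLR`, `Lift`, `LSy`, `BxA`, `GoB`).
Proof: `l = (O ++ u) ++ (M ++ z)`, `Δ = L + 1`.  `Near`: for `s, n, c'`: `Lam` (`F = arc L c' n`), `CxB`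
(`n ≤ 2 s ≤ 2 L ≤ 4 ^ ρ`, `c' < 2 L`), `PSB`, `PLL` (any word `o` of `O`), `PLR` (any word `w` of `M ++ z`),
`Lift` with `O := []` (`[] ++ l` is `l`, `app l [] () g` is `g`) and `Ω` = the set of `GoB`: a
word of a box of `g ∈ Ball (σ' i)` and `τ' a` has its last part in `box v w ⊆ {v, w}`, `v ∈ Ball w` (`BxA`); `LSy`.
Numbers: `a = c / L - 1`, `(a - 1) (2 L + 3) ≤ 2 a L + 3 a ≤ 3 c ≤ P + 3 ≤ 2 P`; `2 c + Ω.card ≤ P`
(`3 c ≤ P + 3`, `4 Ω.card ≤ P`, `P ≥ 24`). -/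
def S_FinB : Prop := ∀ (K : Type) [Field K] [Infinite K] (O u M z : List ℕ) (L ρ c r : ℕ),
  (∀ a ∈ O, 1 ≤ a) → (∀ a ∈ u, 2 ≤ a) → (∀ a ∈ M, 1 ≤ a) → (∀ a ∈ z, 1 ≤ a) →
  u.length = 16 * ρ → 1 ≤ ρ → 2 * L ≤ 4 ^ ρ → 7 * 2 ^ ρ ≤ L → 16 * ρ ≤ 2 ^ (ρ - 1) →
  D ((O ++ u) ++ (M ++ z)) = L + 1 → 2 * D (M ++ z) ≤ L + 1 →
  (2 * (L + 1) + 1) * (2 * D (M ++ z) + 1) ≤ (M ++ z).prod → 4 * D z ≤ z.prod →
  (∀ b v C, C ⊆ Ball z v → (b - 1) * (2 * (L + 1) + 1) ≤ 2 * z.prod → Good K z b C) →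
  L ≤ c → 3 * c ≤ ((O ++ u) ++ (M ++ z)).prod + 3 → r + c = ((O ++ u) ++ (M ++ z)).prod →
    (∀ s, 1 ≤ s → s ≤ L → BR K s ((O ++ u) ++ (M ++ z)) (c * s / L) r (r * s + c * s / L * L)) ∧
    (∀ s, 1 ≤ s → s ≤ L → BR K s ((O ++ u) ++ (M ++ z)) ((c * s + (L - 1)) / L) r
      (((O ++ u) ++ (M ++ z)).prod * s))

/-- **SelB** (selection of the last factors).  Proof: the proof of `lists_final` (`Lists.lean`), `core`,
`core_aux` (`Core.lean`) with `q = 2`, `S = Y`, `O = []` (`δ = Δ = D Y`; the hypothesis is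
`2 * Δ ^ 2 * Δ ^ 6 ≤ Y.prod`), up to the call of `finish`: `top = u = (v1 + 2) :: … :: (R' ++ T)`.  Copy
these three proofs, the conclusion replaced by this statement. -/
def S_SelB : Prop := ∀ (K : Type) [Field K] [Infinite K] (Y : List ℕ), (∀ a ∈ Y, 2 ≤ a) →
  2 * D Y ^ 8 ≤ Y.prod → ∃ top M z : List ℕ, Y.Perm (top ++ (M ++ z)) ∧
    2 * D (M ++ z) ≤ D Y ∧ 3 * D Y ^ 2 ≤ (M ++ z).prod ∧ (M ++ z).prod ≤ D Y ^ 3 ∧
    4 * D z ≤ z.prod ∧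
    ∀ b v C, C ⊆ Ball z v → (b - 1) * (2 * D Y + 1) ≤ 2 * z.prod → Good K z b C

/-- **Rch** (from `Ind`, `Un1`, `Un2`, `Un3`): the last step, for any list.  Proof: see `Lis` in
`Spec.lean`: `r < min P q`: `Un1`; `P ≤ r`: `Un3`; `P ≤ r + L`: `Un2`; otherwise `q + L < P`; `q < 2 L`:
hypothesis; `2 L ≤ q`: `Reach.all`, for near-critical `r'` with `c = P - r'`: `c < L`: `Un2`; `L ≤ c`:
`Ind`. -/
def S_Rch : Prop := ∀ (K : Type) [Field K] [Infinite K] (l : List ℕ) (q L r : ℕ), 1 ≤ q →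
  1 ≤ L → D l = L + 1 → (q < 2 * L → Reach K (q :: l) r (min (r * (q + L)) (l.prod * q))) →
  (∀ c r', L ≤ c → 3 * c ≤ l.prod + 3 → r' + c = l.prod →
    (∀ s, 1 ≤ s → s ≤ L → BR K s l (c * s / L) r' (r' * s + c * s / L * L)) ∧
    (∀ s, 1 ≤ s → s ≤ L → BR K s l ((c * s + (L - 1)) / L) r' (l.prod * s))) →
    Reach K (q :: l) r (dimF q l.prod L r)

/-- **LisB** (from `Rch`, `Rho`, `FinB`, `SelB`).  Proof: `k = Y.length + 1`, `Δ = D Y = L + 1`,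
`Y.length ≤ L` and `2 ^ (k - 1) ≤ Y.prod` (entries `≥ 2`).  `L ≥ 1799`.  `2 Δ ^ 8 ≤ 2 ^ (k-1)` (`4 ≤ Δ`,
`Δ ^ 12 ≤ 2 ^ k`): `SelB`.  `top.length ≥ 16 ρ`: `2 ^ ((M ++ z).length) ≤ Δ ^ 3`, so
`4 (M ++ z).length ≤ k`; `Rho`: `ρ = 8` or `2 ^ (2 ρ) ≤ 8 L`, `2 ^ (24 ρ) ≤ 8 ^ 12 * Δ ^ 12 ≤ 2 ^ (k + 36)`, so
`16 ρ ≤ 2 (k + 36) / 3`; `k / 4 + 2 (k + 36) / 3 + 1 ≤ k`.  `u` = the first `16 ρ` entries of `top`, `O` = the
others.  `Y.Perm ((O ++ u) ++ (M ++ z))`; `Rch` for this list (`Reach.of_equ`, `Equ.of_perm` for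
`q :: …`), case `q < 2 L`: `lists_final` with `S = Y`, `O = []` (`q Δ ^ 8 ≤ 2 Δ ^ 9 ≤ Y.prod`; `2 ≤ q`), near-critical:
`FinB` (`(2 Δ + 1) (2 D (M ++ z) + 1) ≤ (2 Δ + 1) (Δ + 1) ≤ 3 Δ ^ 2`). -/
def S_LisB : Prop := ∀ (K : Type) [Field K] [Infinite K] (q : ℕ) (Y : List ℕ) (r : ℕ),
  2 ≤ q → (∀ a ∈ Y, 2 ≤ a) → 1800 ≤ Y.length + 1 → D Y ^ 12 ≤ 2 ^ (Y.length + 1) →
    Reach K (q :: Y) r (dimF q Y.prod (D Y - 1) r)

/-- **FamB** (from `LisB`, `UpU`).  Proof: as `Fam`; lists and permutations as in `balanced`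
(`FinalK.lean`). -/
def S_FamB : Prop := ∀ (k : ℕ) (n : Fin k → ℕ) (i : Fin k), 1800 ≤ k → (∀ j, 1 ≤ n j) →
  (∑ l ∈ Finset.univ.erase i, n l + 1) ^ 12 ≤ 2 ^ k → ∀ r : ℕ,
    coneDim n r = ((dimF (n i + 1) (∏ l ∈ Finset.univ.erase i, (n l + 1))
      (∑ l ∈ Finset.univ.erase i, n l) r : ℕ) : Cardinal)

/-- **CorB** (from `Fam`, `FamB`): the product of `m` copies of `P^n` and of `P^p`, for all `p`.  Proof: the
family is `Fin.cons p (fun _ => n)`.  (1) `1800 ≤ m` and `(m n + 1) ^ 12 ≤ 2 ^ (m + 1)`: `FamB`, `i = 0`.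
(2) Otherwise `1600 m ≤ n + 1` (`1800 ≤ m` and `2 ^ (m + 1) < (m n + 1) ^ 12` imply it:
`(1600 m ^ 2) ^ 12 ≤ 2 ^ (m + 1)`); so `1600 (m n + 1) ≤ (n + 1) ^ 2`.  `n ≤ p`: `Fam` with `i = 0`, `S` three
other indices.  `p < n`: `Fam` with `i = 1`, `S` three others of the `n`; the result is
`dimF (n + 1) ((n + 1) ^ (m - 1) * (p + 1)) ((m - 1) * n + p) r`; both values of `dimF` are
`min (r (m n + p + 1)) ((n + 1) ^ m (p + 1))`, as `dimF q P L r = min (r (q + L)) (P q)` if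
`q + L ≤ P` (`r < q`: `L ≤ P - r`, `r (q + L) ≤ q P`). -/
def S_CorB : Prop := ∀ (m n p r : ℕ), 1 ≤ n → 1 ≤ p → (1800 ≤ m ∨ (4 ≤ m ∧ 1600 * m ≤ n + 1)) →
  coneDim (k := m + 1) (Fin.cons p (fun _ : Fin m => n) : Fin (m + 1) → ℕ) r =
    ((dimF (p + 1) ((n + 1) ^ m) (m * n) r : ℕ) : Cardinal)

end Pool.Agent.Lib.MP_635d71_ag.Fr
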