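import Pool.Agent.Lib.MP_635d71_ag.Fr.Spec

/-!
# Free largest factor: Vandermonde vectors (`S_Van`)
-/

set_option autoImplicit false

open Module Submodule

namespace Pool.Agent.Lib.MP_635d71_ag.Fr

namespace VanAux

variable {K : Type} [Field K]

/-- `z ↦ zf a z` as a linear map -/
def zfL (K : Type) [Field K] (s c : ℕ) (a : Fin c) : (Fin s → K) →ₗ[K] (Fin c × Fin s → K) where
  toFun := zf a
  map_add' := fun x y => by
    ext p
    by_cases h : p.1 = a
    · simp [zf, h]
    · simp [zf, h]
  map_smul' := fun r x => by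
    ext p
    by_cases h : p.1 = a
    · simp [zf, h]
    · simp [zf, h]

/-- Vandermonde vectors are linearly independent. -/
theorem li {s d : ℕ} (hd : d ≤ s) (u : Fin d → K) (hu : Function.Injective u) :
    LinearIndependent K (fun i : Fin d => (fun j : Fin s => u i ^ (j : ℕ))) := by
  have h1 : LinearIndependent K (Matrix.vandermonde u).row :=
    Matrix.linearIndependent_rows_of_det_ne_zero (Matrix.det_vandermonde_ne_zero_iff.2 hu)
  refine LinearIndependent.of_comp (LinearMap.funLeft K K (Fin.castLE hd)) ?_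
  have h2 : (LinearMap.funLeft K K (Fin.castLE hd)) ∘
      (fun i : Fin d => (fun j : Fin s => u i ^ (j : ℕ))) = (Matrix.vandermonde u).row := by
    funext i j
    rfl
  rw [h2]
  exact h1

/-- The dimension of a span of Vandermonde vectors. -/
theorem le_finrank (s n : ℕ) (t : Fin n → K) (ht : Function.Injective t) (I : Finset (Fin n)) :
    min s I.card ≤
      finrank K ↥(span K {f | ∃ i ∈ I, f = fun j : Fin s => t i ^ (j : ℕ)}) := by
  obtain ⟨J, hJ, hJc⟩ := Finset.exists_subset_card_eq (min_le_right s I.card)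
  let e := (J.orderIsoOfFin hJc)
  have hinj : Function.Injective (fun k : Fin (min s I.card) => t (e k).1) := fun x y hxy =>
    e.injective (Subtype.ext (ht hxy))
  have h1 := li (K := K) (min_le_left s I.card) _ hinj
  have h2 := finrank_span_eq_card h1
  rw [Fintype.card_fin] at h2
  rw [← h2]
  refine Submodule.finrank_mono (span_mono ?_)
  rintro f ⟨k, rfl⟩
  exact ⟨(e k).1, hJ (e k).2, rfl⟩

end VanAux

theorem pVan : S_Van := by
  intro K _ s n c t F ht
  refine (Finset.sum_le_sum fun a _ =>
    VanAux.le_finrank s n t ht (Finset.univ.filter fun i => a ∈ F i)).trans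
      (sum_finrank_le _ (fun a => span K {f | ∃ i ∈ Finset.univ.filter fun i => a ∈ F i,
        f = fun j : Fin s => t i ^ (j : ℕ)}) ?_)
  intro a g hg
  refine ⟨zf a g, ?_, ?_, ?_⟩
  · have h1 : span K {f | ∃ i ∈ Finset.univ.filter fun i => a ∈ F i,
        f = fun j : Fin s => t i ^ (j : ℕ)} ≤
        (⨆ i, span K {f | ∃ a ∈ F i, f = zf a (fun j : Fin s => t i ^ (j : ℕ))}).comap
          (VanAux.zfL K s c a) := by
      rw [span_le]
      rintro f ⟨i, hi, rfl⟩
      rw [Finset.mem_filter] at hi
      exact Submodule.mem_iSup_of_mem i (subset_span ⟨a, hi.2, rfl⟩)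
    exact h1 hg
  · intro a' ha' j
    change (if a' = a then g j else 0) = 0
    rw [if_neg (ne_of_lt ha')]
  · intro j
    change (if a = a then g j else 0) = g j
    rw [if_pos rfl]

end Pool.Agent.Lib.MP_635d71_ag.Fr
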